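import Mathlib

set_option autoImplicit false

/-! Cover systems, chains and their surgery. -/

namespace Pool.Agent.LS60

open Relation

/-- An abstract system of weights `I → ℤ` with a cover relation (Bruhat order on an orbit). -/
structure CovSys (I : Type) where
  /-- labels of reflections -/
  R : Type
  /-- the root as a weight -/
  rt : R → I → ℤ
  /-- pairing with the coroot -/
  pr : (I → ℤ) → R → ℤ
  /-- simple roots -/
  simple : I → R
  /-- simple reflections acting on labels -/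
  sref : I → R → R
  /-- admissible weights -/
  good : (I → ℤ) → Prop
  /-- covers, labelled -/
  Cov : (I → ℤ) → (I → ℤ) → R → Prop
  /-- length -/
  len : (I → ℤ) → ℕ
  pr_simple : ∀ μ i, pr μ (simple i) = μ i
  rt_simple : ∀ i, rt (simple i) i = 2
  cov_eq : ∀ {μ ν β}, Cov μ ν β → ν = μ - pr μ β • rt β
  cov_neg : ∀ {μ ν β}, Cov μ ν β → pr μ β < 0
  cov_good : ∀ {μ ν β}, Cov μ ν β → good ν
  cov_len : ∀ {μ ν β}, Cov μ ν β → len μ = len ν + 1
  good_s : ∀ {μ} i, good μ → good (μ - μ i • rt (simple i))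
  fin_cov : ∀ μ, good μ → {ν | ∃ β, Cov μ ν β}.Finite
  pr_s : ∀ μ i β, pr (μ - μ i • rt (simple i)) (sref i β) = pr μ β
  A1 : ∀ {μ} i, good μ → μ i < 0 → Cov μ (μ - μ i • rt (simple i)) (simple i)
  A2 : ∀ {μ ν β} i, Cov μ ν β → β ≠ simple i → μ i < 0 →
    ν i < 0 ∧ Cov (μ - μ i • rt (simple i)) (ν - ν i • rt (simple i)) (sref i β)
  A3 : ∀ {μ ν β} i, Cov μ ν β → β ≠ simple i → 0 < ν i →
    0 < μ i ∧ Cov (μ - μ i • rt (simple i)) (ν - ν i • rt (simple i)) (sref i β)

namespace CovSys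

variable {I : Type} (C : CovSys I)

/-- simple reflection on weights -/
def s (i : I) (μ : I → ℤ) : I → ℤ := μ - μ i • C.rt (C.simple i)

/-- simple root as a weight -/
def al (i : I) : I → ℤ := C.rt (C.simple i)

lemma s_def (i : I) (μ : I → ℤ) : C.s i μ = μ - μ i • C.al i := rfl

lemma s_apply (i : I) (μ : I → ℤ) (j : I) : C.s i μ j = μ j - μ i * C.al i j := by
  simp [s_def]

lemma al_self (i : I) : C.al i i = 2 := C.rt_simple i

lemma s_self (i : I) (μ : I → ℤ) : C.s i μ i = - μ i := by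
  rw [s_apply, al_self]; ring

lemma s_s (i : I) (μ : I → ℤ) : C.s i (C.s i μ) = μ := by
  funext j
  rw [s_apply, s_self, s_apply]
  ring

/-- One cover step, with the divisibility condition at time `j / N`. -/
def Step (N j : ℕ) (μ ν : I → ℤ) : Prop :=
  ∃ β, C.Cov μ ν β ∧ (N : ℤ) ∣ j * C.pr μ β

/-- Chains of covers with the divisibility condition at time `j / N`. -/
def Ch (N j : ℕ) : (I → ℤ) → (I → ℤ) → Prop := ReflTransGen (C.Step N j)

variable {C}

lemma Ch.mono_zero {N j : ℕ} {μ ν : I → ℤ} (h : C.Ch N j μ ν) : C.Ch N 0 μ ν := by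
  induction h with
  | refl => exact ReflTransGen.refl
  | tail _ hs ih =>
    obtain ⟨β, hβ, _⟩ := hs
    exact ih.tail ⟨β, hβ, by simp⟩

lemma Ch.refl {N j : ℕ} {μ : I → ℤ} : C.Ch N j μ μ := ReflTransGen.refl

lemma Ch.trans {N j : ℕ} {μ ν κ : I → ℤ} (h : C.Ch N j μ ν) (h' : C.Ch N j ν κ) :
    C.Ch N j μ κ := ReflTransGen.trans h h'

lemma Ch.good {N j : ℕ} {μ ν : I → ℤ} (hμ : C.good μ) (h : C.Ch N j μ ν) : C.good ν := by
  induction h with
  | refl => exact hμ
  | tail _ hs _ =>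
    obtain ⟨β, hβ, _⟩ := hs
    exact C.cov_good hβ

lemma Step.cong {N j : ℕ} {μ ν : I → ℤ} (h : C.Step N j μ ν) (i : I) :
    (N : ℤ) ∣ j * (μ i - ν i) := by
  obtain ⟨β, hβ, hd⟩ := h
  have : μ i - ν i = C.pr μ β * C.rt β i := by
    rw [C.cov_eq hβ]
    simp
  rw [this, ← mul_assoc]
  exact Dvd.dvd.mul_right hd _

lemma Ch.cong {N j : ℕ} {μ ν : I → ℤ} (h : C.Ch N j μ ν) (i : I) :
    (N : ℤ) ∣ j * (μ i - ν i) := by
  induction h with
  | refl => simp
  | tail _ hs ih =>
    have := hs.cong i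
    have h2 := dvd_add ih this
    rw [← mul_add] at h2
    rwa [sub_add_sub_cancel] at h2

/-- Simple step down. -/
lemma step_simple {N j : ℕ} {μ : I → ℤ} (i : I) (hg : C.good μ) (hμ : μ i < 0)
    (hd : (N : ℤ) ∣ j * μ i) : C.Step N j μ (C.s i μ) :=
  ⟨C.simple i, C.A1 i hg hμ, by rw [C.pr_simple]; exact hd⟩

/-- Surgery 1: if the chain goes from `μ` with `μ i ≤ 0` to `ν` with `0 < ν i`, then there is a
chain from `μ` to `s i ν`. -/
lemma Ch.sur1 {N j : ℕ} {μ ν : I → ℤ} (i : I) (h : C.Ch N j μ ν) (hμ : μ i ≤ 0) (hν : 0 < ν i) :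
    C.Ch N j μ (C.s i ν) := by
  induction h with
  | refl => omega
  | tail hc hs ih =>
    rename_i κ ν
    obtain ⟨β, hβ, hd⟩ := hs
    by_cases hb : β = C.simple i
    · subst hb
      have h1 := C.cov_eq hβ
      rw [C.pr_simple] at h1
      have h2 : C.s i ν = κ := by
        have : ν = C.s i κ := h1
        rw [this, s_s]
      rw [h2]
      exact hc
    · obtain ⟨h1, h2⟩ := C.A3 i hβ hb hν
      refine (ih h1).tail ⟨C.sref i β, h2, ?_⟩
      have := C.pr_s κ i β
      rw [show C.s i κ = κ - κ i • C.rt (C.simple i) from rfl, this]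
      exact hd

/-- Surgery 2: if the chain goes from `μ` with `μ i < 0` to `ν` with `0 ≤ ν i`, then there is a
chain from `s i μ` to `ν`. -/
lemma Ch.sur2 {N j : ℕ} {μ ν : I → ℤ} (i : I) (h : C.Ch N j μ ν) (hμ : μ i < 0) (hν : 0 ≤ ν i) :
    C.Ch N j (C.s i μ) ν := by
  induction h using ReflTransGen.head_induction_on with
  | refl => omega
  | head hs hc ih =>
    rename_i μ κ
    obtain ⟨β, hβ, hd⟩ := hs
    by_cases hb : β = C.simple i
    · subst hb
      have h1 := C.cov_eq hβ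
      rw [C.pr_simple] at h1
      have h2 : C.s i μ = κ := h1.symm
      rw [h2]
      exact hc
    · obtain ⟨h1, h2⟩ := C.A2 i hβ hb hμ
      refine (ih h1).head ⟨C.sref i β, h2, ?_⟩
      have := C.pr_s μ i β
      rw [show C.s i μ = μ - μ i • C.rt (C.simple i) from rfl, this]
      exact hd

/-- Surgery 3, negative side. -/
lemma Ch.sur3n {N j : ℕ} {μ ν : I → ℤ} (i : I) (h : C.Ch N j μ ν) (hμ : μ i < 0)
    (hd : ¬ (N : ℤ) ∣ j * μ i) : ν i < 0 ∧ C.Ch N j (C.s i μ) (C.s i ν) := by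
  induction h using ReflTransGen.head_induction_on with
  | refl => exact ⟨hμ, Ch.refl⟩
  | head hs hc ih =>
    rename_i μ κ
    have hcong := hs.cong i
    obtain ⟨β, hβ, hd'⟩ := hs
    by_cases hb : β = C.simple i
    · subst hb
      rw [C.pr_simple] at hd'
      exact absurd hd' hd
    · obtain ⟨h1, h2⟩ := C.A2 i hβ hb hμ
      have h3 : ¬ (N : ℤ) ∣ j * κ i := by
        intro h3
        apply hd
        have := dvd_add hcong h3
        rwa [← mul_add, sub_add_cancel] at this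
      obtain ⟨h4, h5⟩ := ih h1 h3
      refine ⟨h4, h5.head ⟨C.sref i β, h2, ?_⟩⟩
      have := C.pr_s μ i β
      rw [show C.s i μ = μ - μ i • C.rt (C.simple i) from rfl, this]
      exact hd'

/-- Surgery 3, positive side. -/
lemma Ch.sur3p {N j : ℕ} {μ ν : I → ℤ} (i : I) (h : C.Ch N j μ ν) (hν : 0 < ν i)
    (hd : ¬ (N : ℤ) ∣ j * ν i) : 0 < μ i ∧ C.Ch N j (C.s i μ) (C.s i ν) := by
  induction h with
  | refl => exact ⟨hν, Ch.refl⟩
  | tail hc hs ih =>
    rename_i κ ν
    have hcong := hs.cong i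
    obtain ⟨β, hβ, hd'⟩ := hs
    have h3 : ¬ (N : ℤ) ∣ j * κ i := by
      intro h3
      apply hd
      have := dvd_sub h3 hcong
      rwa [← mul_sub, sub_sub_cancel] at this
    by_cases hb : β = C.simple i
    · subst hb
      rw [C.pr_simple] at hd'
      exact absurd hd' h3
    · obtain ⟨h1, h2⟩ := C.A3 i hβ hb hν
      obtain ⟨h4, h5⟩ := ih h1 h3
      refine ⟨h4, h5.tail ⟨C.sref i β, h2, ?_⟩⟩
      have := C.pr_s κ i β
      rw [show C.s i κ = κ - κ i • C.rt (C.simple i) from rfl, this]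
      exact hd'

/-- Every chain decreases the length; the set of weights below a good weight is finite. -/
lemma finite_below (N : ℕ) : ∀ (n : ℕ) (μ : I → ℤ), C.good μ → C.len μ = n →
    {ν | C.Ch N 0 μ ν}.Finite := by
  intro n
  induction n using Nat.strong_induction_on with
  | _ n ih =>
    intro μ hg hn
    have h1 : {ν | C.Ch N 0 μ ν} ⊆ {μ} ∪ ⋃ κ ∈ {κ | ∃ β, C.Cov μ κ β}, {ν | C.Ch N 0 κ ν} := by
      intro ν hν
      rcases ReflTransGen.cases_head hν with h | ⟨κ, ⟨β, hβ, _⟩, h⟩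
      · left; exact h.symm
      · right
        exact Set.mem_biUnion (x := κ) ⟨β, hβ⟩ h
    refine Set.Finite.subset ?_ h1
    refine (Set.finite_singleton μ).union ?_
    refine Set.Finite.biUnion (C.fin_cov μ hg) ?_
    rintro κ ⟨β, hβ⟩
    have := C.cov_len hβ
    exact ih (C.len κ) (by omega) κ (C.cov_good hβ) rfl

end CovSys

end Pool.Agent.LS60
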