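import Pool.Agent.LS60.Path

set_option autoImplicit false

/-! Strings of root operators and sums over paths. -/

namespace Pool.Agent.LS60

open Finset

section abstractString

variable {α M : Type*} [AddCommMonoid M] [DecidableEq α] {X : Finset α} {r : ℕ} {e f : α → α}
  {ε φ : α → ℕ}

lemma iter_f (hf : ∀ x ∈ X, 0 < φ x → f x ∈ X ∧ ε (f x) = ε x + 1 ∧ φ (f x) + 1 = φ x ∧
      e (f x) = x) (x : α) (hx : x ∈ X) (k : ℕ) (hk : k ≤ φ x) :
    f^[k] x ∈ X ∧ ε (f^[k] x) = ε x + k ∧ φ (f^[k] x) + k = φ x ∧ e^[k] (f^[k] x) = x := by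
  induction k with
  | zero => exact ⟨hx, rfl, rfl, rfl⟩
  | succ k ih =>
    obtain ⟨h1, h2, h3, h4⟩ := ih (by omega)
    obtain ⟨h5, h6, h7, h8⟩ := hf _ h1 (by omega)
    rw [Function.iterate_succ_apply' f]
    refine ⟨h5, by omega, by omega, ?_⟩
    rw [Function.iterate_succ_apply e, h8, h4]

lemma iter_e (he : ∀ x ∈ X, r < ε x → e x ∈ X ∧ ε (e x) + 1 = ε x ∧ φ (e x) = φ x + 1 ∧
      f (e x) = x) (x : α) (hx : x ∈ X) (k : ℕ) (hk : r + k ≤ ε x) :
    e^[k] x ∈ X ∧ ε (e^[k] x) + k = ε x ∧ φ (e^[k] x) = φ x + k ∧ f^[k] (e^[k] x) = x := by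
  induction k with
  | zero => exact ⟨hx, rfl, rfl, rfl⟩
  | succ k ih =>
    obtain ⟨h1, h2, h3, h4⟩ := ih (by omega)
    obtain ⟨h5, h6, h7, h8⟩ := he _ h1 (by omega)
    rw [Function.iterate_succ_apply' e]
    refine ⟨h5, by omega, by omega, ?_⟩
    rw [Function.iterate_succ_apply f, h8, h4]

lemma string_sum (hε : ∀ x ∈ X, r ≤ ε x)
    (hf : ∀ x ∈ X, 0 < φ x → f x ∈ X ∧ ε (f x) = ε x + 1 ∧ φ (f x) + 1 = φ x ∧ e (f x) = x)
    (he : ∀ x ∈ X, r < ε x → e x ∈ X ∧ ε (e x) + 1 = ε x ∧ φ (e x) = φ x + 1 ∧ f (e x) = x)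
    (G : α → M) :
    ∑ x ∈ X, G x = ∑ x ∈ X.filter (fun x => ε x = r), ∑ k ∈ range (φ x + 1), G (f^[k] x) := by
  rw [Finset.sum_sigma']
  refine Finset.sum_bij' (fun x _ => ⟨e^[ε x - r] x, ε x - r⟩) (fun p _ => f^[p.2] p.1)
    ?_ ?_ ?_ ?_ ?_
  · intro x hx
    have h1 := hε x hx
    obtain ⟨h2, h3, h4, h5⟩ := iter_e he x hx (ε x - r) (by omega)
    simp only [mem_sigma, mem_filter, mem_range]
    exact ⟨⟨h2, by omega⟩, by omega⟩
  · rintro ⟨x, k⟩ hx
    simp only [mem_sigma, mem_filter, mem_range] at hx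
    obtain ⟨⟨hx, h1⟩, h2⟩ := hx
    exact (iter_f hf x hx k (by omega)).1
  · intro x hx
    have h1 := hε x hx
    exact (iter_e he x hx (ε x - r) (by omega)).2.2.2
  · rintro ⟨x, k⟩ hx
    simp only [mem_sigma, mem_filter, mem_range] at hx
    obtain ⟨⟨hx, h1⟩, h2⟩ := hx
    obtain ⟨h3, h4, h5, h6⟩ := iter_f hf x hx k (by omega)
    have h7 : ε (f^[k] x) - r = k := by omega
    simp only [h7, h6]
  · intro x hx
    have h1 := hε x hx
    dsimp only
    rw [(iter_e he x hx (ε x - r) (by omega)).2.2.2]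

end abstractString

namespace CovSys

variable {I : Type} {C : CovSys I}

/-- weight (endpoint) of a discretised path -/
def wt (N : ℕ) (d : ℕ → I → ℤ) : I → ℤ := fun k => Hs (co k d) N / N

lemma IsPath.dvd_end {N : ℕ} {T : I → ℤ} {d : ℕ → I → ℤ} (h : C.IsPath N T d)
    (hN : C.NGood N T) (k : I) : (N : ℤ) ∣ Hs (co k d) N := (h.seqOK hN k).dvd_end

lemma IsPath.wt_mul {N : ℕ} {T : I → ℤ} {d : ℕ → I → ℤ} (h : C.IsPath N T d)
    (hN : C.NGood N T) (k : I) : (N : ℤ) * wt N d k = Hs (co k d) N :=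
  Int.mul_ediv_cancel' (h.dvd_end hN k)

lemma finite_paths (N : ℕ) (T : I → ℤ) (hg : C.good T) : {d | C.IsPath N T d}.Finite := by
  classical
  have hS := C.finite_below N (C.len T) T hg rfl
  have h1 : (Set.univ.pi fun _ : Fin N => {ν | C.Ch N 0 T ν}).Finite :=
    Set.Finite.pi fun _ => hS
  refine Set.Finite.of_finite_image (f := fun d (l : Fin N) => d (l + 1)) ?_ ?_
  · refine h1.subset ?_
    rintro _ ⟨d, hd, rfl⟩
    intro l _
    exact hd.reach _ (by omega) (by omega)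
  · intro d hd d' hd' heq
    funext l
    by_cases hl : l = 0 ∨ N < l
    · rw [hd.zero l hl, hd'.zero l hl]
    · push Not at hl
      have := congrFun heq ⟨l - 1, by omega⟩
      simp only at this
      rwa [show l - 1 + 1 = l by omega] at this

/-- the finite set of paths -/
noncomputable def PF (N : ℕ) {T : I → ℤ} (hg : C.good T) : Finset (ℕ → I → ℤ) :=
  (finite_paths (C := C) N T hg).toFinset

lemma mem_PF {N : ℕ} {T : I → ℤ} {hg : C.good T} {d : ℕ → I → ℤ} :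
    d ∈ C.PF N hg ↔ C.IsPath N T d := by
  unfold PF
  rw [Set.Finite.mem_toFinset]
  rfl

/-- `ε i` -/
noncomputable def eps (N : ℕ) (i : I) (d : ℕ → I → ℤ) : ℕ := (-(mnH N (co i d)) / N).toNat

/-- `φ i` -/
noncomputable def phi (N : ℕ) (i : I) (d : ℕ → I → ℤ) : ℕ :=
  ((Hs (co i d) N - mnH N (co i d)) / N).toNat

section

variable {N : ℕ} {T : I → ℤ} {d : ℕ → I → ℤ}

lemma IsPath.dvd_mn (h : C.IsPath N T d) (hN : C.NGood N T) (i : I) :
    (N : ℤ) ∣ mnH N (co i d) := by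
  obtain ⟨a, h1, h2, h3, h4⟩ := exists_last N (co i d)
  rw [← h2]
  exact (h.seqOK hN i).dvd_of_min h1 h3

lemma IsPath.eps_mul (h : C.IsPath N T d) (hN : C.NGood N T) (hN0 : 0 < N) (i : I) :
    (N : ℤ) * eps N i d = - mnH N (co i d) := by
  unfold eps
  have h1 := mnH_nonpos N (co i d)
  have hN' : (0 : ℤ) < N := by omega
  rw [Int.toNat_of_nonneg (Int.ediv_nonneg (by omega) hN'.le)]
  exact Int.mul_ediv_cancel' ((dvd_neg).2 (h.dvd_mn hN i))

lemma IsPath.phi_mul (h : C.IsPath N T d) (hN : C.NGood N T) (hN0 : 0 < N) (i : I) :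
    (N : ℤ) * phi N i d = Hs (co i d) N - mnH N (co i d) := by
  unfold phi
  have h1 := mnH_le (N := N) (c := co i d) le_rfl
  have hN' : (0 : ℤ) < N := by omega
  rw [Int.toNat_of_nonneg (Int.ediv_nonneg (by omega) hN'.le)]
  exact Int.mul_ediv_cancel' (dvd_sub (h.dvd_end hN i) (h.dvd_mn hN i))

lemma IsPath.wt_self (h : C.IsPath N T d) (hN : C.NGood N T) (hN0 : 0 < N) (i : I) :
    wt N d i = phi N i d - eps N i d := by
  have h1 := h.phi_mul hN hN0 i
  have h2 := h.eps_mul hN hN0 i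
  have h3 := h.wt_mul hN i
  have h4 : (N : ℤ) * wt N d i = N * (phi N i d - eps N i d) := by
    rw [mul_sub, h1, h2, h3]; ring
  exact mul_left_cancel₀ (by omega) h4

lemma IsPath.exists_FWin (h : C.IsPath N T d) (hN : C.NGood N T) (hN0 : 0 < N) (i : I)
    (hp : 0 < phi N i d) : ∃ a b, FWin N (co i d) a b := by
  obtain ⟨a, h1, h2, h3, h4⟩ := exists_last N (co i d)
  have h5 := h.phi_mul hN hN0 i
  have h6 : (0 : ℤ) < N * phi N i d := by positivity
  have h7 : a < N := by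
    rcases Nat.eq_or_lt_of_le h1 with h7 | h7
    · rw [h7] at h2
      omega
    · exact h7
  obtain ⟨b, hb⟩ := (h.seqOK hN i).exists_F h7 h3 h4
  exact ⟨a, b, hb⟩

lemma IsPath.exists_EWin (h : C.IsPath N T d) (hN : C.NGood N T) (hN0 : 0 < N) (i : I)
    (hp : 0 < eps N i d) : ∃ a b, EWin N (co i d) a b := by
  obtain ⟨b, h1, h2, h3, h4⟩ := exists_first N (co i d)
  have h5 := h.eps_mul hN hN0 i
  have h6 : (0 : ℤ) < N * eps N i d := by positivity
  have h7 : 0 < b := by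
    rcases Nat.eq_zero_or_pos b with h7 | h7
    · rw [h7, Hs_zero] at h2
      omega
    · exact h7
  obtain ⟨a, ha⟩ := (h.seqOK hN i).exists_E h7 h1 h3 h4
  exact ⟨a, b, ha⟩

end

open Classical in
/-- lowering operator -/
noncomputable def fo (C : CovSys I) (N : ℕ) (i : I) (d : ℕ → I → ℤ) : ℕ → I → ℤ :=
  if h : ∃ p : ℕ × ℕ, FWin N (co i d) p.1 p.2 then C.flip i h.choose.1 h.choose.2 d else d

open Classical in
/-- raising operator -/
noncomputable def eo (C : CovSys I) (N : ℕ) (i : I) (d : ℕ → I → ℤ) : ℕ → I → ℤ :=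
  if h : ∃ p : ℕ × ℕ, EWin N (co i d) p.1 p.2 then C.flip i h.choose.1 h.choose.2 d else d

lemma fo_eq {N : ℕ} {i : I} {d : ℕ → I → ℤ} {a b : ℕ} (h : FWin N (co i d) a b) :
    C.fo N i d = C.flip i a b d := by
  unfold fo
  have hex : ∃ p : ℕ × ℕ, FWin N (co i d) p.1 p.2 := ⟨(a, b), h⟩
  rw [dif_pos hex]
  obtain ⟨h1, h2⟩ := hex.choose_spec.unique h
  rw [h1, h2]

lemma eo_eq {N : ℕ} {i : I} {d : ℕ → I → ℤ} {a b : ℕ} (h : EWin N (co i d) a b) :
    C.eo N i d = C.flip i a b d := by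
  unfold eo
  have hex : ∃ p : ℕ × ℕ, EWin N (co i d) p.1 p.2 := ⟨(a, b), h⟩
  rw [dif_pos hex]
  obtain ⟨h1, h2⟩ := hex.choose_spec.unique h
  rw [h1, h2]

section

variable {N : ℕ} {T : I → ℤ} {d : ℕ → I → ℤ} {i : I} {a b : ℕ}

lemma eo_flip_of_FWin (h : FWin N (co i d) a b) : C.eo N i (C.flip i a b d) = d := by
  have h1 : EWin N (co i (C.flip i a b d)) a b := by
    rw [co_flip]; exact h.toE
  rw [eo_eq h1, flip_flip]

lemma fo_flip_of_EWin (h : EWin N (co i d) a b) : C.fo N i (C.flip i a b d) = d := by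
  have h1 : FWin N (co i (C.flip i a b d)) a b := by
    rw [co_flip]; exact h.toF
  rw [fo_eq h1, flip_flip]

lemma mnH_flip_of_FWin (h : FWin N (co i d) a b) :
    mnH N (co i (C.flip i a b d)) = mnH N (co i d) - N := by
  have hab := h.ab
  have hbN := h.bN
  rw [co_flip, mnH_eq h.bN h.toE.mn, flipc_mid h.ab.le _ _ h.ab.le le_rfl, h.hb,
    mnH_eq (j := a) (by omega) h.mn]
  ring

lemma mnH_flip_of_EWin (h : EWin N (co i d) a b) :
    mnH N (co i (C.flip i a b d)) = mnH N (co i d) + N := by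
  have hab := h.ab
  have hbN := h.bN
  rw [co_flip, mnH_eq (j := a) (by omega) h.toF.mn, flipc_low h.ab.le _ _ le_rfl, h.ha,
    mnH_eq h.bN h.mn]

lemma end_flip_of_FWin (h : FWin N (co i d) a b) (k : I) :
    Hs (co k (C.flip i a b d)) N = Hs (co k d) N - N * C.al i k := by
  have hab := h.ab
  have hbN := h.bN
  rw [Hs_flip i k h.ab.le, min_eq_right h.bN, min_eq_right (by omega : a ≤ N), h.hb]
  ring

lemma end_flip_of_EWin (h : EWin N (co i d) a b) (k : I) :
    Hs (co k (C.flip i a b d)) N = Hs (co k d) N + N * C.al i k := by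
  have hab := h.ab
  have hbN := h.bN
  rw [Hs_flip i k h.ab.le, min_eq_right h.bN, min_eq_right (by omega : a ≤ N), h.ha]
  ring

/-- all properties of one lowering step -/
lemma step_F (h : C.IsPath N T d) (hN : C.NGood N T) (hN0 : 0 < N)
    (hw : FWin N (co i d) a b) (h' : C.IsPath N T (C.flip i a b d)) :
    eps N i (C.flip i a b d) = eps N i d + 1 ∧ phi N i (C.flip i a b d) + 1 = phi N i d ∧
    wt N (C.flip i a b d) = wt N d - C.al i := by
  have hNz : (N : ℤ) ≠ 0 := by omega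
  refine ⟨?_, ?_, ?_⟩
  · have h1 := h'.eps_mul hN hN0 i
    rw [mnH_flip_of_FWin hw] at h1
    have h2 := h.eps_mul hN hN0 i
    have h3 : (N : ℤ) * (eps N i (C.flip i a b d) : ℤ) = N * ((eps N i d : ℤ) + 1) := by
      rw [h1, mul_add, h2]; ring
    have := mul_left_cancel₀ hNz h3
    omega
  · have h1 := h'.phi_mul hN hN0 i
    rw [mnH_flip_of_FWin hw, end_flip_of_FWin hw, C.al_self] at h1
    have h2 := h.phi_mul hN hN0 i
    have h3 : (N : ℤ) * ((phi N i (C.flip i a b d) : ℤ) + 1) = N * (phi N i d : ℤ) := by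
      rw [mul_add, h1, h2]; ring
    have := mul_left_cancel₀ hNz h3
    omega
  · funext k
    have h1 := h'.wt_mul hN k
    have h2 := h.wt_mul hN k
    rw [end_flip_of_FWin hw] at h1
    have h3 : (N : ℤ) * wt N (C.flip i a b d) k = N * (wt N d k - C.al i k) := by
      rw [h1, mul_sub, h2]
    exact mul_left_cancel₀ hNz h3

/-- all properties of one raising step -/
lemma step_E (h : C.IsPath N T d) (hN : C.NGood N T) (hN0 : 0 < N)
    (hw : EWin N (co i d) a b) (h' : C.IsPath N T (C.flip i a b d)) :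
    eps N i (C.flip i a b d) + 1 = eps N i d ∧ phi N i (C.flip i a b d) = phi N i d + 1 ∧
    wt N (C.flip i a b d) = wt N d + C.al i := by
  have hNz : (N : ℤ) ≠ 0 := by omega
  refine ⟨?_, ?_, ?_⟩
  · have h1 := h'.eps_mul hN hN0 i
    rw [mnH_flip_of_EWin hw] at h1
    have h2 := h.eps_mul hN hN0 i
    have h3 : (N : ℤ) * ((eps N i (C.flip i a b d) : ℤ) + 1) = N * (eps N i d : ℤ) := by
      rw [mul_add, h1, h2]; ring
    have := mul_left_cancel₀ hNz h3
    omega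
  · have h1 := h'.phi_mul hN hN0 i
    rw [mnH_flip_of_EWin hw, end_flip_of_EWin hw, C.al_self] at h1
    have h2 := h.phi_mul hN hN0 i
    have h3 : (N : ℤ) * (phi N i (C.flip i a b d) : ℤ) = N * ((phi N i d : ℤ) + 1) := by
      rw [mul_add, h1, h2]; ring
    have := mul_left_cancel₀ hNz h3
    omega
  · funext k
    have h1 := h'.wt_mul hN k
    have h2 := h.wt_mul hN k
    rw [end_flip_of_EWin hw] at h1
    have h3 : (N : ℤ) * wt N (C.flip i a b d) k = N * (wt N d k + C.al i k) := by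
      rw [h1, mul_add, h2]
    exact mul_left_cancel₀ hNz h3

end

section sums

variable {N : ℕ} {T : I → ℤ}

/-- A finite set of paths which is a union of truncated `i`-strings. -/
structure StrSet (C : CovSys I) (N : ℕ) (T : I → ℤ) (i : I) (r : ℕ)
    (X : Finset (ℕ → I → ℤ)) : Prop where
  path : ∀ x ∈ X, C.IsPath N T x
  eps_ge : ∀ x ∈ X, r ≤ eps N i x
  stF : ∀ x ∈ X, ∀ a b, FWin N (co i x) a b → C.flip i a b x ∈ X
  stE : ∀ x ∈ X, r < eps N i x → ∀ a b, EWin N (co i x) a b → C.flip i a b x ∈ X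

variable {M : Type*} [AddCommMonoid M] {i : I} {r : ℕ} {X : Finset (ℕ → I → ℤ)}

lemma StrSet.hf (hX : StrSet C N T i r X) (hN : C.NGood N T) (hN0 : 0 < N) :
    ∀ x ∈ X, 0 < phi N i x → C.fo N i x ∈ X ∧ eps N i (C.fo N i x) = eps N i x + 1 ∧
      phi N i (C.fo N i x) + 1 = phi N i x ∧ C.eo N i (C.fo N i x) = x := by
  intro x hx hp
  obtain ⟨a, b, hw⟩ := (hX.path x hx).exists_FWin hN hN0 i hp
  have h1 := hX.stF x hx a b hw
  obtain ⟨h2, h3, h4⟩ := step_F (hX.path x hx) hN hN0 hw (hX.path _ h1)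
  rw [fo_eq hw]
  exact ⟨h1, h2, h3, eo_flip_of_FWin hw⟩

lemma StrSet.he (hX : StrSet C N T i r X) (hN : C.NGood N T) (hN0 : 0 < N) :
    ∀ x ∈ X, r < eps N i x → C.eo N i x ∈ X ∧ eps N i (C.eo N i x) + 1 = eps N i x ∧
      phi N i (C.eo N i x) = phi N i x + 1 ∧ C.fo N i (C.eo N i x) = x := by
  intro x hx hp
  obtain ⟨a, b, hw⟩ := (hX.path x hx).exists_EWin hN hN0 i (by omega)
  have h1 := hX.stE x hx hp a b hw
  obtain ⟨h2, h3, h4⟩ := step_E (hX.path x hx) hN hN0 hw (hX.path _ h1)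
  rw [eo_eq hw]
  exact ⟨h1, h2, h3, fo_flip_of_EWin hw⟩

lemma StrSet.wt_iter (hX : StrSet C N T i r X) (hN : C.NGood N T) (hN0 : 0 < N)
    (x : ℕ → I → ℤ) (hx : x ∈ X) (k : ℕ) (hk : k ≤ phi N i x) :
    wt N ((C.fo N i)^[k] x) = wt N x - (k : ℤ) • C.al i := by
  classical
  induction k with
  | zero => simp
  | succ k ih =>
    have h1 := ih (by omega)
    obtain ⟨h2, h3, h4, h5⟩ := iter_f (hX.hf hN hN0) x hx k (by omega)
    rw [Function.iterate_succ_apply']
    obtain ⟨a, b, hw⟩ := (hX.path _ h2).exists_FWin hN hN0 i (by omega)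
    have h6 := hX.stF _ h2 a b hw
    obtain ⟨h7, h8, h9⟩ := step_F (hX.path _ h2) hN hN0 hw (hX.path _ h6)
    rw [fo_eq hw, h9, h1]
    funext j
    simp only [Pi.sub_apply, Pi.smul_apply, smul_eq_mul]
    push_cast
    ring

/-- the string sum formula -/
lemma StrSet.sum (hX : StrSet C N T i r X) (hN : C.NGood N T) (hN0 : 0 < N)
    (G : (I → ℤ) → M) :
    ∑ x ∈ X, G (wt N x) = ∑ x ∈ X.filter (fun x => eps N i x = r),
      ∑ k ∈ range (phi N i x + 1), G (wt N x - (k : ℤ) • C.al i) := by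
  classical
  rw [string_sum hX.eps_ge (hX.hf hN hN0) (hX.he hN hN0) (fun x => G (wt N x))]
  refine Finset.sum_congr (by congr) ?_
  intro x hx
  rw [mem_filter] at hx
  refine Finset.sum_congr rfl ?_
  intro k hk
  rw [mem_range] at hk
  rw [hX.wt_iter hN hN0 x hx.1 k (by omega)]

/-- reflection of the string sum -/
lemma StrSet.sum_refl (hX : StrSet C N T i r X) (hN : C.NGood N T) (hN0 : 0 < N)
    (G : (I → ℤ) → M) :
    ∑ x ∈ X, G (wt N x) = ∑ x ∈ X, G (C.s i (wt N x) - (r : ℤ) • C.al i) := by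
  rw [hX.sum hN hN0 G, hX.sum hN hN0 (fun μ => G (C.s i μ - (r : ℤ) • C.al i))]
  refine Finset.sum_congr rfl ?_
  intro x hx
  rw [mem_filter] at hx
  have h1 := (hX.path x hx.1).wt_self hN hN0 i
  rw [hx.2] at h1
  rw [← Finset.sum_range_reflect]
  refine Finset.sum_congr rfl ?_
  intro k hk
  rw [mem_range] at hk
  congr 1
  funext j
  simp only [Pi.sub_apply, Pi.smul_apply, smul_eq_mul, C.s_apply, h1, C.al_self]
  have h2 : ((phi N i x + 1 - 1 - k : ℕ) : ℤ) = phi N i x - k := by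
    omega
  rw [h2]
  ring

end sums

end CovSys

end Pool.Agent.LS60
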