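import Mathlib

set_option autoImplicit false

/-! Definitions: Demazure characters, simple root data, quantum dimensions. -/

namespace Pool.Agent.LS60

open Finset

section demazure

variable {I : Type}

/-- The Demazure operator with simple root `a` and index `i` applied to `e^μ`:
`e^μ + e^(μ - a) + ... + e^(μ - n a)` if `n = μ i ≥ 0`, zero if `n = -1`, and
`- (e^(μ + a) + ... + e^(μ + (- n - 1) a))` if `n ≤ -2`. -/
noncomputable def demOne (a : I → ℤ) (i : I) (μ : I → ℤ) : (I → ℤ) →₀ ℤ :=
  if 0 ≤ μ i then ∑ k ∈ range ((μ i).toNat + 1), Finsupp.single (μ - (k : ℤ) • a) 1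
  else - ∑ k ∈ range (-μ i - 1).toNat, Finsupp.single (μ + ((k : ℤ) + 1) • a) 1

/-- The Demazure operator, extended linearly to formal characters. -/
noncomputable def dem (a : I → ℤ) (i : I) (f : (I → ℤ) →₀ ℤ) : (I → ℤ) →₀ ℤ :=
  Finsupp.linearCombination ℤ (demOne a i) f

/-- `IsDem al μ f`: `f` is the Demazure character with extremal weight `μ`, for the
simple roots `al` (weights are given by their values on the simple coroots). -/
inductive IsDem (al : I → I → ℤ) : (I → ℤ) → ((I → ℤ) →₀ ℤ) → Prop
  | base (Λ : I → ℤ) (h : ∀ i, 0 ≤ Λ i) : IsDem al Λ (Finsupp.single Λ 1)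
  | step (μ : I → ℤ) (f : (I → ℤ) →₀ ℤ) (i : I) (h : IsDem al μ f) (hi : 0 < μ i) :
      IsDem al (μ - μ i • al i) (dem (al i) i f)

end demazure

section finiteType

variable {I : Type} [Fintype I] [DecidableEq I]

/-- The roots, in coordinates with respect to the simple roots: the orbit of the simple roots
under the simple reflections `α ↦ α - ⟨α, α_i^∨⟩ α_i`, with `A i j = ⟨α_j, α_i^∨⟩`. -/
inductive IsRoot (A : I → I → ℤ) : (I → ℤ) → Prop
  | simple (i : I) : IsRoot A (Pi.single i 1)
  | refl (i : I) (α : I → ℤ) (h : IsRoot A α) :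
      IsRoot A (α - (∑ j, A i j * α j) • Pi.single i 1)

/-- Cartan data of a simple Lie algebra: the Cartan matrix `A i j = ⟨α_j, α_i^∨⟩`,
the highest root `θ`, and the numbers `t i = 2 / (α_i | α_i)` for the invariant form
with `(θ | θ) = 2`, so that `(α_i | α_j) = A i j / t i`. -/
structure SimpleData (I : Type) [Fintype I] [DecidableEq I] where
  A : I → I → ℤ
  t : I → ℕ
  d : ℕ
  θ : I → ℤ
  A_diag : ∀ i, A i i = 2
  A_off : ∀ i j, i ≠ j → A i j ≤ 0
  d_mem : d = 1 ∨ d = 2 ∨ d = 3
  t_mem : ∀ i, t i = 1 ∨ t i = d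
  symm : ∀ i j, (t j : ℤ) * A i j = t i * A j i
  posdef : ∀ x : I → ℝ, x ≠ 0 → 0 < ∑ i, ∑ j, x i * x j * (A i j / t i)
  root_θ : IsRoot A θ
  le_θ : ∀ α, IsRoot A α → α ≤ θ
  norm_θ : ∑ i, ∑ j, (θ i : ℝ) * θ j * (A i j / t i) = 2

namespace SimpleData

variable (D : SimpleData I)

/-- The coroot of the highest root, in coordinates with respect to the simple coroots. -/
def cθ (j : I) : ℤ := D.θ j / D.t j

/-- The dual Coxeter number. -/
def hv : ℤ := 1 + ∑ j, D.cθ j

/-- The affine weight (modulo the imaginary root) of level `l` with finite part `μ`;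
the index `none` is the affine node. -/
def aff (l : ℤ) (μ : I → ℤ) : Option I → ℤ
  | some j => μ j
  | none => l - ∑ j, D.cθ j * μ j

/-- The simple roots of the untwisted affine algebra, modulo the imaginary root:
`α_i` for a node `i` of the finite diagram and `- θ` for the affine node. -/
def affRoot : Option I → Option I → ℤ
  | some i => D.aff 0 (fun j => D.A j i)
  | none => D.aff 0 (fun j => - ∑ i, D.A j i * D.θ i)

/-- Positive roots. -/
def posRoots : Set (I → ℤ) := {α | IsRoot D.A α ∧ 0 ≤ α}

/-- The invariant form `(x | α)` of a weight `x` (in the basis of fundamental weights) with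
an element `α` of the root lattice (in the basis of simple roots). -/
noncomputable def ip (x α : I → ℤ) : ℝ := ∑ j, (x j : ℝ) * α j / D.t j

/-- The quantum dimension at level `k` of the irreducible module `V(lam)`. -/
noncomputable def qdimV (k : ℕ) (lam : I → ℕ) : ℝ :=
  ∏ᶠ α ∈ D.posRoots,
    Real.sin (Real.pi * D.ip (fun j => (lam j : ℤ) + 1) α / (k + D.hv)) /
      Real.sin (Real.pi * D.ip (fun _ => 1) α / (k + D.hv))

/-- The quantum dimension at level `k`, extended additively to the representation ring, that is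
the free abelian group on the classes `[V(lam)]`. -/
noncomputable def qdim (k : ℕ) (x : (I → ℕ) →₀ ℤ) : ℝ :=
  x.sum fun lam c => (c : ℝ) * D.qdimV k lam

/-- Simple reflections on weights. -/
noncomputable def srefl (i : I) : (I → ℤ) ≃ₗ[ℤ] (I → ℤ) :=
  Module.reflection (x := fun j => D.A j i) (f := LinearMap.proj i) (by simp [D.A_diag])

/-- The finite Weyl group acting on weights. -/
noncomputable def weyl : Subgroup ((I → ℤ) ≃ₗ[ℤ] (I → ℤ)) :=
  Subgroup.closure (Set.range D.srefl)

/-- The alternating sum of the exponentials `e^(w x)` over the Weyl group. -/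
noncomputable def altSum (x : I → ℤ) : (I → ℤ) →₀ ℤ :=
  ∑ᶠ w : D.weyl, LinearMap.det (w.1 : (I → ℤ) →ₗ[ℤ] (I → ℤ)) • Finsupp.single (w.1 x) 1

/-- `HasChar x f`: the element `x` of the representation ring has character `f`, by the
Weyl character formula `(∑ det(w) e^(w ρ)) f = ∑ x_lam ∑ det(w) e^(w (lam + ρ))`. -/
def HasChar (x : (I → ℕ) →₀ ℤ) (f : (I → ℤ) →₀ ℤ) : Prop :=
  ∑ᶠ w : D.weyl, LinearMap.det (w.1 : (I → ℤ) →ₗ[ℤ] (I → ℤ)) •
      Finsupp.mapDomain (fun μ => μ + w.1 (fun _ => 1)) f =
    x.sum fun lam c => c • D.altSum (fun j => (lam j : ℤ) + 1)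

/-- `IsKR i l x`: `x` is the class in the representation ring of the restriction of the
Kirillov-Reshetikhin module attached to `(i, m)` with `m = t_i l`, in the description of its
character as the Demazure character of level `l` whose extremal weight is the lowest weight
of `V(m ω_i)`. -/
def IsKR (i : I) (l : ℕ) (x : (I → ℕ) →₀ ℤ) : Prop :=
  ∃ w ∈ D.weyl, ∃ f, (∀ j, w (Pi.single i ((D.t i : ℤ) * l)) j ≤ 0) ∧
    IsDem D.affRoot (D.aff l (w (Pi.single i ((D.t i : ℤ) * l)))) f ∧
    D.HasChar x (Finsupp.mapDomain (fun μ j => μ (some j)) f)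

end SimpleData

end finiteType

end Pool.Agent.LS60
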