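import Pool.Agent.LS60.Defs

set_option autoImplicit false

/-! Demazure operators on formal characters. -/

namespace Pool.Agent.LS60

open Finset

variable {I : Type}

variable {M : Type*} [AddCommGroup M]

/-- pairing of a formal character with a function -/
noncomputable def pair (f : (I → ℤ) →₀ ℤ) (G : (I → ℤ) → M) : M :=
  Finsupp.linearCombination ℤ G f

/-- dual Demazure operator -/
def Dst (a : I → ℤ) (i : I) (G : (I → ℤ) → M) (μ : I → ℤ) : M :=
  if 0 ≤ μ i then ∑ k ∈ range ((μ i).toNat + 1), G (μ - (k : ℤ) • a)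
  else - ∑ k ∈ range (-μ i - 1).toNat, G (μ + ((k : ℤ) + 1) • a)

lemma pair_single (μ : I → ℤ) (c : ℤ) (G : (I → ℤ) → M) :
    pair (Finsupp.single μ c) G = c • G μ := by
  simp [pair]

lemma pair_add (f g : (I → ℤ) →₀ ℤ) (G : (I → ℤ) → M) :
    pair (f + g) G = pair f G + pair g G := by
  simp [pair]

lemma pair_zero (G : (I → ℤ) → M) : pair (0 : (I → ℤ) →₀ ℤ) G = 0 := by
  simp [pair]

lemma pair_smul (c : ℤ) (f : (I → ℤ) →₀ ℤ) (G : (I → ℤ) → M) :
    pair (c • f) G = c • pair f G := by
  simp [pair]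

lemma pair_neg (f : (I → ℤ) →₀ ℤ) (G : (I → ℤ) → M) :
    pair (- f) G = - pair f G := by
  simp [pair]

lemma pair_sub (f g : (I → ℤ) →₀ ℤ) (G : (I → ℤ) → M) :
    pair (f - g) G = pair f G - pair g G := by
  simp [pair]

lemma pair_demOne (a : I → ℤ) (i : I) (μ : I → ℤ) (G : (I → ℤ) → M) :
    pair (demOne a i μ) G = Dst a i G μ := by
  unfold pair demOne Dst
  split_ifs
  · rw [map_sum]
    refine Finset.sum_congr rfl fun k _ => ?_
    rw [Finsupp.linearCombination_single, one_smul]
  · rw [map_neg, map_sum]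
    refine congrArg _ (Finset.sum_congr rfl fun k _ => ?_)
    rw [Finsupp.linearCombination_single, one_smul]

lemma pair_dem (a : I → ℤ) (i : I) (f : (I → ℤ) →₀ ℤ) (G : (I → ℤ) → M) :
    pair (dem a i f) G = pair f (Dst a i G) := by
  induction f using Finsupp.induction_linear with
  | zero => simp [pair, dem]
  | add f g hf hg =>
    unfold dem at *
    rw [map_add, pair_add, pair_add, hf, hg]
  | single μ c =>
    unfold dem
    rw [Finsupp.linearCombination_single, pair_smul, pair_demOne, pair_single]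

lemma pair_congr (f : (I → ℤ) →₀ ℤ) (G G' : (I → ℤ) → M)
    (h : ∀ μ, f μ ≠ 0 → G μ = G' μ) : pair f G = pair f G' := by
  unfold pair
  rw [Finsupp.linearCombination_apply, Finsupp.linearCombination_apply]
  refine Finset.sum_congr rfl fun μ hμ => ?_
  dsimp only
  rw [h μ (Finsupp.mem_support_iff.1 hμ)]

/-- antisymmetry of the dual Demazure operator under the dot action -/
lemma Dst_anti (a : I → ℤ) (i : I) (ha : a i = 2) (G : (I → ℤ) → M) (μ : I → ℤ) :
    Dst a i G (μ - μ i • a - a) = - Dst a i G μ := by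
  have hv : (μ - μ i • a - a) i = - μ i - 2 := by
    simp only [Pi.sub_apply, Pi.smul_apply, smul_eq_mul, ha]; ring
  unfold Dst
  rw [hv]
  rcases lt_trichotomy (μ i) (-1) with h1 | h1 | h1
  · rw [if_pos (by omega), if_neg (by omega), neg_neg]
    have h2 : (-μ i - 2).toNat + 1 = (-μ i - 1).toNat := by omega
    rw [h2, ← Finset.sum_range_reflect]
    refine Finset.sum_congr rfl fun k hk => ?_
    rw [mem_range] at hk
    congr 1
    funext j
    simp only [Pi.sub_apply, Pi.add_apply, Pi.smul_apply, smul_eq_mul]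
    have h3 : (((-μ i - 1).toNat - 1 - k : ℕ) : ℤ) = -μ i - 2 - k := by omega
    rw [h3]
    ring
  · rw [if_neg (by omega), if_neg (by omega), h1]
    simp
  · rw [if_neg (by omega), if_pos (by omega)]
    have h2 : (-(-μ i - 2) - 1).toNat = (μ i).toNat + 1 := by omega
    rw [h2, ← Finset.sum_range_reflect]
    congr 1
    refine Finset.sum_congr rfl fun k hk => ?_
    rw [mem_range] at hk
    congr 1
    funext j
    simp only [Pi.sub_apply, Pi.add_apply, Pi.smul_apply, smul_eq_mul]
    have h3 : (((μ i).toNat + 1 - 1 - k : ℕ) : ℤ) = μ i - k := by omega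
    rw [h3]
    ring


lemma eq_zero_of_eq_neg {x : ℝ} (h : x = - x) : x = 0 := by linarith

/-- A function antisymmetric under the dot action is fixed by the dual operator. -/
lemma Dst_of_anti (a : I → ℤ) (i : I) (G : (I → ℤ) → ℝ) (μ : I → ℤ)
    (key : ∀ k : ℤ, G (μ + (-μ i - k - 1) • a) = - G (μ + k • a)) :
    Dst a i G μ = G μ := by
  unfold Dst
  rcases lt_trichotomy (μ i) (-1) with h1 | h1 | h1
  · rw [if_neg (by omega)]
    obtain ⟨n, hn⟩ : ∃ n : ℕ, (-μ i - 1).toNat = n + 1 := ⟨(-μ i - 2).toNat, by omega⟩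
    rw [hn, Finset.sum_range_succ]
    have h2 : ∑ k ∈ range n, G (μ + ((k : ℤ) + 1) • a) = 0 := by
      apply eq_zero_of_eq_neg
      conv_lhs => rw [← Finset.sum_range_reflect]
      rw [← Finset.sum_neg_distrib]
      refine Finset.sum_congr rfl fun k hk => ?_
      rw [mem_range] at hk
      rw [← key]
      congr 3
      omega
    rw [h2]
    have h3 := key 0
    rw [zero_smul, add_zero] at h3
    have h4 : ((n : ℤ) + 1) = -μ i - 0 - 1 := by omega
    rw [h4, h3]
    ring
  · rw [if_neg (by omega), h1]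
    have h3 := key 0
    rw [zero_smul, add_zero, h1] at h3
    simp at h3
    simp
    linarith
  · rw [if_pos (by omega), Finset.sum_range_succ']
    have h2 : ∑ k ∈ range (μ i).toNat, G (μ - ((k + 1 : ℕ) : ℤ) • a) = 0 := by
      apply eq_zero_of_eq_neg
      conv_lhs => rw [← Finset.sum_range_reflect]
      rw [← Finset.sum_neg_distrib]
      refine Finset.sum_congr rfl fun k hk => ?_
      rw [mem_range] at hk
      have h3 := key (-((k : ℤ) + 1))
      rw [neg_smul, ← sub_eq_add_neg] at h3
      push_cast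
      rw [← h3, sub_eq_add_neg, ← neg_smul]
      congr 3
      omega
    rw [h2]
    simp

/-- A function antisymmetric under the reflection is killed by the dual operator. -/
lemma Dst_of_santi (a : I → ℤ) (i : I) (G : (I → ℤ) → ℝ) (μ : I → ℤ)
    (key : ∀ k : ℤ, G (μ + (-μ i - k) • a) = - G (μ + k • a)) :
    Dst a i G μ = 0 := by
  unfold Dst
  rcases lt_or_ge (μ i) 0 with h1 | h1
  · rw [if_neg (by omega), neg_eq_zero]
    apply eq_zero_of_eq_neg
    conv_lhs => rw [← Finset.sum_range_reflect]
    rw [← Finset.sum_neg_distrib]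
    refine Finset.sum_congr rfl fun k hk => ?_
    rw [mem_range] at hk
    rw [← key]
    congr 3
    omega
  · rw [if_pos (by omega)]
    apply eq_zero_of_eq_neg
    conv_lhs => rw [← Finset.sum_range_reflect]
    rw [← Finset.sum_neg_distrib]
    refine Finset.sum_congr rfl fun k hk => ?_
    rw [mem_range] at hk
    have h3 := key (-(k : ℤ))
    rw [neg_smul, ← sub_eq_add_neg] at h3
    rw [← h3, sub_eq_add_neg, ← neg_smul]
    congr 3
    omega

end Pool.Agent.LS60
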