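import Pool.Agent.LS60.Defs

set_option autoImplicit false

/-! Sanity check: the Cartan data of type `G_2` form a `SimpleData`. -/

namespace Pool.Agent.LS60

/-- Cartan matrix of type `G_2`, index `0` long, index `1` short -/
def g2A : Fin 2 → Fin 2 → ℤ := ![![2, -1], ![-3, 2]]

/-- list of roots -/
def g2L : List (Fin 2 → ℤ) :=
  [![1, 0], ![0, 1], ![1, 1], ![1, 2], ![1, 3], ![2, 3],
   ![-1, 0], ![0, -1], ![-1, -1], ![-1, -2], ![-1, -3], ![-2, -3]]

lemma g2_mem {α : Fin 2 → ℤ} (h : IsRoot g2A α) : α ∈ g2L := by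
  induction h with
  | simple i => revert i; decide
  | refl i α _ ih =>
    have key : ∀ β ∈ g2L, ∀ i, β - (∑ j, g2A i j * β j) • Pi.single i 1 ∈ g2L := by decide
    exact key α ih i

/-- `G_2` -/
noncomputable def g2 : SimpleData (Fin 2) where
  A := g2A
  t := ![1, 3]
  d := 3
  θ := ![2, 3]
  A_diag := by decide
  A_off := by decide
  d_mem := by decide
  t_mem := by decide
  symm := by decide
  posdef := by
    intro x hx
    simp only [Fin.sum_univ_two, g2A]
    simp
    have h : x 0 ≠ 0 ∨ x 1 ≠ 0 := by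
      by_contra h
      push Not at h
      apply hx
      funext i
      fin_cases i
      · exact h.1
      · exact h.2
    rcases h with h | h
    · nlinarith [sq_nonneg (x 1 * 2 - 3 * x 0), sq_pos_of_ne_zero h]
    · nlinarith [sq_nonneg (x 0 * 2 - x 1), sq_pos_of_ne_zero h]
  root_θ := by
    have h0 : IsRoot g2A (Pi.single 1 1) := IsRoot.simple 1
    have h1 := IsRoot.refl 0 _ h0
    have h2 := IsRoot.refl 1 _ (IsRoot.simple (A := g2A) 0)
    have h3 := IsRoot.refl 0 _ h2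
    have e : (Pi.single (0 : Fin 2) (1 : ℤ) - (∑ j, g2A 1 j * (Pi.single (0 : Fin 2) (1 : ℤ) : Fin 2 → ℤ) j) •
      Pi.single 1 1 - (∑ j, g2A 0 j * (Pi.single (0 : Fin 2) (1 : ℤ) - (∑ j, g2A 1 j * (Pi.single (0 : Fin 2) (1 : ℤ) : Fin 2 → ℤ) j) •
      Pi.single 1 1 : Fin 2 → ℤ) j) • Pi.single 0 1 : Fin 2 → ℤ) = ![2, 3] := by decide
    rw [e] at h3
    exact h3
  le_θ := by
    intro α hα
    have key : ∀ β ∈ g2L, ∀ i, β i ≤ (![2, 3] : Fin 2 → ℤ) i := by decide
    exact fun i => key α (g2_mem hα) i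
  norm_θ := by
    simp only [Fin.sum_univ_two, g2A]
    norm_num

end Pool.Agent.LS60
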