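import Pool.Agent.LS60.Rep

set_option autoImplicit false

/-! Existence and uniqueness of the class with a given invariant character. -/

namespace Pool.Agent.LS60

open Finset

namespace SimpleData

variable {I : Type} [Fintype I] [DecidableEq I] (D : SimpleData I)

/-- finite roots -/
@[ext] structure FRoot where
  α : I → ℤ
  c : I → ℤ
  s : ℕ
  h : D.RootT α c s

variable {D}

/-- associated affine root -/
def FRoot.toA (β : D.FRoot) : D.ARoot := ⟨β.α, β.c, β.s, 0, β.h⟩

lemma FRoot.finite : Finite D.FRoot := by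
  have hfin : (Set.Icc (-D.θ) D.θ).Finite := Set.finite_Icc _ _
  have h1 : (Set.univ : Set D.FRoot).Finite := by
    refine Set.Finite.of_finite_image (f := fun β : D.FRoot => β.α) (hfin.subset ?_) ?_
    · rintro _ ⟨β, _, rfl⟩
      exact ⟨β.h.neg_θ_le, β.h.le_θ⟩
    · rintro β _ γ _ h
      dsimp only at h
      have h3 := β.h
      rw [h] at h3
      obtain ⟨h4, h5⟩ := h3.unique γ.h
      ext
      · rw [h]
      · rw [h4]
      · rw [h5]
  exact Set.finite_univ_iff.1 h1

variable (D)

/-- the finite root system -/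
def finSys : RootSys I where
  R := D.FRoot
  rt β := D.W β.α
  pr μ β := ∑ j, β.c j * μ j
  ht β := ∑ j, β.c j
  simple i := ⟨ev i, ev i, D.t i, RootT.simple i⟩
  rf β γ := ⟨γ.α - D.pp β.c γ.α • β.α, γ.c - D.pp γ.c β.α • β.c, γ.s, β.h.reflect γ.h⟩
  good _ := True
  pr_lin μ a κ β := by
    rw [Finset.mul_sum, ← Finset.sum_sub_distrib]
    refine Finset.sum_congr rfl fun j _ => ?_
    simp only [Pi.sub_apply, Pi.smul_apply, smul_eq_mul]
    ring
  pr_self β := by
    have := pp_eq_sum β.c β.α (D := D)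
    unfold W
    rw [← this]
    exact β.h.pp_self
  pr_rf μ β γ := by
    have h1 := pp_eq_sum γ.c β.α (D := D)
    unfold W
    rw [← h1, Finset.mul_sum, ← Finset.sum_sub_distrib]
    refine Finset.sum_congr rfl fun j _ => ?_
    simp only [Pi.sub_apply, Pi.smul_apply, smul_eq_mul]
    ring
  ht_rf β γ := by
    have h1 := pp_eq_sum γ.c β.α (D := D)
    unfold W
    rw [← h1, Finset.mul_sum, ← Finset.sum_sub_distrib]
    refine Finset.sum_congr rfl fun j _ => ?_
    simp only [Pi.sub_apply, Pi.smul_apply, smul_eq_mul]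
  rf_rf β γ := by
    have h1 := β.h.pp_self
    ext
    · simp only [Pi.sub_apply, Pi.smul_apply, smul_eq_mul, D.pp_sub_right, D.pp_smul_right, h1]
      ring
    · simp only [Pi.sub_apply, Pi.smul_apply, smul_eq_mul, D.pp_sub_left, D.pp_smul_left, h1]
      ring
    · rfl
  ht_ne β := by
    rcases β.h.sign with h | h
    · exact (ARoot.sum_c_pos β.toA h).ne'
    · exact (ARoot.sum_c_neg β.toA h).ne
  pr_simple μ i := by
    simp only
    rw [Finset.sum_eq_single i]
    · simp
    · intro j _ hj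
      simp [hj]
    · intro h; exact absurd (mem_univ i) h
  ht_simple i := by
    simp only
    rw [Finset.sum_eq_single i]
    · simp
    · intro j _ hj
      simp [hj]
    · intro h; exact absurd (mem_univ i) h
  simple_pos i β hβ hne := by
    have h1 : 0 ≤ β.α := by
      rcases β.h.sign with h | h
      · exact h
      · exact absurd hβ (not_lt.2 (ARoot.sum_c_neg β.toA h).le)
    have h2 := β.h.simple_pos h1 i (by
      intro h3
      apply hne
      have h4 := β.h
      rw [h3] at h4
      obtain ⟨h5, h6⟩ := h4.unique (RootT.simple i)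
      ext
      · rw [h3]
      · rw [h5]
      · rw [h6])
    exact ARoot.sum_c_pos (D := D) ⟨_, _, _, 0, (RootT.simple i).reflect β.h⟩ h2
  fin μ _ := by
    have := FRoot.finite (D := D)
    exact Set.toFinite _
  good_rf _ _ _ := trivial
  dom μ hμ β hβ := by
    have h1 : 0 ≤ β.α := by
      rcases β.h.sign with h | h
      · exact h
      · exact absurd hβ (not_lt.2 (ARoot.sum_c_neg β.toA h).le)
    exact Finset.sum_nonneg fun j _ => mul_nonneg ((β.h.coeff_sign j).1.1 (h1 j)) (hμ j)

/-- the finite cover system -/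
noncomputable def finCov : CovSys I :=
  D.finSys.toCov fun i β => by
    show D.W (β.α - D.pp (ev i) β.α • ev i) = D.W β.α - _ • D.W (ev i)
    have h1 : D.finSys.pr (D.finSys.rt β) (D.finSys.simple i) = D.pp (ev i) β.α := by
      rw [D.finSys.pr_simple]
      rfl
    have h2 : ∑ j, ev i j * D.W β.α j = D.pp (ev i) β.α := by
      rw [pp_eq_sum (ev i) β.α]
      rfl
    funext j
    unfold W at h2 ⊢
    simp only [Pi.sub_apply, Pi.smul_apply, smul_eq_mul]
    rw [D.pp_sub_right, D.pp_smul_right]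
    congr 2
    exact h2.symm

variable {D}

lemma finCov_s (i : I) (μ : I → ℤ) : D.finCov.s i μ = D.srefl i μ := by
  rw [D.srefl_apply]
  rfl

lemma finCov_dom {μ ν : I → ℤ} {β} (hμ : ∀ i, 0 ≤ μ i) (h : D.finCov.Cov μ ν β) : False := by
  obtain ⟨_, h1, h2, _⟩ := h
  have := D.finSys.dom μ hμ β h1
  exact absurd h2 (not_lt.2 this)

lemma len_bound (μ : I → ℤ) : D.finSys.len μ ≤ (Set.univ : Set D.FRoot).ncard := by
  have : Finite D.FRoot := FRoot.finite (D := D)
  have h2 : (Set.univ : Set D.FRoot).Finite := Set.finite_univ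
  exact Set.ncard_le_ncard (Set.subset_univ _) h2

lemma finSys_refl (i : I) (μ : I → ℤ) :
    D.finSys.refl (D.finSys.simple i) μ = D.srefl i μ := by
  unfold RootSys.refl
  rw [D.finSys.pr_simple, D.srefl_apply]
  rfl

lemma srefl_self (i : I) (μ : I → ℤ) : D.srefl i μ i = - μ i := by
  rw [D.srefl_apply]
  have : D.W (ev i) i = 2 := by unfold W; rw [D.pp_ev_ev, D.A_diag]
  simp only [Pi.sub_apply, Pi.smul_apply, smul_eq_mul, this]
  ring

lemma srefl_srefl (i : I) (μ : I → ℤ) : D.srefl i (D.srefl i μ) = μ := by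
  rw [← finCov_s, ← finCov_s, CovSys.s_s]

lemma srefl_mem (i : I) : D.srefl i ∈ D.weyl := Subgroup.subset_closure ⟨i, rfl⟩

lemma srefl_of_zero (i : I) (μ : I → ℤ) (h : μ i = 0) : D.srefl i μ = μ := by
  rw [D.srefl_apply, h]; simp

/-- every weight is conjugate to a dominant weight -/
lemma exists_dominant (μ : I → ℤ) : ∃ w ∈ D.weyl, ∀ i, 0 ≤ w μ i := by
  have key : ∀ (n : ℕ) (μ : I → ℤ), D.finSys.len μ = n → ∃ w ∈ D.weyl, ∀ i, 0 ≤ w μ i := by
    intro n
    induction n using Nat.strong_induction_on with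
    | _ n ih =>
      intro μ hn
      by_cases h : ∀ i, 0 ≤ μ i
      · exact ⟨1, D.weyl.one_mem, h⟩
      · push Not at h
        obtain ⟨i, hi⟩ := h
        have h1 := D.finSys.len_simple (μ := μ) trivial i hi
        rw [finSys_refl] at h1
        obtain ⟨w, hw, h2⟩ := ih (D.finSys.len (D.srefl i μ)) (by omega) _ rfl
        exact ⟨w * D.srefl i, D.weyl.mul_mem hw (srefl_mem i), h2⟩
  exact key _ μ rfl

/-- there is an antidominant weight below a given weight, with a chain of simple reflections -/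
lemma exists_anti (x : I → ℤ) : ∃ T : I → ℤ, (∀ i, T i ≤ 0) ∧
    Relation.ReflTransGen (fun a b : I → ℤ => ∃ i, a i < 0 ∧ b = D.srefl i a) T x := by
  have key : ∀ (n : ℕ) (T : I → ℤ), (Set.univ : Set D.FRoot).ncard - D.finSys.len T = n →
      Relation.ReflTransGen (fun a b : I → ℤ => ∃ i, a i < 0 ∧ b = D.srefl i a) T x →
      ∃ T : I → ℤ, (∀ i, T i ≤ 0) ∧
        Relation.ReflTransGen (fun a b : I → ℤ => ∃ i, a i < 0 ∧ b = D.srefl i a) T x := by
    intro n
    induction n using Nat.strong_induction_on with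
    | _ n ih =>
      intro T hn hT
      by_cases h : ∀ i, T i ≤ 0
      · exact ⟨T, h, hT⟩
      · push Not at h
        obtain ⟨i, hi⟩ := h
        have h1 := D.finSys.len_simple' (μ := T) trivial i hi
        rw [finSys_refl] at h1
        have h2 := len_bound (D := D) (D.srefl i T)
        refine ih _ ?_ (D.srefl i T) rfl (Relation.ReflTransGen.head
          ⟨i, by rw [srefl_self]; omega, (srefl_srefl i T).symm⟩ hT)
        omega
  exact key _ x rfl Relation.ReflTransGen.refl

lemma ch_of_up {T x : I → ℤ}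
    (h : Relation.ReflTransGen (fun a b : I → ℤ => ∃ i, a i < 0 ∧ b = D.srefl i a) T x) :
    D.finCov.Ch 1 0 T x := by
  induction h with
  | refl => exact CovSys.Ch.refl
  | tail _ hs ih =>
    obtain ⟨i, h1, rfl⟩ := hs
    refine Relation.ReflTransGen.tail ih ?_
    rw [← finCov_s]
    exact CovSys.step_simple i trivial h1 (by simp)

lemma dominant_unique_aux {T x : I → ℤ}
    (h : Relation.ReflTransGen (fun a b : I → ℤ => ∃ i, a i < 0 ∧ b = D.srefl i a) T x)
    (hx : ∀ i, 0 ≤ x i) : ∀ y : I → ℤ, (∀ i, 0 ≤ y i) → D.finCov.Ch 1 0 T y → y = x := by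
  induction h using Relation.ReflTransGen.head_induction_on with
  | refl =>
    intro y _ hc
    rcases Relation.ReflTransGen.cases_head hc with h1 | ⟨κ, ⟨β, hβ, _⟩, _⟩
    · exact h1.symm
    · exact (finCov_dom hx hβ).elim
  | head hs _ ih =>
    obtain ⟨i, h1, rfl⟩ := hs
    intro y hy hc
    apply ih y hy
    have := hc.sur2 i h1 (hy i)
    rwa [finCov_s] at this

/-- dominant weights in one orbit are equal -/
lemma dominant_unique {x : I → ℤ} (hx : ∀ i, 0 ≤ x i) {w : (I → ℤ) ≃ₗ[ℤ] (I → ℤ)}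
    (hw : w ∈ D.weyl) (hwx : ∀ i, 0 ≤ w x i) : w x = x := by
  obtain ⟨T, hT, hup⟩ := exists_anti (D := D) x
  have hc := ch_of_up hup
  have key : ∀ w ∈ D.weyl, D.finCov.Ch 1 0 T (w x) := by
    apply weyl_induction
    · exact hc
    · intro i w ih
      have h0 : (D.srefl i * w) x = D.srefl i (w x) := rfl
      rw [h0]
      rcases lt_trichotomy (w x i) 0 with h1 | h1 | h1
      · refine Relation.ReflTransGen.tail ih ?_
        rw [← finCov_s]
        exact CovSys.step_simple i trivial h1 (by simp)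
      · rw [srefl_of_zero i _ h1]
        exact ih
      · have := ih.sur1 i (hT i) h1
        rwa [finCov_s] at this
  exact dominant_unique_aux hup hx _ hwx (key w hw)

/-- the action on strictly dominant weights is free -/
lemma regular_free {x : I → ℤ} (hx : ∀ i, 0 < x i) {w : (I → ℤ) ≃ₗ[ℤ] (I → ℤ)}
    (hw : w ∈ D.weyl) (hwx : ∀ i, 0 < w x i) : w = 1 := by
  have h1 : ∀ z : I → ℤ, (∀ i, 0 ≤ z i) → w z = z := by
    intro z hz
    apply dominant_unique hz hw
    intro i
    obtain ⟨α', c', h2, h3⟩ := weyl_coroot w hw _ _ _ (RootT.simple i)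
    have h4 : ∀ y : I → ℤ, w y i = ∑ j, c' j * y j := by
      intro y
      rw [← h3 y, Finset.sum_eq_single i (by intro j' _ hj; simp [hj])
        (fun h => absurd (mem_univ i) h)]
      simp
    rw [h4]
    have h5 := hwx i
    rw [h4] at h5
    rcases h2.sign with h6 | h6
    · exact Finset.sum_nonneg fun j _ => mul_nonneg ((h2.coeff_sign j).1.1 (h6 j)) (hz j)
    · exfalso
      have : ∑ j, c' j * x j ≤ 0 := Finset.sum_nonpos fun j _ =>
        mul_nonpos_of_nonpos_of_nonneg ((h2.coeff_sign j).2.1 (h6 j)) (hx j).le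
      omega
  apply LinearEquiv.toLinearMap_injective
  apply LinearMap.pi_ext'
  intro j
  ext i
  have h2 := h1 (Pi.single j 1) (by
    intro m
    by_cases hm : m = j
    · subst hm; simp
    · simp [hm])
  exact congrFun h2 i

lemma regular_unique {x y : I → ℤ} (hx : ∀ i, 0 < x i) (hy : ∀ i, 0 < y i)
    {w : (I → ℤ) ≃ₗ[ℤ] (I → ℤ)} (hw : w ∈ D.weyl) (hwx : w x = y) : w = 1 ∧ x = y := by
  have h1 : w = 1 := regular_free hx hw (by rw [hwx]; exact hy)
  refine ⟨h1, ?_⟩
  rw [← hwx, h1]
  rfl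

section coefficients

open Classical in
lemma altSum_apply (x y : I → ℤ) : D.altSum x y =
    ∑ᶠ w : D.weyl, dt w.1 * (if w.1 x = y then 1 else 0) := by
  have : Fintype D.weyl := Fintype.ofFinite _
  unfold altSum
  rw [finsum_eq_sum_of_fintype, finsum_eq_sum_of_fintype, Finsupp.finsetSum_apply]
  refine Finset.sum_congr rfl fun w _ => ?_
  rw [Finsupp.smul_apply, Finsupp.single_apply, smul_eq_mul]

/-- coefficients of alternating sums at strictly dominant weights -/
lemma altSum_regular (x y : I → ℤ) (hx : ∀ i, 0 < x i) (hy : ∀ i, 0 < y i) :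
    D.altSum x y = if x = y then 1 else 0 := by
  classical
  have : Fintype D.weyl := Fintype.ofFinite _
  rw [altSum_apply, finsum_eq_sum_of_fintype, Finset.sum_eq_single (1 : D.weyl)]
  · have h1 : dt (1 : D.weyl).1 = 1 := dt_one
    rw [h1, one_mul]
    rfl
  · intro w _ hw
    rw [if_neg, mul_zero]
    intro h
    apply hw
    exact Subtype.ext (regular_unique hx hy w.2 h).1
  · intro h; exact absurd (mem_univ _) h

lemma altSum_anti (x y : I → ℤ) (i : I) : D.altSum x (D.srefl i y) = - D.altSum x y := by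
  classical
  have : Fintype D.weyl := Fintype.ofFinite _
  rw [altSum_apply, altSum_apply, finsum_eq_sum_of_fintype, finsum_eq_sum_of_fintype,
    ← Finset.sum_neg_distrib]
  refine Fintype.sum_equiv (Equiv.mulLeft (⟨D.srefl i, srefl_mem i⟩ : D.weyl)) _ _ ?_
  intro w
  have h1 : ((Equiv.mulLeft (⟨D.srefl i, srefl_mem i⟩ : D.weyl)) w).1 = D.srefl i * w.1 := rfl
  rw [h1, dt_mul]
  have h2 : dt (D.srefl i) = -1 := D.det_srefl i
  have h3 : (w.1 x = D.srefl i y) ↔ ((D.srefl i * w.1) x = y) := by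
    have h4 : (D.srefl i * w.1) x = D.srefl i (w.1 x) := rfl
    rw [h4]
    constructor
    · intro h; rw [h, srefl_srefl]
    · intro h; rw [← h, srefl_srefl]
  rw [h2]
  by_cases h : w.1 x = D.srefl i y
  · rw [if_pos h, if_pos (h3.1 h)]; ring
  · rw [if_neg h, if_neg (fun h' => h (h3.2 h'))]; ring

variable (D) in
/-- left-hand side of the Weyl character formula -/
noncomputable def lhs (g : (I → ℤ) →₀ ℤ) : (I → ℤ) →₀ ℤ :=
  ∑ᶠ w : D.weyl, LinearMap.det (w.1 : (I → ℤ) →ₗ[ℤ] (I → ℤ)) •
      Finsupp.mapDomain (fun μ => μ + w.1 (fun _ => 1)) g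

lemma lhs_apply (g : (I → ℤ) →₀ ℤ) (y : I → ℤ) : D.lhs g y =
    ∑ᶠ w : D.weyl, dt w.1 * g (y - w.1 (fun _ => 1)) := by
  have : Fintype D.weyl := Fintype.ofFinite _
  unfold lhs
  rw [finsum_eq_sum_of_fintype, finsum_eq_sum_of_fintype, Finsupp.finsetSum_apply]
  refine Finset.sum_congr rfl fun w _ => ?_
  rw [Finsupp.smul_apply, smul_eq_mul]
  congr 1
  have h1 := Finsupp.mapDomain_apply (f := fun μ : I → ℤ => μ + w.1 (fun _ => 1))
    (add_left_injective _) g (y - w.1 (fun _ => 1))
  rw [← h1]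
  simp

lemma lhs_anti (g : (I → ℤ) →₀ ℤ) (hg : ∀ i y, g (D.srefl i y) = g y) (y : I → ℤ) (i : I) :
    D.lhs g (D.srefl i y) = - D.lhs g y := by
  classical
  have : Fintype D.weyl := Fintype.ofFinite _
  rw [lhs_apply, lhs_apply, finsum_eq_sum_of_fintype, finsum_eq_sum_of_fintype,
    ← Finset.sum_neg_distrib]
  refine Fintype.sum_equiv (Equiv.mulLeft (⟨D.srefl i, srefl_mem i⟩ : D.weyl)) _ _ ?_
  intro w
  have h1 : ((Equiv.mulLeft (⟨D.srefl i, srefl_mem i⟩ : D.weyl)) w).1 = D.srefl i * w.1 := rfl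
  rw [h1, dt_mul]
  have h2 : dt (D.srefl i) = -1 := D.det_srefl i
  have h3 : g (D.srefl i y - w.1 (fun _ => 1)) = g (y - (D.srefl i * w.1) (fun _ => 1)) := by
    have h4 : (D.srefl i * w.1) (fun _ => (1 : ℤ)) = D.srefl i (w.1 (fun _ => 1)) := rfl
    rw [h4, ← hg i (D.srefl i y - w.1 (fun _ => 1)), map_sub, srefl_srefl]
  rw [h2, h3]
  ring

/-- two antisymmetric functions agreeing on strictly dominant weights are equal -/
lemma anti_ext (u v : (I → ℤ) → ℤ) (hu : ∀ i y, u (D.srefl i y) = - u y)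
    (hv : ∀ i y, v (D.srefl i y) = - v y) (h : ∀ y : I → ℤ, (∀ i, 0 < y i) → u y = v y)
    (y : I → ℤ) : u y = v y := by
  have hw : ∀ w ∈ D.weyl, ∀ y, u (w y) = dt w * u y ∧ v (w y) = dt w * v y := by
    apply weyl_induction
    · intro y
      rw [dt_one]; simp
    · intro i w ih y
      have h1 : (D.srefl i * w) y = D.srefl i (w y) := rfl
      have h2 : dt (D.srefl i) = -1 := D.det_srefl i
      rw [h1, hu, hv, dt_mul, h2, (ih y).1, (ih y).2]
      constructor <;> ring
  obtain ⟨w, hw1, hw2⟩ := exists_dominant (D := D) y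
  have h1 := hw w hw1 y
  have h2 : u (w y) = v (w y) := by
    by_cases h3 : ∀ i, 0 < w y i
    · exact h _ h3
    · push Not at h3
      obtain ⟨i, hi⟩ := h3
      have h4 : w y i = 0 := le_antisymm hi (hw2 i)
      have h5 := srefl_of_zero (D := D) i (w y) h4
      have h6 := hu i (w y)
      have h7 := hv i (w y)
      rw [h5] at h6 h7
      omega
  rw [h1.1, h1.2] at h2
  have h3 := dt_sq w
  have h4 : dt w ≠ 0 := by
    intro h; rw [h] at h3; simp at h3
  exact mul_left_cancel₀ h4 h2

lemma sum_altSum_apply (x : (I → ℕ) →₀ ℤ) (y : I → ℤ) :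
    (x.sum fun lam c => c • D.altSum (fun j => (lam j : ℤ) + 1)) y =
      x.sum fun lam c => c * D.altSum (fun j => (lam j : ℤ) + 1) y := by
  unfold Finsupp.sum
  rw [Finsupp.finsetSum_apply]
  exact Finset.sum_congr rfl fun lam _ => by rw [Finsupp.smul_apply, smul_eq_mul]

lemma sum_altSum_regular (x : (I → ℕ) →₀ ℤ) (κ : I → ℕ) :
    (x.sum fun lam c => c • D.altSum (fun j => (lam j : ℤ) + 1)) (fun j => (κ j : ℤ) + 1) =
      x κ := by
  classical
  rw [sum_altSum_apply]
  unfold Finsupp.sum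
  have h1 : ∀ lam : I → ℕ, x lam * D.altSum (fun j => (lam j : ℤ) + 1)
      (fun j => (κ j : ℤ) + 1) = if lam = κ then x lam else 0 := by
    intro lam
    rw [altSum_regular _ _ (fun i => by positivity) (fun i => by positivity)]
    by_cases h : lam = κ
    · rw [if_pos h, if_pos (by rw [h]), mul_one]
    · rw [if_neg h, if_neg, mul_zero]
      intro h2
      apply h
      funext j
      have : (lam j : ℤ) + 1 = (κ j : ℤ) + 1 := congrFun h2 j
      omega
  rw [Finset.sum_congr rfl fun lam _ => h1 lam, Finset.sum_ite_eq']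
  split_ifs with h
  · rfl
  · rw [Finsupp.mem_support_iff] at h
    push Not at h
    exact h.symm

lemma hasChar_unique {x y : (I → ℕ) →₀ ℤ} {g : (I → ℤ) →₀ ℤ} (hx : D.HasChar x g)
    (hy : D.HasChar y g) : x = y := by
  unfold HasChar at hx hy
  ext κ
  rw [← sum_altSum_regular (D := D) x κ, ← sum_altSum_regular (D := D) y κ, ← hx, ← hy]

lemma hasChar_exists (g : (I → ℤ) →₀ ℤ) (hg : ∀ i y, g (D.srefl i y) = g y) :
    ∃ x, D.HasChar x g := by
  have hinj : Function.Injective (fun (lam : I → ℕ) (j : I) => (lam j : ℤ) + 1) := by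
    intro a b h
    funext j
    have := congrFun h j
    simp only at this
    omega
  refine ⟨(D.lhs g).comapDomain (fun (lam : I → ℕ) (j : I) => (lam j : ℤ) + 1)
    hinj.injOn, ?_⟩
  unfold HasChar
  show D.lhs g = _
  ext y
  refine anti_ext (D := D) (D.lhs g) _ (fun i y => lhs_anti g hg y i) ?_ ?_ y
  · intro i y
    rw [sum_altSum_apply, sum_altSum_apply]
    unfold Finsupp.sum
    rw [← Finset.sum_neg_distrib]
    refine Finset.sum_congr rfl fun lam _ => ?_
    dsimp only
    rw [altSum_anti]; ring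
  · intro y hy
    have h1 : y = fun j => (((y j - 1).toNat : ℕ) : ℤ) + 1 := by
      funext j
      have := hy j
      omega
    rw [h1]
    rw [sum_altSum_regular _ (fun j => (y j - 1).toNat), Finsupp.comapDomain_apply]

end coefficients

lemma pointwise_inv {g : (I → ℤ) →₀ ℤ}
    (hg : ∀ i, ∀ H : (I → ℤ) → ℝ, pair g (fun μ => H (D.srefl i μ)) = pair g H) (i : I)
    (y : I → ℤ) : g (D.srefl i y) = g y := by
  classical
  have h2 : ∀ (g : (I → ℤ) →₀ ℤ) (ν : I → ℤ),
      pair g (fun μ => if μ = ν then (1 : ℝ) else 0) = (g ν : ℝ) := by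
    intro g ν
    unfold pair
    rw [Finsupp.linearCombination_apply, Finsupp.sum]
    simp only [smul_ite, smul_zero, Finset.sum_ite_eq', Finsupp.mem_support_iff]
    split_ifs with h
    · simp
    · push Not at h
      rw [h]; simp
  have h3 := hg i (fun μ => if μ = y then (1 : ℝ) else 0)
  rw [h2] at h3
  have h4 : (fun μ => if D.srefl i μ = y then (1 : ℝ) else 0) =
      fun μ => if μ = D.srefl i y then (1 : ℝ) else 0 := by
    funext μ
    have : (D.srefl i μ = y) ↔ (μ = D.srefl i y) := by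
      constructor
      · intro h; rw [← h, srefl_srefl]
      · intro h; rw [h, srefl_srefl]
    by_cases h : D.srefl i μ = y
    · rw [if_pos h, if_pos (this.1 h)]
    · rw [if_neg h, if_neg (fun h' => h (this.2 h'))]
  rw [h4, h2] at h3
  exact_mod_cast h3

/-- existence of Demazure characters -/
lemma exists_dem [Nonempty I] : ∀ (n : ℕ) (T : Option I → ℤ), 0 < D.lev T →
    D.affSys.len T = n → ∃ f, IsDem D.affRoot T f := by
  intro n
  induction n using Nat.strong_induction_on with
  | _ n ih =>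
    intro T hT hn
    by_cases h : ∀ i, 0 ≤ T i
    · exact ⟨_, IsDem.base T h⟩
    · push Not at h
      obtain ⟨i, hi⟩ := h
      have h1 := D.affSys.len_simple (μ := T) hT i hi
      have hrefl : D.affSys.refl (D.affSys.simple i) T = T - T i • D.affRoot i := by
        have h1 : D.affSys.refl (D.affSys.simple i) T =
            T - ARoot.pr T (ARoot.simple i) • (ARoot.simple (D := D) i).rt := rfl
        rw [h1, ARoot.pr_simple, ARoot.rt_simple]
      rw [hrefl] at h1
      obtain ⟨f, hf⟩ := ih (D.affSys.len (T - T i • D.affRoot i)) (by omega) _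
        (by rw [lev_sub_smul, lev_affRoot]; simpa using hT) rfl
      have h2 := IsDem.step _ _ i hf (by rw [refl_self_apply]; omega)
      rw [refl_refl'] at h2
      exact ⟨_, h2⟩

lemma lev_or (l : ℕ) (μ : I → ℤ) (hμ : l = 0 → μ = 0) :
    0 < D.lev (D.aff l μ) ∨ ∀ j, 0 ≤ D.aff l μ j := by
  rcases Nat.eq_zero_or_pos l with h0 | h0
  · right
    intro j
    rw [hμ h0]
    subst h0
    cases j with
    | none => simp [aff]
    | some j => exact le_rfl
  · left
    rw [lev_aff]
    exact_mod_cast h0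

lemma w_zero {i : I} {l : ℕ} (w : (I → ℤ) ≃ₗ[ℤ] (I → ℤ)) (h : l = 0) :
    w (Pi.single i ((D.t i : ℤ) * l)) = 0 := by
  subst h
  simp

/-- the antidominant weight in an orbit is unique -/
lemma anti_unique {μ : I → ℤ} {w w' : (I → ℤ) ≃ₗ[ℤ] (I → ℤ)} (hw : w ∈ D.weyl)
    (hw' : w' ∈ D.weyl) (h : ∀ j, w μ j ≤ 0) (h' : ∀ j, w' μ j ≤ 0) : w μ = w' μ := by
  have h1 : ∀ j, 0 ≤ (-(w μ)) j := fun j => by
    have := h j
    simp only [Pi.neg_apply]; omega
  have h2 := dominant_unique (D := D) h1 (D.weyl.mul_mem hw' (D.weyl.inv_mem hw)) (by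
    intro j
    have h3 : (w' * w⁻¹) (-(w μ)) = -(w' μ) := by
      rw [map_neg]
      congr 1
      show w' (w⁻¹ (w μ)) = w' μ
      congr 1
      show (w⁻¹ * w) μ = μ
      rw [inv_mul_cancel]; rfl
    rw [h3]
    have := h' j
    simp only [Pi.neg_apply]; omega)
  have h3 : (w' * w⁻¹) (-(w μ)) = -(w' μ) := by
    rw [map_neg]
    congr 1
    show w' (w⁻¹ (w μ)) = w' μ
    congr 1
    show (w⁻¹ * w) μ = μ
    rw [inv_mul_cancel]; rfl
  rw [h3] at h2
  exact (neg_injective h2).symm

/-- the dual coweight attached to an antidominant translate of a fundamental weight -/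
lemma exists_cow (i : I) {w : (I → ℤ) ≃ₗ[ℤ] (I → ℤ)} (hw : w ∈ D.weyl) :
    ∃ y : I → ℤ, D.Cow y ∧ (∀ l : ℤ, w (Pi.single i ((D.t i : ℤ) * l)) = -(l • y)) ∧
      y ≠ 0 := by
  refine ⟨-(w (Pi.single i (D.t i : ℤ))), ?_, ?_, ?_⟩
  · intro α c s h
    obtain ⟨α', c', h1, h2⟩ := weyl_coroot w hw _ _ _ h
    refine ⟨- α' i, ?_⟩
    have h3 := h2 (Pi.single i (D.t i : ℤ))
    have h4 : ∑ j, c' j * (Pi.single i (D.t i : ℤ) : I → ℤ) j = s * α' i := by
      rw [Finset.sum_eq_single i (by intro j' _ hj; simp [hj])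
        (fun h => absurd (mem_univ i) h), Pi.single_eq_same, mul_comm]
      exact h1.rel i
    have h5 : ∑ j, c j * (-(w (Pi.single i (D.t i : ℤ)))) j =
        - ∑ j, c j * w (Pi.single i (D.t i : ℤ)) j := by
      rw [← Finset.sum_neg_distrib]
      exact Finset.sum_congr rfl fun j _ => by rw [Pi.neg_apply]; ring
    rw [h5, h3, h4]
    ring
  · intro l
    have h1 : (Pi.single i ((D.t i : ℤ) * l) : I → ℤ) = l • Pi.single i (D.t i : ℤ) := by
      funext j
      by_cases hj : j = i
      · subst hj; simp; ring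
      · simp [hj]
    rw [h1, map_smul, smul_neg, neg_neg]
  · intro h
    have h1 : w (Pi.single i (D.t i : ℤ)) = 0 := by
      rw [← neg_eq_zero]; exact h
    have h2 : (Pi.single i (D.t i : ℤ) : I → ℤ) = 0 := by
      apply w.injective
      rw [h1, map_zero]
    have h3 := congrFun h2 i
    simp only [Pi.single_eq_same, Pi.zero_apply] at h3
    have := D.t_pos i
    omega

theorem isKR_existsUnique [Nonempty I] (i : I) (l : ℕ) : ∃! x, D.IsKR i l x := by
  set μ : I → ℤ := Pi.single i ((D.t i : ℤ) * l) with hμ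
  obtain ⟨w, hw, hdom⟩ := exists_dominant (D := D) (-μ)
  have hanti : ∀ j, w μ j ≤ 0 := by
    intro j
    have := hdom j
    rw [map_neg, Pi.neg_apply] at this
    omega
  have hl : 0 < D.lev (D.aff l (w μ)) ∨ ∀ j, 0 ≤ D.aff l (w μ) j :=
    lev_or l _ (fun h => w_zero w h)
  obtain ⟨f, hf⟩ : ∃ f, IsDem D.affRoot (D.aff l (w μ)) f := by
    rcases hl with hl | hl
    · exact exists_dem _ _ hl rfl
    · exact ⟨_, IsDem.base _ hl⟩
  have hinv := fun j H => kr_inv (T := D.aff l (w μ)) hanti hl hf j H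
  obtain ⟨x, hx⟩ := hasChar_exists (D := D) (Finsupp.mapDomain fp f) (pointwise_inv hinv)
  refine ⟨x, ⟨w, hw, f, hanti, hf, hx⟩, ?_⟩
  rintro y ⟨w', hw', f', hanti', hf', hy⟩
  rw [← anti_unique hw hw' hanti hanti'] at hf'
  have hff : f' = f := by
    rcases hl with hl | hl
    · have hal : D.affCov.al = D.affRoot := funext fun i => affCov_al D i
      have h1 : IsDem D.affCov.al (D.aff l (w μ)) f := by rw [hal]; exact hf
      have h2 : IsDem D.affCov.al (D.aff l (w μ)) f' := by rw [hal]; exact hf'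
      exact CovSys.dem_unique (C := D.affCov) (fun hμ hc => affCov_dom D hμ hc) h2 h1 hl
    · rw [hf.of_dom (fun i => affRoot_self i) hl, hf'.of_dom (fun i => affRoot_self i) hl]
  rw [hff] at hy
  exact hasChar_unique hy hx

end SimpleData

end Pool.Agent.LS60
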