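import Pool.Agent.LS60.Defs

set_option autoImplicit false

/-! Elementary theory of finite root data. -/

namespace Pool.Agent.LS60

open Finset

lemma two_dvd_sum_symm {ι : Type*} [DecidableEq ι] (f : ι → ι → ℤ) (hf : ∀ i j, f i j = f j i)
    (s : Finset ι) : (2 : ℤ) ∣ ∑ i ∈ s, ∑ j ∈ s, f i j - ∑ i ∈ s, f i i := by
  induction s using Finset.induction_on with
  | empty => simp
  | insert a s ha ih =>
    rw [Finset.sum_insert ha, Finset.sum_insert ha, Finset.sum_insert ha]
    have h1 : ∑ i ∈ s, ∑ j ∈ insert a s, f i j = ∑ i ∈ s, f i a + ∑ i ∈ s, ∑ j ∈ s, f i j := by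
      rw [← Finset.sum_add_distrib]
      refine Finset.sum_congr rfl fun i _ => ?_
      rw [Finset.sum_insert ha]
    have h2 : ∑ i ∈ s, f i a = ∑ j ∈ s, f a j := Finset.sum_congr rfl fun i _ => hf i a
    rw [h1, h2]
    obtain ⟨c, hc⟩ := ih
    refine ⟨c + ∑ j ∈ s, f a j, ?_⟩
    rw [mul_add, ← hc]
    ring

section sign

variable {I : Type} [Fintype I] [DecidableEq I] (M : I → I → ℤ)

/-- the quadratic form of a matrix -/
def qf (v : I → ℤ) : ℤ := ∑ i, ∑ j, v i * v j * M i j

lemma qf_even (hsym : ∀ i j, M i j = M j i) (hdiag : ∀ i, (2 : ℤ) ∣ M i i) (v : I → ℤ) :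
    (2 : ℤ) ∣ qf M v := by
  have h1 := two_dvd_sum_symm (fun i j => v i * v j * M i j)
    (fun i j => by rw [hsym i j, mul_comm (v i)]) (Finset.univ)
  have h2 : (2 : ℤ) ∣ ∑ i, v i * v i * M i i :=
    Finset.dvd_sum fun i _ => Dvd.dvd.mul_left (hdiag i) _
  have h3 := dvd_add h1 h2
  rw [sub_add_cancel] at h3
  exact h3

lemma same_sign (hsym : ∀ i j, M i j = M j i) (hdiag : ∀ i, (2 : ℤ) ∣ M i i)
    (hoff : ∀ i j, i ≠ j → M i j ≤ 0) (hpos : ∀ v : I → ℤ, v ≠ 0 → 0 < qf M v)
    (v : I → ℤ) (hv : qf M v = 2) : (∀ i, 0 ≤ v i) ∨ (∀ i, v i ≤ 0) := by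
  by_contra hcon
  push Not at hcon
  obtain ⟨⟨a, ha⟩, b, hb⟩ := hcon
  have hge : ∀ w : I → ℤ, w ≠ 0 → 2 ≤ qf M w := by
    intro w hw
    have h1 := hpos w hw
    have h2 := qf_even M hsym hdiag w
    omega
  have hp : (fun i => max (v i) 0) ≠ 0 := by
    intro h
    have := congrFun h b
    simp only [Pi.zero_apply] at this
    omega
  have hn : (fun i => max (- v i) 0) ≠ 0 := by
    intro h
    have := congrFun h a
    simp only [Pi.zero_apply] at this
    omega
  have h1 := hge _ hp
  have h2 := hge _ hn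
  have h3 : qf M v = qf M (fun i => max (v i) 0) + qf M (fun i => max (- v i) 0) -
      (∑ i, ∑ j, max (v i) 0 * max (- v j) 0 * M i j +
        ∑ i, ∑ j, max (- v i) 0 * max (v j) 0 * M i j) := by
    unfold qf
    rw [← Finset.sum_add_distrib, ← Finset.sum_add_distrib, ← Finset.sum_sub_distrib]
    refine Finset.sum_congr rfl fun i _ => ?_
    rw [← Finset.sum_add_distrib, ← Finset.sum_add_distrib, ← Finset.sum_sub_distrib]
    refine Finset.sum_congr rfl fun j _ => ?_
    have e : ∀ x : ℤ, x = max x 0 - max (-x) 0 := by intro x; omega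
    conv_lhs => rw [e (v i), e (v j)]
    ring
  have h4 : ∑ i, ∑ j, max (v i) 0 * max (- v j) 0 * M i j ≤ 0 := by
    refine Finset.sum_nonpos fun i _ => Finset.sum_nonpos fun j _ => ?_
    by_cases hij : i = j
    · subst hij
      have : max (v i) 0 * max (- v i) 0 = 0 := by
        rcases le_total 0 (v i) with h | h
        · rw [max_eq_right (by omega : - v i ≤ 0), mul_zero]
        · rw [max_eq_right h, zero_mul]
      rw [this, zero_mul]
    · exact mul_nonpos_of_nonneg_of_nonpos
        (mul_nonneg (le_max_right _ _) (le_max_right _ _)) (hoff i j hij)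
  have h5 : ∑ i, ∑ j, max (- v i) 0 * max (v j) 0 * M i j ≤ 0 := by
    refine Finset.sum_nonpos fun i _ => Finset.sum_nonpos fun j _ => ?_
    by_cases hij : i = j
    · subst hij
      have : max (- v i) 0 * max (v i) 0 = 0 := by
        rcases le_total 0 (v i) with h | h
        · rw [max_eq_right (by omega : - v i ≤ 0), zero_mul]
        · rw [max_eq_right h, mul_zero]
      rw [this, zero_mul]
    · exact mul_nonpos_of_nonneg_of_nonpos
        (mul_nonneg (le_max_right _ _) (le_max_right _ _)) (hoff i j hij)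
  omega

end sign

namespace SimpleData

variable {I : Type} [Fintype I] [DecidableEq I] (D : SimpleData I)

/-- pairing of the coroot lattice with the root lattice -/
def pp (c α : I → ℤ) : ℤ := ∑ j, c j * ∑ i, D.A j i * α i

lemma pp_sub_left (c c' α : I → ℤ) : D.pp (c - c') α = D.pp c α - D.pp c' α := by
  unfold pp
  rw [← Finset.sum_sub_distrib]
  exact Finset.sum_congr rfl fun j _ => by rw [Pi.sub_apply]; ring

lemma pp_smul_left (a : ℤ) (c α : I → ℤ) : D.pp (a • c) α = a * D.pp c α := by
  unfold pp
  rw [Finset.mul_sum]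
  exact Finset.sum_congr rfl fun j _ => by rw [Pi.smul_apply, smul_eq_mul]; ring

lemma pp_neg_left (c α : I → ℤ) : D.pp (-c) α = - D.pp c α := by
  have := D.pp_smul_left (-1) c α
  rw [neg_one_smul] at this
  rw [this]; ring

lemma pp_sub_right (c α α' : I → ℤ) : D.pp c (α - α') = D.pp c α - D.pp c α' := by
  unfold pp
  rw [← Finset.sum_sub_distrib]
  refine Finset.sum_congr rfl fun j _ => ?_
  rw [← mul_sub, ← Finset.sum_sub_distrib]
  congr 1
  exact Finset.sum_congr rfl fun i _ => by rw [Pi.sub_apply]; ring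

lemma pp_smul_right (a : ℤ) (c α : I → ℤ) : D.pp c (a • α) = a * D.pp c α := by
  unfold pp
  rw [Finset.mul_sum]
  refine Finset.sum_congr rfl fun j _ => ?_
  rw [mul_left_comm, Finset.mul_sum (a := a)]
  congr 1
  exact Finset.sum_congr rfl fun i _ => by rw [Pi.smul_apply, smul_eq_mul]; ring

lemma pp_neg_right (c α : I → ℤ) : D.pp c (-α) = - D.pp c α := by
  have := D.pp_smul_right (-1) c α
  rw [neg_one_smul] at this
  rw [this]; ring

/-- the standard basis vector -/
abbrev ev (i : I) : I → ℤ := Pi.single i 1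

lemma pp_ev_left (i : I) (α : I → ℤ) : D.pp (ev i) α = ∑ j, D.A i j * α j := by
  unfold pp ev
  rw [Finset.sum_eq_single i]
  · rw [Pi.single_eq_same, one_mul]
  · intro j _ hj
    rw [Pi.single_eq_of_ne hj, zero_mul]
  · intro h; exact absurd (mem_univ i) h

lemma pp_ev_right (i : I) (c : I → ℤ) : D.pp c (ev i) = ∑ j, c j * D.A j i := by
  unfold pp ev
  refine Finset.sum_congr rfl fun j _ => ?_
  congr 1
  rw [Finset.sum_eq_single i]
  · rw [Pi.single_eq_same, mul_one]
  · intro j' _ hj
    rw [Pi.single_eq_of_ne hj, mul_zero]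
  · intro h; exact absurd (mem_univ i) h

lemma pp_ev_ev (i j : I) : D.pp (ev i) (ev j) = D.A i j := by
  rw [pp_ev_left]
  unfold ev
  rw [Finset.sum_eq_single j]
  · rw [Pi.single_eq_same, mul_one]
  · intro j' _ hj
    rw [Pi.single_eq_of_ne hj, mul_zero]
  · intro h; exact absurd (mem_univ j) h

/-- roots together with their coroots and `t` -/
inductive RootT : (I → ℤ) → (I → ℤ) → ℕ → Prop
  | simple (i : I) : RootT (ev i) (ev i) (D.t i)
  | refl (i : I) (α c : I → ℤ) (s : ℕ) (h : RootT α c s) :
      RootT (α - D.pp (ev i) α • ev i) (c - D.pp c (ev i) • ev i) s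

variable {D}

lemma RootT.isRoot {α c : I → ℤ} {s : ℕ} (h : D.RootT α c s) : IsRoot D.A α := by
  induction h with
  | simple i => exact IsRoot.simple i
  | refl i α c s _ ih =>
    rw [D.pp_ev_left]
    exact IsRoot.refl i α ih

lemma exists_rootT {α : I → ℤ} (h : IsRoot D.A α) : ∃ c s, D.RootT α c s := by
  induction h with
  | simple i => exact ⟨_, _, RootT.simple i⟩
  | refl i α _ ih =>
    obtain ⟨c, s, h⟩ := ih
    have := RootT.refl i α c s h
    rw [D.pp_ev_left] at this
    exact ⟨_, _, this⟩

variable (D)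

lemma d_pos : 0 < D.d := by rcases D.d_mem with h | h | h <;> omega

lemma t_pos (i : I) : 0 < D.t i := by
  rcases D.t_mem i with h | h
  · omega
  · rw [h]; exact D.d_pos

/-- `e i = d / t i` -/
def e (i : I) : ℕ := D.d / D.t i

lemma e_mul_t (i : I) : D.e i * D.t i = D.d := by
  unfold e
  rcases D.t_mem i with h | h
  · rw [h]; simp
  · rw [h, Nat.div_self D.d_pos, one_mul]

lemma e_pos (i : I) : 0 < D.e i := by
  have h := D.e_mul_t i
  have := D.d_pos
  by_contra h0
  have : D.e i = 0 := by omega
  rw [this, zero_mul] at h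
  omega

variable {D}

namespace RootT

variable {α c : I → ℤ} {s : ℕ}

lemma rel (h : D.RootT α c s) : ∀ j, (D.t j : ℤ) * c j = s * α j := by
  induction h with
  | simple i =>
    intro j
    by_cases hj : j = i
    · subst hj; simp
    · simp [hj]
  | refl i α c s _ ih =>
    intro j
    have key : (D.t i : ℤ) * D.pp c (ev i) = s * D.pp (ev i) α := by
      rw [D.pp_ev_right, D.pp_ev_left, Finset.mul_sum, Finset.mul_sum]
      refine Finset.sum_congr rfl fun l _ => ?_
      have h1 := ih l
      have h2 := D.symm l i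
      calc (D.t i : ℤ) * (c l * D.A l i) = c l * (D.t i * D.A l i) := by ring
        _ = c l * (D.t l * D.A i l) := by rw [h2]
        _ = (D.t l * c l) * D.A i l := by ring
        _ = s * (D.A i l * α l) := by rw [h1]; ring
    by_cases hj : j = i
    · subst hj
      simp only [Pi.sub_apply, Pi.smul_apply, smul_eq_mul, Pi.single_eq_same, mul_one]
      rw [mul_sub, mul_sub, ih, key]
    · simp only [Pi.sub_apply, Pi.smul_apply, smul_eq_mul, Pi.single_eq_of_ne hj, mul_zero,
        sub_zero]
      exact ih j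

lemma pp_self (h : D.RootT α c s) : D.pp c α = 2 := by
  induction h with
  | simple i => rw [D.pp_ev_ev, D.A_diag]
  | refl i α c s _ ih =>
    rw [D.pp_sub_left, D.pp_sub_right, D.pp_smul_left, D.pp_smul_right, D.pp_sub_right,
      D.pp_smul_right, D.pp_ev_ev, D.A_diag, ih]
    ring

lemma s_mem (h : D.RootT α c s) : s = 1 ∨ s = D.d := by
  induction h with
  | simple i => exact D.t_mem i
  | refl _ _ _ _ _ ih => exact ih

lemma s_pos (h : D.RootT α c s) : 0 < s := by
  rcases h.s_mem with h | h
  · omega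
  · rw [h]; exact D.d_pos

/-- symmetry between roots and coroots -/
lemma sym {α' c' : I → ℤ} {s' : ℕ} (h : D.RootT α c s) (h' : D.RootT α' c' s') :
    (s : ℤ) * D.pp c' α = s' * D.pp c α' := by
  unfold pp
  rw [Finset.mul_sum, Finset.mul_sum]
  have e1 : ∀ j, (s : ℤ) * (c' j * ∑ i, D.A j i * α i) = ∑ i, c' j * D.t j * D.A i j * c i := by
    intro j
    rw [← mul_assoc, Finset.mul_sum]
    refine Finset.sum_congr rfl fun i _ => ?_
    have h1 := h.rel i
    have h2 := D.symm j i
    calc (s : ℤ) * c' j * (D.A j i * α i) = c' j * D.A j i * (s * α i) := by ring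
      _ = c' j * (D.t i * D.A j i) * c i := by rw [← h1]; ring
      _ = c' j * D.t j * D.A i j * c i := by rw [h2]; ring
  have e2 : ∀ i, (s' : ℤ) * (c i * ∑ j, D.A i j * α' j) = ∑ j, c' j * D.t j * D.A i j * c i := by
    intro i
    rw [← mul_assoc, Finset.mul_sum]
    refine Finset.sum_congr rfl fun j _ => ?_
    have h1 := h'.rel j
    calc (s' : ℤ) * c i * (D.A i j * α' j) = c i * D.A i j * (s' * α' j) := by ring
      _ = c' j * D.t j * D.A i j * c i := by rw [← h1]; ring
  rw [Finset.sum_congr rfl fun j _ => e1 j, Finset.sum_congr rfl fun j _ => e2 j,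
    Finset.sum_comm]

/-- closure under all reflections -/
lemma reflect {β b : I → ℤ} {r : ℕ} (h : D.RootT β b r) :
    ∀ {γ c : I → ℤ} {s : ℕ}, D.RootT γ c s →
      D.RootT (γ - D.pp b γ • β) (c - D.pp c β • b) s := by
  induction h with
  | simple i => exact fun h' => RootT.refl i _ _ _ h'
  | refl i β b r _ ih =>
    intro γ c s h'
    have h1 := RootT.refl i _ _ _ h'
    have h2 := ih h1
    have h3 := RootT.refl i _ _ _ h2
    have hA : D.pp (ev i) (ev i) = 2 := by rw [D.pp_ev_ev, D.A_diag]
    have e1 : γ - D.pp (ev i) γ • ev i - D.pp b (γ - D.pp (ev i) γ • ev i) • β -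
        D.pp (ev i) (γ - D.pp (ev i) γ • ev i - D.pp b (γ - D.pp (ev i) γ • ev i) • β) • ev i
        = γ - D.pp (b - D.pp b (ev i) • ev i) γ • (β - D.pp (ev i) β • ev i) := by
      simp only [D.pp_sub_right, D.pp_smul_right, D.pp_sub_left, D.pp_smul_left, hA]
      funext j
      simp only [Pi.sub_apply, Pi.smul_apply, smul_eq_mul]
      ring
    have e2 : c - D.pp c (ev i) • ev i - D.pp (c - D.pp c (ev i) • ev i) β • b -
        D.pp (c - D.pp c (ev i) • ev i - D.pp (c - D.pp c (ev i) • ev i) β • b) (ev i) • ev i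
        = c - D.pp c (β - D.pp (ev i) β • ev i) • (b - D.pp b (ev i) • ev i) := by
      simp only [D.pp_sub_right, D.pp_smul_right, D.pp_sub_left, D.pp_smul_left, hA]
      funext j
      simp only [Pi.sub_apply, Pi.smul_apply, smul_eq_mul]
      ring
    rw [e1, e2] at h3
    exact h3

lemma neg (h : D.RootT α c s) : D.RootT (-α) (-c) s := by
  have h1 := h.reflect h
  rw [h.pp_self] at h1
  have e1 : α - (2 : ℤ) • α = - α := by funext j; simp; ring
  have e2 : c - (2 : ℤ) • c = - c := by funext j; simp; ring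
  rwa [e1, e2] at h1

lemma le_θ (h : D.RootT α c s) : α ≤ D.θ := D.le_θ α h.isRoot

lemma neg_θ_le (h : D.RootT α c s) : - D.θ ≤ α := by
  intro j
  have := h.neg.le_θ j
  simp only [Pi.neg_apply] at this ⊢
  omega

end RootT

/-- coordinates of a root have the same sign -/
lemma RootT.sign {α c : I → ℤ} {s : ℕ} (h : D.RootT α c s) : 0 ≤ α ∨ α ≤ 0 := by
  have hc : ∀ i, (D.t i : ℤ) * c i = s * α i := h.rel
  have htp : ∀ i, (0 : ℤ) < D.t i := fun i => by exact_mod_cast D.t_pos i
  have hsp : (0 : ℤ) < s := by exact_mod_cast h.s_pos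
  rcases h.s_mem with h1 | h1
  · -- long root
    have key := same_sign (fun i j => (D.t j : ℤ) * D.A i j) (fun i j => D.symm i j)
      (fun i => by rw [D.A_diag]; exact Dvd.intro_left _ rfl)
      (fun i j hij => mul_nonpos_of_nonneg_of_nonpos (htp j).le (D.A_off i j hij)) ?_ c ?_
    · rcases key with h2 | h2
      · left
        intro i
        have h3 := hc i
        have h4 : 0 ≤ (D.t i : ℤ) * c i := mul_nonneg (htp i).le (h2 i)
        rw [h3] at h4
        exact nonneg_of_mul_nonneg_right h4 hsp
      · right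
        intro i
        have h3 := hc i
        have h4 : (D.t i : ℤ) * c i ≤ 0 := mul_nonpos_of_nonneg_of_nonpos (htp i).le (h2 i)
        rw [h3] at h4
        exact nonpos_of_mul_nonpos_right h4 hsp
    · intro v hv
      have h2 := D.posdef (fun i => (D.t i : ℝ) * v i) (by
        intro h3
        apply hv
        funext i
        have h4 := congrFun h3 i
        have h5 : (D.t i : ℝ) ≠ 0 := by exact_mod_cast (D.t_pos i).ne'
        simp only [Pi.zero_apply, mul_eq_zero] at h4
        rcases h4 with h4 | h4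
        · exact absurd h4 h5
        · exact_mod_cast h4)
      have h3 : ∑ i, ∑ j, ((D.t i : ℝ) * v i) * ((D.t j : ℝ) * v j) * (D.A i j / D.t i) =
          ((qf (fun i j => (D.t j : ℤ) * D.A i j) v : ℤ) : ℝ) := by
        unfold qf
        push_cast
        refine Finset.sum_congr rfl fun i _ => Finset.sum_congr rfl fun j _ => ?_
        have h5 : (D.t i : ℝ) ≠ 0 := by exact_mod_cast (D.t_pos i).ne'
        field_simp
      rw [h3] at h2
      exact_mod_cast h2
    · have h2 := h.pp_self
      unfold pp at h2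
      unfold qf
      rw [← h2]
      refine Finset.sum_congr rfl fun i _ => ?_
      rw [Finset.mul_sum]
      refine Finset.sum_congr rfl fun j _ => ?_
      have h3 := hc j
      rw [h1] at h3
      push_cast at h3
      rw [one_mul] at h3
      rw [← h3]
      ring
  · -- short root
    have he : ∀ i, (D.e i : ℤ) * D.t i = D.d := fun i => by exact_mod_cast D.e_mul_t i
    have hep : ∀ i, (0 : ℤ) < D.e i := fun i => by exact_mod_cast D.e_pos i
    have key := same_sign (fun i j => (D.e i : ℤ) * D.A i j) ?_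
      (fun i => by rw [D.A_diag]; exact Dvd.intro_left _ rfl)
      (fun i j hij => mul_nonpos_of_nonneg_of_nonpos (hep i).le (D.A_off i j hij)) ?_ α ?_
    · rcases key with h2 | h2
      · left
        exact h2
      · right
        exact h2
    · intro i j
      have h2 := D.symm i j
      have h3 : ((D.t i : ℤ) * D.t j) * (D.e i * D.A i j) =
          ((D.t i : ℤ) * D.t j) * (D.e j * D.A j i) := by
        calc ((D.t i : ℤ) * D.t j) * (D.e i * D.A i j) =
            (D.e i * D.t i) * (D.t j * D.A i j) := by ring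
          _ = (D.e j * D.t j) * (D.t i * D.A j i) := by rw [he, he, h2]
          _ = _ := by ring
      exact mul_left_cancel₀ (mul_pos (htp i) (htp j)).ne' h3
    · intro v hv
      have h2 := D.posdef (fun i => (v i : ℝ)) (by
        intro h3
        apply hv
        funext i
        have h4 := congrFun h3 i
        simp only [Pi.zero_apply] at h4
        exact_mod_cast h4)
      have h3 : ((qf (fun i j => (D.e i : ℤ) * D.A i j) v : ℤ) : ℝ) =
          D.d * ∑ i, ∑ j, (v i : ℝ) * v j * (D.A i j / D.t i) := by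
        unfold qf
        push_cast
        rw [Finset.mul_sum]
        refine Finset.sum_congr rfl fun i _ => ?_
        rw [Finset.mul_sum]
        refine Finset.sum_congr rfl fun j _ => ?_
        have h5 : (D.t i : ℝ) ≠ 0 := by exact_mod_cast (D.t_pos i).ne'
        have h6 : (D.e i : ℝ) * D.t i = D.d := by exact_mod_cast D.e_mul_t i
        rw [← h6]
        field_simp
      have h4 : (0 : ℝ) < D.d := by exact_mod_cast D.d_pos
      have h5 : (0 : ℝ) < ((qf (fun i j => (D.e i : ℤ) * D.A i j) v : ℤ) : ℝ) := by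
        rw [h3]; exact mul_pos h4 h2
      exact_mod_cast h5
    · have h2 := h.pp_self
      unfold pp at h2
      unfold qf
      rw [← h2]
      refine Finset.sum_congr rfl fun i _ => ?_
      rw [Finset.mul_sum]
      refine Finset.sum_congr rfl fun j _ => ?_
      have h3 := hc i
      rw [h1, ← he i] at h3
      have h4 : c i = D.e i * α i := by
        have h5 : (D.t i : ℤ) * c i = D.t i * (D.e i * α i) := by rw [h3]; ring
        exact mul_left_cancel₀ (htp i).ne' h5
      rw [h4]
      ring

end SimpleData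

end Pool.Agent.LS60
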