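import Pool.Agent.LS60.Main

set_option autoImplicit false

/-! Root data give cover systems. -/

namespace Pool.Agent.LS60

/-- Abstract real root data for weights `I → ℤ`. -/
structure RootSys (I : Type) where
  R : Type
  rt : R → I → ℤ
  pr : (I → ℤ) → R → ℤ
  ht : R → ℤ
  simple : I → R
  rf : R → R → R
  good : (I → ℤ) → Prop
  pr_lin : ∀ μ c κ β, pr (μ - c • κ) β = pr μ β - c * pr κ β
  pr_self : ∀ β, pr (rt β) β = 2
  pr_rf : ∀ μ β γ, pr μ (rf β γ) = pr μ γ - pr (rt β) γ * pr μ β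
  ht_rf : ∀ β γ, ht (rf β γ) = ht γ - pr (rt β) γ * ht β
  rf_rf : ∀ β γ, rf β (rf β γ) = γ
  ht_ne : ∀ β, ht β ≠ 0
  pr_simple : ∀ μ i, pr μ (simple i) = μ i
  ht_simple : ∀ i, 0 < ht (simple i)
  simple_pos : ∀ i β, 0 < ht β → β ≠ simple i → 0 < ht (rf (simple i) β)
  fin : ∀ μ, good μ → {β | 0 < ht β ∧ pr μ β < 0}.Finite
  good_rf : ∀ μ β, good μ → good (μ - pr μ β • rt β)
  dom : ∀ μ, (∀ i, 0 ≤ μ i) → ∀ β, 0 < ht β → 0 ≤ pr μ β

namespace RootSys

variable {I : Type} (S : RootSys I)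

/-- inversion set -/
def inv (μ : I → ℤ) : Set S.R := {β | 0 < S.ht β ∧ S.pr μ β < 0}

/-- reflection on weights -/
def refl (β : S.R) (μ : I → ℤ) : I → ℤ := μ - S.pr μ β • S.rt β

/-- number of inversions -/
noncomputable def len (μ : I → ℤ) : ℕ := (S.inv μ).ncard

lemma pr_refl (β γ : S.R) (μ : I → ℤ) : S.pr (S.refl β μ) γ = S.pr μ (S.rf β γ) := by
  unfold refl
  rw [S.pr_lin, S.pr_rf]
  ring

lemma good_refl {μ : I → ℤ} (β : S.R) (h : S.good μ) : S.good (S.refl β μ) := S.good_rf μ β h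

lemma pr_refl_self (β : S.R) (μ : I → ℤ) : S.pr (S.refl β μ) β = - S.pr μ β := by
  unfold refl
  rw [S.pr_lin, S.pr_self]
  ring

lemma refl_refl (β : S.R) (μ : I → ℤ) : S.refl β (S.refl β μ) = μ := by
  have h := S.pr_refl_self β μ
  unfold refl at h ⊢
  rw [h]
  funext j
  simp

/-- L2 -/
lemma len_refl_lt {μ : I → ℤ} (hg : S.good μ) (β : S.R) (hb : 0 < S.ht β) (hμ : S.pr μ β < 0) :
    S.len (S.refl β μ) < S.len μ := by
  classical
  have hfin : (S.inv μ).Finite := S.fin μ hg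
  have hβ : β ∈ S.inv μ := ⟨hb, hμ⟩
  have h1 : (S.inv μ \ {β}).ncard < (S.inv μ).ncard :=
    Set.ncard_sdiff_singleton_lt_of_mem hβ hfin
  refine lt_of_le_of_lt ?_ h1
  unfold len
  refine Set.ncard_le_ncard_of_injOn
    (fun γ => if 0 < S.ht (S.rf β γ) then S.rf β γ else γ) ?_ ?_ (hfin.subset Set.sdiff_subset)
  · intro γ hγ
    obtain ⟨h2, h3⟩ := hγ
    rw [S.pr_refl] at h3
    split_ifs with h4
    · refine ⟨⟨h4, h3⟩, ?_⟩
      intro h5
      rw [Set.mem_singleton_iff] at h5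
      have h6 : γ = S.rf β β := by rw [← S.rf_rf β γ, h5]
      rw [h6, S.ht_rf, S.pr_self] at h2
      omega
    · have h5 : S.ht (S.rf β γ) < 0 := lt_of_le_of_ne (not_lt.1 h4) (S.ht_ne _)
      have h6 := S.ht_rf β γ
      have h7 := S.pr_rf μ β γ
      have h8 : 0 < S.pr (S.rt β) γ := by
        by_contra h8
        have : S.pr (S.rt β) γ * S.ht β ≤ 0 :=
          mul_nonpos_of_nonpos_of_nonneg (not_lt.1 h8) hb.le
        omega
      have h9 : S.pr (S.rt β) γ * S.pr μ β < 0 := mul_neg_of_pos_of_neg h8 hμ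
      refine ⟨⟨h2, by omega⟩, ?_⟩
      intro h10
      rw [Set.mem_singleton_iff] at h10
      subst h10
      rw [S.pr_rf, S.pr_self] at h3
      omega
  · intro γ hγ γ' hγ' heq
    obtain ⟨h2, h3⟩ := hγ
    obtain ⟨h2', h3'⟩ := hγ'
    dsimp only at heq
    split_ifs at heq with h4 h5 h5
    · rw [← S.rf_rf β γ, heq, S.rf_rf]
    · exfalso
      apply h5
      rw [← heq, S.rf_rf]
      exact h2
    · exfalso
      apply h4
      rw [heq, S.rf_rf]
      exact h2'
    · exact heq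

/-- L1 -/
lemma len_simple {μ : I → ℤ} (hg : S.good μ) (i : I) (hμ : μ i < 0) :
    S.len (S.refl (S.simple i) μ) + 1 = S.len μ := by
  classical
  have hfin : (S.inv μ).Finite := S.fin μ hg
  have hβ : S.simple i ∈ S.inv μ := ⟨S.ht_simple i, by rw [S.pr_simple]; exact hμ⟩
  have h1 : (S.inv μ \ {S.simple i}).ncard + 1 = (S.inv μ).ncard :=
    Set.ncard_sdiff_singleton_add_one hβ hfin
  unfold len
  rw [← h1]
  congr 1
  refine Set.ncard_congr (fun γ _ => S.rf (S.simple i) γ) ?_ ?_ ?_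
  · intro γ hγ
    obtain ⟨h2, h3⟩ := hγ
    have h4 : γ ≠ S.simple i := by
      rintro rfl
      rw [S.pr_refl_self, S.pr_simple] at h3
      omega
    rw [S.pr_refl] at h3
    refine ⟨⟨S.simple_pos i γ h2 h4, h3⟩, ?_⟩
    intro h5
    rw [Set.mem_singleton_iff] at h5
    have h6 : γ = S.rf (S.simple i) (S.simple i) := by
      rw [← S.rf_rf (S.simple i) γ, h5]
    rw [h6, S.ht_rf, S.pr_self] at h2
    have := S.ht_simple i
    omega
  · intro γ γ' _ _ h
    rw [← S.rf_rf (S.simple i) γ, h, S.rf_rf]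
  · intro γ hγ
    obtain ⟨⟨h2, h3⟩, h4⟩ := hγ
    rw [Set.mem_singleton_iff] at h4
    refine ⟨S.rf (S.simple i) γ, ⟨S.simple_pos i γ h2 h4, ?_⟩, S.rf_rf _ _⟩
    rw [S.pr_refl, S.rf_rf]
    exact h3

lemma refl_of_zero {μ : I → ℤ} (i : I) (h : μ i = 0) : S.refl (S.simple i) μ = μ := by
  unfold refl
  rw [S.pr_simple, h]
  simp

lemma refl_simple_apply (μ : I → ℤ) (i : I) : S.refl (S.simple i) μ i = - μ i := by
  have := S.pr_refl_self (S.simple i) μ
  rwa [S.pr_simple, S.pr_simple] at this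

lemma len_simple' {μ : I → ℤ} (hg : S.good μ) (i : I) (hμ : 0 < μ i) :
    S.len (S.refl (S.simple i) μ) = S.len μ + 1 := by
  have h1 := S.len_simple (S.good_refl (S.simple i) hg) i (by rw [S.refl_simple_apply]; omega)
  rw [S.refl_refl] at h1
  exact h1.symm

/-- reflections commute in the appropriate sense -/
lemma refl_rf (i : I) (β : S.R) (μ : I → ℤ) (h : ∀ i β, S.rt (S.rf (S.simple i) β) =
    S.rt β - S.pr (S.rt β) (S.simple i) • S.rt (S.simple i)) :
    S.refl (S.rf (S.simple i) β) (S.refl (S.simple i) μ) =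
      S.refl (S.simple i) (S.refl β μ) := by
  have h1 : S.pr (S.refl (S.simple i) μ) (S.rf (S.simple i) β) = S.pr μ β := by
    rw [S.pr_refl, S.rf_rf]
  unfold refl at h1 ⊢
  rw [h1, h i β, S.pr_lin]
  funext j
  simp only [Pi.sub_apply, Pi.smul_apply, smul_eq_mul]
  ring

/-- The cover system of a root system. -/
noncomputable def toCov (h : ∀ i β, S.rt (S.rf (S.simple i) β) =
    S.rt β - S.pr (S.rt β) (S.simple i) • S.rt (S.simple i)) : CovSys I where
  R := S.R
  rt := S.rt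
  pr := S.pr
  simple := S.simple
  sref i β := S.rf (S.simple i) β
  good := S.good
  Cov μ ν β := S.good μ ∧ 0 < S.ht β ∧ S.pr μ β < 0 ∧ ν = S.refl β μ ∧ S.len μ = S.len ν + 1
  len := S.len
  pr_simple := S.pr_simple
  rt_simple i := by
    have := S.pr_self (S.simple i)
    rwa [S.pr_simple] at this
  cov_eq := fun ⟨_, _, _, h, _⟩ => h
  cov_neg := fun ⟨_, _, h, _, _⟩ => h
  cov_good := by
    rintro μ ν β ⟨h1, _, _, rfl, _⟩
    exact S.good_refl β h1
  cov_len := fun ⟨_, _, _, _, h⟩ => h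
  good_s i hg := by
    have := S.good_refl (S.simple i) hg
    unfold refl at this
    rwa [S.pr_simple] at this
  fin_cov μ hg := by
    refine ((S.fin μ hg).image (fun β => S.refl β μ)).subset ?_
    rintro ν ⟨β, _, h2, h3, rfl, _⟩
    exact ⟨β, ⟨h2, h3⟩, rfl⟩
  pr_s μ i β := by
    have h1 : S.pr (S.refl (S.simple i) μ) (S.rf (S.simple i) β) = S.pr μ β := by
      rw [S.pr_refl, S.rf_rf]
    unfold refl at h1
    rwa [S.pr_simple] at h1
  A1 := by
    intro μ i hg hμ
    have h1 : S.refl (S.simple i) μ = μ - μ i • S.rt (S.simple i) := by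
      unfold refl; rw [S.pr_simple]
    rw [← h1]
    exact ⟨hg, S.ht_simple i, by rw [S.pr_simple]; exact hμ, rfl, (S.len_simple hg i hμ).symm⟩
  A2 := by
    rintro μ ν β i ⟨hg, hb, hμβ, rfl, hlen⟩ hne hμ
    have e1 : ∀ κ : I → ℤ, κ - κ i • S.rt (S.simple i) = S.refl (S.simple i) κ := by
      intro κ; unfold refl; rw [S.pr_simple]
    rw [e1, e1]
    have hg' := S.good_refl (S.simple i) hg
    have hb' := S.simple_pos i β hb hne
    have hpr : S.pr (S.refl (S.simple i) μ) (S.rf (S.simple i) β) < 0 := by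
      rw [S.pr_refl, S.rf_rf]; exact hμβ
    have h1 := S.len_refl_lt hg' _ hb' hpr
    have h2 := S.len_simple hg i hμ
    rw [S.refl_rf i β μ h] at h1
    have hgν := S.good_refl β hg
    have h3 : S.refl β μ i < 0 := by
      rcases lt_trichotomy (S.refl β μ i) 0 with h3 | h3 | h3
      · exact h3
      · rw [S.refl_of_zero i h3] at h1
        omega
      · have := S.len_simple' hgν i h3
        omega
    refine ⟨h3, hg', hb', hpr, (S.refl_rf i β μ h).symm, ?_⟩
    have h4 := S.len_simple hgν i h3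
    omega
  A3 := by
    rintro μ ν β i ⟨hg, hb, hμβ, rfl, hlen⟩ hne hν
    have e1 : ∀ κ : I → ℤ, κ - κ i • S.rt (S.simple i) = S.refl (S.simple i) κ := by
      intro κ; unfold refl; rw [S.pr_simple]
    rw [e1, e1]
    have hg' := S.good_refl (S.simple i) hg
    have hb' := S.simple_pos i β hb hne
    have hpr : S.pr (S.refl (S.simple i) μ) (S.rf (S.simple i) β) < 0 := by
      rw [S.pr_refl, S.rf_rf]; exact hμβ
    have h1 := S.len_refl_lt hg' _ hb' hpr
    rw [S.refl_rf i β μ h] at h1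
    have hgν := S.good_refl β hg
    have h2 := S.len_simple' hgν i hν
    have h3 : 0 < μ i := by
      rcases lt_trichotomy (μ i) 0 with h3 | h3 | h3
      · have := S.len_simple hg i h3
        omega
      · rw [S.refl_of_zero i h3] at h1
        omega
      · exact h3
    refine ⟨h3, hg', hb', hpr, (S.refl_rf i β μ h).symm, ?_⟩
    have h4 := S.len_simple' hg i h3
    omega

end RootSys

end Pool.Agent.LS60
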