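import Pool.Agent.LS60.FinA
import Pool.Agent.LS60.Root

set_option autoImplicit false

/-! Highest root facts and the affine root system. -/

namespace Pool.Agent.LS60

open Finset

namespace SimpleData

variable {I : Type} [Fintype I] [DecidableEq I] {D : SimpleData I}

lemma RootT.coeff_sign {α c : I → ℤ} {s : ℕ} (h : D.RootT α c s) (j : I) :
    (0 ≤ α j ↔ 0 ≤ c j) ∧ (α j ≤ 0 ↔ c j ≤ 0) := by
  have h1 := h.rel j
  have htp : (0 : ℤ) < D.t j := by exact_mod_cast D.t_pos j
  have hsp : (0 : ℤ) < s := by exact_mod_cast h.s_pos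
  refine ⟨⟨fun h2 => ?_, fun h2 => ?_⟩, ⟨fun h2 => ?_, fun h2 => ?_⟩⟩
  · have h3 : 0 ≤ (s : ℤ) * α j := mul_nonneg hsp.le h2
    rw [← h1] at h3
    exact nonneg_of_mul_nonneg_right h3 htp
  · have h3 : 0 ≤ (D.t j : ℤ) * c j := mul_nonneg htp.le h2
    rw [h1] at h3
    exact nonneg_of_mul_nonneg_right h3 hsp
  · have h3 : (s : ℤ) * α j ≤ 0 := mul_nonpos_of_nonneg_of_nonpos hsp.le h2
    rw [← h1] at h3
    exact nonpos_of_mul_nonpos_right h3 htp
  · have h3 : (D.t j : ℤ) * c j ≤ 0 := mul_nonpos_of_nonneg_of_nonpos htp.le h2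
    rw [h1] at h3
    exact nonpos_of_mul_nonpos_right h3 hsp

lemma RootT.ne_zero {α c : I → ℤ} {s : ℕ} (h : D.RootT α c s) : α ≠ 0 := by
  rintro rfl
  have h1 := h.pp_self
  have h2 : D.pp c 0 = 0 := by
    have := D.pp_smul_right 0 c 0
    simpa using this
  omega

lemma RootT.not_both {α c : I → ℤ} {s : ℕ} (h : D.RootT α c s) (h1 : 0 ≤ α) (h2 : α ≤ 0) :
    False := h.ne_zero (le_antisymm h2 h1)

/-- a root is determined by its first component -/
lemma RootT.unique {α c c' : I → ℤ} {s s' : ℕ} (h : D.RootT α c s) (h' : D.RootT α c' s') :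
    c = c' ∧ s = s' := by
  have h1 := h.sym h'
  rw [h.pp_self, h'.pp_self] at h1
  have hs : s = s' := by
    have : (s : ℤ) = s' := by omega
    exact_mod_cast this
  subst hs
  refine ⟨?_, rfl⟩
  funext j
  have h2 := h.rel j
  have h3 := h'.rel j
  have htp : (0 : ℤ) < D.t j := by exact_mod_cast D.t_pos j
  have h4 : (D.t j : ℤ) * c j = D.t j * c' j := by rw [h2, h3]
  exact mul_left_cancel₀ htp.ne' h4

/-- simple reflections preserve the other positive roots -/
lemma RootT.simple_pos {α c : I → ℤ} {s : ℕ} (h : D.RootT α c s) (hα : 0 ≤ α) (i : I)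
    (hne : α ≠ ev i) : 0 ≤ α - D.pp (ev i) α • ev i := by
  have h1 := RootT.refl i _ _ _ h
  rcases h1.sign with h2 | h2
  · exact h2
  · exfalso
    have h3 : ∀ j, j ≠ i → α j = 0 := by
      intro j hj
      have h4 := h2 j
      have h5 := hα j
      simp only [Pi.sub_apply, Pi.smul_apply, smul_eq_mul, Pi.single_eq_of_ne hj,
        Pi.zero_apply] at h4 h5
      omega
    have h4 : ∀ j, j ≠ i → c j = 0 := by
      intro j hj
      have h5 := h.coeff_sign j
      rw [h3 j hj] at h5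
      have h6 := h5.1.1 le_rfl
      have h7 := h5.2.1 le_rfl
      omega
    have h5 : α = α i • ev i := by
      funext j
      by_cases hj : j = i
      · subst hj; simp
      · simp [hj, h3 j hj]
    have h6 : c = c i • ev i := by
      funext j
      by_cases hj : j = i
      · subst hj; simp
      · simp [hj, h4 j hj]
    have h7 := h.pp_self
    rw [h5, h6, D.pp_smul_left, D.pp_smul_right, D.pp_ev_ev, D.A_diag] at h7
    have h8 : c i * α i = 1 := by linarith
    have h9 : 0 ≤ α i := hα i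
    have h10 : α i = 1 := by
      rcases Int.eq_one_or_neg_one_of_mul_eq_one' h8 with h | h
      · exact h.2
      · omega
    apply hne
    rw [h5, h10, one_smul]

variable (D)

lemma rootT_θ : D.RootT D.θ D.cθ 1 := by
  obtain ⟨c, s, h⟩ := exists_rootT D.root_θ
  have h1 := D.norm_θ
  have h2 : (∑ i, ∑ j, (D.θ i : ℝ) * D.θ j * (D.A i j / D.t i)) * s = 2 := by
    have h3 : ((D.pp c D.θ : ℤ) : ℝ) = 2 := by rw [h.pp_self]; norm_num
    rw [← h3]
    unfold pp
    push_cast
    rw [Finset.sum_mul]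
    refine Finset.sum_congr rfl fun i _ => ?_
    rw [Finset.sum_mul, Finset.mul_sum]
    refine Finset.sum_congr rfl fun j _ => ?_
    have h4 : (D.t i : ℝ) * c i = s * D.θ i := by exact_mod_cast h.rel i
    have h5 : (D.t i : ℝ) ≠ 0 := by exact_mod_cast (D.t_pos i).ne'
    have h6 : (c i : ℝ) = s * D.θ i / D.t i := by
      field_simp
      linarith
    rw [h6]
    ring
  rw [h1] at h2
  have h3 : s = 1 := by
    have : (s : ℝ) = 1 := by linarith
    exact_mod_cast this
  subst h3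
  have h4 : c = D.cθ := by
    funext j
    have h5 := h.rel j
    unfold cθ
    push_cast at h5
    rw [one_mul] at h5
    rw [← h5]
    exact (Int.mul_ediv_cancel_left _ (by exact_mod_cast (D.t_pos j).ne')).symm
  rwa [h4] at h

lemma t_mul_cθ (j : I) : (D.t j : ℤ) * D.cθ j = D.θ j := by
  have := D.rootT_θ.rel j
  push_cast at this
  rwa [one_mul] at this

lemma θ_pos (j : I) : 1 ≤ D.θ j := by
  have := (RootT.simple (D := D) j).le_θ j
  simpa using this

lemma θ_nonneg : 0 ≤ D.θ := fun j => by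
  have := D.θ_pos j
  simp only [Pi.zero_apply]
  omega

lemma cθ_pos (j : I) : 1 ≤ D.cθ j := by
  have h1 := D.t_mul_cθ j
  have h2 := D.θ_pos j
  have htp : (0 : ℤ) < D.t j := by exact_mod_cast D.t_pos j
  have h3 : 0 < (D.t j : ℤ) * D.cθ j := by omega
  have := pos_of_mul_pos_right h3 htp.le
  omega

lemma θ_dom (j : I) : 0 ≤ D.pp (ev j) D.θ := by
  have h1 := (RootT.refl j _ _ _ D.rootT_θ).le_θ j
  simp only [Pi.sub_apply, Pi.smul_apply, smul_eq_mul, Pi.single_eq_same, mul_one] at h1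
  omega

variable {D}

/-- expansion of the pairing in the first slot -/
lemma pp_eq_sum (c α : I → ℤ) : D.pp c α = ∑ j, c j * D.pp (ev j) α := by
  unfold pp
  refine Finset.sum_congr rfl fun j _ => ?_
  rw [← D.pp_ev_left]
  rfl

lemma RootT.pp_θ_nonneg {α c : I → ℤ} {s : ℕ} (h : D.RootT α c s) (hα : 0 ≤ α) :
    0 ≤ D.pp D.cθ α := by
  have h1 := h.sym D.rootT_θ
  have h2 : 0 ≤ D.pp c D.θ := by
    rw [pp_eq_sum]
    exact Finset.sum_nonneg fun j _ => mul_nonneg (((h.coeff_sign j).1).1 (hα j)) (D.θ_dom j)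
  have hsp : (0 : ℤ) < s := by exact_mod_cast h.s_pos
  have h3 : 0 ≤ (s : ℤ) * D.pp D.cθ α := by
    rw [h1]; push_cast; rw [one_mul]; exact h2
  exact nonneg_of_mul_nonneg_right h3 hsp

lemma RootT.pp_θ_le [Nonempty I] {α c : I → ℤ} {s : ℕ} (h : D.RootT α c s)
    (hne : α ≠ D.θ) : D.pp D.cθ α ≤ 1 := by
  by_contra hcon
  push Not at hcon
  have h1 := (D.rootT_θ.reflect h).neg_θ_le
  have h2 := h.le_θ
  obtain ⟨j0⟩ := ‹Nonempty I›
  have h3 := h1 j0
  have h4 := h2 j0
  have h5 := D.θ_pos j0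
  simp only [Pi.neg_apply, Pi.sub_apply, Pi.smul_apply, smul_eq_mul] at h3
  have h6 : D.pp D.cθ α = 2 := by nlinarith
  apply hne
  funext j
  have h7 : (-D.θ) j ≤ (α - D.pp D.cθ α • D.θ) j := h1 j
  have h8 : α j ≤ D.θ j := h2 j
  rw [h6] at h7
  simp only [Pi.neg_apply, Pi.sub_apply, Pi.smul_apply, smul_eq_mul] at h7
  omega

lemma RootT.pp_θ_ge [Nonempty I] {α c : I → ℤ} {s : ℕ} (h : D.RootT α c s)
    (hne : α ≠ -D.θ) : -1 ≤ D.pp D.cθ α := by
  have h1 := h.neg.pp_θ_le (by intro h2; apply hne; rw [← h2, neg_neg])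
  rw [D.pp_neg_right] at h1
  omega

/-- coroot coordinates are bounded by those of the highest root -/
lemma RootT.c_le {α c : I → ℤ} {s : ℕ} (h : D.RootT α c s) (j : I) : c j ≤ s * D.cθ j := by
  have h1 := h.rel j
  have h2 := D.t_mul_cθ j
  have h3 := h.le_θ j
  have htp : (0 : ℤ) < D.t j := by exact_mod_cast D.t_pos j
  have hsp : (0 : ℤ) < s := by exact_mod_cast h.s_pos
  have h4 : (D.t j : ℤ) * c j ≤ D.t j * (s * D.cθ j) := by
    calc (D.t j : ℤ) * c j = s * α j := h1
      _ ≤ s * D.θ j := mul_le_mul_of_nonneg_left h3 hsp.le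
      _ = D.t j * (s * D.cθ j) := by rw [← h2]; ring
  exact le_of_mul_le_mul_left h4 htp

lemma RootT.sum_le {α c : I → ℤ} {s : ℕ} (h : D.RootT α c s) (μ : I → ℤ) (hμ : ∀ j, 0 ≤ μ j) :
    ∑ j, c j * μ j ≤ s * ∑ j, D.cθ j * μ j := by
  rw [Finset.mul_sum]
  refine Finset.sum_le_sum fun j _ => ?_
  have := mul_le_mul_of_nonneg_right (h.c_le j) (hμ j)
  rwa [mul_assoc] at this

lemma RootT.le_sum {α c : I → ℤ} {s : ℕ} (h : D.RootT α c s) (μ : I → ℤ) (hμ : ∀ j, 0 ≤ μ j) :
    - (s * ∑ j, D.cθ j * μ j) ≤ ∑ j, c j * μ j := by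
  have h1 := h.neg.sum_le μ hμ
  have h2 : ∑ j, (-c) j * μ j = - ∑ j, c j * μ j := by
    rw [← Finset.sum_neg_distrib]
    exact Finset.sum_congr rfl fun j _ => by rw [Pi.neg_apply]; ring
  omega

variable (D)

/-- level of an affine weight -/
def lev (μ : Option I → ℤ) : ℤ := μ none + ∑ j, D.cθ j * μ (some j)

/-- real affine roots -/
@[ext] structure ARoot where
  α : I → ℤ
  c : I → ℤ
  s : ℕ
  n : ℤ
  h : D.RootT α c s

variable {D}

lemma lev_aff (l : ℤ) (μ : I → ℤ) : D.lev (D.aff l μ) = l := by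
  unfold lev aff
  simp

lemma aff_lev (μ : Option I → ℤ) : D.aff (D.lev μ) (fun j => μ (some j)) = μ := by
  funext j
  cases j with
  | none => unfold lev aff; simp
  | some j => rfl

lemma lev_sub_smul (μ κ : Option I → ℤ) (a : ℤ) :
    D.lev (μ - a • κ) = D.lev μ - a * D.lev κ := by
  unfold lev
  simp only [Pi.sub_apply, Pi.smul_apply, smul_eq_mul]
  rw [mul_add, Finset.mul_sum]
  have : ∑ j, D.cθ j * (μ (some j) - a * κ (some j)) =
      ∑ j, D.cθ j * μ (some j) - ∑ j, a * (D.cθ j * κ (some j)) := by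
    rw [← Finset.sum_sub_distrib]
    exact Finset.sum_congr rfl fun j _ => by ring
  rw [this]
  ring

namespace ARoot

/-- the affine root as a weight -/
def rt (β : D.ARoot) : Option I → ℤ := D.aff 0 (fun j => D.pp (ev j) β.α)

/-- pairing with the affine coroot -/
def pr (μ : Option I → ℤ) (β : D.ARoot) : ℤ :=
  ∑ j, β.c j * μ (some j) + β.n * β.s * D.lev μ

/-- reflection of affine roots -/
def rf (β γ : D.ARoot) : D.ARoot :=
  ⟨γ.α - D.pp β.c γ.α • β.α, γ.c - D.pp γ.c β.α • β.c, γ.s, γ.n - D.pp β.c γ.α * β.n,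
    β.h.reflect γ.h⟩

/-- simple affine roots -/
def simple : Option I → D.ARoot
  | some i => ⟨ev i, ev i, D.t i, 0, RootT.simple i⟩
  | none => ⟨-D.θ, -D.cθ, 1, 1, D.rootT_θ.neg⟩

lemma lev_rt (β : D.ARoot) : D.lev β.rt = 0 := lev_aff _ _

lemma pr_rt (β γ : D.ARoot) : pr β.rt γ = D.pp γ.c β.α := by
  unfold pr
  rw [lev_rt, mul_zero, add_zero, pp_eq_sum]
  rfl

lemma pr_lin (μ : Option I → ℤ) (a : ℤ) (κ : Option I → ℤ) (β : D.ARoot) :
    pr (μ - a • κ) β = pr μ β - a * pr κ β := by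
  unfold pr
  rw [lev_sub_smul]
  simp only [Pi.sub_apply, Pi.smul_apply, smul_eq_mul]
  have : ∑ j, β.c j * (μ (some j) - a * κ (some j)) =
      ∑ j, β.c j * μ (some j) - a * ∑ j, β.c j * κ (some j) := by
    rw [Finset.mul_sum, ← Finset.sum_sub_distrib]
    exact Finset.sum_congr rfl fun j _ => by ring
  rw [this]
  ring

lemma pr_rf (μ : Option I → ℤ) (β γ : D.ARoot) :
    pr μ (rf β γ) = pr μ γ - pr β.rt γ * pr μ β := by
  rw [pr_rt]
  unfold pr rf
  have h1 := β.h.sym γ.h
  simp only [Pi.sub_apply, Pi.smul_apply, smul_eq_mul]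
  have h2 : ∑ j, (γ.c j - D.pp γ.c β.α * β.c j) * μ (some j) =
      ∑ j, γ.c j * μ (some j) - D.pp γ.c β.α * ∑ j, β.c j * μ (some j) := by
    rw [Finset.mul_sum, ← Finset.sum_sub_distrib]
    exact Finset.sum_congr rfl fun j _ => by ring
  rw [h2]
  linear_combination (β.n * D.lev μ) * h1

lemma rf_rf (β γ : D.ARoot) : rf β (rf β γ) = γ := by
  have h1 := β.h.pp_self
  unfold rf
  ext
  · simp only [Pi.sub_apply, Pi.smul_apply, smul_eq_mul, D.pp_sub_right, D.pp_smul_right, h1]
    ring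
  · simp only [Pi.sub_apply, Pi.smul_apply, smul_eq_mul, D.pp_sub_left, D.pp_smul_left, h1]
    ring
  · rfl
  · simp only [D.pp_sub_right, D.pp_smul_right, h1]
    ring

lemma pr_simple (μ : Option I → ℤ) (i : Option I) : pr μ (simple (D := D) i) = μ i := by
  cases i with
  | some i =>
    unfold pr simple
    simp only
    rw [zero_mul, zero_mul, add_zero, Finset.sum_eq_single i]
    · simp
    · intro j _ hj
      simp [hj]
    · intro h; exact absurd (mem_univ i) h
  | none =>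
    unfold pr simple lev
    simp only [Pi.neg_apply]
    rw [Finset.sum_congr rfl fun j _ => neg_mul (D.cθ j) (μ (some j)), Finset.sum_neg_distrib]
    push_cast
    ring

lemma rt_simple (i : Option I) : (simple (D := D) i).rt = D.affRoot i := by
  cases i with
  | some i =>
    unfold rt simple affRoot
    simp only
    congr 1
    funext j
    rw [D.pp_ev_ev]
  | none =>
    unfold rt simple affRoot
    simp only
    congr 1
    funext j
    rw [D.pp_neg_right, D.pp_ev_left]

lemma rt_rf (β γ : D.ARoot) : (rf β γ).rt = γ.rt - pr γ.rt β • β.rt := by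
  rw [pr_rt]
  unfold rf rt aff
  simp only
  funext j
  cases j with
  | some j =>
    simp only [D.pp_sub_right, D.pp_smul_right, Pi.sub_apply, Pi.smul_apply, smul_eq_mul]
  | none =>
    simp only [D.pp_sub_right, D.pp_smul_right, Pi.sub_apply, Pi.smul_apply, smul_eq_mul]
    rw [Finset.sum_congr rfl fun j _ => mul_sub (D.cθ j) (D.pp (ev j) γ.α) _,
      Finset.sum_sub_distrib]
    have : ∑ j, D.cθ j * (D.pp β.c γ.α * D.pp (ev j) β.α) =
        D.pp β.c γ.α * ∑ j, D.cθ j * D.pp (ev j) β.α := by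
      rw [Finset.mul_sum]
      exact Finset.sum_congr rfl fun j _ => by ring
    rw [this]
    ring

/-- height -/
def ht (β : D.ARoot) : ℤ := pr (fun _ => 1) β

lemma lev_one : D.lev (fun _ => 1) = D.hv := by
  unfold lev hv
  simp

lemma ht_eq (β : D.ARoot) : β.ht = ∑ j, β.c j + β.n * β.s * D.hv := by
  unfold ht pr
  rw [lev_one]
  simp

lemma sum_c_bound (β : D.ARoot) : -(β.s * (D.hv - 1)) ≤ ∑ j, β.c j ∧
    ∑ j, β.c j ≤ β.s * (D.hv - 1) := by
  have h1 := β.h.sum_le (fun _ => 1) (fun _ => zero_le_one)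
  have h2 := β.h.le_sum (fun _ => 1) (fun _ => zero_le_one)
  simp only [mul_one] at h1 h2
  have h3 : D.hv - 1 = ∑ j, D.cθ j := by unfold hv; ring
  rw [h3]
  exact ⟨h2, h1⟩

lemma sum_c_pos (β : D.ARoot) (hβ : 0 ≤ β.α) : 0 < ∑ j, β.c j := by
  have h1 : ∀ j, 0 ≤ β.c j := fun j => (β.h.coeff_sign j).1.1 (hβ j)
  rcases (Finset.sum_nonneg fun j (_ : j ∈ univ) => h1 j).lt_or_eq with h2 | h2
  · exact h2
  · exfalso
    have h3 := (Finset.sum_eq_zero_iff_of_nonneg fun j _ => h1 j).1 h2.symm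
    apply β.h.ne_zero
    funext j
    have h4 := h3 j (mem_univ j)
    have h5 := (β.h.coeff_sign j)
    rw [h4] at h5
    have h6 := h5.1.2 le_rfl
    have h7 := h5.2.2 le_rfl
    simp only [Pi.zero_apply]
    omega

lemma sum_c_neg (β : D.ARoot) (hβ : β.α ≤ 0) : ∑ j, β.c j < 0 := by
  have h1 := sum_c_pos ⟨-β.α, -β.c, β.s, 0, β.h.neg⟩ (by
    intro j; have := hβ j; simp only [Pi.neg_apply, Pi.zero_apply] at this ⊢; omega)
  simp only [Pi.neg_apply, Finset.sum_neg_distrib] at h1
  omega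

lemma ht_pos_iff (β : D.ARoot) : 0 < β.ht ↔ 1 ≤ β.n ∨ (β.n = 0 ∧ 0 ≤ β.α) := by
  rw [ht_eq]
  obtain ⟨h1, h2⟩ := sum_c_bound β
  have hs : (0 : ℤ) < β.s := by exact_mod_cast β.h.s_pos
  have hh : 1 ≤ D.hv := by
    unfold hv
    have : 0 ≤ ∑ j, D.cθ j := Finset.sum_nonneg fun j _ => by have := D.cθ_pos j; omega
    omega
  constructor
  · intro h
    rcases lt_trichotomy β.n 0 with h3 | h3 | h3
    · exfalso
      have h4 : β.n * β.s * D.hv ≤ (-1) * (β.s * D.hv) := by
        rw [mul_assoc]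
        exact mul_le_mul_of_nonneg_right (by omega) (by positivity)
      nlinarith
    · right
      refine ⟨h3, ?_⟩
      rcases β.h.sign with h4 | h4
      · exact h4
      · exfalso
        have := sum_c_neg β h4
        rw [h3] at h
        simp at h
        omega
    · left; omega
  · rintro (h | ⟨h, h'⟩)
    · have h4 : 1 * (β.s * D.hv) ≤ β.n * β.s * D.hv := by
        rw [mul_assoc]
        exact mul_le_mul_of_nonneg_right h (by positivity)
      nlinarith
    · have := sum_c_pos β h'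
      rw [h]
      simpa using this

lemma ht_ne (β : D.ARoot) : β.ht ≠ 0 := by
  intro h0
  have h1 := (ht_pos_iff β).not.1 (by omega)
  have h2 := (ht_pos_iff (D := D) ⟨-β.α, -β.c, β.s, -β.n, β.h.neg⟩).not.1 (by
    have : ht (D := D) ⟨-β.α, -β.c, β.s, -β.n, β.h.neg⟩ = - β.ht := by
      rw [ht_eq, ht_eq]
      simp only [Pi.neg_apply, Finset.sum_neg_distrib]
      ring
    rw [this]
    omega)
  push Not at h1 h2
  obtain ⟨h3, h4⟩ := h1
  obtain ⟨h5, h6⟩ := h2
  dsimp only at h5 h6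
  have h7 : β.n = 0 := by omega
  have h8 := h4 h7
  have h9 := h6 (by omega)
  rcases β.h.sign with h | h
  · exact h8 h
  · apply h9
    intro j
    have := h j
    simp only [Pi.neg_apply, Pi.zero_apply] at this ⊢
    omega

lemma simple_pos [Nonempty I] (i : Option I) (β : D.ARoot) (hβ : 0 < β.ht)
    (hne : β ≠ simple i) : 0 < (rf (simple i) β).ht := by
  rw [ht_pos_iff] at hβ ⊢
  cases i with
  | some i =>
    unfold rf simple
    simp only [mul_zero, sub_zero]
    rcases hβ with h | ⟨h1, h2⟩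
    · left; exact h
    · right
      refine ⟨h1, β.h.simple_pos h2 i ?_⟩
      intro h3
      apply hne
      have h4 := β.h
      rw [h3] at h4
      obtain ⟨h5, h6⟩ := h4.unique (RootT.simple i)
      ext
      · rw [h3]; rfl
      · rw [h5]; rfl
      · rw [h6]; rfl
      · rw [h1]; rfl
  | none =>
    unfold rf simple
    simp only [mul_one, D.pp_neg_left, sub_neg_eq_add]
    have hr := D.rootT_θ.reflect β.h
    by_cases hθ : β.α = D.θ
    · left
      have h1 : D.pp D.cθ β.α = 2 := by rw [hθ]; exact D.rootT_θ.pp_self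
      rw [h1]
      omega
    by_cases hθ' : β.α = -D.θ
    · have h1 : D.pp D.cθ β.α = -2 := by rw [hθ', D.pp_neg_right, D.rootT_θ.pp_self]
      rw [h1]
      rcases hβ with h | ⟨h2, h3⟩
      · have h4 : β.n ≠ 1 := by
          intro h4
          apply hne
          have h5 := β.h
          rw [hθ'] at h5
          obtain ⟨h6, h7⟩ := h5.unique D.rootT_θ.neg
          ext
          · rw [hθ']; rfl
          · rw [h6]; rfl
          · rw [h7]; rfl
          · rw [h4]; rfl
        rcases (show β.n = 2 ∨ 3 ≤ β.n by omega) with h5 | h5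
        · right
          refine ⟨by omega, ?_⟩
          rw [hθ']
          intro j
          have := D.θ_pos j
          simp
          omega
        · left; omega
      · exfalso
        rw [hθ'] at h3
        obtain ⟨j⟩ := ‹Nonempty I›
        have h4 := h3 j
        have h5 := D.θ_pos j
        simp at h4
        omega
    have h1 := β.h.pp_θ_le hθ
    have h2 := β.h.pp_θ_ge hθ'
    rcases hβ with h | ⟨h3, h4⟩
    · rcases (show D.pp D.cθ β.α = -1 ∨ 0 ≤ D.pp D.cθ β.α by omega) with h5 | h5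
      · rcases (show β.n = 1 ∨ 2 ≤ β.n by omega) with h6 | h6
        · right
          refine ⟨by omega, ?_⟩
          rw [h5]
          intro j
          have := β.h.neg_θ_le j
          simp at this ⊢
          omega
        · left; omega
      · left; omega
    · have h5 := β.h.pp_θ_nonneg h4
      rcases (show D.pp D.cθ β.α = 0 ∨ 1 ≤ D.pp D.cθ β.α by omega) with h6 | h6
      · right
        refine ⟨by omega, ?_⟩
        rw [h6]
        simpa using h4
      · left; omega

lemma dom (μ : Option I → ℤ) (hμ : ∀ i, 0 ≤ μ i) (β : D.ARoot) (hβ : 0 < β.ht) :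
    0 ≤ pr μ β := by
  unfold pr
  rw [ht_pos_iff] at hβ
  have hs : (0 : ℤ) < β.s := by exact_mod_cast β.h.s_pos
  have h1 := β.h.le_sum (fun j => μ (some j)) (fun j => hμ _)
  have h2 : ∑ j, D.cθ j * μ (some j) ≤ D.lev μ := by
    unfold lev
    have := hμ none
    omega
  have h0 : 0 ≤ ∑ j, D.cθ j * μ (some j) := Finset.sum_nonneg fun j _ =>
    mul_nonneg (by have := D.cθ_pos j; omega) (hμ _)
  rcases hβ with h | ⟨h3, h4⟩
  · have h5 : (β.s : ℤ) * ∑ j, D.cθ j * μ (some j) ≤ β.s * D.lev μ :=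
      mul_le_mul_of_nonneg_left h2 hs.le
    have h6 : 1 * (β.s * D.lev μ) ≤ β.n * (β.s * D.lev μ) :=
      mul_le_mul_of_nonneg_right h (mul_nonneg hs.le (h0.trans h2))
    rw [mul_assoc]
    linarith
  · rw [h3]
    have : 0 ≤ ∑ j, β.c j * μ (some j) :=
      Finset.sum_nonneg fun j _ => mul_nonneg ((β.h.coeff_sign j).1.1 (h4 j)) (hμ _)
    simpa using this

lemma fin (μ : Option I → ℤ) (hμ : 0 < D.lev μ) :
    {β : D.ARoot | 0 < β.ht ∧ pr μ β < 0}.Finite := by
  classical
  set B : ℤ := D.d * ∑ j, D.cθ j * |μ (some j)| with hB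
  have hfin : (Set.Icc (-D.θ) D.θ ×ˢ Set.Icc (0 : ℤ) B).Finite :=
    (Set.finite_Icc _ _).prod (Set.finite_Icc _ _)
  refine Set.Finite.of_finite_image (f := fun β : D.ARoot => (β.α, β.n)) (hfin.subset ?_) ?_
  · rintro _ ⟨β, ⟨h1, h2⟩, rfl⟩
    rw [ht_pos_iff] at h1
    unfold pr at h2
    have hs : (0 : ℤ) < β.s := by exact_mod_cast β.h.s_pos
    have hsd : (β.s : ℤ) ≤ D.d := by
      rcases β.h.s_mem with h | h
      · rw [h]; exact_mod_cast D.d_pos
      · rw [h]
    refine ⟨⟨β.h.neg_θ_le, β.h.le_θ⟩, ?_, ?_⟩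
    · show 0 ≤ β.n
      omega
    show β.n ≤ B
    have h3 : -(β.s * ∑ j, D.cθ j * |μ (some j)|) ≤ ∑ j, β.c j * μ (some j) := by
      have h4 : ∀ j, |β.c j| ≤ β.s * D.cθ j := by
        intro j
        have h5 := β.h.c_le j
        have h6 := β.h.neg.c_le j
        simp only [Pi.neg_apply] at h6
        rw [abs_le]
        omega
      rw [Finset.mul_sum, ← Finset.sum_neg_distrib]
      refine Finset.sum_le_sum fun j _ => ?_
      have h7 : |β.c j * μ (some j)| ≤ β.s * D.cθ j * |μ (some j)| := by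
        rw [abs_mul]
        exact mul_le_mul_of_nonneg_right (h4 j) (abs_nonneg _)
      have h8 := neg_abs_le (β.c j * μ (some j))
      rw [← mul_assoc]
      linarith
    have h5 : (0 : ℤ) ≤ ∑ j, D.cθ j * |μ (some j)| := Finset.sum_nonneg fun j _ =>
      mul_nonneg (by have := D.cθ_pos j; omega) (abs_nonneg _)
    have h6 : (β.s : ℤ) * ∑ j, D.cθ j * |μ (some j)| ≤ B := mul_le_mul_of_nonneg_right hsd h5
    have h7 : 0 ≤ β.n := by omega
    have h8 : β.n * 1 ≤ β.n * (β.s * D.lev μ) :=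
      mul_le_mul_of_nonneg_left (by nlinarith) h7
    rw [mul_assoc] at h2
    linarith
  · rintro β _ γ _ h
    simp only [Prod.mk.injEq] at h
    obtain ⟨h1, h2⟩ := h
    have h3 := β.h
    rw [h1] at h3
    obtain ⟨h4, h5⟩ := h3.unique γ.h
    ext
    · rw [h1]
    · rw [h4]
    · rw [h5]
    · rw [h2]

end ARoot

variable (D)

/-- the affine root system -/
def affSys [Nonempty I] : RootSys (Option I) where
  R := D.ARoot
  rt := ARoot.rt
  pr := ARoot.pr
  ht := ARoot.ht
  simple := ARoot.simple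
  rf := ARoot.rf
  good μ := 0 < D.lev μ
  pr_lin := ARoot.pr_lin
  pr_self β := by rw [ARoot.pr_rt]; exact β.h.pp_self
  pr_rf := ARoot.pr_rf
  ht_rf β γ := ARoot.pr_rf _ β γ
  rf_rf := ARoot.rf_rf
  ht_ne := ARoot.ht_ne
  pr_simple := ARoot.pr_simple
  ht_simple i := by
    unfold ARoot.ht
    rw [ARoot.pr_simple]
    exact zero_lt_one
  simple_pos := ARoot.simple_pos
  fin := ARoot.fin
  good_rf μ β h := by
    rw [lev_sub_smul, ARoot.lev_rt, mul_zero, sub_zero]
    exact h
  dom μ hμ β hβ := ARoot.dom μ hμ β hβ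

/-- the affine cover system -/
noncomputable def affCov [Nonempty I] : CovSys (Option I) :=
  D.affSys.toCov fun i β => ARoot.rt_rf (ARoot.simple i) β

lemma affCov_al [Nonempty I] (i : Option I) : D.affCov.al i = D.affRoot i :=
  ARoot.rt_simple i

lemma affCov_dom [Nonempty I] {μ ν : Option I → ℤ} {β} (hμ : ∀ i, 0 ≤ μ i)
    (h : D.affCov.Cov μ ν β) : False := by
  obtain ⟨_, h1, h2, _⟩ := h
  have := ARoot.dom μ hμ β h1
  exact absurd h2 (not_lt.2 this)

/-- level as a homomorphism -/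
def levHom : (Option I → ℤ) →+ ℤ where
  toFun := D.lev
  map_zero' := by unfold lev; simp
  map_add' x y := by
    unfold lev
    simp only [Pi.add_apply, mul_add, Finset.sum_add_distrib]
    ring

lemma affCov_lev [Nonempty I] {μ ν : Option I → ℤ} {β} (h : D.affCov.Cov μ ν β) :
    D.levHom ν = D.levHom μ := by
  obtain ⟨_, _, _, h1, _⟩ := h
  rw [h1]
  have h2 : ∀ γ : D.ARoot, D.lev (μ - ARoot.pr μ γ • γ.rt) = D.lev μ := fun γ => by
    rw [lev_sub_smul, ARoot.lev_rt, mul_zero, sub_zero]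
  exact h2 β

end SimpleData

end Pool.Agent.LS60
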