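import Pool.Agent.LS60.Sine

set_option autoImplicit false

/-! The three properties for Demazure characters. -/

namespace Pool.Agent.LS60

open Finset

namespace SimpleData

variable {I : Type} [Fintype I] [DecidableEq I] {D : SimpleData I}

lemma lev_affRoot (i : Option I) : D.lev (D.affRoot i) = 0 := by
  cases i with
  | some i => exact lev_aff _ _
  | none => exact lev_aff _ _

lemma affRoot_self (i : Option I) : D.affRoot i i = 2 := by
  have h1 := ARoot.pr_rt (D := D) (ARoot.simple i) (ARoot.simple i)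
  rw [ARoot.pr_simple, ARoot.rt_simple] at h1
  rw [h1]
  exact (ARoot.simple (D := D) i).h.pp_self

lemma lev_add_smul (μ κ : Option I → ℤ) (a : ℤ) :
    D.lev (μ + a • κ) = D.lev μ + a * D.lev κ := by
  have := lev_sub_smul (D := D) μ κ (-a)
  rw [neg_smul, sub_neg_eq_add] at this
  rw [this]; ring

lemma lev_add (μ κ : Option I → ℤ) : D.lev (μ + κ) = D.lev μ + D.lev κ := D.levHom.map_add μ κ

lemma hv_pos : 0 < D.hv := by
  unfold hv
  have : 0 ≤ ∑ j, D.cθ j := Finset.sum_nonneg fun j _ => by have := D.cθ_pos j; omega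
  omega

variable (D)

/-- the shift at level `l` -/
def kap (k l : ℤ) : Option I → ℤ
  | some _ => 1
  | none => k + 1 - l

variable {D}

lemma kap_some (k l : ℤ) (i : I) : kap k l (some i) = 1 := rfl

lemma kap_none (k l : ℤ) : kap (I := I) k l none = k + 1 - l := rfl

lemma lev_kap (k l : ℤ) : D.lev (kap k l) = k + D.hv - l := by
  unfold lev kap hv
  simp
  ring

variable (D)

/-- the functional -/
noncomputable def GG (k : ℤ) (ν : Option I → ℤ) : ℝ :=
  D.S ((k + D.hv : ℤ)) (fun j => ν (some j) + 1)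

variable {D}

lemma GG_eq (k l : ℤ) (ν : Option I → ℤ) : D.GG k ν = D.S ((k + D.hv : ℤ)) (fp (ν + kap k l)) := by
  rfl

lemma GG_anti [Nonempty I] (k l : ℤ) (hk : 0 ≤ k) (ν : Option I → ℤ) (hν : D.lev ν = l)
    (i : Option I) : D.GG k (ν - (ν i + kap k l i) • D.affRoot i) = - D.GG k ν := by
  have h0 : D.lev (ν + kap k l) = k + D.hv := by
    rw [lev_add, lev_kap, hν]; ring
  have hpos : (k + D.hv : ℤ) ≠ 0 := by have := D.hv_pos; omega
  have h1 := S_refl (D := D) (k + D.hv) hpos (ν + kap k l) h0 i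
  rw [GG_eq k l ν, ← h1]
  unfold GG
  congr 1
  funext j
  unfold fp
  simp only [Pi.add_apply, Pi.sub_apply, Pi.smul_apply, smul_eq_mul]
  have : kap k l (some j) = 1 := rfl
  rw [this]
  ring

lemma pair_congr_lev {T : Option I → ℤ} {f : (Option I → ℤ) →₀ ℤ}
    (h : IsDem D.affRoot T f) : ∀ G G' : (Option I → ℤ) → ℝ,
    (∀ μ, D.lev μ = D.lev T → G μ = G' μ) → pair f G = pair f G' := by
  induction h with
  | base Λ _ =>
    intro G G' hG
    rw [pair_single, pair_single, hG Λ rfl]
  | step T f i h hi ih =>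
    intro G G' hG
    have hT : D.lev (T - T i • D.affRoot i) = D.lev T := by
      rw [lev_sub_smul, lev_affRoot]; ring
    rw [hT] at hG
    rw [pair_dem, pair_dem]
    apply ih
    intro μ hμ
    unfold Dst
    split_ifs
    · refine Finset.sum_congr rfl fun k _ => hG _ ?_
      rw [lev_sub_smul, lev_affRoot, hμ]; ring
    · congr 1
      refine Finset.sum_congr rfl fun k _ => hG _ ?_
      rw [lev_add_smul, lev_affRoot, hμ]; ring

lemma Dst_GG [Nonempty I] (k l : ℤ) (hk : 0 ≤ k) (μ : Option I → ℤ) (hμ : D.lev μ = l)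
    (i : Option I) (hi : kap k l i = 1) : Dst (D.affRoot i) i (D.GG k) μ = D.GG k μ := by
  apply Dst_of_anti
  intro j
  have h0 : D.lev (μ + j • D.affRoot i) = l := by
    rw [lev_add_smul, lev_affRoot, hμ]; ring
  rw [← GG_anti k l hk _ h0 i, hi]
  congr 1
  funext m
  simp only [Pi.add_apply, Pi.sub_apply, Pi.smul_apply, smul_eq_mul, affRoot_self]
  ring

lemma Dst_GG_zero [Nonempty I] (k l : ℤ) (hk : 0 ≤ k) (μ : Option I → ℤ) (hμ : D.lev μ = l)
    (i : Option I) (hi : kap k l i = 0) : Dst (D.affRoot i) i (D.GG k) μ = 0 := by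
  apply Dst_of_santi
  intro j
  have h0 : D.lev (μ + j • D.affRoot i) = l := by
    rw [lev_add_smul, lev_affRoot, hμ]; ring
  rw [← GG_anti k l hk _ h0 i, hi]
  congr 1
  funext m
  simp only [Pi.add_apply, Pi.sub_apply, Pi.smul_apply, smul_eq_mul, affRoot_self]
  ring

/-- positivity of `GG` on the relevant chamber -/
lemma GG_pos (k l : ℤ) (hk : 0 ≤ k) (ν : Option I → ℤ) (hν : D.lev ν = l)
    (hpos : ∀ i, 0 < ν i + kap k l i) : 0 < D.GG k ν := by
  have h0 : D.lev (ν + kap k l) = k + D.hv := by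
    rw [lev_add, lev_kap, hν]; ring
  rw [GG_eq k l ν]
  exact S_pos (k + D.hv) (by have := D.hv_pos; omega) _ h0 hpos

/-- (1) -/
theorem dem_pos [Nonempty I] (k l : ℤ) (hl : 0 < l) (hlk : l ≤ k) {T : Option I → ℤ}
    (hT : D.lev T = l) {f : (Option I → ℤ) →₀ ℤ} (h : IsDem D.affRoot T f) :
    0 < pair f (D.GG k) := by
  have hal : D.affCov.al = D.affRoot := funext fun i => affCov_al D i
  rw [← hal] at h
  refine CovSys.pair_pos (C := D.affCov) (fun hμ hc => affCov_dom D hμ hc) D.levHom
    (fun hc => affCov_lev D hc) h (show 0 < D.lev T by omega)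
    (fun i => (kap k l i).toNat) ?_ (D.GG k) ?_ ?_
  · intro i
    cases i with
    | some i => rw [kap_some]; simp
    | none => rw [kap_none]; omega
  · intro ν hν i
    have hν' : D.lev ν = l := by rw [← hT]; exact hν
    have hk : (((kap k l i).toNat : ℕ) : ℤ) = kap k l i := by
      apply Int.toNat_of_nonneg
      cases i with
      | some i => rw [kap_some]; simp
      | none => rw [kap_none]; omega
    rw [hk, ← GG_anti k l (by omega) ν hν' i]
    congr 1
    rw [CovSys.s_def, hal]
    funext m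
    simp only [Pi.sub_apply, Pi.smul_apply, smul_eq_mul]
    ring
  · intro ν hν hpos
    have hν' : D.lev ν = l := by rw [← hT]; exact hν
    apply GG_pos k l (by omega) ν hν'
    intro i
    have h1 := hpos i
    have hk : (((kap k l i).toNat : ℕ) : ℤ) = kap k l i := by
      apply Int.toNat_of_nonneg
      cases i with
      | some i => rw [kap_some]; simp
      | none => rw [kap_none]; omega
    rw [hk] at h1
    omega

section level

variable [Nonempty I]

/-- relation used for the comparison of two weights -/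
def Rel (T Z : Option I → ℤ) : Prop := ∀ γ : D.ARoot,
  (0 < ARoot.pr T γ → 0 < ARoot.pr Z γ) ∧ (ARoot.pr T γ < 0 → ARoot.pr Z γ < 0) ∧
    ARoot.pr Z γ ≠ 0

omit [Nonempty I] in
lemma pr_refl (μ : Option I → ℤ) (i : Option I) (γ : D.ARoot) :
    ARoot.pr (μ - μ i • D.affRoot i) γ = ARoot.pr μ (ARoot.rf (ARoot.simple i) γ) := by
  rw [ARoot.pr_lin, ARoot.pr_rf, ARoot.rt_simple, ARoot.pr_simple]
  ring

omit [Nonempty I] in
lemma refl_self_apply (μ : Option I → ℤ) (i : Option I) :
    (μ - μ i • D.affRoot i) i = - μ i := by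
  simp only [Pi.sub_apply, Pi.smul_apply, smul_eq_mul, affRoot_self]; ring

omit [Nonempty I] in
lemma refl_refl' (μ : Option I → ℤ) (i : Option I) :
    (μ - μ i • D.affRoot i) - (μ - μ i • D.affRoot i) i • D.affRoot i = μ := by
  rw [refl_self_apply]; simp

omit [Nonempty I] in
lemma Rel.refl {T Z : Option I → ℤ} (h : Rel (D := D) T Z) (i : Option I) :
    Rel (D := D) (T - T i • D.affRoot i) (Z - Z i • D.affRoot i) := by
  intro γ
  rw [pr_refl, pr_refl]
  exact h _

lemma rel_base (k : ℤ) (hk : 0 < k) : ∀ (n : ℕ) (Λ Z : Option I → ℤ), (∀ i, 0 ≤ Λ i) →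
    D.lev Λ = k → D.lev Z = D.hv → Rel (D := D) Λ Z → D.affSys.len Z = n →
    |D.S ((k + D.hv : ℤ)) (fp (Λ + Z))| = |D.S ((k + D.hv : ℤ)) (fp (Λ + fun _ => 1))| := by
  intro n
  induction n using Nat.strong_induction_on with
  | _ n ih =>
    intro Λ Z hΛ hlΛ hlZ hrel hn
    by_cases hZ : ∀ i, 0 ≤ Z i
    · have h1 : ∀ i, 1 ≤ Z i := by
        intro i
        have h2 := (hrel (ARoot.simple i)).2.2
        rw [ARoot.pr_simple] at h2
        have := hZ i
        omega
      have h2 : Z = fun _ => 1 := by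
        have h3 : D.lev Z = Z none + ∑ j, D.cθ j * Z (some j) := rfl
        have h4 : ∑ j, D.cθ j ≤ ∑ j, D.cθ j * Z (some j) := by
          refine Finset.sum_le_sum fun j _ => ?_
          have h5 := D.cθ_pos j
          have h6 := h1 (some j)
          nlinarith
        have h7 : D.hv = 1 + ∑ j, D.cθ j := rfl
        have h8 : Z none = 1 := by have := h1 none; omega
        have h9 : ∑ j, D.cθ j = ∑ j, D.cθ j * Z (some j) := by omega
        have h10 : ∀ j, D.cθ j = D.cθ j * Z (some j) := by
          intro j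
          have h11 := (Finset.sum_eq_sum_iff_of_le (s := univ) (f := fun j => D.cθ j)
            (g := fun j => D.cθ j * Z (some j)) (fun j _ => by
              have h5 := D.cθ_pos j
              have h6 := h1 (some j)
              nlinarith)).1 h9
          exact h11 j (mem_univ j)
        funext i
        cases i with
        | none => exact h8
        | some j =>
          have h11 := h10 j
          have h12 := D.cθ_pos j
          have h13 : D.cθ j * (Z (some j) - 1) = 0 := by linarith
          rcases mul_eq_zero.1 h13 with h | h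
          · omega
          · omega
      rw [h2]
    · push Not at hZ
      obtain ⟨i, hi⟩ := hZ
      have hΛi : Λ i = 0 := by
        have h1 := (hrel (ARoot.simple i)).1
        rw [ARoot.pr_simple, ARoot.pr_simple] at h1
        have := hΛ i
        by_contra h2
        have := h1 (by omega)
        omega
      have hg : D.affSys.good Z := by
        show 0 < D.lev Z
        rw [hlZ]; exact D.hv_pos
      have hlen := D.affSys.len_simple hg i hi
      have hrefl : D.affSys.refl (D.affSys.simple i) Z = Z - Z i • D.affRoot i := by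
        have h1 : D.affSys.refl (D.affSys.simple i) Z =
            Z - ARoot.pr Z (ARoot.simple i) • (ARoot.simple (D := D) i).rt := rfl
        rw [h1, ARoot.pr_simple, ARoot.rt_simple]
      rw [hrefl] at hlen
      have hrel' := hrel.refl i
      rw [hΛi, zero_smul, sub_zero] at hrel'
      have hlev' : D.lev (Z - Z i • D.affRoot i) = D.hv := by
        rw [lev_sub_smul, lev_affRoot, hlZ]; ring
      have h2 := ih (D.affSys.len (Z - Z i • D.affRoot i)) (by omega) Λ _ hΛ hlΛ hlev' hrel' rfl
      rw [← h2]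
      have h3 : Λ + (Z - Z i • D.affRoot i) = (Λ + Z) - (Λ + Z) i • D.affRoot i := by
        rw [Pi.add_apply, hΛi, zero_add, add_sub_assoc]
      rw [h3, S_refl (k + D.hv) (by have := D.hv_pos; omega) _ (by rw [lev_add, hlΛ, hlZ]) i,
        abs_neg]

/-- the value at the top level -/
lemma dem_level (k : ℤ) (hk : 0 < k) {T : Option I → ℤ} {f : (Option I → ℤ) →₀ ℤ}
    (h : IsDem D.affRoot T f) : D.lev T = k → ∀ Z, D.lev Z = D.hv → Rel (D := D) T Z →
    ∃ Λ, (∀ i, 0 ≤ Λ i) ∧ D.lev Λ = k ∧ pair f (D.GG k) = D.GG k Λ ∧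
      |D.S ((k + D.hv : ℤ)) (fp (T + Z))| = |D.S ((k + D.hv : ℤ)) (fp (Λ + fun _ => 1))| := by
  induction h with
  | base Λ hΛ =>
    intro hT Z hZ hrel
    refine ⟨Λ, hΛ, hT, ?_, rel_base k hk _ Λ Z hΛ hT hZ hrel rfl⟩
    rw [pair_single, one_smul]
  | step T f i h hi ih =>
    intro hT Z hZ hrel
    have hT' : D.lev T = k := by
      rw [lev_sub_smul, lev_affRoot] at hT
      linarith
    have hrel' := hrel.refl i
    rw [refl_refl'] at hrel'
    have hZ' : D.lev (Z - Z i • D.affRoot i) = D.hv := by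
      rw [lev_sub_smul, lev_affRoot, hZ]; ring
    obtain ⟨Λ, h1, h2, h3, h4⟩ := ih hT' _ hZ' hrel'
    refine ⟨Λ, h1, h2, ?_, ?_⟩
    · rw [pair_dem, ← h3]
      apply pair_congr_lev h
      intro μ hμ
      exact Dst_GG k k hk.le μ (by rw [hμ, hT']) i (by cases i <;> simp [kap])
    · rw [← h4]
      have h5 : T - T i • D.affRoot i + Z =
          (T + (Z - Z i • D.affRoot i)) - (T + (Z - Z i • D.affRoot i)) i • D.affRoot i := by
        have h6 := refl_self_apply (D := D) Z i
        rw [Pi.add_apply, h6]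
        funext m
        simp only [Pi.add_apply, Pi.sub_apply, Pi.smul_apply, smul_eq_mul]
        ring
      rw [h5, S_refl (k + D.hv) (by have := D.hv_pos; omega) _ (by rw [lev_add, hT', hZ']) i,
        abs_neg]

variable (D) in
/-- the extremal weight attached to a coweight `y` -/
def cT (y : I → ℤ) (l : ℤ) : Option I → ℤ := D.aff l (-(l • y))

variable (D) in
/-- integral coweights -/
def Cow (y : I → ℤ) : Prop := ∀ α c s, D.RootT α c s → ∃ a : ℤ, ∑ j, c j * y j = s * a

omit [Nonempty I] in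
lemma pr_cT (y : I → ℤ) (l : ℤ) (γ : D.ARoot) (a : ℤ) (ha : ∑ j, γ.c j * y j = γ.s * a) :
    ARoot.pr (D.cT y l) γ = l * (γ.s * (γ.n - a)) := by
  unfold ARoot.pr cT
  rw [lev_aff]
  have h1 : ∑ j, γ.c j * D.aff l (-(l • y)) (some j) = - l * ∑ j, γ.c j * y j := by
    rw [Finset.mul_sum]
    refine Finset.sum_congr rfl fun j _ => ?_
    show γ.c j * ((-(l • y)) j) = _
    simp only [Pi.neg_apply, Pi.smul_apply, smul_eq_mul]
    ring
  rw [h1, ha]
  ring

variable (D) in
/-- the auxiliary weight of level `hv` -/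
def cZ (y : I → ℤ) : Option I → ℤ := D.aff D.hv (fun j => 1 + D.cT y D.hv (some j))

omit [Nonempty I] in
lemma pr_cZ (y : I → ℤ) (γ : D.ARoot) (a : ℤ) (ha : ∑ j, γ.c j * y j = γ.s * a) :
    ARoot.pr (D.cZ y) γ = ARoot.ht (D := D) ⟨γ.α, γ.c, γ.s, γ.n - a, γ.h⟩ := by
  rw [ARoot.ht_eq]
  have h1 := pr_cT y D.hv γ a ha
  have h2 : ARoot.pr (D.cZ y) γ = ∑ j, γ.c j + ARoot.pr (D.cT y D.hv) γ := by
    unfold ARoot.pr cZ
    rw [lev_aff]
    have h3 : D.lev (D.cT y D.hv) = D.hv := lev_aff _ _
    rw [h3, ← add_assoc, ← Finset.sum_add_distrib]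
    congr 1
    refine Finset.sum_congr rfl fun j _ => ?_
    show γ.c j * (1 + D.cT y D.hv (some j)) = _
    ring
  rw [h2, h1]
  ring

omit [Nonempty I] in
lemma rel_cT (y : I → ℤ) (hy : D.Cow y) (k : ℤ) (hk : 0 < k) :
    Rel (D := D) (D.cT y k) (D.cZ y) := by
  intro γ
  obtain ⟨a, ha⟩ := hy _ _ _ γ.h
  rw [pr_cT y k γ a ha, pr_cZ y γ a ha]
  have hs : (0 : ℤ) < γ.s := by exact_mod_cast γ.h.s_pos
  have hne := ARoot.ht_ne (D := D) ⟨γ.α, γ.c, γ.s, γ.n - a, γ.h⟩
  have hiff := ARoot.ht_pos_iff (D := D) ⟨γ.α, γ.c, γ.s, γ.n - a, γ.h⟩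
  refine ⟨?_, ?_, hne⟩
  · intro h
    rw [hiff]
    left
    have h1 := pos_of_mul_pos_right h hk.le
    have h2 := pos_of_mul_pos_right h1 hs.le
    exact h2
  · intro h
    have h1 : (γ.s : ℤ) * (γ.n - a) < 0 := by
      by_contra h2
      exact absurd h (not_lt.2 (mul_nonneg hk.le (not_lt.1 h2)))
    have h2 : γ.n - a < 0 := by
      by_contra h2
      exact absurd h1 (not_lt.2 (mul_nonneg hs.le (not_lt.1 h2)))
    have h3 := hiff.not.2 (by
      dsimp only
      omega)
    omega

/-- (2) -/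
theorem dem_one (y : I → ℤ) (hy : D.Cow y) (k : ℤ) (hk : 0 < k) {f : (Option I → ℤ) →₀ ℤ}
    (h : IsDem D.affRoot (D.cT y k) f) :
    pair f (D.GG k) = D.S ((k + D.hv : ℤ)) (fun _ => 1) := by
  obtain ⟨Λ, h1, h2, h3, h4⟩ := dem_level k hk h (lev_aff _ _) (D.cZ y) (lev_aff _ _)
    (rel_cT y hy k hk)
  have hpos : 0 < D.GG k Λ := by
    apply GG_pos k k hk.le Λ h2
    intro j
    have h5 := h1 j
    have h6 : kap k k j = 1 := by
      cases j with
      | some j => rfl
      | none => rw [kap_none]; ring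
    omega
  have hpos1 : 0 < D.S ((k + D.hv : ℤ)) (fun _ => 1) := by
    have h5 : D.lev (kap k 0) = k + D.hv := by rw [lev_kap]; ring
    have h6 := S_pos (k + D.hv) (by have := D.hv_pos; omega) (kap k 0) h5 (by
      intro j
      cases j with
      | some j => rw [kap_some]; norm_num
      | none => rw [kap_none]; omega)
    exact h6
  have h5 : D.S ((k + D.hv : ℤ)) (fp (Λ + fun _ => 1)) = D.GG k Λ := rfl
  rw [h5, abs_of_pos hpos] at h4
  rw [h3, ← h4, ← abs_of_pos hpos1]
  have h6 : fp (D.cT y k + D.cZ y) = (fun _ => 1) - (k + D.hv) • y := by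
    funext j
    unfold fp cZ cT aff
    simp only [Pi.add_apply, Pi.sub_apply, Pi.neg_apply, Pi.smul_apply, smul_eq_mul]
    ring
  rw [h6]
  apply S_abs_translate _ (by have := D.hv_pos; omega)
  intro α hα
  obtain ⟨c, s, hr⟩ := exists_rootT hα
  obtain ⟨a, ha⟩ := hy _ _ _ hr
  refine ⟨a, ?_⟩
  rw [hr.ip_eq, ha]
  have hs : (s : ℝ) ≠ 0 := by exact_mod_cast hr.s_pos.ne'
  push_cast
  field_simp

/-- the vanishing dichotomy at level `k + 1` -/
lemma dem_top (k : ℤ) (hk : 0 < k) {T : Option I → ℤ} {f : (Option I → ℤ) →₀ ℤ}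
    (h : IsDem D.affRoot T f) : D.lev T = k + 1 → pair f (D.GG k) = 0 ∨
    ∃ Λ, (∀ i, 0 ≤ Λ i) ∧ D.lev Λ = k + 1 ∧ pair f (D.GG k) = D.GG k Λ ∧
      ∀ α c s, D.RootT α c s → ∃ α' c', D.RootT α' c' s ∧
        ∑ j, c j * T (some j) = ∑ j, c' j * Λ (some j) := by
  induction h with
  | base Λ hΛ =>
    intro hT
    right
    refine ⟨Λ, hΛ, hT, ?_, fun α c s h => ⟨α, c, h, rfl⟩⟩
    rw [pair_single, one_smul]
  | step T f i h hi ih =>
    intro hT
    have hT' : D.lev T = k + 1 := by
      rw [lev_sub_smul, lev_affRoot] at hT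
      linarith
    rw [pair_dem]
    cases i with
    | none =>
      left
      have h1 : pair f (Dst (D.affRoot none) none (D.GG k)) = pair f (fun _ => (0 : ℝ)) := by
        apply pair_congr_lev h
        intro μ hμ
        exact Dst_GG_zero k (k + 1) hk.le μ (by rw [hμ, hT']) none (by rw [kap_none]; ring)
      rw [h1]
      unfold pair
      rw [Finsupp.linearCombination_apply]
      simp
    | some i =>
      have h1 : pair f (Dst (D.affRoot (some i)) (some i) (D.GG k)) = pair f (D.GG k) := by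
        apply pair_congr_lev h
        intro μ hμ
        exact Dst_GG k (k + 1) hk.le μ (by rw [hμ, hT']) (some i) (kap_some _ _ _)
      rw [h1]
      rcases ih hT' with h2 | ⟨Λ, h2, h3, h4, h5⟩
      · left; exact h2
      · right
        refine ⟨Λ, h2, h3, h4, ?_⟩
        intro α c s hr
        obtain ⟨α', c', h6, h7⟩ := h5 _ _ _ (RootT.refl i _ _ _ hr)
        refine ⟨α', c', h6, ?_⟩
        rw [← h7]
        have h8 : ∀ j, c j * (T - T (some i) • D.affRoot (some i)) (some j) =
            c j * T (some j) - T (some i) * (c j * D.A j i) := by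
          intro j
          have : D.affRoot (some i) (some j) = D.A j i := rfl
          simp only [Pi.sub_apply, Pi.smul_apply, smul_eq_mul, this]
          ring
        have h9 : ∀ j, (c - D.pp c (ev i) • ev i) j * T (some j) =
            c j * T (some j) - D.pp c (ev i) * (ev i j * T (some j)) := by
          intro j
          simp only [Pi.sub_apply, Pi.smul_apply, smul_eq_mul]
          ring
        rw [Finset.sum_congr rfl fun j _ => h8 j, Finset.sum_congr rfl fun j _ => h9 j,
          Finset.sum_sub_distrib, Finset.sum_sub_distrib, ← Finset.mul_sum, ← Finset.mul_sum,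
          D.pp_ev_right]
        have h10 : ∑ j, ev i j * T (some j) = T (some i) := by
          rw [Finset.sum_eq_single i]
          · simp
          · intro j _ hj
            simp [hj]
          · intro h; exact absurd (mem_univ i) h
        rw [h10]
        ring

/-- (3) -/
theorem dem_vanish (y : I → ℤ) (hy : 1 ≤ ∑ j, D.cθ j * y j) (k : ℤ) (hk : 0 < k)
    {f : (Option I → ℤ) →₀ ℤ}
    (h : IsDem D.affRoot (D.cT y (k + 1)) f) : pair f (D.GG k) = 0 := by
  rcases dem_top k hk h (lev_aff _ _) with h1 | ⟨Λ, h1, h2, h3, h4⟩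
  · exact h1
  · rw [h3]
    obtain ⟨α', c', h5, h6⟩ := h4 _ _ _ D.rootT_θ.neg
    have h7 : ∑ j, (-D.cθ) j * D.cT y (k + 1) (some j) = (k + 1) * ∑ j, D.cθ j * y j := by
      rw [Finset.mul_sum]
      refine Finset.sum_congr rfl fun j _ => ?_
      show (-D.cθ) j * ((-((k + 1) • y)) j) = _
      simp only [Pi.neg_apply, Pi.smul_apply, smul_eq_mul]
      ring
    have h8 := h5.sum_le (fun j => Λ (some j)) (fun j => h1 _)
    rw [← h6, h7] at h8
    push_cast at h8
    have h9 : D.lev Λ = Λ none + ∑ j, D.cθ j * Λ (some j) := rfl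
    have h11 : Λ none = 0 := by
      have := h1 none
      nlinarith
    rw [GG_eq k (k + 1) Λ]
    apply S_zero (k + D.hv) (by have := D.hv_pos; omega)
    · rw [lev_add, lev_kap, h2]; ring
    · rw [Pi.add_apply, h11, kap_none]; ring

end level

end SimpleData

end Pool.Agent.LS60
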