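import Pool.Agent.LS60.Crystal
import Pool.Agent.LS60.Dem

set_option autoImplicit false

/-! Demazure characters as sums over paths, and the cancellation theorem. -/

namespace Pool.Agent.LS60

open Finset

namespace CovSys

variable {I : Type} {C : CovSys I}

/-- the straight path -/
def strt (N : ℕ) (Λ : I → ℤ) : ℕ → I → ℤ := fun l => if 1 ≤ l ∧ l ≤ N then Λ else 0

lemma Hs_strt (N : ℕ) (Λ : I → ℤ) (k : I) (j : ℕ) (hj : j ≤ N) :
    Hs (co k (strt N Λ)) j = j * Λ k := by
  induction j with
  | zero => simp [Hs_zero]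
  | succ j ih =>
    rw [Hs_succ, ih (by omega)]
    have : co k (strt N Λ) (j + 1) = Λ k := by
      unfold co strt
      rw [if_pos (by omega)]
    rw [this]
    push_cast
    ring

lemma wt_strt (N : ℕ) (hN0 : 0 < N) (Λ : I → ℤ) : wt N (strt N Λ) = Λ := by
  funext k
  unfold wt
  rw [Hs_strt N Λ k N le_rfl]
  exact Int.mul_ediv_cancel_left _ (by omega)

lemma isPath_strt (N : ℕ) {T Λ : I → ℤ} (h : C.Ch N 0 T Λ) (hN0 : 0 < N) :
    C.IsPath N T (strt N Λ) := by
  refine ⟨?_, ?_, ?_⟩
  · intro l hl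
    unfold strt
    rw [if_neg (by omega)]
  · unfold strt
    rw [if_pos (by omega)]
    exact h
  · intro j h1 h2
    unfold strt
    rw [if_pos (by omega), if_pos (by omega)]
    exact Ch.refl

lemma mnH_strt (N : ℕ) (Λ : I → ℤ) (k : I) (hΛ : 0 ≤ Λ k) : mnH N (co k (strt N Λ)) = 0 := by
  rw [mnH_eq (j := 0) (by omega)]
  · exact Hs_zero _
  · intro l hl
    rw [Hs_zero, Hs_strt N Λ k l hl]
    positivity

lemma Ch_iff_one {N : ℕ} {μ ν : I → ℤ} : C.Ch N 0 μ ν ↔ C.Ch 1 0 μ ν := by
  constructor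
  · intro h
    induction h with
    | refl => exact Ch.refl
    | tail _ hs ih =>
      obtain ⟨β, hβ, _⟩ := hs
      exact ih.tail ⟨β, hβ, by simp⟩
  · intro h
    induction h with
    | refl => exact Ch.refl
    | tail _ hs ih =>
      obtain ⟨β, hβ, _⟩ := hs
      exact ih.tail ⟨β, hβ, by simp⟩

lemma exists_NGood [Fintype I] {T : I → ℤ} (hg : C.good T) : ∃ N : ℕ, 0 < N ∧ C.NGood N T := by
  classical
  have hfin := C.finite_below 1 (C.len T) T hg rfl
  refine ⟨∏ ν ∈ hfin.toFinset, ∏ i : I, (if ν i = 0 then 1 else (ν i).natAbs), ?_, ?_⟩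
  · apply Finset.prod_pos
    intro ν _
    apply Finset.prod_pos
    intro i _
    split_ifs with h
    · exact one_pos
    · exact Int.natAbs_pos.2 h
  · intro ν hν i hi
    rw [← Int.natAbs_dvd_natAbs, Int.natAbs_natCast]
    have h1 : (ν i).natAbs ∣ ∏ i : I, (if ν i = 0 then 1 else (ν i).natAbs) := by
      have := Finset.dvd_prod_of_mem (fun i => if ν i = 0 then 1 else (ν i).natAbs)
        (Finset.mem_univ i)
      simpa [hi] using this
    refine h1.trans ?_
    refine Finset.dvd_prod_of_mem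
      (fun ν : I → ℤ => ∏ i : I, (if ν i = 0 then 1 else (ν i).natAbs)) ?_
    rw [Set.Finite.mem_toFinset]
    exact Ch_iff_one.1 hν

lemma NGood.of_s {N : ℕ} {T : I → ℤ} {i : I} (hN : C.NGood N (C.s i T)) (hi : 0 < T i)
    (hg : C.good T) : C.NGood N T := by
  intro ν hν
  apply hN ν
  refine Relation.ReflTransGen.head ?_ hν
  have h1 : C.good (C.s i T) := C.good_s i hg
  have h2 := step_simple (C := C) (N := N) (j := 0) i h1 (by rw [C.s_self]; omega) (by simp)
  rwa [C.s_s] at h2

lemma IsPath.of_s {N : ℕ} {T : I → ℤ} {i : I} {d : ℕ → I → ℤ} (hi : 0 < T i)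
    (hg : C.good T) (h : C.IsPath N T d) : C.IsPath N (C.s i T) d := by
  refine ⟨h.zero, ?_, h.chain⟩
  refine Relation.ReflTransGen.head ?_ h.init
  have h1 : C.good (C.s i T) := C.good_s i hg
  have h2 := step_simple (C := C) (N := N) (j := 0) i h1 (by rw [C.s_self]; omega) (by simp)
  rwa [C.s_s] at h2

/-- Theorem A: the Demazure character is the sum over paths. -/
theorem dem_eq (hdom : ∀ {μ ν : I → ℤ} {β}, (∀ i, 0 ≤ μ i) → C.Cov μ ν β → False)
    {T : I → ℤ} {f : (I → ℤ) →₀ ℤ} (h : IsDem C.al T f) :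
    ∀ (hg : C.good T) (N : ℕ), 0 < N → C.NGood N T → ∀ G : (I → ℤ) → ℝ,
      pair f G = ∑ x ∈ C.PF N hg, G (wt N x) := by
  classical
  induction h with
  | base Λ hΛ =>
    intro hg N hN0 hN G
    rw [pair_single, one_smul]
    have h1 : C.PF N hg = {strt N Λ} := by
      ext d
      rw [mem_PF, mem_singleton]
      constructor
      · intro h
        funext l
        unfold strt
        split_ifs with hl
        · have h2 := h.reach l hl.1 hl.2
          rcases Relation.ReflTransGen.cases_head h2 with h3 | ⟨κ, ⟨β, hβ, _⟩, _⟩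
          · exact h3.symm
          · exact (hdom hΛ hβ).elim
        · exact h.zero l (by omega)
      · rintro rfl
        exact isPath_strt N Ch.refl hN0
    rw [h1, sum_singleton, wt_strt N hN0]
  | step T f i h hi ih =>
    intro hg' N hN0 hN' G
    change C.good (C.s i T) at hg'
    have hg : C.good T := by
      have : C.good (C.s i (C.s i T)) := C.good_s i hg'
      rwa [C.s_s] at this
    change C.NGood N (C.s i T) at hN'
    have hN : C.NGood N T := NGood.of_s hN' hi hg
    rw [pair_dem, ih hg N hN0 hN]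
    have hneg : (C.s i T) i < 0 := by rw [C.s_self]; omega
    -- strings upstairs
    have hX0 : StrSet C N (C.s i T) i 0 (C.PF N hg') := by
      refine ⟨fun x hx => mem_PF.1 hx, fun x _ => Nat.zero_le _, ?_, ?_⟩
      · intro x hx a b hw
        rw [mem_PF] at hx ⊢
        exact hx.flipF hN' hg' i hw (Or.inr hneg.le)
      · intro x hx _ a b hw
        rw [mem_PF] at hx ⊢
        exact hx.flipE hN' hg' i hw
    have hX1 : StrSet C N T i 1 ((C.PF N hg).filter (fun x => 1 ≤ eps N i x)) := by
      refine ⟨?_, ?_, ?_, ?_⟩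
      · intro x hx
        rw [mem_filter, mem_PF] at hx
        exact hx.1
      · intro x hx
        rw [mem_filter] at hx
        exact hx.2
      · intro x hx a b hw
        rw [mem_filter, mem_PF] at hx ⊢
        obtain ⟨hx, he⟩ := hx
        have h1 := hx.eps_mul hN hN0 i
        have h2 : (0 : ℤ) < N * eps N i x := by positivity
        have h3 : 1 ≤ a := by
          rcases Nat.eq_zero_or_pos a with h3 | h3
          · subst h3
            have h4 := mnH_eq (j := 0) (by omega) hw.mn
            rw [Hs_zero] at h4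
            omega
          · exact h3
        have h4 := hx.flipF hN hg i hw (Or.inl h3)
        refine ⟨h4, ?_⟩
        have := (step_F hx hN hN0 hw h4).1
        omega
      · intro x hx hr a b hw
        rw [mem_filter, mem_PF] at hx ⊢
        obtain ⟨hx, he⟩ := hx
        have h4 := hx.flipE hN hg i hw
        refine ⟨h4, ?_⟩
        have := (step_E hx hN hN0 hw h4).1
        omega
    have hz : ∑ x ∈ (C.PF N hg).filter (fun x => 1 ≤ eps N i x), Dst (C.al i) i G (wt N x)
        = 0 := by
      apply eq_zero_of_eq_neg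
      conv_lhs => rw [hX1.sum_refl hN hN0 (Dst (C.al i) i G)]
      rw [← Finset.sum_neg_distrib]
      refine Finset.sum_congr rfl fun x _ => ?_
      rw [← Dst_anti (C.al i) i (C.al_self i) G (wt N x)]
      congr 1
      rw [C.s_def]
      simp
    have hsplit := Finset.sum_filter_add_sum_filter_not (C.PF N hg)
      (fun x => 1 ≤ eps N i x) (fun x => Dst (C.al i) i G (wt N x))
    rw [hz, zero_add] at hsplit
    have hsum := hX0.sum hN' hN0 G
    refine Eq.trans ?_ hsum.symm
    rw [← hsplit]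
    have hset : (C.PF N hg').filter (fun x => eps N i x = 0) =
        (C.PF N hg).filter (fun x => ¬ 1 ≤ eps N i x) := by
      ext x
      rw [mem_filter, mem_filter, mem_PF, mem_PF]
      constructor
      · rintro ⟨h1, h2⟩
        refine ⟨?_, by omega⟩
        refine ⟨h1.zero, ?_, h1.chain⟩
        have h3 := h1.eps_mul hN' hN0 i
        rw [h2] at h3
        have h4 := mnH_le (N := N) (c := co i x) (l := 1) (by omega)
        have h5 : Hs (co i x) 1 = x 1 i := by
          rw [Hs_succ, Hs_zero, zero_add]; rfl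
        rw [h5] at h4
        have h6 := h1.init.sur2 i hneg (by push_cast at h3; omega)
        rwa [C.s_s] at h6
      · rintro ⟨h1, h2⟩
        exact ⟨h1.of_s hi hg, by omega⟩
    rw [hset]
    refine Finset.sum_congr rfl fun x hx => ?_
    rw [mem_filter, mem_PF] at hx
    have h1 := hx.1.wt_self hN hN0 i
    have h2 : eps N i x = 0 := by omega
    rw [h2] at h1
    unfold Dst
    rw [if_pos (by rw [h1]; push_cast; omega)]
    have h3 : (wt N x i).toNat = phi N i x := by rw [h1]; push_cast; omega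
    rw [h3]

section cancel

variable (r : I → ℕ)

/-- violation of dominance at time `l` in direction `i` -/
def Viol (N : ℕ) (x : ℕ → I → ℤ) (l : ℕ) (i : I) : Prop := Hs (co i x) l ≤ -((r i : ℤ) * N)

open Classical in
/-- first violation time -/
noncomputable def jst (N : ℕ) (x : ℕ → I → ℤ) : ℕ := sInf {l | ∃ i, Viol r N x l i}

/-- chosen direction of the first violation -/
noncomputable def ist [Nonempty I] (N : ℕ) (x : ℕ → I → ℤ) : I :=
  Classical.epsilon (Viol r N x (jst r N x))

variable {r}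

lemma Viol_flip {N : ℕ} {x : ℕ → I → ℤ} {i : I} {a b : ℕ} (hab : a ≤ b) (l : ℕ) (hl : l ≤ a) :
    Viol r N (C.flip i a b x) l = Viol r N x l := by
  funext k
  unfold Viol
  rw [Hs_flip i k hab, min_eq_left hl, min_eq_left (by omega : l ≤ b)]
  simp

lemma jst_flip {N : ℕ} {x : ℕ → I → ℤ} {i : I} {a b : ℕ} (hab : a ≤ b)
    (hex : ∃ l, ∃ k, Viol r N x l k) (hj : jst r N x ≤ a) :
    (∃ k, Viol r N (C.flip i a b x) (jst r N x) k) ∧
    jst r N (C.flip i a b x) = jst r N x := by
  have h1 : (∃ k, Viol r N x (jst r N x) k) := Nat.sInf_mem (s := {l | ∃ i, Viol r N x l i}) hex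
  have h2 : ∃ k, Viol r N (C.flip i a b x) (jst r N x) k := by
    rw [Viol_flip hab _ hj]; exact h1
  refine ⟨h2, ?_⟩
  apply le_antisymm
  · exact Nat.sInf_le h2
  · have h3 : (∃ k, Viol r N (C.flip i a b x) (jst r N (C.flip i a b x)) k) :=
      Nat.sInf_mem (s := {l | ∃ k, Viol r N (C.flip i a b x) l k}) ⟨_, h2⟩
    have h4 : jst r N (C.flip i a b x) ≤ jst r N x := Nat.sInf_le h2
    rw [Viol_flip hab _ (by omega)] at h3
    exact Nat.sInf_le h3

open Classical in
/-- Theorem B: cancellation of the non-dominant paths. -/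
theorem cancel [Nonempty I] {T : I → ℤ} (hg : C.good T) {N : ℕ} (hN0 : 0 < N)
    (hN : C.NGood N T)
    (hr : ∀ i, 1 ≤ r i) (G : (I → ℤ) → ℝ)
    (hanti : ∀ x, C.IsPath N T x → ∀ i,
      G (C.s i (wt N x) - (r i : ℤ) • C.al i) = - G (wt N x)) :
    ∃ Y : Finset (ℕ → I → ℤ), (∀ x, x ∈ Y ↔ C.IsPath N T x ∧ ∀ i, eps N i x < r i) ∧
      ∑ x ∈ C.PF N hg, G (wt N x) = ∑ x ∈ Y, G (wt N x) := by
  refine ⟨(C.PF N hg).filter (fun x => ∀ i, eps N i x < r i), fun x => by
    rw [Finset.mem_filter, mem_PF], ?_⟩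
  set S := (C.PF N hg).filter (fun x => ∃ i, r i ≤ eps N i x) with hS
  have hsplit := Finset.sum_filter_add_sum_filter_not (C.PF N hg)
      (fun x => ∃ i, r i ≤ eps N i x) (fun x => G (wt N x))
  have hfin : (C.PF N hg).filter (fun x => ∀ i, eps N i x < r i) =
      (C.PF N hg).filter (fun x => ¬ ∃ i, r i ≤ eps N i x) := by
    apply Finset.filter_congr
    intro x _
    simp only [not_exists, not_le]
  have hz : ∑ x ∈ S, G (wt N x) = 0 := by
    rw [← Finset.sum_fiberwise_of_maps_to (g := fun x => (jst r N x, ist r N x))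
      (t := S.image fun x => (jst r N x, ist r N x))
      (fun x hx => Finset.mem_image_of_mem _ hx)]
    refine Finset.sum_eq_zero ?_
    rintro ⟨j, i⟩ -
    set X := S.filter (fun x => (jst r N x, ist r N x) = (j, i)) with hX
    have hmem : ∀ x, x ∈ X ↔ (C.IsPath N T x ∧ ∃ i, r i ≤ eps N i x) ∧
        jst r N x = j ∧ ist r N x = i := by
      intro x
      rw [hX, mem_filter, hS, mem_filter, mem_PF, Prod.mk.injEq]
    -- basic facts for members
    have hbasic : ∀ x ∈ X, C.IsPath N T x ∧ (∃ l, ∃ k, Viol r N x l k) ∧ Viol r N x j i ∧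
        r i ≤ eps N i x ∧ jst r N x = j ∧ ist r N x = i := by
      intro x hx
      rw [hmem] at hx
      obtain ⟨⟨hp, i', hi'⟩, h1, h2⟩ := hx
      have h3 := hp.eps_mul hN hN0 i'
      obtain ⟨l, hl, hl'⟩ := exists_mnH N (co i' x)
      have h4 : Viol r N x l i' := by
        unfold Viol
        rw [hl']
        have : ((r i' : ℕ) : ℤ) * N ≤ eps N i' x * N := by
          have : ((r i' : ℕ) : ℤ) ≤ eps N i' x := by exact_mod_cast hi'
          exact mul_le_mul_of_nonneg_right this (by positivity)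
        linarith
      have hex : ∃ l, ∃ k, Viol r N x l k := ⟨l, i', h4⟩
      have h5 : ∃ k, Viol r N x (jst r N x) k :=
        Nat.sInf_mem (s := {l | ∃ i, Viol r N x l i}) hex
      have h6 : Viol r N x (jst r N x) (ist r N x) := Classical.epsilon_spec h5
      have h7 : jst r N x ≤ l := Nat.sInf_le (s := {l | ∃ i, Viol r N x l i}) ⟨i', h4⟩
      rw [h1, h2] at h6
      refine ⟨hp, hex, h6, ?_, h1, h2⟩
      have h8 := mnH_le (N := N) (c := co i x) (l := j) (by omega)
      have h9 := hp.eps_mul hN hN0 i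
      have h10 : (N : ℤ) * (r i) ≤ N * eps N i x := by
        unfold Viol at h6
        linarith
      have h11 := le_of_mul_le_mul_left h10 (by omega)
      exact_mod_cast h11
    have hstay : ∀ x ∈ X, ∀ a b, a ≤ b → Viol r N x a i → C.IsPath N T (C.flip i a b x) →
        r i ≤ eps N i (C.flip i a b x) → C.flip i a b x ∈ X := by
      intro x hx a b hab hv hp' he'
      obtain ⟨hp, hex, hv0, he, h1, h2⟩ := hbasic x hx
      have hja : jst r N x ≤ a := Nat.sInf_le (s := {l | ∃ i, Viol r N x l i}) ⟨i, hv⟩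
      obtain ⟨h3, h4⟩ := jst_flip (C := C) (i := i) hab hex hja
      rw [hmem]
      refine ⟨⟨hp', i, he'⟩, by rw [h4, h1], ?_⟩
      have h5 : ist r N (C.flip i a b x) = ist r N x := by
        unfold ist
        rw [h4, Viol_flip hab _ hja]
      rw [h5, h2]
    have hstr : StrSet C N T i (r i) X := by
      refine ⟨fun x hx => (hbasic x hx).1, fun x hx => (hbasic x hx).2.2.2.1, ?_, ?_⟩
      · intro x hx a b hw
        obtain ⟨hp, hex, hv0, he, h1, h2⟩ := hbasic x hx
        have hab := hw.ab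
        have hbN := hw.bN
        have h3 := mnH_eq (j := a) (by omega) hw.mn
        have h4 := hp.eps_mul hN hN0 i
        have h5 : ((r i : ℕ) : ℤ) * N ≤ eps N i x * N := by
          have : ((r i : ℕ) : ℤ) ≤ eps N i x := by exact_mod_cast he
          exact mul_le_mul_of_nonneg_right this (by positivity)
        have hv : Viol r N x a i := by
          unfold Viol
          linarith
        have h6 : 1 ≤ a := by
          rcases Nat.eq_zero_or_pos a with h6 | h6
          · subst h6
            unfold Viol at hv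
            rw [Hs_zero] at hv
            have h7 : (0 : ℤ) < (r i : ℤ) * N := by
              have := hr i
              positivity
            omega
          · exact h6
        have h7 := hp.flipF hN hg i hw (Or.inl h6)
        have h8 := (step_F hp hN hN0 hw h7).1
        exact hstay x hx a b hab.le hv h7 (by omega)
      · intro x hx hlt a b hw
        obtain ⟨hp, hex, hv0, he, h1, h2⟩ := hbasic x hx
        have hab := hw.ab
        have hbN := hw.bN
        have h3 := mnH_eq (j := b) hbN hw.mn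
        have h4 := hp.eps_mul hN hN0 i
        have h5 : (((r i : ℕ) : ℤ) + 1) * N ≤ eps N i x * N := by
          have : ((r i : ℕ) : ℤ) + 1 ≤ eps N i x := by exact_mod_cast hlt
          exact mul_le_mul_of_nonneg_right this (by positivity)
        have hv : Viol r N x a i := by
          unfold Viol
          rw [hw.ha]
          linarith
        have h7 := hp.flipE hN hg i hw
        have h8 := (step_E hp hN hN0 hw h7).1
        exact hstay x hx a b hab.le hv h7 (by omega)
    apply eq_zero_of_eq_neg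
    conv_lhs => rw [hstr.sum_refl hN hN0 G]
    rw [← Finset.sum_neg_distrib]
    refine Finset.sum_congr rfl fun x hx => ?_
    exact hanti x (hbasic x hx).1 i
  rw [hfin, ← hsplit]
  rw [hS] at hz
  rw [hz, zero_add]

end cancel

lemma IsPath.lev_wt {N : ℕ} {T : I → ℤ} {x : ℕ → I → ℤ} (hp : C.IsPath N T x) (hN0 : 0 < N)
    (hN : C.NGood N T) (lev : (I → ℤ) →+ ℤ)
    (hlev : ∀ {μ ν : I → ℤ} {β}, C.Cov μ ν β → lev ν = lev μ) : lev (wt N x) = lev T := by
  have hch : ∀ {μ ν : I → ℤ}, C.Ch N 0 μ ν → lev ν = lev μ := by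
    intro μ ν h
    induction h with
    | refl => rfl
    | tail _ hs ih =>
      obtain ⟨β, hβ, _⟩ := hs
      rw [hlev hβ, ih]
  have h1 : (N : ℤ) • wt N x = ∑ l ∈ range N, x (l + 1) := by
    funext k
    rw [Finset.sum_apply]
    simp only [Pi.smul_apply, smul_eq_mul]
    rw [hp.wt_mul hN k]
    rfl
  have h2 : lev ((N : ℤ) • wt N x) = (N : ℤ) * lev T := by
    rw [h1, map_sum, Finset.sum_congr rfl (g := fun _ => lev T)]
    · simp
    · intro l hl
      rw [mem_range] at hl
      exact hch (hp.reach (l + 1) (by omega) (by omega))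
  rw [map_zsmul, smul_eq_mul] at h2
  exact mul_left_cancel₀ (by omega) h2

lemma IsDem.exists_dom {T : I → ℤ} {f : (I → ℤ) →₀ ℤ} (h : IsDem C.al T f) (hg : C.good T) :
    ∃ Λ, (∀ i, 0 ≤ Λ i) ∧ C.Ch 1 0 T Λ := by
  induction h with
  | base Λ hΛ => exact ⟨Λ, hΛ, Ch.refl⟩
  | step T f i h hi ih =>
    change C.good (C.s i T) at hg
    change ∃ Λ, (∀ i, 0 ≤ Λ i) ∧ C.Ch 1 0 (C.s i T) Λ
    have hg2 : C.good T := by
      have : C.good (C.s i (C.s i T)) := C.good_s i hg
      rwa [C.s_s] at this
    obtain ⟨Λ, h1, h2⟩ := ih hg2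
    refine ⟨Λ, h1, Relation.ReflTransGen.head ?_ h2⟩
    have h3 := step_simple (C := C) (N := 1) (j := 0) i hg (by rw [C.s_self]; omega) (by simp)
    rwa [C.s_s] at h3

/-- Positivity of the pairing of a Demazure character with an antisymmetric functional. -/
theorem pair_pos [Fintype I] [Nonempty I]
    (hdom : ∀ {μ ν : I → ℤ} {β}, (∀ i, 0 ≤ μ i) → C.Cov μ ν β → False)
    (lev : (I → ℤ) →+ ℤ) (hlev : ∀ {μ ν : I → ℤ} {β}, C.Cov μ ν β → lev ν = lev μ)
    {T : I → ℤ} {f : (I → ℤ) →₀ ℤ} (h : IsDem C.al T f) (hg : C.good T)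
    (r : I → ℕ) (hr : ∀ i, 1 ≤ r i) (G : (I → ℤ) → ℝ)
    (hanti : ∀ ν, lev ν = lev T → ∀ i, G (C.s i ν - (r i : ℤ) • C.al i) = - G ν)
    (hpos : ∀ ν, lev ν = lev T → (∀ i, -(r i : ℤ) < ν i) → 0 < G ν) : 0 < pair f G := by
  classical
  obtain ⟨N, hN0, hN⟩ := exists_NGood (C := C) hg
  obtain ⟨Y, hY, hsum⟩ := cancel hg hN0 hN hr G
    (fun x hx i => hanti _ (hx.lev_wt hN0 hN lev hlev) i)
  rw [dem_eq hdom h hg N hN0 hN G, hsum]
  apply Finset.sum_pos
  · intro x hx
    obtain ⟨hx1, hx2⟩ := (hY x).1 hx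
    apply hpos _ (hx1.lev_wt hN0 hN lev hlev)
    intro i
    have h1 := hx1.wt_self hN hN0 i
    have h2 := hx2 i
    rw [h1]
    omega
  · obtain ⟨Λ, h1, h2⟩ := IsDem.exists_dom h hg
    have h3 := isPath_strt (C := C) N (Ch_iff_one.2 h2) hN0
    refine ⟨strt N Λ, (hY _).2 ⟨h3, ?_⟩⟩
    intro i
    have h4 := h3.eps_mul hN hN0 i
    rw [mnH_strt N Λ i (h1 i)] at h4
    have h5 : eps N i (strt N Λ) = 0 := by
      have : (N : ℤ) * eps N i (strt N Λ) = 0 := by rw [h4]; simp
      rcases mul_eq_zero.1 this with h6 | h6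
      · omega
      · exact_mod_cast h6
    rw [h5]
    exact hr i

end CovSys

end Pool.Agent.LS60
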