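import Mathlib

set_option autoImplicit false

/-! Integer sequences with local integrality: windows for the root operators. -/

namespace Pool.Agent.LS60

/-- partial sums -/
def Hs (c : ℕ → ℤ) (j : ℕ) : ℤ := ∑ l ∈ Finset.range j, c (l + 1)

lemma Hs_zero (c : ℕ → ℤ) : Hs c 0 = 0 := by simp [Hs]

lemma Hs_succ (c : ℕ → ℤ) (j : ℕ) : Hs c (j + 1) = Hs c j + c (j + 1) := by
  simp [Hs, Finset.sum_range_succ]

lemma Hs_congr {c c' : ℕ → ℤ} {j : ℕ} (h : ∀ l, 1 ≤ l → l ≤ j → c l = c' l) :
    Hs c j = Hs c' j := by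
  unfold Hs
  apply Finset.sum_congr rfl
  intro l hl
  rw [Finset.mem_range] at hl
  exact h _ (by omega) (by omega)

/-- local integrality of an integer sequence -/
structure SeqOK (N : ℕ) (c : ℕ → ℤ) : Prop where
  q1 : ∀ j, 1 ≤ j → j < N → (N : ℤ) ∣ j * (c j - c (j + 1))
  q2 : ∀ j, 1 ≤ j → j < N → ¬ (N : ℤ) ∣ j * c j → c j < 0 → c (j + 1) < 0
  q2' : ∀ j, 1 ≤ j → j < N → ¬ (N : ℤ) ∣ j * c (j + 1) → 0 < c (j + 1) → 0 < c j
  q3 : ∀ j, 1 ≤ j → j ≤ N → c j ≠ 0 → c j ∣ N

namespace SeqOK

variable {N : ℕ} {c : ℕ → ℤ} (h : SeqOK N c)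
include h

lemma cong (j : ℕ) (hj : 1 ≤ j) (hjN : j ≤ N) : (N : ℤ) ∣ Hs c j - j * c j := by
  induction j, hj using Nat.le_induction with
  | base => simp [Hs]
  | succ j hj ih =>
    have h1 := ih (by omega)
    have h2 := h.q1 j hj (by omega)
    have h3 := dvd_add h1 h2
    rw [Hs_succ]
    have : Hs c j + c (j + 1) - ((j + 1 : ℕ) : ℤ) * c (j + 1) =
        Hs c j - j * c j + j * (c j - c (j + 1)) := by
      push_cast; ring
    rw [this]
    exact h3

lemma dvd_iff (j : ℕ) (hj : 1 ≤ j) (hjN : j ≤ N) :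
    (N : ℤ) ∣ Hs c j ↔ (N : ℤ) ∣ j * c j := by
  have h1 := h.cong j hj hjN
  constructor
  · intro h2
    have := dvd_sub h2 h1
    rwa [sub_sub_cancel] at this
  · intro h2
    have := dvd_add h1 h2
    rwa [sub_add_cancel] at this

lemma dvd_iff' (j : ℕ) (hj : 1 ≤ j) (hjN : j < N) :
    (N : ℤ) ∣ Hs c j ↔ (N : ℤ) ∣ j * c (j + 1) := by
  rw [h.dvd_iff j hj hjN.le]
  have h1 := h.q1 j hj hjN
  rw [mul_sub] at h1
  constructor
  · intro h2
    have := dvd_sub h2 h1
    rwa [sub_sub_cancel] at this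
  · intro h2
    have := dvd_add h1 h2
    rwa [sub_add_cancel] at this

lemma dvd_end : (N : ℤ) ∣ Hs c N := by
  rcases Nat.eq_zero_or_pos N with h0 | h0
  · subst h0; simp [Hs]
  · rw [h.dvd_iff N h0 le_rfl]
    exact Dvd.intro _ rfl

/-- local minima are integral -/
lemma min_int (j : ℕ) (hj : 1 ≤ j) (hjN : j < N) (h1 : c j ≤ 0) (h2 : 0 ≤ c (j + 1)) :
    (N : ℤ) ∣ Hs c j := by
  by_contra hn
  have h3 : ¬ (N : ℤ) ∣ j * c j := by rwa [h.dvd_iff j hj hjN.le] at hn
  have h4 : c j ≠ 0 := by
    rintro h4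
    rw [h4] at h3
    simp at h3
  have h5 := h.q2 j hj hjN h3 (lt_of_le_of_ne h1 h4)
  omega

/-- between two consecutive multiples of `N` the sequence cannot go down forever -/
lemma down_run (A : ℤ) (hA : (N : ℤ) ∣ A) (l : ℕ) (hl : 1 ≤ l) (hlN : l ≤ N) (hc : c l < 0)
    (h1 : Hs c l < A + N) (h2 : ∀ l', l ≤ l' → l' ≤ N → A < Hs c l') : False := by
  have key : ∀ l', l ≤ l' → l' ≤ N → c l' < 0 ∧ Hs c l' < A + N := by
    intro l' hl'
    induction l', hl' using Nat.le_induction with
    | base => exact fun _ => ⟨hc, h1⟩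
    | succ l' hl' ih =>
      intro hN
      obtain ⟨i1, i2⟩ := ih (by omega)
      have h3 := h2 l' hl' (by omega)
      have h4 : ¬ (N : ℤ) ∣ Hs c l' := by
        intro h4
        obtain ⟨a, ha⟩ := hA
        obtain ⟨b, hb⟩ := h4
        rw [ha, hb] at h3
        rw [ha, hb] at i2
        have hNpos : (0 : ℤ) < N := by omega
        have h5 : a < b := lt_of_mul_lt_mul_left h3 hNpos.le
        have h6 : (N : ℤ) * b < N * (a + 1) := by linarith
        have h7 : b < a + 1 := lt_of_mul_lt_mul_left h6 hNpos.le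
        omega
      rw [h.dvd_iff l' (by omega) (by omega)] at h4
      have h5 := h.q2 l' (by omega) (by omega) h4 i1
      refine ⟨h5, ?_⟩
      rw [Hs_succ]
      omega
  obtain ⟨-, h3⟩ := key N hlN le_rfl
  have h4 := h2 N hlN le_rfl
  obtain ⟨a, ha⟩ := hA
  obtain ⟨b, hb⟩ := h.dvd_end
  rw [ha, hb] at h3
  rw [ha, hb] at h4
  have hNpos : (0 : ℤ) < N := by omega
  have h5 : a < b := lt_of_mul_lt_mul_left h4 hNpos.le
  have h6 : (N : ℤ) * b < N * (a + 1) := by linarith
  have h7 : b < a + 1 := lt_of_mul_lt_mul_left h6 hNpos.le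
  omega

/-- dual of `down_run` -/
lemma up_run (A : ℤ) (hA : (N : ℤ) ∣ A) (l : ℕ) (hlN : l < N) (hc : 0 < c (l + 1))
    (h1 : Hs c l < A + N) (h2 : ∀ l', l' ≤ l → A < Hs c l') : False := by
  have key : ∀ k, k ≤ l → 0 < c (l - k + 1) ∧ Hs c (l - k) < A + N := by
    intro k
    induction k with
    | zero => exact fun _ => ⟨hc, h1⟩
    | succ k ih =>
      intro hk
      obtain ⟨i1, i2⟩ := ih (by omega)
      have h3 := h2 (l - k) (by omega)
      have h4 : ¬ (N : ℤ) ∣ Hs c (l - k) := by
        intro h4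
        obtain ⟨a, ha⟩ := hA
        obtain ⟨b, hb⟩ := h4
        rw [ha, hb] at h3
        rw [ha, hb] at i2
        have hNpos : (0 : ℤ) < N := by omega
        have h5 : a < b := lt_of_mul_lt_mul_left h3 hNpos.le
        have h6 : (N : ℤ) * b < N * (a + 1) := by linarith
        have h7 : b < a + 1 := lt_of_mul_lt_mul_left h6 hNpos.le
        omega
      rw [h.dvd_iff' (l - k) (by omega) (by omega)] at h4
      have h5 := h.q2' (l - k) (by omega) (by omega) h4 i1
      have h6 : l - (k + 1) + 1 = l - k := by omega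
      rw [h6]
      refine ⟨h5, ?_⟩
      have h7 : Hs c (l - k) = Hs c (l - (k + 1)) + c (l - k) := by
        rw [← h6, Hs_succ]
      omega
  obtain ⟨-, h3⟩ := key l le_rfl
  have h4 := h2 0 (by omega)
  rw [Nat.sub_self] at h3
  rw [Hs_zero] at h3 h4
  obtain ⟨a, ha⟩ := hA
  have hNpos : (0 : ℤ) < N := by omega
  rw [ha] at h3 h4
  have h5 : a < 0 := by
    by_contra h5
    have : 0 ≤ (N : ℤ) * a := mul_nonneg hNpos.le (by omega)
    omega
  have h6 : (N : ℤ) * a + N ≤ 0 := by
    have : (N : ℤ) * (a + 1) ≤ 0 := mul_nonpos_of_nonneg_of_nonpos hNpos.le (by omega)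
    linarith
  omega

/-- Window upward: starting at the last minimum. -/
lemma window_up (a : ℕ) (ha : a < N) (hd : (N : ℤ) ∣ Hs c a)
    (hgt : ∀ l, a < l → l ≤ N → Hs c a < Hs c l) :
    ∃ b, a < b ∧ b ≤ N ∧ Hs c b = Hs c a + N ∧ (∀ l, a < l → l ≤ b → 0 < c l) ∧
      (∀ l, a < l → l < b → Hs c l < Hs c a + N) ∧
      (∀ l, b ≤ l → l ≤ N → Hs c a + N ≤ Hs c l) := by
  classical
  have hNpos : (0 : ℤ) < N := by omega
  have hnd : ∀ l, a < l → l ≤ N → Hs c l < Hs c a + N → ¬ (N : ℤ) ∣ Hs c l := by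
    intro l h1 h2 h3 h4
    have h5 := hgt l h1 h2
    obtain ⟨x, hx⟩ := hd
    obtain ⟨y, hy⟩ := h4
    rw [hx, hy] at h5 h3
    have h6 : x < y := lt_of_mul_lt_mul_left h5 hNpos.le
    have h7 : (N : ℤ) * y < N * (x + 1) := by linarith
    have h8 : y < x + 1 := lt_of_mul_lt_mul_left h7 hNpos.le
    omega
  have hN : Hs c a + N ≤ Hs c N := by
    by_contra hcon
    exact hnd N ha le_rfl (by omega) h.dvd_end
  have hex : ∃ b, a < b ∧ Hs c a + N ≤ Hs c b := ⟨N, ha, hN⟩
  set b := Nat.find hex with hb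
  have hb1 : a < b := (Nat.find_spec hex).1
  have hb2 : Hs c a + N ≤ Hs c b := (Nat.find_spec hex).2
  have hbN : b ≤ N := Nat.find_min' hex ⟨ha, hN⟩
  have hb3 : ∀ l, a < l → l < b → Hs c l < Hs c a + N := by
    intro l h1 h2
    by_contra h3
    exact Nat.find_min hex h2 ⟨h1, by omega⟩
  have hpos : ∀ l, a < l → l ≤ b → 0 < c l := by
    intro l h1
    induction l, h1 using Nat.le_induction with
    | base =>
      intro _
      have h2 := hgt (a + 1) (by omega) (by omega)
      rw [Hs_succ] at h2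
      show 0 < c (a + 1)
      omega
    | succ l h1 ih =>
      intro h2
      have h3 := ih (by omega)
      have h4 := hb3 l h1 (by omega)
      have h5 := hnd l h1 (by omega) h4
      by_contra h6
      have h7 : c (l + 1) ≠ 0 := by
        intro h7
        apply h5
        rw [h.dvd_iff' l (by omega) (by omega), h7]
        simp
      refine h.down_run (Hs c a) hd (l + 1) (by omega) (by omega) (by omega) ?_ ?_
      · rw [Hs_succ]; omega
      · intro l' h8 h9
        exact hgt l' (by omega) h9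
  have hbe : Hs c b = Hs c a + N := by
    obtain ⟨b', hb'⟩ : ∃ b', b = b' + 1 := ⟨b - 1, by omega⟩
    have h1 := hpos b (by omega) le_rfl
    have h2 := h.q3 b (by omega) hbN (by omega)
    have h3 : c b ∣ Hs c b := by
      have := h.cong b (by omega) hbN
      have h4 := h2.trans this
      have h5 := dvd_add h4 (Dvd.intro_left (b : ℤ) rfl : c b ∣ b * c b)
      rwa [sub_add_cancel] at h5
    have h4 : c b ∣ Hs c a + N := dvd_add (h2.trans hd) h2
    have h5 := dvd_sub h3 h4
    have h6 : Hs c b - (Hs c a + N) < c b := by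
      have h7 : Hs c b = Hs c b' + c b := by rw [hb', Hs_succ]
      rw [h7]
      rcases Nat.lt_or_ge a b' with h8 | h8
      · have := hb3 b' h8 (by omega)
        omega
      · have : b' = a := by omega
        rw [this]
        omega
    have h7 := Int.eq_zero_of_dvd_of_nonneg_of_lt (n := c b) (m := Hs c b - (Hs c a + N))
      (by omega) h6 h5
    omega
  refine ⟨b, hb1, hbN, hbe, hpos, hb3, ?_⟩
  intro l h1
  induction l, h1 using Nat.le_induction with
  | base => intro _; omega
  | succ l h1 ih =>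
    intro h2
    have h3 := ih (by omega)
    by_contra h4
    have h5 : c (l + 1) < 0 := by
      rw [Hs_succ] at h4
      omega
    exact h.down_run (Hs c a) hd (l + 1) (by omega) h2 h5 (by omega)
      (fun l' h8 h9 => hgt l' (by omega) h9)

/-- Window downward: ending at the first minimum. -/
lemma window_down (b : ℕ) (hb0 : 0 < b) (hbN : b ≤ N) (hd : (N : ℤ) ∣ Hs c b)
    (hgt : ∀ l, l < b → Hs c b < Hs c l) :
    ∃ a, a < b ∧ Hs c a = Hs c b + N ∧ (∀ l, a < l → l ≤ b → c l < 0) ∧
      (∀ l, a < l → l < b → Hs c l < Hs c b + N) ∧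
      (∀ l, l ≤ a → Hs c b + N ≤ Hs c l) := by
  classical
  have hNpos : (0 : ℤ) < N := by omega
  have hnd : ∀ l, l < b → Hs c l < Hs c b + N → ¬ (N : ℤ) ∣ Hs c l := by
    intro l h1 h3 h4
    have h5 := hgt l h1
    obtain ⟨x, hx⟩ := hd
    obtain ⟨y, hy⟩ := h4
    rw [hx, hy] at h5 h3
    have h6 : x < y := lt_of_mul_lt_mul_left h5 hNpos.le
    have h7 : (N : ℤ) * y < N * (x + 1) := by linarith
    have h8 : y < x + 1 := lt_of_mul_lt_mul_left h7 hNpos.le
    omega
  have h0 : Hs c b + N ≤ Hs c 0 := by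
    by_contra hcon
    refine hnd 0 hb0 (by omega) ?_
    rw [Hs_zero]; simp
  -- the greatest index below `b` with value `≥ H b + N`
  have hex : ∃ k, Hs c b + N ≤ Hs c (b - 1 - k) := ⟨b - 1, by simpa using h0⟩
  set k := Nat.find hex with hk
  have hk1 : Hs c b + N ≤ Hs c (b - 1 - k) := Nat.find_spec hex
  have hkb : k ≤ b - 1 := Nat.find_min' hex (by simpa using h0)
  set a := b - 1 - k with ha
  have hab : a < b := by omega
  have ha3 : ∀ l, a < l → l < b → Hs c l < Hs c b + N := by
    intro l h1 h2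
    by_contra h3
    have h4 : b - 1 - (b - 1 - l) = l := by omega
    refine Nat.find_min hex (m := b - 1 - l) (by omega) ?_
    rw [h4]
    omega
  have hneg : ∀ k', k' < b - a → c (b - k') < 0 := by
    intro k'
    induction k' with
    | zero =>
      intro _
      obtain ⟨b', hb'⟩ : ∃ b', b = b' + 1 := ⟨b - 1, by omega⟩
      have h2 := hgt b' (by omega)
      rw [Nat.sub_zero, hb']
      rw [hb', Hs_succ] at h2
      omega
    | succ k' ih =>
      intro h2
      have h3 := ih (by omega)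
      set l := b - (k' + 1) with hl
      have hl1 : b - k' = l + 1 := by omega
      rw [hl1] at h3
      have h4 := ha3 l (by omega) (by omega)
      have h5 := hnd l (by omega) h4
      by_contra h6
      have h7 : c l ≠ 0 := by
        intro h7
        apply h5
        rw [h.dvd_iff l (by omega) (by omega), h7]
        simp
      obtain ⟨l', hl'⟩ : ∃ l', l = l' + 1 := ⟨l - 1, by omega⟩
      refine h.up_run (Hs c b) hd l' (by omega) (by rw [← hl']; omega) ?_ ?_
      · rw [hl', Hs_succ] at h4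
        rw [hl'] at h6 h7
        omega
      · intro l'' h8
        exact hgt l'' (by omega)
  have hneg' : ∀ l, a < l → l ≤ b → c l < 0 := by
    intro l h1 h2
    have := hneg (b - l) (by omega)
    rwa [show b - (b - l) = l by omega] at this
  have hae : Hs c a = Hs c b + N := by
    have h1 := hneg' (a + 1) (by omega) (by omega)
    have h2 := h.q3 (a + 1) (by omega) (by omega) (by omega)
    have h3 : c (a + 1) ∣ Hs c a := by
      have h4 := h2.trans (h.cong (a + 1) (by omega) (by omega))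
      rw [Hs_succ] at h4
      have h5 : Hs c a = (Hs c a + c (a + 1) - ((a + 1 : ℕ) : ℤ) * c (a + 1)) + a * c (a + 1) := by
        push_cast; ring
      rw [h5]
      exact dvd_add h4 (Dvd.intro_left (a : ℤ) rfl)
    have h4 : c (a + 1) ∣ Hs c b + N := dvd_add (h2.trans hd) h2
    have h5 := dvd_sub h3 h4
    have h6 : Hs c a - (Hs c b + N) < - c (a + 1) := by
      have h7 : Hs c (a + 1) = Hs c a + c (a + 1) := Hs_succ c a
      rcases Nat.lt_or_ge (a + 1) b with h8 | h8
      · have := ha3 (a + 1) (by omega) h8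
        omega
      · have : a + 1 = b := by omega
        rw [this] at h7
        rw [this]
        omega
    have h7 := Int.eq_zero_of_dvd_of_nonneg_of_lt (n := - c (a + 1))
      (m := Hs c a - (Hs c b + N)) (by omega) h6 ((neg_dvd).2 h5)
    omega
  refine ⟨a, hab, hae, hneg', ha3, ?_⟩
  have key : ∀ k', k' ≤ a → Hs c b + N ≤ Hs c (a - k') := by
    intro k'
    induction k' with
    | zero => intro _; rw [Nat.sub_zero]; omega
    | succ k' ih =>
      intro h2
      have h3 := ih (by omega)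
      by_contra h4
      set l := a - (k' + 1) with hl
      have hl1 : a - k' = l + 1 := by omega
      rw [hl1, Hs_succ] at h3
      exact h.up_run (Hs c b) hd l (by omega) (by omega) (by omega)
        (fun l' h8 => hgt l' (by omega))
  intro l h1
  have := key (a - l) (by omega)
  rwa [show a - (a - l) = l by omega] at this

end SeqOK

end Pool.Agent.LS60
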