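import Pool.Agent.LS60.Chain
import Pool.Agent.LS60.Seq

set_option autoImplicit false

/-! Discretised Lakshmibai-Seshadri paths and root operators. -/

namespace Pool.Agent.LS60

/-- window of a lowering operator -/
structure FWin (N : ℕ) (c : ℕ → ℤ) (a b : ℕ) : Prop where
  ab : a < b
  bN : b ≤ N
  mn : ∀ l, l ≤ N → Hs c a ≤ Hs c l
  gt : ∀ l, a < l → l ≤ N → Hs c a < Hs c l
  hb : Hs c b = Hs c a + N
  pos : ∀ l, a < l → l ≤ b → 0 < c l
  lt : ∀ l, a < l → l < b → Hs c l < Hs c a + N
  ge : ∀ l, b ≤ l → l ≤ N → Hs c a + N ≤ Hs c l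

/-- window of a raising operator -/
structure EWin (N : ℕ) (c : ℕ → ℤ) (a b : ℕ) : Prop where
  ab : a < b
  bN : b ≤ N
  mn : ∀ l, l ≤ N → Hs c b ≤ Hs c l
  gt : ∀ l, l < b → Hs c b < Hs c l
  ha : Hs c a = Hs c b + N
  neg : ∀ l, a < l → l ≤ b → c l < 0
  lt : ∀ l, a < l → l < b → Hs c l < Hs c b + N
  ge : ∀ l, l ≤ a → Hs c b + N ≤ Hs c l

/-- sign flip on a window -/
def flipc (a b : ℕ) (c : ℕ → ℤ) : ℕ → ℤ := fun l => if a < l ∧ l ≤ b then - c l else c l

lemma Hs_flipc {a b : ℕ} (hab : a ≤ b) (c : ℕ → ℤ) (j : ℕ) :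
    Hs (flipc a b c) j = Hs c j - 2 * (Hs c (min j b) - Hs c (min j a)) := by
  induction j with
  | zero => simp [Hs_zero]
  | succ j ih =>
    rw [Hs_succ, ih, Hs_succ]
    unfold flipc
    rcases Nat.lt_or_ge j a with h1 | h1
    · rw [if_neg (by omega), min_eq_left (by omega : j ≤ b), min_eq_left (by omega : j ≤ a),
        min_eq_left (by omega : j + 1 ≤ b), min_eq_left (by omega : j + 1 ≤ a)]
      ring
    · rcases Nat.lt_or_ge j b with h2 | h2
      · rw [if_pos (by omega), min_eq_left (by omega : j ≤ b), min_eq_right h1,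
          min_eq_left (by omega : j + 1 ≤ b), min_eq_right (by omega : a ≤ j + 1), Hs_succ]
        ring
      · rw [if_neg (by omega), min_eq_right h2, min_eq_right h1,
          min_eq_right (by omega : b ≤ j + 1), min_eq_right (by omega : a ≤ j + 1)]
        ring

lemma flipc_low {a b : ℕ} (hab : a ≤ b) (c : ℕ → ℤ) (j : ℕ) (hj : j ≤ a) :
    Hs (flipc a b c) j = Hs c j := by
  rw [Hs_flipc hab, min_eq_left (by omega), min_eq_left hj]; ring

lemma flipc_mid {a b : ℕ} (hab : a ≤ b) (c : ℕ → ℤ) (j : ℕ) (hj : a ≤ j) (hj' : j ≤ b) :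
    Hs (flipc a b c) j = 2 * Hs c a - Hs c j := by
  rw [Hs_flipc hab, min_eq_left hj', min_eq_right hj]; ring

lemma flipc_high {a b : ℕ} (hab : a ≤ b) (c : ℕ → ℤ) (j : ℕ) (hj : b ≤ j) :
    Hs (flipc a b c) j = Hs c j - 2 * (Hs c b - Hs c a) := by
  rw [Hs_flipc hab, min_eq_right hj, min_eq_right (by omega)]

lemma FWin.toE {N : ℕ} {c : ℕ → ℤ} {a b : ℕ} (h : FWin N c a b) : EWin N (flipc a b c) a b := by
  have hab := h.ab
  have hbN := h.bN
  have hb := h.hb
  have e1 : Hs (flipc a b c) b = Hs c a - N := by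
    rw [flipc_mid hab.le c b hab.le le_rfl, hb]; ring
  have e2 : Hs (flipc a b c) a = Hs c a := flipc_low hab.le c a le_rfl
  have hN : (0 : ℤ) < N := by omega
  refine ⟨hab, hbN, ?_, ?_, ?_, ?_, ?_, ?_⟩
  · intro l hl
    rw [e1]
    rcases Nat.lt_or_ge l a with h1 | h1
    · rw [flipc_low hab.le c l h1.le]
      have := h.mn l hl
      omega
    · rcases Nat.lt_or_ge l b with h2 | h2
      · rw [flipc_mid hab.le c l h1 h2.le]
        rcases Nat.eq_or_lt_of_le h1 with h3 | h3
        · rw [← h3]; omega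
        · have := h.lt l h3 h2
          omega
      · rw [flipc_high hab.le c l h2, hb]
        have := h.ge l h2 hl
        omega
  · intro l hl
    rw [e1]
    rcases Nat.lt_or_ge l a with h1 | h1
    · rw [flipc_low hab.le c l h1.le]
      have := h.mn l (by omega)
      omega
    · rw [flipc_mid hab.le c l h1 hl.le]
      rcases Nat.eq_or_lt_of_le h1 with h3 | h3
      · rw [← h3]; omega
      · have := h.lt l h3 hl
        omega
  · rw [e1, e2]; ring
  · intro l h1 h2
    have := h.pos l h1 h2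
    unfold flipc
    rw [if_pos ⟨h1, h2⟩]
    omega
  · intro l h1 h2
    rw [e1, flipc_mid hab.le c l h1.le h2.le]
    have := h.gt l h1 (by omega)
    omega
  · intro l hl
    rw [e1, flipc_low hab.le c l hl]
    have := h.mn l (by omega)
    omega

lemma EWin.toF {N : ℕ} {c : ℕ → ℤ} {a b : ℕ} (h : EWin N c a b) : FWin N (flipc a b c) a b := by
  have hab := h.ab
  have hbN := h.bN
  have ha := h.ha
  have e1 : Hs (flipc a b c) b = Hs c b + 2 * N := by
    rw [flipc_mid hab.le c b hab.le le_rfl, ha]; ring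
  have e2 : Hs (flipc a b c) a = Hs c b + N := by
    rw [flipc_low hab.le c a le_rfl, ha]
  have hN : (0 : ℤ) < N := by omega
  refine ⟨hab, hbN, ?_, ?_, ?_, ?_, ?_, ?_⟩
  · intro l hl
    rw [e2]
    rcases Nat.lt_or_ge l a with h1 | h1
    · rw [flipc_low hab.le c l h1.le]
      have := h.ge l h1.le
      omega
    · rcases Nat.lt_or_ge l b with h2 | h2
      · rw [flipc_mid hab.le c l h1 h2.le, ha]
        rcases Nat.eq_or_lt_of_le h1 with h3 | h3
        · rw [← h3]; omega
        · have := h.lt l h3 h2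
          omega
      · rw [flipc_high hab.le c l h2, ha]
        have := h.mn l hl
        omega
  · intro l h1 hl
    rw [e2]
    rcases Nat.lt_or_ge l b with h2 | h2
    · rw [flipc_mid hab.le c l h1.le h2.le, ha]
      have := h.lt l h1 h2
      omega
    · rw [flipc_high hab.le c l h2, ha]
      have := h.mn l hl
      omega
  · rw [e1, e2]; ring
  · intro l h1 h2
    have := h.neg l h1 h2
    unfold flipc
    rw [if_pos ⟨h1, h2⟩]
    omega
  · intro l h1 h2
    rw [e2, flipc_mid hab.le c l h1.le h2.le, ha]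
    have := h.gt l h2
    omega
  · intro l h1 h2
    rw [e2, flipc_high hab.le c l h1, ha]
    have := h.mn l h2
    omega

lemma FWin.unique {N : ℕ} {c : ℕ → ℤ} {a b a' b' : ℕ} (h : FWin N c a b) (h' : FWin N c a' b') :
    a = a' ∧ b = b' := by
  have haN : a ≤ N := by have := h.ab; have := h.bN; omega
  have haN' : a' ≤ N := by have := h'.ab; have := h'.bN; omega
  have h1 : a = a' := by
    rcases lt_trichotomy a a' with h1 | h1 | h1
    · have := h.gt a' h1 haN'
      have := h'.mn a haN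
      omega
    · exact h1
    · have := h'.gt a h1 haN
      have := h.mn a' haN'
      omega
  subst h1
  refine ⟨rfl, ?_⟩
  rcases lt_trichotomy b b' with h1 | h1 | h1
  · have := h'.lt b h.ab h1
    have := h.hb
    omega
  · exact h1
  · have := h.lt b' h'.ab h1
    have := h'.hb
    omega

lemma EWin.unique {N : ℕ} {c : ℕ → ℤ} {a b a' b' : ℕ} (h : EWin N c a b) (h' : EWin N c a' b') :
    a = a' ∧ b = b' := by
  have h1 : b = b' := by
    rcases lt_trichotomy b b' with h1 | h1 | h1
    · have := h'.gt b h1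
      have := h.mn b' h'.bN
      omega
    · exact h1
    · have := h.gt b' h1
      have := h'.mn b h.bN
      omega
  subst h1
  refine ⟨?_, rfl⟩
  rcases lt_trichotomy a a' with h1 | h1 | h1
  · have := h.lt a' h1 h'.ab
    have := h'.ha
    omega
  · exact h1
  · have := h'.lt a h1 h.ab
    have := h.ha
    omega

namespace SeqOK

variable {N : ℕ} {c : ℕ → ℤ}

lemma dvd_of_min (h : SeqOK N c) {j : ℕ} (hj : j ≤ N) (hm : ∀ l, l ≤ N → Hs c j ≤ Hs c l) :
    (N : ℤ) ∣ Hs c j := by
  rcases Nat.eq_zero_or_pos j with h0 | h0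
  · subst h0; rw [Hs_zero]; simp
  rcases Nat.eq_or_lt_of_le hj with h1 | h1
  · subst h1; exact h.dvd_end
  apply h.min_int j h0 h1
  · obtain ⟨j', hj'⟩ : ∃ j', j = j' + 1 := ⟨j - 1, by omega⟩
    have := hm j' (by omega)
    rw [hj', Hs_succ] at this
    rw [hj']
    omega
  · have := hm (j + 1) (by omega)
    rw [Hs_succ] at this
    omega

lemma exists_F (h : SeqOK N c) {a : ℕ} (ha : a < N) (hm : ∀ l, l ≤ N → Hs c a ≤ Hs c l)
    (hgt : ∀ l, a < l → l ≤ N → Hs c a < Hs c l) : ∃ b, FWin N c a b := by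
  obtain ⟨b, h1, h2, h3, h4, h5, h6⟩ := h.window_up a ha (h.dvd_of_min ha.le hm) hgt
  exact ⟨b, h1, h2, hm, hgt, h3, h4, h5, h6⟩

lemma exists_E (h : SeqOK N c) {b : ℕ} (hb0 : 0 < b) (hbN : b ≤ N)
    (hm : ∀ l, l ≤ N → Hs c b ≤ Hs c l)
    (hgt : ∀ l, l < b → Hs c b < Hs c l) : ∃ a, EWin N c a b := by
  obtain ⟨a, h1, h3, h4, h5, h6⟩ := h.window_down b hb0 hbN (h.dvd_of_min hbN hm) hgt
  exact ⟨a, h1, hbN, hm, hgt, h3, h4, h5, h6⟩

end SeqOK

/-- minimum of the partial sums -/
noncomputable def mnH (N : ℕ) (c : ℕ → ℤ) : ℤ :=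
  (Finset.range (N + 1)).inf' ⟨0, by simp⟩ (Hs c)

lemma mnH_le {N : ℕ} {c : ℕ → ℤ} {l : ℕ} (hl : l ≤ N) : mnH N c ≤ Hs c l :=
  Finset.inf'_le _ (by simp; omega)

lemma exists_mnH (N : ℕ) (c : ℕ → ℤ) : ∃ l, l ≤ N ∧ Hs c l = mnH N c := by
  obtain ⟨l, hl, h⟩ := Finset.exists_mem_eq_inf' (s := Finset.range (N + 1)) ⟨0, by simp⟩ (Hs c)
  exact ⟨l, by simpa [Nat.lt_succ_iff] using hl, h.symm⟩

lemma mnH_nonpos (N : ℕ) (c : ℕ → ℤ) : mnH N c ≤ 0 := by
  have := mnH_le (c := c) (Nat.zero_le N)
  rwa [Hs_zero] at this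

lemma mnH_eq {N : ℕ} {c : ℕ → ℤ} {j : ℕ} (hj : j ≤ N) (hm : ∀ l, l ≤ N → Hs c j ≤ Hs c l) :
    mnH N c = Hs c j := by
  apply le_antisymm (mnH_le hj)
  obtain ⟨l, hl, h⟩ := exists_mnH N c
  rw [← h]
  exact hm l hl

lemma exists_last (N : ℕ) (c : ℕ → ℤ) : ∃ a, a ≤ N ∧ Hs c a = mnH N c ∧
    (∀ l, l ≤ N → Hs c a ≤ Hs c l) ∧ ∀ l, a < l → l ≤ N → Hs c a < Hs c l := by
  classical
  obtain ⟨l0, hl0, h0⟩ := exists_mnH N c
  set a := Nat.findGreatest (fun j => Hs c j = mnH N c) N with ha
  have ha1 : Hs c a = mnH N c := Nat.findGreatest_spec (P := fun j => Hs c j = mnH N c) hl0 h0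
  have haN : a ≤ N := Nat.findGreatest_le N
  refine ⟨a, haN, ha1, fun l hl => by rw [ha1]; exact mnH_le hl, ?_⟩
  intro l h1 h2
  have h3 : Hs c l ≠ mnH N c :=
    Nat.findGreatest_is_greatest (P := fun j => Hs c j = mnH N c) h1 h2
  have h4 := mnH_le (c := c) h2
  rw [ha1]
  omega

lemma exists_first (N : ℕ) (c : ℕ → ℤ) : ∃ b, b ≤ N ∧ Hs c b = mnH N c ∧
    (∀ l, l ≤ N → Hs c b ≤ Hs c l) ∧ ∀ l, l < b → Hs c b < Hs c l := by
  classical
  obtain ⟨l0, hl0, h0⟩ := exists_mnH N c
  have hex : ∃ j, Hs c j = mnH N c := ⟨l0, h0⟩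
  set b := Nat.find hex with hb
  have hb1 : Hs c b = mnH N c := Nat.find_spec hex
  have hbl : b ≤ l0 := Nat.find_min' hex h0
  refine ⟨b, by omega, hb1, fun l hl => by rw [hb1]; exact mnH_le hl, ?_⟩
  intro l h1
  have h3 : Hs c l ≠ mnH N c := Nat.find_min hex h1
  have h4 := mnH_le (N := N) (c := c) (l := l) (by omega)
  rw [hb1]
  omega

namespace CovSys

variable {I : Type} {C : CovSys I}

/-- coordinate sequence -/
def co (i : I) (d : ℕ → I → ℤ) : ℕ → ℤ := fun l => d l i

variable (C)

/-- apply `s i` on a window -/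
def flip (i : I) (a b : ℕ) (d : ℕ → I → ℤ) : ℕ → I → ℤ :=
  fun l => if a < l ∧ l ≤ b then C.s i (d l) else d l

/-- Discretised LS paths (with `N` steps) with initial direction below `T`. -/
structure IsPath (N : ℕ) (T : I → ℤ) (d : ℕ → I → ℤ) : Prop where
  zero : ∀ l, l = 0 ∨ N < l → d l = 0
  init : C.Ch N 0 T (d 1)
  chain : ∀ j, 1 ≤ j → j < N → C.Ch N j (d j) (d (j + 1))

/-- `N` is divisible enough for the weights below `T` -/
def NGood (N : ℕ) (T : I → ℤ) : Prop :=
  ∀ ν, C.Ch N 0 T ν → ∀ i, ν i ≠ 0 → ν i ∣ N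

variable {C}

lemma co_flip (i : I) (a b : ℕ) (d : ℕ → I → ℤ) :
    co i (C.flip i a b d) = flipc a b (co i d) := by
  funext l
  unfold co flip flipc
  split_ifs with h
  · exact C.s_self i (d l)
  · rfl

lemma flip_out (i : I) {a b : ℕ} (d : ℕ → I → ℤ) {l : ℕ} (h : ¬ (a < l ∧ l ≤ b)) :
    C.flip i a b d l = d l := by
  unfold flip; rw [if_neg h]

lemma flip_in (i : I) {a b : ℕ} (d : ℕ → I → ℤ) {l : ℕ} (h : a < l ∧ l ≤ b) :
    C.flip i a b d l = C.s i (d l) := by
  unfold flip; rw [if_pos h]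

lemma Hs_flip (i k : I) {a b : ℕ} (hab : a ≤ b) (d : ℕ → I → ℤ) (j : ℕ) :
    Hs (co k (C.flip i a b d)) j = Hs (co k d) j -
      (Hs (co i d) (min j b) - Hs (co i d) (min j a)) * C.al i k := by
  induction j with
  | zero => simp [Hs_zero]
  | succ j ih =>
    rw [Hs_succ, ih, Hs_succ]
    rcases Nat.lt_or_ge j a with h1 | h1
    · rw [min_eq_left (by omega : j ≤ b), min_eq_left (by omega : j ≤ a),
        min_eq_left (by omega : j + 1 ≤ b), min_eq_left (by omega : j + 1 ≤ a)]
      have : co k (C.flip i a b d) (j + 1) = co k d (j + 1) := by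
        unfold co
        rw [flip_out i d (by omega)]
      rw [this]
      ring
    · rcases Nat.lt_or_ge j b with h2 | h2
      · rw [min_eq_left (by omega : j ≤ b), min_eq_right h1,
          min_eq_left (by omega : j + 1 ≤ b), min_eq_right (by omega : a ≤ j + 1), Hs_succ]
        have : co k (C.flip i a b d) (j + 1) =
            co k d (j + 1) - co i d (j + 1) * C.al i k := by
          unfold co
          rw [flip_in i d (by omega)]
          exact C.s_apply i _ k
        rw [this]
        ring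
      · rw [min_eq_right h2, min_eq_right h1,
          min_eq_right (by omega : b ≤ j + 1), min_eq_right (by omega : a ≤ j + 1)]
        have : co k (C.flip i a b d) (j + 1) = co k d (j + 1) := by
          unfold co
          rw [flip_out i d (by omega)]
        rw [this]
        ring

lemma flip_flip (i : I) (a b : ℕ) (d : ℕ → I → ℤ) : C.flip i a b (C.flip i a b d) = d := by
  funext l
  unfold flip
  by_cases h : a < l ∧ l ≤ b
  · rw [if_pos h, if_pos h]
    exact C.s_s i (d l)
  · rw [if_neg h, if_neg h]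

namespace IsPath

variable {N : ℕ} {T : I → ℤ} {d : ℕ → I → ℤ}

lemma reach (h : C.IsPath N T d) (l : ℕ) (hl : 1 ≤ l) (hlN : l ≤ N) : C.Ch N 0 T (d l) := by
  induction l, hl using Nat.le_induction with
  | base => exact h.init
  | succ l hl ih => exact (ih (by omega)).trans (h.chain l hl (by omega)).mono_zero

lemma good (h : C.IsPath N T d) (hg : C.good T) (l : ℕ) (hl : 1 ≤ l) (hlN : l ≤ N) :
    C.good (d l) := (h.reach l hl hlN).good hg

lemma seqOK (h : C.IsPath N T d) (hN : C.NGood N T) (i : I) : SeqOK N (co i d) := by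
  refine ⟨?_, ?_, ?_, ?_⟩
  · intro j h1 h2
    exact (h.chain j h1 h2).cong i
  · intro j h1 h2 h3 h4
    exact ((h.chain j h1 h2).sur3n i h4 h3).1
  · intro j h1 h2 h3 h4
    exact ((h.chain j h1 h2).sur3p i h4 h3).1
  · intro j h1 h2 h3
    exact hN _ (h.reach j h1 h2) i h3

/-- lowering operators preserve paths -/
lemma flipF (h : C.IsPath N T d) (hN : C.NGood N T) (hg : C.good T) (i : I) {a b : ℕ}
    (hw : FWin N (co i d) a b) (hT : 1 ≤ a ∨ T i ≤ 0) : C.IsPath N T (C.flip i a b d) := by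
  have hab := hw.ab
  have hbN := hw.bN
  have hs := h.seqOK hN i
  have hda : (N : ℤ) ∣ Hs (co i d) a := hs.dvd_of_min (by omega) hw.mn
  have hdb : (N : ℤ) ∣ Hs (co i d) b := by
    rw [hw.hb]
    exact dvd_add hda (dvd_refl _)
  have hmid : ∀ l, a < l → l < b → ¬ (N : ℤ) ∣ Hs (co i d) l := by
    intro l h1 h2 h4
    have h5 := hw.gt l h1 (by omega)
    have h3 := hw.lt l h1 h2
    obtain ⟨x, hx⟩ := hda
    obtain ⟨y, hy⟩ := h4
    rw [hx, hy] at h5 h3
    have hNpos : (0 : ℤ) < N := by omega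
    have h6 : x < y := lt_of_mul_lt_mul_left h5 hNpos.le
    have h7 : (N : ℤ) * y < N * (x + 1) := by linarith
    have h8 : y < x + 1 := lt_of_mul_lt_mul_left h7 hNpos.le
    omega
  refine ⟨?_, ?_, ?_⟩
  · intro l hl
    rw [flip_out i d (by omega)]
    exact h.zero l hl
  · rcases Nat.eq_zero_or_pos a with h0 | h0
    · rw [flip_in i d (by omega)]
      have hT' : T i ≤ 0 := by
        rcases hT with hT | hT
        · omega
        · exact hT
      exact h.init.sur1 i hT' (hw.pos 1 (by omega) (by omega))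
    · rw [flip_out i d (by omega)]
      exact h.init
  · intro j h1 h2
    rcases lt_trichotomy j a with h3 | h3 | h3
    · rw [flip_out i d (by omega), flip_out i d (by omega)]
      exact h.chain j h1 h2
    · subst h3
      rw [flip_out i d (by omega), flip_in i d (by omega)]
      refine (h.chain j h1 h2).sur1 i ?_ (hw.pos (j + 1) (by omega) (by omega))
      obtain ⟨j', hj'⟩ : ∃ j', j = j' + 1 := ⟨j - 1, by omega⟩
      have h4 := hw.mn j' (by omega)
      rw [hj', Hs_succ] at h4
      have h5 : co i d (j' + 1) ≤ 0 := by omega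
      rw [hj']
      exact h5
    · rcases lt_trichotomy j b with h4 | h4 | h4
      · rw [flip_in i d (by omega), flip_in i d (by omega)]
        have h5 := hmid j h3 h4
        rw [hs.dvd_iff' j h1 h2] at h5
        exact ((h.chain j h1 h2).sur3p i (hw.pos (j + 1) (by omega) (by omega)) h5).2
      · subst h4
        rw [flip_in i d (by omega), flip_out i d (by omega)]
        have h5 : (N : ℤ) ∣ j * co i d j := by rwa [hs.dvd_iff j h1 (by omega)] at hdb
        have h6 : C.Step N j (C.s i (d j)) (d j) := by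
          have h7 : C.good (C.s i (d j)) := C.good_s i (h.good hg j h1 (by omega))
          have h8 : C.s i (d j) i < 0 := by
            rw [C.s_self]
            have := hw.pos j h3 le_rfl
            unfold co at this
            omega
          have := step_simple (C := C) (N := N) (j := j) i h7 h8
            (by rw [C.s_self, mul_neg]; exact (dvd_neg).2 h5)
          rwa [C.s_s] at this
        exact Relation.ReflTransGen.head h6 (h.chain j h1 h2)
      · rw [flip_out i d (by omega), flip_out i d (by omega)]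
        exact h.chain j h1 h2

/-- raising operators preserve paths -/
lemma flipE (h : C.IsPath N T d) (hN : C.NGood N T) (hg : C.good T) (i : I) {a b : ℕ}
    (hw : EWin N (co i d) a b) : C.IsPath N T (C.flip i a b d) := by
  have hab := hw.ab
  have hbN := hw.bN
  have hs := h.seqOK hN i
  have hdb : (N : ℤ) ∣ Hs (co i d) b := hs.dvd_of_min (by omega) hw.mn
  have hda : (N : ℤ) ∣ Hs (co i d) a := by
    rw [hw.ha]
    exact dvd_add hdb (dvd_refl _)
  have hmid : ∀ l, a < l → l < b → ¬ (N : ℤ) ∣ Hs (co i d) l := by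
    intro l h1 h2 h4
    have h5 := hw.gt l h2
    have h3 := hw.lt l h1 h2
    obtain ⟨x, hx⟩ := hdb
    obtain ⟨y, hy⟩ := h4
    rw [hx, hy] at h5 h3
    have hNpos : (0 : ℤ) < N := by omega
    have h6 : x < y := lt_of_mul_lt_mul_left h5 hNpos.le
    have h7 : (N : ℤ) * y < N * (x + 1) := by linarith
    have h8 : y < x + 1 := lt_of_mul_lt_mul_left h7 hNpos.le
    omega
  refine ⟨?_, ?_, ?_⟩
  · intro l hl
    rw [flip_out i d (by omega)]
    exact h.zero l hl
  · rcases Nat.eq_zero_or_pos a with h0 | h0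
    · rw [flip_in i d (by omega)]
      refine Relation.ReflTransGen.tail h.init ?_
      exact step_simple i (h.good hg 1 le_rfl (by omega)) (hw.neg 1 (by omega) (by omega))
        (by simp)
    · rw [flip_out i d (by omega)]
      exact h.init
  · intro j h1 h2
    rcases lt_trichotomy j a with h3 | h3 | h3
    · rw [flip_out i d (by omega), flip_out i d (by omega)]
      exact h.chain j h1 h2
    · subst h3
      rw [flip_out i d (by omega), flip_in i d (by omega)]
      refine Relation.ReflTransGen.tail (h.chain j h1 h2) ?_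
      refine step_simple i (h.good hg (j + 1) (by omega) (by omega))
        (hw.neg (j + 1) (by omega) (by omega)) ?_
      have h5 := hda
      rw [hs.dvd_iff' j h1 h2] at h5
      exact h5
    · rcases lt_trichotomy j b with h4 | h4 | h4
      · rw [flip_in i d (by omega), flip_in i d (by omega)]
        have h5 := hmid j h3 h4
        rw [hs.dvd_iff j h1 h2.le] at h5
        exact ((h.chain j h1 h2).sur3n i (hw.neg j (by omega) (by omega)) h5).2
      · subst h4
        rw [flip_in i d (by omega), flip_out i d (by omega)]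
        refine (h.chain j h1 h2).sur2 i (hw.neg j h3 le_rfl) ?_
        have h4 := hw.mn (j + 1) (by omega)
        rw [Hs_succ] at h4
        have h5 : 0 ≤ co i d (j + 1) := by omega
        exact h5
      · rw [flip_out i d (by omega), flip_out i d (by omega)]
        exact h.chain j h1 h2

end IsPath

end CovSys

end Pool.Agent.LS60
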