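import Pool.Agent.LS60.QExt

set_option autoImplicit false

/-! Multiplication by an invariant character commutes with the Demazure operators. -/

namespace Pool.Agent.LS60

open Finset

/-- primitive of a function on the integers -/
noncomputable def prim (g : ℤ → ℝ) (n : ℤ) : ℝ :=
  if 0 ≤ n then ∑ k ∈ range n.toNat, g k else - ∑ k ∈ range (-n).toNat, g (-k - 1)

lemma prim_zero (g : ℤ → ℝ) : prim g 0 = 0 := by simp [prim]

lemma prim_succ (g : ℤ → ℝ) (n : ℤ) : prim g (n + 1) = prim g n + g n := by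
  unfold prim
  rcases lt_trichotomy n (-1) with h | h | h
  · rw [if_neg (by omega), if_neg (by omega)]
    have h1 : (-n).toNat = (-(n + 1)).toNat + 1 := by omega
    rw [h1, Finset.sum_range_succ]
    have h2 : (-(((-(n + 1)).toNat : ℕ) : ℤ) - 1) = n := by omega
    rw [h2]
    ring
  · subst h
    simp
  · rw [if_pos (by omega), if_pos (by omega)]
    have h1 : (n + 1).toNat = n.toNat + 1 := by omega
    rw [h1, Finset.sum_range_succ]
    have h2 : ((n.toNat : ℕ) : ℤ) = n := by omega
    rw [h2]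

lemma prim_shift (g : ℤ → ℝ) (a n : ℤ) :
    prim (fun k => g (k + a)) n = prim g (n + a) - prim g a := by
  have key : ∀ n : ℤ, prim (fun k => g (k + a)) (n + 1) - (prim g (n + 1 + a) - prim g a) =
      prim (fun k => g (k + a)) n - (prim g (n + a) - prim g a) := by
    intro n
    have h1 := prim_succ (fun k => g (k + a)) n
    have h2 := prim_succ g (n + a)
    have h3 : n + 1 + a = n + a + 1 := by ring
    rw [h1, h3, h2]
    ring
  have h0 : ∀ n : ℤ, prim (fun k => g (k + a)) n - (prim g (n + a) - prim g a) = 0 := by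
    intro n
    induction n using Int.induction_on with
    | zero => rw [prim_zero, zero_add]; ring
    | succ m ih => rw [key, ih]
    | pred m ih =>
      have := key (-(m : ℤ) - 1)
      rw [← this, sub_add_cancel]
      exact ih
  linarith [h0 n]

lemma Dst_eq_prim {J : Type} (a : J → ℤ) (i : J) (G : (J → ℤ) → ℝ) (μ : J → ℤ) :
    Dst a i G μ = prim (fun k => G (μ - k • a)) (μ i + 1) := by
  unfold Dst prim
  by_cases h : 0 ≤ μ i
  · rw [if_pos h, if_pos (by omega)]
    have h1 : (μ i + 1).toNat = (μ i).toNat + 1 := by omega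
    rw [h1]
  · rw [if_neg h]
    rcases (show μ i = -1 ∨ μ i < -1 by omega) with h1 | h1
    · rw [if_pos (by omega), h1]
      simp
    · rw [if_neg (by omega)]
      have h2 : (-μ i - 1).toNat = (-(μ i + 1)).toNat := by omega
      rw [h2]
      congr 1
      refine Finset.sum_congr rfl fun k _ => ?_
      congr 1
      funext j
      simp only [Pi.add_apply, Pi.sub_apply, Pi.smul_apply, smul_eq_mul]
      ring

lemma pair_sum_right {J K : Type} (χ : (J → ℤ) →₀ ℤ) (s : Finset K)
    (F : K → (J → ℤ) → ℝ) : pair χ (fun ν => ∑ k ∈ s, F k ν) = ∑ k ∈ s, pair χ (F k) := by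
  unfold pair
  simp only [Finsupp.linearCombination_apply, Finsupp.sum]
  rw [Finset.sum_comm]
  refine Finset.sum_congr rfl fun ν _ => ?_
  rw [Finset.smul_sum]

lemma pair_neg_right {J : Type} (χ : (J → ℤ) →₀ ℤ) (F : (J → ℤ) → ℝ) :
    pair χ (fun ν => - F ν) = - pair χ F := by
  unfold pair
  simp only [Finsupp.linearCombination_apply, Finsupp.sum]
  rw [← Finset.sum_neg_distrib]
  refine Finset.sum_congr rfl fun ν _ => ?_
  rw [smul_neg]

lemma pair_sub_right {J : Type} (χ : (J → ℤ) →₀ ℤ) (F F' : (J → ℤ) → ℝ) :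
    pair χ (fun ν => F ν - F' ν) = pair χ F - pair χ F' := by
  unfold pair
  simp only [Finsupp.linearCombination_apply, Finsupp.sum]
  rw [← Finset.sum_sub_distrib]
  refine Finset.sum_congr rfl fun ν _ => ?_
  rw [smul_sub]

lemma pair_prim {J : Type} (χ : (J → ℤ) →₀ ℤ) (H : ℤ → (J → ℤ) → ℝ) (n : ℤ) :
    prim (fun k => pair χ (H k)) n = pair χ (fun ν => prim (fun k => H k ν) n) := by
  unfold prim
  split_ifs
  · rw [pair_sum_right]
  · rw [pair_neg_right, pair_sum_right]

lemma pair_ind {J : Type} (f : (J → ℤ) →₀ ℤ) (ν : J → ℤ) [DecidableEq (J → ℤ)] :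
    pair f (fun μ => if μ = ν then (1 : ℝ) else 0) = (f ν : ℝ) := by
  unfold pair
  rw [Finsupp.linearCombination_apply, Finsupp.sum]
  simp only [smul_ite, smul_zero, Finset.sum_ite_eq', Finsupp.mem_support_iff]
  split_ifs with h
  · simp
  · push Not at h
    rw [h]; simp

lemma ext_pair {J : Type} {f f' : (J → ℤ) →₀ ℤ}
    (h : ∀ G : (J → ℤ) → ℝ, pair f G = pair f' G) : f = f' := by
  classical
  ext ν
  have h1 := h (fun μ => if μ = ν then (1 : ℝ) else 0)
  rw [pair_ind, pair_ind] at h1
  exact_mod_cast h1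

namespace SimpleData

variable {I : Type} [Fintype I] [DecidableEq I] {D : SimpleData I}

variable (D) in
/-- product of `e^μ` with a finite character -/
noncomputable def cv (χ : (I → ℤ) →₀ ℤ) (μ : Option I → ℤ) : (Option I → ℤ) →₀ ℤ :=
  Finsupp.mapDomain (fun ν => μ + D.aff 0 ν) χ

variable (D) in
/-- product of a character with a finite character -/
noncomputable def conv (χ : (I → ℤ) →₀ ℤ) (f : (Option I → ℤ) →₀ ℤ) :
    (Option I → ℤ) →₀ ℤ := Finsupp.linearCombination ℤ (D.cv χ) f

lemma pair_conv (χ : (I → ℤ) →₀ ℤ) (f : (Option I → ℤ) →₀ ℤ)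
    (G : (Option I → ℤ) → ℝ) : pair (D.conv χ f) G =
      pair f (fun μ => pair χ (fun ν => G (μ + D.aff 0 ν))) := by
  unfold conv
  induction f using Finsupp.induction_linear with
  | zero => simp [pair]
  | add f g hf hg => rw [map_add, pair_add, pair_add, hf, hg]
  | single μ c =>
    rw [Finsupp.linearCombination_single, pair_smul, pair_single]
    congr 1
    unfold cv
    rw [pair_mapDomain]

variable (D) in
/-- invariance under the finite Weyl group -/
def Inv (χ : (I → ℤ) →₀ ℤ) : Prop :=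
  ∀ w ∈ D.weyl, ∀ H : (I → ℤ) → ℝ, pair χ (fun ν => H (w ν)) = pair χ H

lemma dem_conv {χ : (I → ℤ) →₀ ℤ} (hχ : D.Inv χ) (i : Option I)
    (f : (Option I → ℤ) →₀ ℤ) :
    dem (D.affRoot i) i (D.conv χ f) = D.conv χ (dem (D.affRoot i) i f) := by
  apply ext_pair
  intro G
  rw [pair_dem, pair_conv, pair_conv, pair_dem]
  congr 1
  funext μ
  rw [Dst_eq_prim, pair_prim, ← sub_eq_zero, ← pair_sub_right]
  set Φ : (I → ℤ) → ℝ := fun ν => Dst (D.affRoot i) i G (μ + D.aff 0 ν) -
    prim (fun k => G (μ - k • D.affRoot i + D.aff 0 ν)) (μ i + 1) with hΦ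
  obtain ⟨w, hw, hwν⟩ := exists_reflW (ARoot.simple (D := D) i).h
  have hs : ∀ ν, D.aff 0 (w ν) = D.aff 0 ν - (D.aff 0 ν i) • D.affRoot i := by
    intro ν
    rw [hwν ν, aff_zero_sub, ← affRoot_eq_aff, ← pr_aff_zero, ARoot.pr_simple]
  have h1 : ∀ ν, Φ (w ν) = - Φ ν := by
    intro ν
    rw [hΦ]
    dsimp only
    rw [Dst_eq_prim, Dst_eq_prim]
    have h2 : (fun k : ℤ => G (μ + D.aff 0 (w ν) - k • D.affRoot i)) =
        fun k => (fun k => G (μ + D.aff 0 ν - k • D.affRoot i)) (k + D.aff 0 ν i) := by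
      funext k
      dsimp only
      congr 1
      rw [hs]
      funext j
      simp only [Pi.add_apply, Pi.sub_apply, Pi.smul_apply, smul_eq_mul]
      ring
    have h3 : (fun k : ℤ => G (μ - k • D.affRoot i + D.aff 0 (w ν))) =
        fun k => (fun k => G (μ + D.aff 0 ν - k • D.affRoot i)) (k + D.aff 0 ν i) := by
      funext k
      dsimp only
      congr 1
      rw [hs]
      funext j
      simp only [Pi.add_apply, Pi.sub_apply, Pi.smul_apply, smul_eq_mul]
      ring
    have h4 : (fun k : ℤ => G (μ - k • D.affRoot i + D.aff 0 ν)) =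
        fun k => G (μ + D.aff 0 ν - k • D.affRoot i) := by
      funext k
      congr 1
      funext j
      simp only [Pi.add_apply, Pi.sub_apply, Pi.smul_apply, smul_eq_mul]
      ring
    have h9 := fun n => prim_shift (fun k : ℤ => G (μ + D.aff 0 ν - k • D.affRoot i))
      (D.aff 0 ν i) n
    rw [h2, h3, h4, h9, h9]
    have h5 : (μ + D.aff 0 (w ν)) i = μ i - D.aff 0 ν i := by
      rw [Pi.add_apply, hs]
      simp only [Pi.sub_apply, Pi.smul_apply, smul_eq_mul, affRoot_self]
      ring
    have h6 : (μ + D.aff 0 ν) i = μ i + D.aff 0 ν i := rfl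
    rw [h5, h6]
    have h7 : μ i - D.aff 0 ν i + 1 + D.aff 0 ν i = μ i + 1 := by ring
    have h8 : μ i + 1 + D.aff 0 ν i = μ i + D.aff 0 ν i + 1 := by ring
    rw [h7, h8]
    ring
  have h2 := hχ w hw Φ
  have h3 : (fun ν => Φ (w ν)) = fun ν => - Φ ν := funext h1
  rw [h3, pair_neg_right] at h2
  linarith

end SimpleData

end Pool.Agent.LS60
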