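import Pool.Agent.LS60.Defs

set_option autoImplicit false

/-! The family of all Kirillov-Reshetikhin classes, through the Q-system. -/

namespace Pool.Agent.LS60

open Finset

namespace SimpleData

variable {I : Type} [Fintype I] [DecidableEq I] (D : SimpleData I)

/-- `IsDemAt lam l x`: the element `x` of the representation ring has the character of the
Demazure module of level `l` whose extremal weight is the lowest weight of `V(lam)`. -/
def IsDemAt (lam : I → ℤ) (l : ℕ) (x : (I → ℕ) →₀ ℤ) : Prop :=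
  ∃ w ∈ D.weyl, ∃ f, (∀ j, w lam j ≤ 0) ∧
    IsDem D.affRoot (D.aff l (w lam)) f ∧
    D.HasChar x (Finsupp.mapDomain (fun μ j => μ (some j)) f)

/-- The case `lam = m ω_i`. -/
def IsDemClass (i : I) (m l : ℕ) (x : (I → ℕ) →₀ ℤ) : Prop :=
  D.IsDemAt (Pi.single i (m : ℤ)) l x

/-- The exceptional pairs `(i, m)`: `i` is a short node with a long neighbour and with
coefficient at least three in the highest root (the middle short node of `F_4` or the short
node of `G_2`), `m > 1` and `m` is congruent to one modulo `t_i`. -/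
def IsExc (i : I) (m : ℕ) : Prop :=
  D.t i ≠ 1 ∧ 3 ≤ D.θ i ∧ (∃ j, D.t j = 1 ∧ D.A i j ≠ 0) ∧ 1 < m ∧ m % D.t i = 1

/-- The weight `ω_i + ⌊m / t_i⌋ ω_j`, where `j` is the long neighbour of `i`. -/
def excWt (i : I) (m : ℕ) (j : I) : ℤ :=
  if j = i then 1 else if D.t j = 1 ∧ D.A i j ≠ 0 then ((m / D.t i : ℕ) : ℤ) else 0

/-- `IsKRClass i m x`: `x` is the class of the restriction of the Kirillov-Reshetikhin module
attached to `(i, m)`: the Demazure class of level `l = ⌈m / t_i⌉` whose extremal weight is the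
lowest weight of `V(m ω_i)`; in the exceptional cases the sum of this class and of the
Demazure class of the same level `l` whose extremal weight is the lowest weight of
`V(ω_i + ⌊m / t_i⌋ ω_j)`, where `j` is the long neighbour of `i`. -/
def IsKRClass (i : I) (m : ℕ) (x : (I → ℕ) →₀ ℤ) : Prop :=
  (¬ D.IsExc i m ∧ D.IsDemClass i m ((m + D.t i - 1) / D.t i) x) ∨
  (D.IsExc i m ∧ ∃ x₁ x₂, D.IsDemClass i m ((m + D.t i - 1) / D.t i) x₁ ∧
    D.IsDemAt (D.excWt i m) ((m + D.t i - 1) / D.t i) x₂ ∧ x = x₁ + x₂)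

/-- `QSys F`: the Q-system
`F_{i,m}^2 = F_{i,m+1} F_{i,m-1} + ∏_{j ≠ i} ∏_{0 ≤ r < -A_ij} F_{j, ⌊(A_ji m - r)/A_ij⌋}`
(for `m ≥ 1`) in a commutative ring. -/
def QSys {R : Type} [CommRing R] (F : I → ℕ → R) : Prop :=
  ∀ i m, 1 ≤ m → F i m ^ 2 = F i (m + 1) * F i (m - 1) +
    ∏ j ∈ univ.erase i, ∏ r ∈ range (D.A i j).natAbs,
      F j (((D.A j i).natAbs * m + r) / (D.A i j).natAbs)

/-- `IsKRFamily Q`: the classes `Q i m` in the representation ring are the classes of the
restrictions of the Kirillov-Reshetikhin modules attached to `(i, m)`: their characters satisfy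
the Q-system, the class `Q i m` with `m = t_i l` is that of the Demazure module of level `l`
whose extremal weight is the lowest weight of `V(m ω_i)`, and the class `Q i 1` is that of the
Demazure module of level one whose extremal weight is the lowest weight of `V(ω_i)`. -/
structure IsKRFamily (Q : I → ℕ → (I → ℕ) →₀ ℤ) : Prop where
  dem : ∀ i l, D.IsDemClass i (D.t i * l) l (Q i (D.t i * l))
  one : ∀ i, D.IsDemClass i 1 1 (Q i 1)
  qsys : ∃ F : I → ℕ → AddMonoidAlgebra ℤ (I → ℤ),
    (∀ i m, D.HasChar (Q i m) (F i m).coeff) ∧ D.QSys F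

end SimpleData

end Pool.Agent.LS60
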