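import Pool.Agent.LS60.Exist

set_option autoImplicit false

/-! Evaluation of characters at the quantum parameter: for every level there is a ring
homomorphism from the group ring of the weight lattice to the complex numbers whose value at
the character of a class is the quantum dimension of the class. -/

namespace Pool.Agent.LS60

open Finset

namespace SimpleData

variable {I : Type} [Fintype I] [DecidableEq I] (D : SimpleData I)

section form

open Matrix

/-- the Gram matrix of the simple roots -/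
noncomputable def gram : Matrix I I ℝ := fun i j => (D.A i j : ℝ) / D.t i

/-- rescaled coordinates of a weight -/
noncomputable def cw (μ : I → ℤ) : I → ℝ := fun j => (μ j : ℝ) / D.t j

lemma gram_symm : D.gramᵀ = D.gram := by
  ext i j
  show (D.A j i : ℝ) / D.t j = (D.A i j : ℝ) / D.t i
  have h1 : (D.t j : ℝ) ≠ 0 := by exact_mod_cast (D.t_pos j).ne'
  have h2 : (D.t i : ℝ) ≠ 0 := by exact_mod_cast (D.t_pos i).ne'
  have h3 : (D.t j : ℝ) * D.A i j = D.t i * D.A j i := by exact_mod_cast D.symm i j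
  rw [div_eq_div_iff h1 h2]
  linarith

lemma gram_isUnit : IsUnit D.gram := by
  rw [← Matrix.mulVec_injective_iff_isUnit]
  intro v w h
  have h0 : D.gram *ᵥ v = D.gram *ᵥ w := h
  by_contra hne
  have h1 : v - w ≠ 0 := sub_ne_zero.2 hne
  have h2 := D.posdef _ h1
  have h3 : D.gram *ᵥ (v - w) = 0 := by
    rw [Matrix.mulVec_sub, h0, sub_self]
  have h4 : ∑ i, ∑ j, (v - w) i * (v - w) j * ((D.A i j : ℝ) / D.t i) = 0 := by
    refine Finset.sum_eq_zero fun i _ => ?_
    have h5 : (D.gram *ᵥ (v - w)) i = 0 := by rw [h3]; rfl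
    have h6 : (D.gram *ᵥ (v - w)) i = ∑ j, ((D.A i j : ℝ) / D.t i) * (v - w) j := rfl
    rw [h6] at h5
    have h7 : ∑ j, (v - w) i * (v - w) j * ((D.A i j : ℝ) / D.t i) =
        (v - w) i * ∑ j, ((D.A i j : ℝ) / D.t i) * (v - w) j := by
      rw [Finset.mul_sum]
      exact Finset.sum_congr rfl fun j _ => by ring
    rw [h7, h5, mul_zero]
  rw [h4] at h2
  exact lt_irrefl _ h2

/-- the invariant form on weights -/
noncomputable def bf (μ x : I → ℤ) : ℝ := D.cw μ ⬝ᵥ (D.gram⁻¹ *ᵥ D.cw x)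

lemma bf_comm (μ x : I → ℤ) : D.bf μ x = D.bf x μ := by
  unfold bf
  rw [Matrix.dotProduct_mulVec, ← Matrix.mulVec_transpose, Matrix.transpose_nonsing_inv,
    D.gram_symm, dotProduct_comm]

lemma cw_add (μ ν : I → ℤ) : D.cw (μ + ν) = D.cw μ + D.cw ν := by
  funext j
  show ((μ j + ν j : ℤ) : ℝ) / D.t j = (μ j : ℝ) / D.t j + (ν j : ℝ) / D.t j
  push_cast
  ring

lemma cw_W (α : I → ℤ) : D.cw (D.W α) = D.gram *ᵥ (fun j => (α j : ℝ)) := by
  funext j
  have h6 : (D.gram *ᵥ (fun j => (α j : ℝ))) j = ∑ i, ((D.A j i : ℝ) / D.t j) * (α i : ℝ) := rfl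
  rw [h6]
  show ((D.pp (ev j) α : ℤ) : ℝ) / D.t j = _
  rw [D.pp_ev_left]
  push_cast
  rw [Finset.sum_div]
  exact Finset.sum_congr rfl fun i _ => by ring

lemma bf_add_left (μ ν x : I → ℤ) : D.bf (μ + ν) x = D.bf μ x + D.bf ν x := by
  unfold bf
  rw [D.cw_add, add_dotProduct]

lemma bf_W (α x : I → ℤ) : D.bf (D.W α) x = D.ip x α := by
  have hdet : IsUnit D.gram.det := (Matrix.isUnit_iff_isUnit_det _).1 D.gram_isUnit
  unfold bf
  rw [D.cw_W]
  have h1 : (D.gram *ᵥ (fun j => (α j : ℝ))) ⬝ᵥ (D.gram⁻¹ *ᵥ D.cw x) =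
      (fun j => (α j : ℝ)) ⬝ᵥ (D.gram *ᵥ (D.gram⁻¹ *ᵥ D.cw x)) := by
    conv_rhs => rw [Matrix.dotProduct_mulVec, ← Matrix.mulVec_transpose, D.gram_symm]
  rw [h1, Matrix.mulVec_mulVec, Matrix.mul_nonsing_inv _ hdet, Matrix.one_mulVec]
  unfold ip
  show ∑ j, (α j : ℝ) * ((x j : ℝ) / D.t j) = _
  exact Finset.sum_congr rfl fun j _ => by ring

lemma bf_zero_left (x : I → ℤ) : D.bf 0 x = 0 := by
  have h := D.bf_add_left 0 0 x
  rw [add_zero] at h
  linarith

lemma bf_neg_left (μ x : I → ℤ) : D.bf (-μ) x = - D.bf μ x := by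
  have h := D.bf_add_left μ (-μ) x
  rw [add_neg_cancel, D.bf_zero_left] at h
  linarith

lemma W_neg (α : I → ℤ) : D.W (-α) = - D.W α := by
  funext j
  exact D.pp_neg_right (ev j) α

lemma W_smul (a : ℤ) (α : I → ℤ) : D.W (a • α) = a • D.W α := by
  funext j
  exact D.pp_smul_right a (ev j) α

lemma W_sub (α β : I → ℤ) : D.W (α - β) = D.W α - D.W β := by
  funext j
  exact D.pp_sub_right (ev j) α β

lemma W_add (α β : I → ℤ) : D.W (α + β) = D.W α + D.W β := by
  have h := D.W_sub α (-β)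
  rw [D.W_neg, sub_neg_eq_add, sub_neg_eq_add] at h
  exact h

lemma W_zero : D.W 0 = 0 := by
  have h := D.W_sub 0 0
  rw [sub_self, sub_self] at h
  exact h

lemma W_sum (s : Finset (I → ℤ)) : D.W (∑ α ∈ s, α) = ∑ α ∈ s, D.W α := by
  classical
  induction s using Finset.induction_on with
  | empty => rw [Finset.sum_empty, Finset.sum_empty]; exact D.W_zero
  | insert a s ha ih => rw [Finset.sum_insert ha, Finset.sum_insert ha, D.W_add, ih]

lemma bf_srefl (i : I) (μ x : I → ℤ) : D.bf (D.srefl i μ) x = D.bf μ (D.srefl i x) := by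
  have key : ∀ μ x : I → ℤ, D.bf (D.srefl i μ) x = D.bf μ x - μ i * x i / D.t i := by
    intro μ x
    have h1 : D.srefl i μ = μ + D.W (-(μ i • ev i)) := by
      rw [D.srefl_apply, D.W_neg, D.W_smul]
      exact sub_eq_add_neg _ _
    rw [h1, D.bf_add_left, D.bf_W, D.ip_neg_right]
    have h2 : D.ip x (μ i • ev i) = μ i * x i / D.t i := by
      have h3 := D.ip_sub_smul_right x 0 (ev i) (-(μ i))
      have h4 : (0 - (-(μ i)) • ev i : I → ℤ) = μ i • ev i := by
        rw [neg_smul, zero_sub, neg_neg]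
      rw [h4, D.ip_ev] at h3
      have h5 : D.ip x 0 = 0 := by unfold ip; simp
      rw [h3, h5]
      push_cast
      ring
    rw [h2]
    ring
  rw [key, D.bf_comm μ (D.srefl i x), key, D.bf_comm x μ]
  ring

lemma bf_weyl : ∀ w ∈ D.weyl, ∀ μ x : I → ℤ, D.bf (w μ) x = D.bf μ (w⁻¹ x) := by
  apply weyl_induction
  · intro μ x
    rw [inv_one]
    rfl
  · intro i w ih μ x
    have h1 : (D.srefl i * w) μ = D.srefl i (w μ) := rfl
    have h2 : (D.srefl i)⁻¹ = D.srefl i := by
      rw [inv_eq_iff_mul_eq_one]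
      ext y : 1
      exact srefl_srefl i y
    have h3 : (D.srefl i * w)⁻¹ x = w⁻¹ (D.srefl i x) := by
      rw [_root_.mul_inv_rev, h2]
      rfl
    rw [h1, h3, D.bf_srefl, ih]

end form

section eval

/-- the exponential -/
noncomputable def ex (K : ℝ) (x μ : I → ℤ) : ℂ :=
  Complex.exp (((2 * Real.pi * D.bf μ x / K : ℝ) : ℂ) * Complex.I)

lemma ex_add (K : ℝ) (x μ ν : I → ℤ) : D.ex K x (μ + ν) = D.ex K x μ * D.ex K x ν := by
  unfold ex
  rw [D.bf_add_left, ← Complex.exp_add]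
  congr 1
  push_cast
  ring

lemma ex_zero (K : ℝ) (x : I → ℤ) : D.ex K x 0 = 1 := by
  unfold ex
  rw [D.bf_zero_left]
  simp

/-- the evaluation homomorphism -/
noncomputable def phi (K : ℝ) (x : I → ℤ) : AddMonoidAlgebra ℤ (I → ℤ) →+* ℂ :=
  ((AddMonoidAlgebra.lift ℤ ℂ (I → ℤ)
    { toFun := fun m => D.ex K x m.toAdd
      map_one' := D.ex_zero K x
      map_mul' := fun a b => D.ex_add K x a.toAdd b.toAdd } :
    AddMonoidAlgebra ℤ (I → ℤ) →ₐ[ℤ] ℂ) : AddMonoidAlgebra ℤ (I → ℤ) →+* ℂ)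

/-- pairing of a formal character with the exponential -/
noncomputable def ll (K : ℝ) (x : I → ℤ) : ((I → ℤ) →₀ ℤ) →ₗ[ℤ] ℂ :=
  Finsupp.linearCombination ℤ (D.ex K x)

lemma phi_apply (K : ℝ) (x : I → ℤ) (f : AddMonoidAlgebra ℤ (I → ℤ)) :
    D.phi K x f = D.ll K x f.coeff := by
  unfold phi ll
  rw [Finsupp.linearCombination_apply]
  exact AddMonoidAlgebra.lift_apply _ f

lemma phi_single (K : ℝ) (x μ : I → ℤ) :
    D.phi K x (AddMonoidAlgebra.single μ 1) = D.ex K x μ := by
  rw [D.phi_apply, AddMonoidAlgebra.coeff_single]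
  unfold ll
  rw [Finsupp.linearCombination_single, one_smul]

lemma ll_altSum (K : ℝ) (x y : I → ℤ) : D.ll K x (D.altSum y) = D.ll K y (D.altSum x) := by
  have : Fintype D.weyl := Fintype.ofFinite _
  have h1 : ∀ x y : I → ℤ, D.ll K x (D.altSum y) = ∑ w : D.weyl, (dt w.1 : ℂ) * D.ex K x (w.1 y) := by
    intro x y
    unfold altSum
    rw [finsum_eq_sum_of_fintype, map_sum]
    refine Finset.sum_congr rfl fun w _ => ?_
    rw [map_smul]
    unfold ll
    rw [Finsupp.linearCombination_single, one_smul, zsmul_eq_mul]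
  rw [h1, h1]
  refine Fintype.sum_equiv (Equiv.inv D.weyl) _ _ ?_
  intro w
  have h2 : ((Equiv.inv D.weyl) w).1 = (w.1)⁻¹ := rfl
  rw [h2, dt_inv]
  congr 1
  unfold ex
  rw [D.bf_weyl w.1 w.2, D.bf_comm]

end eval

section denominator

/-- the action of simple reflections on the root lattice -/
def rr (i : I) (α : I → ℤ) : I → ℤ := α - D.pp (ev i) α • ev i

lemma rr_rr (i : I) (α : I → ℤ) : D.rr i (D.rr i α) = α := by
  unfold rr
  rw [D.pp_sub_right, D.pp_smul_right, D.pp_ev_ev, D.A_diag]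
  funext j
  simp only [Pi.sub_apply, Pi.smul_apply, smul_eq_mul]
  ring

lemma ev_mem (i : I) : ev i ∈ D.posF := by
  rw [mem_posF]
  refine ⟨IsRoot.simple i, ?_⟩
  intro j
  by_cases hj : j = i
  · subst hj; simp
  · simp [hj]

lemma rr_mem (i : I) {α : I → ℤ} (hα : α ∈ D.posF.erase (ev i)) :
    D.rr i α ∈ D.posF.erase (ev i) := by
  rw [mem_erase, mem_posF] at hα ⊢
  obtain ⟨h3, h4, h5⟩ := hα
  obtain ⟨c, s, h6⟩ := exists_rootT h4
  have h7 := RootT.refl i _ _ _ h6
  refine ⟨?_, h7.isRoot, h6.simple_pos h5 i h3⟩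
  intro h8
  unfold rr at h8
  have h9 : α = -ev i := by
    have h10 : D.pp (ev i) (α - D.pp (ev i) α • ev i) = D.pp (ev i) (ev i) := by rw [h8]
    rw [D.pp_sub_right, D.pp_smul_right, D.pp_ev_ev, D.A_diag] at h10
    have h11 : D.pp (ev i) α = -2 := by linarith
    rw [h11] at h8
    funext j
    have h12 := congrFun h8 j
    simp only [Pi.sub_apply, Pi.smul_apply, Pi.neg_apply, smul_eq_mul] at h12 ⊢
    linarith
  rw [h9] at h5
  have := h5 i
  simp at this

lemma prod_rr {M : Type*} [CommMonoid M] (i : I) (F : (I → ℤ) → M) :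
    ∏ α ∈ D.posF.erase (ev i), F (D.rr i α) = ∏ α ∈ D.posF.erase (ev i), F α :=
  Finset.prod_bij' (fun α _ => D.rr i α) (fun α _ => D.rr i α)
    (fun _ h => D.rr_mem i h) (fun _ h => D.rr_mem i h) (fun α _ => D.rr_rr i α)
    (fun α _ => D.rr_rr i α) (fun _ _ => rfl)

lemma sum_rr (i : I) : ∑ α ∈ D.posF.erase (ev i), D.rr i α = ∑ α ∈ D.posF.erase (ev i), α :=
  Finset.sum_bij' (fun α _ => D.rr i α) (fun α _ => D.rr i α)
    (fun _ h => D.rr_mem i h) (fun _ h => D.rr_mem i h) (fun α _ => D.rr_rr i α)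
    (fun α _ => D.rr_rr i α) (fun _ _ => rfl)

lemma W_rr (i : I) (α : I → ℤ) : D.W (D.rr i α) = D.srefl i (D.W α) := by
  unfold rr
  rw [D.W_sub, D.W_smul, D.srefl_apply]
  rfl

/-- the sum of the positive roots is twice the Weyl vector -/
lemma W_sum_pos : D.W (∑ α ∈ D.posF, α) = fun _ => 2 := by
  funext i
  have hm := D.ev_mem i
  have h1 : ∑ α ∈ D.posF, α = ev i + ∑ α ∈ D.posF.erase (ev i), α :=
    (Finset.add_sum_erase _ _ hm).symm
  have h2 := D.sum_rr i
  have h3 : D.srefl i (D.W (∑ α ∈ D.posF.erase (ev i), α)) =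
      D.W (∑ α ∈ D.posF.erase (ev i), α) := by
    rw [D.W_sum, map_sum]
    have h4 : ∑ α ∈ D.posF.erase (ev i), D.srefl i (D.W α) =
        ∑ α ∈ D.posF.erase (ev i), D.W (D.rr i α) :=
      Finset.sum_congr rfl fun α _ => (D.W_rr i α).symm
    rw [h4]
    exact Finset.sum_bij' (fun α _ => D.rr i α) (fun α _ => D.rr i α)
      (fun _ h => D.rr_mem i h) (fun _ h => D.rr_mem i h) (fun α _ => D.rr_rr i α)
      (fun α _ => D.rr_rr i α) (fun _ _ => rfl)
  have h5 := congrFun h3 i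
  rw [srefl_self] at h5
  have h6 : D.W (∑ α ∈ D.posF.erase (ev i), α) i = 0 := by omega
  have h7 : D.W (ev i) i = 2 := by unfold W; rw [D.pp_ev_ev, D.A_diag]
  rw [h1, D.W_add, Pi.add_apply, h6, h7]
  rfl

/-- the Weyl denominator -/
noncomputable def den : AddMonoidAlgebra ℤ (I → ℤ) :=
  AddMonoidAlgebra.single (fun _ => 1) 1 *
    ∏ α ∈ D.posF, (1 - AddMonoidAlgebra.single (-D.W α) 1)

/-- reflections acting on the group ring -/
noncomputable def sg (i : I) : AddMonoidAlgebra ℤ (I → ℤ) →+* AddMonoidAlgebra ℤ (I → ℤ) :=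
  AddMonoidAlgebra.mapDomainRingHom ℤ ((D.srefl i : (I → ℤ) →ₗ[ℤ] (I → ℤ)) : (I → ℤ) →+ (I → ℤ))

lemma sg_single (i : I) (μ : I → ℤ) : D.sg i (AddMonoidAlgebra.single μ 1) =
    AddMonoidAlgebra.single (D.srefl i μ) 1 :=
  AddMonoidAlgebra.mapDomain_single

lemma sg_coeff (i : I) (f : AddMonoidAlgebra ℤ (I → ℤ)) (μ : I → ℤ) :
    (D.sg i f).coeff (D.srefl i μ) = f.coeff μ := by
  have h1 : (D.sg i f).coeff = Finsupp.mapDomain (D.srefl i) f.coeff := rfl
  rw [h1]
  exact Finsupp.mapDomain_apply (D.srefl i).injective _ _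

lemma sg_den (i : I) : D.sg i D.den = - D.den := by
  have hm := D.ev_mem i
  unfold den
  rw [map_mul, map_prod, D.sg_single]
  have h1 : ∀ α ∈ D.posF, D.sg i (1 - AddMonoidAlgebra.single (-D.W α) 1) =
      1 - AddMonoidAlgebra.single (-D.W (D.rr i α)) 1 := by
    intro α _
    rw [map_sub, map_one, D.sg_single, map_neg, D.W_rr]
  rw [Finset.prod_congr rfl h1, ← Finset.mul_prod_erase _ _ hm,
    ← Finset.mul_prod_erase D.posF (fun α => (1 : AddMonoidAlgebra ℤ (I → ℤ)) -
      AddMonoidAlgebra.single (-D.W α) 1) hm,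
    D.prod_rr i (fun α => (1 : AddMonoidAlgebra ℤ (I → ℤ)) -
      AddMonoidAlgebra.single (-D.W α) 1)]
  have h2 : D.rr i (ev i) = -ev i := by
    unfold rr
    rw [D.pp_ev_ev, D.A_diag]
    funext j
    simp only [Pi.sub_apply, Pi.smul_apply, Pi.neg_apply, smul_eq_mul]
    ring
  have h3 : D.srefl i (fun _ => 1) = (fun _ => 1) + (-D.W (ev i)) := by
    rw [D.srefl_apply, one_smul, sub_eq_add_neg]
  have h4 : ∀ μ ν : I → ℤ, (AddMonoidAlgebra.single (μ + ν) 1 : AddMonoidAlgebra ℤ (I → ℤ)) =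
      AddMonoidAlgebra.single μ 1 * AddMonoidAlgebra.single ν 1 := by
    intro μ ν
    rw [AddMonoidAlgebra.single_mul_single, one_mul]
  have h5 : (AddMonoidAlgebra.single (-D.W (ev i)) 1 : AddMonoidAlgebra ℤ (I → ℤ)) *
      AddMonoidAlgebra.single (D.W (ev i)) 1 = 1 := by
    rw [← h4, neg_add_cancel]
    rfl
  rw [h2, h3, D.W_neg, neg_neg, h4]
  linear_combination (-(AddMonoidAlgebra.single (fun _ => 1) 1 *
    ∏ α ∈ D.posF.erase (ev i), (1 - AddMonoidAlgebra.single (-D.W α) 1)) :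
      AddMonoidAlgebra ℤ (I → ℤ)) * h5

lemma den_eq : D.den = ∑ T ∈ D.posF.powerset, (-1 : ℤ) ^ T.card •
    AddMonoidAlgebra.single ((fun _ => 1) - D.W (∑ α ∈ T, α)) (1 : ℤ) := by
  classical
  unfold den
  have h0 : ∀ T : Finset (I → ℤ), ∏ α ∈ T,
      (AddMonoidAlgebra.single (-D.W α) 1 : AddMonoidAlgebra ℤ (I → ℤ)) =
      AddMonoidAlgebra.single (-D.W (∑ α ∈ T, α)) 1 := by
    intro T
    induction T using Finset.induction_on with
    | empty =>
      rw [Finset.prod_empty, Finset.sum_empty, D.W_zero, neg_zero]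
      rfl
    | insert a s ha ih =>
      rw [Finset.prod_insert ha, Finset.sum_insert ha, ih, AddMonoidAlgebra.single_mul_single,
        D.W_add, neg_add, one_mul]
  have h1 : ∏ α ∈ D.posF, ((1 : AddMonoidAlgebra ℤ (I → ℤ)) -
      AddMonoidAlgebra.single (-D.W α) 1) =
      ∑ T ∈ D.posF.powerset, (-1 : ℤ) ^ T.card •
        AddMonoidAlgebra.single (-D.W (∑ α ∈ T, α)) (1 : ℤ) := by
    have h2 : ∀ α ∈ D.posF, ((1 : AddMonoidAlgebra ℤ (I → ℤ)) -
      AddMonoidAlgebra.single (-D.W α) 1) = 1 + (-AddMonoidAlgebra.single (-D.W α) 1) :=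
      fun α _ => sub_eq_add_neg _ _
    rw [Finset.prod_congr rfl h2, Finset.prod_one_add]
    refine Finset.sum_congr rfl fun T _ => ?_
    rw [Finset.prod_neg, h0, zsmul_eq_mul]
    push_cast
    rfl
  rw [h1, Finset.mul_sum]
  refine Finset.sum_congr rfl fun T _ => ?_
  rw [mul_smul_comm, AddMonoidAlgebra.single_mul_single, one_mul, sub_eq_add_neg]

/-- Weyl denominator identity -/
lemma altSum_one : D.altSum (fun _ => 1) = D.den.coeff := by
  classical
  ext y
  refine anti_ext (D := D) _ _ (fun i y => altSum_anti _ y i) ?_ ?_ y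
  · intro i y
    have h1 := D.sg_coeff i D.den y
    rw [D.sg_den] at h1
    rw [← h1]
    show D.den.coeff (D.srefl i y) = -((-D.den).coeff (D.srefl i y))
    have h2 : (-D.den).coeff (D.srefl i y) = -(D.den.coeff (D.srefl i y)) := rfl
    rw [h2, neg_neg]
  · intro y hy
    rw [altSum_regular _ _ (fun _ => one_pos) hy, D.den_eq, AddMonoidAlgebra.coeff_sum,
      Finsupp.finsetSum_apply, Finset.sum_eq_single ∅]
    · rw [Finset.card_empty, pow_zero, one_smul, Finset.sum_empty, D.W_zero, sub_zero,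
        AddMonoidAlgebra.coeff_single, Finsupp.single_apply]
    · intro T hT hne
      rw [AddMonoidAlgebra.coeff_smul, AddMonoidAlgebra.coeff_single, Finsupp.smul_apply,
        Finsupp.single_apply, if_neg, smul_zero]
      intro h
      rw [Finset.mem_powerset] at hT
      set β : I → ℤ := ∑ α ∈ T, α with hβ
      have hpos : ∀ α ∈ T, 0 ≤ α := fun α hα => ((D.mem_posF).1 (hT hα)).2
      have hβ0 : 0 ≤ β := Finset.sum_nonneg hpos
      have hW : ∀ j, D.W β j ≤ 0 := by
        intro j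
        have h1 := congrFun h j
        have h2 := hy j
        simp only [Pi.sub_apply] at h1
        omega
      have hz : β = 0 := by
        by_contra hb
        have h1 := D.posdef (fun i => (β i : ℝ)) (by
          intro h2
          apply hb
          funext i
          have h3 := congrFun h2 i
          simp only [Pi.zero_apply] at h3
          exact_mod_cast h3)
        have h2 : ∑ i, ∑ j, (β i : ℝ) * β j * ((D.A i j : ℝ) / D.t i) ≤ 0 := by
          refine Finset.sum_nonpos fun i _ => ?_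
          have h3 : ∑ j, (β i : ℝ) * β j * ((D.A i j : ℝ) / D.t i) =
              (β i : ℝ) * ((D.W β i : ℤ) : ℝ) / D.t i := by
            unfold W
            rw [D.pp_ev_left]
            push_cast
            rw [Finset.mul_sum, Finset.sum_div]
            exact Finset.sum_congr rfl fun j _ => by ring
          rw [h3]
          have h4 : (0 : ℝ) ≤ β i := by exact_mod_cast hβ0 i
          have h5 : ((D.W β i : ℤ) : ℝ) ≤ 0 := by exact_mod_cast hW i
          exact div_nonpos_of_nonpos_of_nonneg (mul_nonpos_of_nonneg_of_nonpos h4 h5)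
            (Nat.cast_nonneg _)
        linarith
      apply hne
      rw [Finset.eq_empty_iff_forall_notMem]
      intro α hα
      have h1 := (D.mem_posF).1 (hT hα)
      obtain ⟨c, s, h2⟩ := exists_rootT h1.1
      apply h2.ne_zero
      refine le_antisymm ?_ h1.2
      rw [← hz]
      exact Finset.single_le_sum hpos hα
    · intro h
      exact absurd (Finset.empty_mem_powerset _) h

/-- evaluation of the denominator -/
lemma ll_den (K : ℝ) (y : I → ℤ) : D.ll K y (D.altSum (fun _ => 1)) =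
    (2 * Complex.I) ^ D.posF.card * ((D.S K y : ℝ) : ℂ) := by
  rw [D.altSum_one, ← D.phi_apply]
  unfold den
  rw [map_mul, map_prod, D.phi_single]
  have h1 : D.ex K y (fun _ => 1) =
      ∏ α ∈ D.posF, Complex.exp (((Real.pi * D.ip y α / K : ℝ) : ℂ) * Complex.I) := by
    unfold ex
    rw [← Complex.exp_sum, ← Finset.sum_mul]
    congr 2
    rw [← Complex.ofReal_sum]
    congr 1
    have h2 : D.bf (fun _ => 1) y + D.bf (fun _ => 1) y = D.ip y (∑ α ∈ D.posF, α) := by
      rw [← D.bf_add_left, ← D.bf_W, D.W_sum_pos]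
      rfl
    have h3 : ∀ s : Finset (I → ℤ), D.ip y (∑ α ∈ s, α) = ∑ α ∈ s, D.ip y α := by
      intro s
      unfold ip
      rw [Finset.sum_comm]
      refine Finset.sum_congr rfl fun j _ => ?_
      rw [Finset.sum_apply, Int.cast_sum, Finset.mul_sum, Finset.sum_div]
    rw [h3] at h2
    have h4 : ∑ α ∈ D.posF, Real.pi * D.ip y α / K = Real.pi * (∑ α ∈ D.posF, D.ip y α) / K := by
      rw [Finset.mul_sum, Finset.sum_div]
    rw [h4, ← h2]
    ring
  rw [h1, ← Finset.prod_mul_distrib]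
  unfold S
  rw [Complex.ofReal_prod, ← Finset.prod_const, ← Finset.prod_mul_distrib]
  refine Finset.prod_congr rfl fun α _ => ?_
  rw [map_sub, map_one, D.phi_single]
  have h5 : D.ex K y (-D.W α) =
      Complex.exp (((-(2 * Real.pi * D.ip y α / K) : ℝ) : ℂ) * Complex.I) := by
    unfold ex
    rw [D.bf_neg_left, D.bf_W]
    congr 3
    ring
  rw [h5, mul_sub, mul_one, ← Complex.exp_add, Complex.ofReal_sin, Complex.sin]
  have h6 : ((Real.pi * D.ip y α / K : ℝ) : ℂ) * Complex.I +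
      ((-(2 * Real.pi * D.ip y α / K) : ℝ) : ℂ) * Complex.I =
      -((Real.pi * D.ip y α / K : ℝ) : ℂ) * Complex.I := by
    push_cast
    ring
  rw [h6]
  have h7 : Complex.I * Complex.I = -1 := Complex.I_mul_I
  linear_combination (-(Complex.exp (-((Real.pi * D.ip y α / K : ℝ) : ℂ) * Complex.I) -
    Complex.exp (((Real.pi * D.ip y α / K : ℝ) : ℂ) * Complex.I))) * h7

end denominator

/-- the quantum dimension is the value of the character under a ring homomorphism -/
theorem exists_ev {I : Type} [Fintype I] [DecidableEq I] (D : SimpleData I) (k : ℕ) :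
    ∃ φ : AddMonoidAlgebra ℤ (I → ℤ) →+* ℂ,
      ∀ (x : (I → ℕ) →₀ ℤ) (f : AddMonoidAlgebra ℤ (I → ℤ)), D.HasChar x f.coeff →
        φ f = ((D.qdim k x : ℝ) : ℂ) := by
  set K : ℝ := (((k : ℤ) + D.hv : ℤ) : ℝ) with hK
  refine ⟨D.phi K (fun _ => 1), ?_⟩
  intro x f hx
  have : Fintype D.weyl := Fintype.ofFinite _
  unfold HasChar at hx
  have h1 := congrArg (D.ll K (fun _ => 1)) hx
  rw [finsum_eq_sum_of_fintype, map_sum] at h1
  have h2 : ∑ w : D.weyl, D.ll K (fun _ => 1)
      (LinearMap.det (w.1 : (I → ℤ) →ₗ[ℤ] (I → ℤ)) •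
        Finsupp.mapDomain (fun μ => μ + w.1 (fun _ => 1)) f.coeff) =
      D.ll K (fun _ => 1) (D.altSum (fun _ => 1)) * D.phi K (fun _ => 1) f := by
    unfold altSum
    rw [finsum_eq_sum_of_fintype, map_sum, Finset.sum_mul]
    refine Finset.sum_congr rfl fun w _ => ?_
    rw [map_smul, map_smul, smul_mul_assoc]
    congr 1
    rw [D.phi_apply]
    unfold ll
    rw [Finsupp.linearCombination_mapDomain, Finsupp.linearCombination_single, one_smul,
      Finsupp.linearCombination_apply, Finsupp.linearCombination_apply, Finsupp.mul_sum]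
    refine Finsupp.sum_congr fun μ _ => ?_
    show _ • D.ex K (fun _ => 1) (μ + w.1 (fun _ => 1)) = _
    rw [D.ex_add, zsmul_eq_mul, zsmul_eq_mul]
    ring
  have h3 : D.ll K (fun _ => 1) (x.sum fun lam c => c • D.altSum (fun j => (lam j : ℤ) + 1)) =
      (2 * Complex.I) ^ D.posF.card *
        (((x.sum fun lam c => (c : ℝ) * D.S K (fun j => (lam j : ℤ) + 1)) : ℝ) : ℂ) := by
    unfold Finsupp.sum
    rw [map_sum, Complex.ofReal_sum, Finset.mul_sum]
    refine Finset.sum_congr rfl fun lam _ => ?_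
    dsimp only
    rw [map_smul, D.ll_altSum, D.ll_den, zsmul_eq_mul]
    push_cast
    ring
  rw [h2, h3, D.ll_den] at h1
  have h4 : (0 : ℝ) < D.S K (fun _ => 1) := S_one_pos (D := D) (k : ℤ) (Int.natCast_nonneg k)
  have h5 : ((2 * Complex.I) ^ D.posF.card : ℂ) ≠ 0 :=
    pow_ne_zero _ (mul_ne_zero two_ne_zero Complex.I_ne_zero)
  have h6 : ((D.S K (fun _ => 1) : ℝ) : ℂ) ≠ 0 := by exact_mod_cast h4.ne'
  rw [mul_assoc] at h1
  have h7 := mul_left_cancel₀ h5 h1
  rw [qdim_eq, Complex.ofReal_div, eq_div_iff h6, ← h7]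
  ring

end SimpleData

end Pool.Agent.LS60
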