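import Pool.Agent.LS60.Exist

set_option autoImplicit false

/-! Symmetries of affine weights: simple reflections, translations, compositions. -/

namespace Pool.Agent.LS60

open Finset

namespace SimpleData

variable {I : Type} [Fintype I] [DecidableEq I] {D : SimpleData I}

lemma W_sub (α β : I → ℤ) : D.W (α - β) = D.W α - D.W β := by
  funext j
  unfold W
  rw [D.pp_sub_right, Pi.sub_apply]

lemma W_smul (a : ℤ) (α : I → ℤ) : D.W (a • α) = a • D.W α := by
  funext j
  unfold W
  rw [D.pp_smul_right, Pi.smul_apply, smul_eq_mul]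

lemma sum_srefl (i : I) (c ν : I → ℤ) :
    ∑ j, c j * D.srefl i ν j = ∑ j, (c - D.pp c (ev i) • ev i) j * ν j := by
  rw [D.srefl_apply]
  have h8 : ∀ j, c j * (ν - ν i • D.W (ev i)) j = c j * ν j - ν i * (c j * D.A j i) := by
    intro j
    have : D.W (ev i) j = D.A j i := D.pp_ev_ev j i
    simp only [Pi.sub_apply, Pi.smul_apply, smul_eq_mul, this]
    ring
  have h9 : ∀ j, (c - D.pp c (ev i) • ev i) j * ν j =
      c j * ν j - D.pp c (ev i) * (ev i j * ν j) := by
    intro j
    simp only [Pi.sub_apply, Pi.smul_apply, smul_eq_mul]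
    ring
  rw [Finset.sum_congr rfl fun j _ => h8 j, Finset.sum_congr rfl fun j _ => h9 j,
    Finset.sum_sub_distrib, Finset.sum_sub_distrib, ← Finset.mul_sum, ← Finset.mul_sum,
    D.pp_ev_right]
  have h10 : ∑ j, ev i j * ν j = ν i := by
    rw [Finset.sum_eq_single i]
    · simp
    · intro j _ hj
      simp [hj]
    · intro h; exact absurd (mem_univ i) h
  rw [h10]
  ring

/-- every reflection is in the Weyl group -/
lemma exists_reflW {α c : I → ℤ} {s : ℕ} (h : D.RootT α c s) :
    ∃ w ∈ D.weyl, ∀ ν : I → ℤ, w ν = ν - (∑ j, c j * ν j) • D.W α := by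
  induction h with
  | simple i =>
    refine ⟨D.srefl i, srefl_mem i, fun ν => ?_⟩
    rw [D.srefl_apply]
    congr 2
    rw [Finset.sum_eq_single i]
    · simp
    · intro j _ hj
      simp [hj]
    · intro h; exact absurd (mem_univ i) h
  | refl i α c s h ih =>
    obtain ⟨w, hw, hwν⟩ := ih
    refine ⟨D.srefl i * (w * D.srefl i), D.weyl.mul_mem (srefl_mem i)
      (D.weyl.mul_mem hw (srefl_mem i)), fun ν => ?_⟩
    have h1 : (D.srefl i * (w * D.srefl i)) ν = D.srefl i (w (D.srefl i ν)) := rfl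
    rw [h1, hwν, map_sub, map_smul, srefl_srefl, sum_srefl]
    congr 2
    rw [D.srefl_apply, W_sub, W_smul]
    rfl

/-- A symmetry of affine weights together with the induced map on affine roots. -/
structure Ext (D : SimpleData I) where
  /-- the map on weights -/
  f : (Option I → ℤ) →+ (Option I → ℤ)
  /-- the map on roots -/
  g : D.ARoot → D.ARoot
  /-- the linear part -/
  w : (I → ℤ) ≃ₗ[ℤ] (I → ℤ)
  hw : w ∈ D.weyl
  fpr : ∀ μ γ, ARoot.pr (f μ) γ = ARoot.pr μ (g γ)
  grf : ∀ β γ, g (ARoot.rf β γ) = ARoot.rf (g β) (g γ)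
  flev : ∀ μ, D.lev (f μ) = D.lev μ
  fw : ∀ ν, f (D.aff 0 ν) = D.aff 0 (w ν)
  fsurj : Function.Surjective f

namespace Ext

/-- composition -/
def comp (x y : Ext D) : Ext D where
  f := x.f.comp y.f
  g γ := y.g (x.g γ)
  w := x.w * y.w
  hw := D.weyl.mul_mem x.hw y.hw
  fpr μ γ := by
    rw [AddMonoidHom.comp_apply, x.fpr, y.fpr]
  grf β γ := by rw [x.grf, y.grf]
  flev μ := by rw [AddMonoidHom.comp_apply, x.flev, y.flev]
  fw ν := by
    rw [AddMonoidHom.comp_apply, y.fw, x.fw]
    rfl
  fsurj := by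
    rw [AddMonoidHom.coe_comp]
    exact x.fsurj.comp y.fsurj

end Ext

/-- the simple reflection as a homomorphism -/
def sHom (D : SimpleData I) (i : Option I) : (Option I → ℤ) →+ (Option I → ℤ) where
  toFun μ := μ - μ i • D.affRoot i
  map_zero' := by simp
  map_add' μ ν := by
    funext j
    simp only [Pi.add_apply, Pi.sub_apply, Pi.smul_apply, smul_eq_mul]
    ring

lemma sHom_apply (i : Option I) (μ : Option I → ℤ) :
    D.sHom i μ = μ - μ i • D.affRoot i := rfl

lemma rf_conj (σ β γ : D.ARoot) :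
    ARoot.rf σ (ARoot.rf β γ) = ARoot.rf (ARoot.rf σ β) (ARoot.rf σ γ) := by
  have h1 := σ.h.pp_self
  unfold ARoot.rf
  ext
  · simp only [Pi.sub_apply, Pi.smul_apply, smul_eq_mul, D.pp_sub_right, D.pp_smul_right,
      D.pp_sub_left, D.pp_smul_left, h1]
    ring
  · simp only [Pi.sub_apply, Pi.smul_apply, smul_eq_mul, D.pp_sub_right, D.pp_smul_right,
      D.pp_sub_left, D.pp_smul_left, h1]
    ring
  · rfl
  · simp only [Pi.sub_apply, Pi.smul_apply, smul_eq_mul, D.pp_sub_right, D.pp_smul_right,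
      D.pp_sub_left, D.pp_smul_left, h1]
    ring

lemma aff_add (a b : ℤ) (μ ν : I → ℤ) : D.aff (a + b) (μ + ν) = D.aff a μ + D.aff b ν := by
  funext j
  cases j with
  | none =>
    unfold aff
    simp only [Pi.add_apply, mul_add, Finset.sum_add_distrib]
    ring
  | some j => rfl

lemma aff_smul (a b : ℤ) (μ : I → ℤ) : D.aff (a * b) (a • μ) = a • D.aff b μ := by
  funext j
  cases j with
  | none =>
    unfold aff
    simp only [Pi.smul_apply, smul_eq_mul, mul_sub, Finset.mul_sum]
    congr 1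
    exact Finset.sum_congr rfl fun j _ => by ring
  | some j => rfl

lemma affRoot_eq_aff (i : Option I) :
    D.affRoot i = D.aff 0 (D.W (ARoot.simple (D := D) i).α) := by
  rw [← ARoot.rt_simple]
  rfl

lemma aff_zero_sub (ν κ : I → ℤ) (a : ℤ) :
    D.aff 0 (ν - a • κ) = D.aff 0 ν - a • D.aff 0 κ := by
  have h1 := aff_add (D := D) 0 0 ν (-a • κ)
  have h2 := aff_smul (D := D) (-a) 0 κ
  rw [mul_zero] at h2
  rw [add_zero, h2] at h1
  rw [sub_eq_add_neg, ← neg_smul, h1, neg_smul, ← sub_eq_add_neg]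

lemma pr_aff_zero (ν : I → ℤ) (γ : D.ARoot) :
    ARoot.pr (D.aff 0 ν) γ = ∑ j, γ.c j * ν j := by
  unfold ARoot.pr
  rw [lev_aff, mul_zero, add_zero]
  rfl

/-- simple reflections as symmetries -/
noncomputable def sExt (D : SimpleData I) (i : Option I) : Ext D where
  f := D.sHom i
  g := ARoot.rf (ARoot.simple i)
  w := (exists_reflW (ARoot.simple (D := D) i).h).choose
  hw := (exists_reflW (ARoot.simple (D := D) i).h).choose_spec.1
  fpr μ γ := pr_refl μ i γ
  grf β γ := rf_conj _ β γ
  flev μ := by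
    rw [sHom_apply, lev_sub_smul, lev_affRoot]
    ring
  fw ν := by
    have h1 := (exists_reflW (ARoot.simple (D := D) i).h).choose_spec.2 ν
    rw [h1, sHom_apply, aff_zero_sub, ← affRoot_eq_aff, ← pr_aff_zero, ARoot.pr_simple]
  fsurj μ := ⟨D.sHom i μ, by rw [sHom_apply, sHom_apply, refl_refl']⟩

lemma sExt_f (i : Option I) (μ : Option I → ℤ) : (sExt D i).f μ = μ - μ i • D.affRoot i := rfl

/-- translations as homomorphisms -/
def trHom (D : SimpleData I) (y : I → ℤ) : (Option I → ℤ) →+ (Option I → ℤ) where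
  toFun μ := D.aff (D.lev μ) (fp μ - D.lev μ • y)
  map_zero' := by
    have h0 : D.lev (0 : Option I → ℤ) = 0 := by unfold lev; simp
    funext j
    cases j with
    | none => rw [h0]; unfold aff fp; simp
    | some j => rw [h0]; unfold aff fp; simp
  map_add' μ ν := by
    rw [lev_add, ← aff_add]
    congr 1
    funext j
    unfold fp
    simp only [Pi.add_apply, Pi.sub_apply, Pi.smul_apply, smul_eq_mul]
    ring

lemma trHom_apply (y : I → ℤ) (μ : Option I → ℤ) :
    D.trHom y μ = D.aff (D.lev μ) (fp μ - D.lev μ • y) := rfl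

/-- the pairing of a coweight with a root -/
noncomputable def shA (y : I → ℤ) (hy : D.Cow y) (γ : D.ARoot) : ℤ := (hy _ _ _ γ.h).choose

/-- the shift of an affine root -/
noncomputable def shift (y : I → ℤ) (hy : D.Cow y) (γ : D.ARoot) : D.ARoot :=
  ⟨γ.α, γ.c, γ.s, γ.n - shA y hy γ, γ.h⟩

lemma shift_spec (y : I → ℤ) (hy : D.Cow y) (γ : D.ARoot) :
    ∑ j, γ.c j * y j = γ.s * shA y hy γ := (hy _ _ _ γ.h).choose_spec

/-- translations as symmetries -/
noncomputable def trExt (y : I → ℤ) (hy : D.Cow y) : Ext D where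
  f := D.trHom y
  g := shift y hy
  w := 1
  hw := D.weyl.one_mem
  fpr μ γ := by
    rw [trHom_apply]
    unfold ARoot.pr shift
    rw [lev_aff]
    have h1 : ∑ j, γ.c j * D.aff (D.lev μ) (fp μ - D.lev μ • y) (some j) =
        ∑ j, γ.c j * μ (some j) - D.lev μ * ∑ j, γ.c j * y j := by
      rw [Finset.mul_sum, ← Finset.sum_sub_distrib]
      refine Finset.sum_congr rfl fun j _ => ?_
      show γ.c j * ((fp μ - D.lev μ • y) j) = _
      unfold fp
      simp only [Pi.sub_apply, Pi.smul_apply, smul_eq_mul]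
      ring
    rw [h1, shift_spec y hy γ]
    dsimp only
    ring
  grf β γ := by
    have h1 := shift_spec y hy β
    have h2 := shift_spec y hy γ
    have h3 := shift_spec y hy (ARoot.rf β γ)
    have h4 := β.h.sym γ.h
    have h5 : ∑ j, (ARoot.rf β γ).c j * y j =
        ∑ j, γ.c j * y j - D.pp γ.c β.α * ∑ j, β.c j * y j := by
      rw [Finset.mul_sum, ← Finset.sum_sub_distrib]
      refine Finset.sum_congr rfl fun j _ => ?_
      unfold ARoot.rf
      simp only [Pi.sub_apply, Pi.smul_apply, smul_eq_mul]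
      ring
    rw [h3, h1, h2] at h5
    have hs : (γ.s : ℤ) ≠ 0 := by exact_mod_cast γ.h.s_pos.ne'
    have h6 : shA y hy (ARoot.rf β γ) = shA y hy γ - D.pp β.c γ.α * shA y hy β := by
      apply mul_left_cancel₀ hs
      have h7 : ((ARoot.rf β γ).s : ℤ) = γ.s := rfl
      rw [h7] at h5
      rw [h5]
      linear_combination (- shA y hy β) * h4
    unfold shift
    ext
    · rfl
    · rfl
    · rfl
    · dsimp only
      rw [h6]
      unfold ARoot.rf
      dsimp only
      ring
  flev μ := by rw [trHom_apply, lev_aff]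
  fw ν := by
    rw [trHom_apply, lev_aff, zero_smul, sub_zero]
    rfl
  fsurj μ := ⟨D.trHom (-y) μ, by
    rw [trHom_apply, trHom_apply, lev_aff]
    have h1 : fp (D.aff (D.lev μ) (fp μ - D.lev μ • -y)) - D.lev μ • y =
        fun j => μ (some j) := by
      funext j
      unfold fp
      show (fp μ - D.lev μ • -y) j - (D.lev μ • y) j = _
      unfold fp
      simp only [Pi.sub_apply, Pi.smul_apply, Pi.neg_apply, smul_eq_mul]
      ring
    rw [h1, aff_lev]⟩

lemma trExt_f (y : I → ℤ) (hy : D.Cow y) (μ : Option I → ℤ) :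
    (trExt y hy).f μ = D.aff (D.lev μ) (fp μ - D.lev μ • y) := rfl

end SimpleData

end Pool.Agent.LS60
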