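import Pool.Agent.LS60.QTriple

set_option autoImplicit false

/-! Quantum dimensions of all Kirillov-Reshetikhin classes. -/

namespace Pool.Agent.LS60

open Finset

namespace SimpleData

variable {I : Type} [Fintype I] [DecidableEq I] {D : SimpleData I}

section

variable [Nonempty I] {k l : ℕ}

/-- positivity for Demazure classes of level at most `k` -/
lemma class_pos {i : I} {m : ℕ} (hl : 0 < l) (hlk : l ≤ k) {x : (I → ℕ) →₀ ℤ}
    (h : D.IsDemClass i m l x) : 0 < D.qdim k x := by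
  obtain ⟨w, hw, f, hanti, hf, hx⟩ := h
  have hlev : 0 < D.lev (D.aff l (w (Pi.single i (m : ℤ)))) ∨
      ∀ j, 0 ≤ D.aff l (w (Pi.single i (m : ℤ))) j :=
    Or.inl (by rw [lev_aff]; exact_mod_cast hl)
  rw [qdim_dem k hanti hlev hf hx]
  have h1 := dem_pos (D := D) (k : ℤ) (l : ℤ) (by exact_mod_cast hl) (by exact_mod_cast hlk)
    (lev_aff _ _) hf
  exact div_pos h1 (S_one_pos (k : ℤ) (by omega))

/-- value at zero -/
lemma class_zero {i : I} {x : (I → ℕ) →₀ ℤ} (h : D.IsDemClass i 0 0 x) :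
    D.qdim k x = 1 := by
  obtain ⟨w, hw, f, hanti, hf, hx⟩ := h
  have hw0 : w (Pi.single i ((0 : ℕ) : ℤ)) = 0 := by simp
  rw [hw0] at hf
  have hdom : ∀ j, 0 ≤ D.aff ((0 : ℕ) : ℤ) 0 j := by
    intro j
    cases j with
    | none => simp [aff]
    | some j => exact le_rfl
  have hS : 0 < D.S (((k : ℤ) + D.hv : ℤ)) (fun _ => 1) := S_one_pos (k : ℤ) (by omega)
  rw [qdim_dem k (fun i => le_rfl) (Or.inr hdom) hf hx]
  have h1 := hf.of_dom (fun j => affRoot_self j) hdom
  rw [h1, pair_single, one_smul]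
  have h2 : D.GG k (D.aff ((0 : ℕ) : ℤ) 0) = D.S (((k : ℤ) + D.hv : ℤ)) (fun _ => 1) := by
    unfold GG
    congr 1
  rw [h2, div_self hS.ne']

/-- the classes of the theorem are those attached to the coweights `yv` -/
lemma class_ee {w : (I → ℤ) ≃ₗ[ℤ] (I → ℤ)} (hw : w ∈ D.weyl)
    (hw0 : ∀ x : I → ℤ, (∀ j, 0 ≤ x j) → ∀ j, w x j ≤ 0) (hl : 0 < l) {i : I}
    {x : (I → ℕ) →₀ ℤ} (h : D.IsDemClass i (D.t i * l) l x) :
    D.qdim k x = D.ee k l (D.yv w i) := by
  obtain ⟨w', hw', f, hanti, hf, hx⟩ := h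
  have h1 : w' (Pi.single i ((D.t i * l : ℕ) : ℤ)) = w (Pi.single i ((D.t i * l : ℕ) : ℤ)) := by
    refine anti_unique hw' hw hanti (hw0 _ fun j => ?_)
    by_cases hj : j = i
    · subst hj; rw [Pi.single_eq_same]; exact Int.natCast_nonneg _
    · rw [Pi.single_eq_of_ne hj]
  rw [h1] at hf hanti
  have hlev : 0 < D.lev (D.aff l (w (Pi.single i ((D.t i * l : ℕ) : ℤ)))) ∨
      ∀ j, 0 ≤ D.aff l (w (Pi.single i ((D.t i * l : ℕ) : ℤ))) j :=
    Or.inl (by rw [lev_aff]; exact_mod_cast hl)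
  rw [qdim_dem k hanti hlev hf hx]
  rw [yv_mul] at hf
  rw [ee_eq hl hf]

/-- value at the top -/
lemma class_top (hk : 0 < k) {i : I} {x : (I → ℕ) →₀ ℤ}
    (h : D.IsDemClass i (D.t i * k) k x) : D.qdim k x = 1 := by
  obtain ⟨w, hw, hw0⟩ := exists_w0 D
  rw [class_ee hw hw0 hk h]
  obtain ⟨f, hf⟩ := exists_f (D := D) hk (D.yv w i)
  rw [ee_eq hk hf, dem_one (D.yv w i) (yv_cow hw i) (k : ℤ) (by exact_mod_cast hk) hf]
  exact div_self (S_one_pos (k : ℤ) (by omega)).ne'

omit [Nonempty I] in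
/-- the numerical Q-system -/
lemma qsys_num {Q : I → ℕ → (I → ℕ) →₀ ℤ} (hQ : D.IsKRFamily Q) (k : ℕ) :
    D.QSys (fun i m => D.qdim k (Q i m)) := by
  obtain ⟨F, hF, hq⟩ := hQ.qsys
  obtain ⟨φ, hφ⟩ := exists_ev D k
  intro i m hm
  have h1 := congrArg φ (hq i m hm)
  rw [map_pow, map_add, map_mul, map_prod] at h1
  simp only [map_prod] at h1
  have h2 : ∀ j n, φ (F j n) = ((D.qdim k (Q j n) : ℝ) : ℂ) := fun j n => hφ _ _ (hF j n)
  simp only [h2] at h1
  exact_mod_cast h1

omit [Nonempty I] in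
lemma natAbs_symm (i j : I) : (D.A j i).natAbs * D.t i = (D.A i j).natAbs * D.t j := by
  have h := congrArg Int.natAbs (D.symm i j)
  rw [Int.natAbs_mul, Int.natAbs_mul, Int.natAbs_natCast, Int.natAbs_natCast] at h
  rw [mul_comm, ← h, mul_comm]

/-- the product in the Q-system at multiples of `t_i` -/
lemma prod_at (q : I → ℕ → ℝ) (i : I) (l : ℕ) :
    ∏ j ∈ univ.erase i, ∏ r ∈ range (D.A i j).natAbs,
      q j (((D.A j i).natAbs * (D.t i * l) + r) / (D.A i j).natAbs) =
      ∏ j ∈ univ.erase i, q j (D.t j * l) ^ (D.A i j).natAbs := by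
  refine Finset.prod_congr rfl fun j _ => ?_
  rw [Finset.prod_congr rfl (g := fun _ => q j (D.t j * l)), Finset.prod_const,
    Finset.card_range]
  intro r hr
  rw [Finset.mem_range] at hr
  congr 1
  rw [← mul_assoc, natAbs_symm, mul_assoc, Nat.mul_add_div (by omega), Nat.div_eq_of_lt hr,
    add_zero]

end

section main

variable [Nonempty I] {k : ℕ} {Q : I → ℕ → (I → ℕ) →₀ ℤ}

lemma q_zero (hQ : D.IsKRFamily Q) (i : I) : D.qdim k (Q i 0) = 1 := by
  have h := hQ.dem i 0
  rw [mul_zero] at h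
  exact class_zero h

lemma q_dem_pos (hQ : D.IsKRFamily Q) (i : I) {l : ℕ} (hl : l ≤ k) :
    0 < D.qdim k (Q i (D.t i * l)) := by
  rcases Nat.eq_zero_or_pos l with h | h
  · subst h
    rw [mul_zero, q_zero hQ]
    exact one_pos
  · exact class_pos h hl (hQ.dem i l)

lemma q_nested (hQ : D.IsKRFamily Q) (i : I) {l : ℕ} (hl : 0 < l) (hlk : l < k) :
    ∏ j ∈ univ.erase i, D.qdim k (Q j (D.t j * l)) ^ (D.A i j).natAbs <
      D.qdim k (Q i (D.t i * l)) ^ 2 := by
  obtain ⟨w, hw, hw0⟩ := exists_w0 D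
  have h1 : ∀ j, D.qdim k (Q j (D.t j * l)) = D.ee k l (D.yv w j) := fun j =>
    class_ee hw hw0 hl (hQ.dem j l)
  simp only [h1]
  exact nested hw hw0 hl hlk i

/-- the step from `t_i l` to `t_i l + 1` -/
lemma q_step (hQ : D.IsKRFamily Q) (i : I) {l : ℕ} (hlk : l < k)
    (hpos : ∀ m ≤ D.t i * l, 0 < D.qdim k (Q i m)) : 0 < D.qdim k (Q i (D.t i * l + 1)) := by
  rcases Nat.eq_zero_or_pos l with h | h
  · subst h
    rw [mul_zero, zero_add]
    exact class_pos one_pos hlk (hQ.one i)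
  · have h0 := D.t_pos i
    have h1 : 1 ≤ D.t i * l := Nat.mul_pos h0 h
    have h2 := qsys_num hQ k i (D.t i * l) h1
    rw [prod_at (fun j m => D.qdim k (Q j m))] at h2
    have h3 := q_nested hQ i h hlk
    have h4 := hpos (D.t i * l - 1) (by omega)
    have h5 : 0 < D.qdim k (Q i (D.t i * l + 1)) * D.qdim k (Q i (D.t i * l - 1)) := by
      have h6 : D.qdim k (Q i (D.t i * l)) ^ 2 =
        D.qdim k (Q i (D.t i * l + 1)) * D.qdim k (Q i (D.t i * l - 1)) +
          ∏ j ∈ univ.erase i, D.qdim k (Q j (D.t j * l)) ^ (D.A i j).natAbs := h2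
      linarith
    exact pos_of_mul_pos_left h5 h4.le

/-- the triply laced step -/
lemma q_step3 (hQ : D.IsKRFamily Q) (hd : D.d = 3) (i : I) (hi : D.t i = 3) {l : ℕ}
    (hlk : l < k) (hlong : ∀ j, D.t j = 1 → ∀ m ≤ k, 0 < D.qdim k (Q j m))
    (hpos : ∀ m ≤ 3 * l + 1, 0 < D.qdim k (Q i m)) : 0 < D.qdim k (Q i (3 * l + 2)) := by
  set q : I → ℕ → ℝ := fun j m => D.qdim k (Q j m) with hq
  set X : ℝ := ∏ j ∈ univ.erase i, q j l ^ (D.A j i).natAbs with hX
  set X' : ℝ := ∏ j ∈ univ.erase i, q j (l + 1) ^ (D.A j i).natAbs with hX'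
  have hnb : ∀ j ∈ univ.erase i, (D.A i j = 0 ∧ D.A j i = 0) ∨
      (D.t j = 1 ∧ D.A i j = -3 ∧ D.A j i = -1) := by
    intro j hj
    by_cases hA : D.A i j = 0
    · left
      refine ⟨hA, ?_⟩
      have h1 := D.symm i j
      rw [hA, hi] at h1
      push_cast at h1
      omega
    · right
      exact short_nbr hd hi (Finset.ne_of_mem_erase hj) hA
  have hposj : ∀ m ≤ k, ∀ j ∈ univ.erase i, 0 < q j m ^ (D.A j i).natAbs := by
    intro m hm j hj
    rcases hnb j hj with ⟨_, h2⟩ | ⟨h1, _, _⟩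
    · rw [h2]; simp
    · exact pow_pos (hlong j h1 m hm) _
  have hXpos : 0 < X := Finset.prod_pos (hposj l hlk.le)
  have hX'pos : 0 < X' := Finset.prod_pos (hposj (l + 1) hlk)
  have ha : 0 < q i (3 * l) := hpos _ (by omega)
  have hb : 0 < q i (3 * l + 1) := hpos _ le_rfl
  have ha' : 0 < q i (3 * l + 3) := by
    have := q_dem_pos (k := k) hQ i (l := l + 1) hlk
    rw [hi] at this
    have h2 : 3 * (l + 1) = 3 * l + 3 := by ring
    rwa [h2] at this
  -- product at 3 l
  have hR : ∏ j ∈ univ.erase i, q j (D.t j * l) ^ (D.A i j).natAbs = X ^ 3 := by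
    rw [hX, ← Finset.prod_pow]
    refine Finset.prod_congr rfl fun j hj => ?_
    rcases hnb j hj with ⟨h1, h2⟩ | ⟨h1, h2, h3⟩
    · rw [h1, h2]; simp
    · rw [h1, h2, h3]; simp
  have hle : X ^ 3 ≤ q i (3 * l) ^ 2 := by
    rcases Nat.eq_zero_or_pos l with h | h
    · subst h
      have h1 : X = 1 := by
        rw [hX]
        refine Finset.prod_eq_one fun j _ => ?_
        have : q j 0 = 1 := q_zero hQ j
        rw [this, one_pow]
      have h2 : q i (3 * 0) = 1 := q_zero hQ i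
      rw [h1, h2]
      norm_num
    · have h1 := q_nested hQ i h hlk
      rw [hi] at h1
      have h2 : ∏ j ∈ univ.erase i, q j (D.t j * l) ^ (D.A i j).natAbs < q i (3 * l) ^ 2 := h1
      rw [hR] at h2
      exact h2.le
  have hB : q i (3 * l + 1) ^ 2 = q i (3 * l + 2) * q i (3 * l) + X ^ 2 * X' := by
    have h1 := qsys_num hQ k i (3 * l + 1) (by omega)
    have h2 : ∏ j ∈ univ.erase i, ∏ r ∈ range (D.A i j).natAbs,
        q j (((D.A j i).natAbs * (3 * l + 1) + r) / (D.A i j).natAbs) = X ^ 2 * X' := by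
      rw [hX, hX', ← Finset.prod_pow, ← Finset.prod_mul_distrib]
      refine Finset.prod_congr rfl fun j hj => ?_
      rcases hnb j hj with ⟨h1, h2⟩ | ⟨h1, h2, h3⟩
      · rw [h1, h2]; simp
      · rw [h2, h3]
        have e1 : (-3 : ℤ).natAbs = 3 := rfl
        have e2 : (-1 : ℤ).natAbs = 1 := rfl
        rw [e1, e2, Finset.prod_range_succ, Finset.prod_range_succ, Finset.prod_range_succ,
          Finset.prod_range_zero]
        have e3 : (1 * (3 * l + 1) + 0) / 3 = l := by omega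
        have e4 : (1 * (3 * l + 1) + 1) / 3 = l := by omega
        have e5 : (1 * (3 * l + 1) + 2) / 3 = l + 1 := by omega
        rw [e3, e4, e5]
        ring
    have h3 : q i (3 * l + 1) ^ 2 = q i (3 * l + 1 + 1) * q i (3 * l + 1 - 1) +
      ∏ j ∈ univ.erase i, ∏ r ∈ range (D.A i j).natAbs,
        q j (((D.A j i).natAbs * (3 * l + 1) + r) / (D.A i j).natAbs) := h1
    rw [h3, h2]
    rfl
  have hC : q i (3 * l + 2) ^ 2 = q i (3 * l + 3) * q i (3 * l + 1) + X * X' ^ 2 := by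
    have h1 := qsys_num hQ k i (3 * l + 2) (by omega)
    have h2 : ∏ j ∈ univ.erase i, ∏ r ∈ range (D.A i j).natAbs,
        q j (((D.A j i).natAbs * (3 * l + 2) + r) / (D.A i j).natAbs) = X * X' ^ 2 := by
      rw [hX, hX', ← Finset.prod_pow, ← Finset.prod_mul_distrib]
      refine Finset.prod_congr rfl fun j hj => ?_
      rcases hnb j hj with ⟨h1, h2⟩ | ⟨h1, h2, h3⟩
      · rw [h1, h2]; simp
      · rw [h2, h3]
        have e1 : (-3 : ℤ).natAbs = 3 := rfl
        have e2 : (-1 : ℤ).natAbs = 1 := rfl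
        rw [e1, e2, Finset.prod_range_succ, Finset.prod_range_succ, Finset.prod_range_succ,
          Finset.prod_range_zero]
        have e3 : (1 * (3 * l + 2) + 0) / 3 = l := by omega
        have e4 : (1 * (3 * l + 2) + 1) / 3 = l + 1 := by omega
        have e5 : (1 * (3 * l + 2) + 2) / 3 = l + 1 := by omega
        rw [e3, e4, e5]
        ring
    have h3 : q i (3 * l + 2) ^ 2 = q i (3 * l + 2 + 1) * q i (3 * l + 2 - 1) +
      ∏ j ∈ univ.erase i, ∏ r ∈ range (D.A i j).natAbs,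
        q j (((D.A j i).natAbs * (3 * l + 2) + r) / (D.A i j).natAbs) := h1
    rw [h3, h2]
    rfl
  show 0 < q i (3 * l + 2)
  by_contra hcon
  push Not at hcon
  set a := q i (3 * l)
  set b := q i (3 * l + 1)
  set a' := q i (3 * l + 3)
  set c := q i (3 * l + 2)
  have h1 : X * X' ^ 2 < c ^ 2 := by
    have := mul_pos ha' hb
    linarith
  have h2 : (-c) * a < X ^ 2 * X' := by
    have := pow_pos hb 2
    nlinarith
  have h3 : 0 ≤ (-c) * a := mul_nonneg (by linarith) ha.le
  have h4 : ((-c) * a) ^ 2 < (X ^ 2 * X') ^ 2 := by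
    exact pow_lt_pow_left₀ h2 h3 (by norm_num)
  have h5 : (X * X' ^ 2) * X ^ 3 ≤ c ^ 2 * a ^ 2 :=
    mul_le_mul h1.le hle (by positivity) (by positivity)
  nlinarith

theorem q_pos (hQ : D.IsKRFamily Q) : ∀ l ≤ k, ∀ i, ∀ m ≤ D.t i * l,
    0 < D.qdim k (Q i m) := by
  intro l
  induction l with
  | zero =>
    intro _ i m hm
    have : m = 0 := by rw [mul_zero] at hm; omega
    rw [this, q_zero hQ]
    exact one_pos
  | succ l ih =>
    intro hl i m hm
    have ih' := ih (by omega)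
    by_cases h1 : m ≤ D.t i * l
    · exact ih' i m h1
    push Not at h1
    have htop := q_dem_pos (k := k) hQ i hl
    have hstep := q_step hQ i (l := l) (by omega) (ih' i)
    rcases D.t_mem i with ht | ht
    · rw [ht] at hm h1 htop
      have : m = 1 * (l + 1) := by omega
      rw [this]
      exact htop
    · rcases D.d_mem with hd | hd | hd
      · rw [ht, hd] at hm h1 htop
        have : m = 1 * (l + 1) := by omega
        rw [this]
        exact htop
      · rw [ht, hd] at hm h1 htop hstep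
        rcases (show m = 2 * l + 1 ∨ m = 2 * (l + 1) by omega) with h | h
        · rw [h]; exact hstep
        · rw [h]; exact htop
      · have hpos3 : ∀ m ≤ 3 * l + 1, 0 < D.qdim k (Q i m) := by
          intro m hm
          rcases (show m ≤ 3 * l ∨ m = 3 * l + 1 by omega) with h | h
          · exact ih' i m (by rw [ht, hd]; exact h)
          · rw [ht, hd] at hstep
            rw [h]; exact hstep
        have hst3 := q_step3 hQ hd i (by rw [ht, hd]) (l := l) (by omega) (by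
          intro j hj m hm
          have := q_dem_pos (k := k) hQ j hm
          rw [hj, one_mul] at this
          exact this) hpos3
        rw [ht, hd] at hm h1 htop
        rcases (show m ≤ 3 * l + 1 ∨ m = 3 * l + 2 ∨ m = 3 * (l + 1) by omega) with h | h | h
        · exact hpos3 m h
        · rw [h]; exact hst3
        · rw [h]; exact htop

theorem q_vanish (hQ : D.IsKRFamily Q) (hk : 0 < k) (i : I) :
    D.qdim k (Q i (D.t i * k + 1)) = 0 := by
  have h0 := D.t_pos i
  have h1 : 1 ≤ D.t i * k := Nat.mul_pos h0 hk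
  have h2 := qsys_num hQ k i (D.t i * k) h1
  rw [prod_at (fun j m => D.qdim k (Q j m))] at h2
  have htop : ∀ j, D.qdim k (Q j (D.t j * k)) = 1 := fun j => class_top hk (hQ.dem j k)
  simp only [htop, one_pow, Finset.prod_const_one] at h2
  have h3 := q_pos hQ k le_rfl i (D.t i * k - 1) (by omega)
  have h4 : D.qdim k (Q i (D.t i * k + 1)) * D.qdim k (Q i (D.t i * k - 1)) = 0 := by linarith
  rcases mul_eq_zero.1 h4 with h | h
  · exact h
  · exact absurd h h3.ne'

end main

end SimpleData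

end Pool.Agent.LS60
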