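import Pool.Agent.LS60.QUniq

set_option autoImplicit false

/-! The explicit Kirillov-Reshetikhin classes. -/

namespace Pool.Agent.LS60

open Finset

namespace SimpleData

variable {I : Type} [Fintype I] [DecidableEq I] {D : SimpleData I} [Nonempty I] {k l : ℕ}

omit [Nonempty I] in
lemma at_lev {lam : I → ℤ} (h : 0 < l ∨ lam = 0) (w : (I → ℤ) ≃ₗ[ℤ] (I → ℤ)) :
    0 < D.lev (D.aff l (w lam)) ∨ ∀ j, 0 ≤ D.aff l (w lam) j := by
  rcases h with h | h
  · left
    rw [lev_aff]; exact_mod_cast h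
  · right
    subst h
    rw [map_zero]
    intro j
    cases j with
    | none => unfold aff; simp
    | some j => exact le_rfl

/-- existence and uniqueness of Demazure classes -/
theorem at_existsUnique {lam : I → ℤ} (h : 0 < l ∨ lam = 0) : ∃! x, D.IsDemAt lam l x := by
  obtain ⟨w, hw, hdom⟩ := exists_dominant (D := D) (-lam)
  have hanti : ∀ j, w lam j ≤ 0 := by
    intro j
    have := hdom j
    rw [map_neg, Pi.neg_apply] at this
    omega
  have hl := at_lev (D := D) h w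
  obtain ⟨f, hf⟩ : ∃ f, IsDem D.affRoot (D.aff l (w lam)) f := by
    rcases hl with hl | hl
    · exact exists_dem _ _ hl rfl
    · exact ⟨_, IsDem.base _ hl⟩
  have hinv := fun j H => kr_inv (T := D.aff l (w lam)) hanti hl hf j H
  obtain ⟨x, hx⟩ := hasChar_exists (D := D) (Finsupp.mapDomain fp f) (pointwise_inv hinv)
  refine ⟨x, ⟨w, hw, f, hanti, hf, hx⟩, ?_⟩
  rintro y ⟨w', hw', f', hanti', hf', hy⟩
  rw [← anti_unique hw hw' hanti hanti'] at hf'
  have hff : f' = f := by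
    rcases hl with hl | hl
    · exact dem_uniq hl hf' hf
    · rw [hf.of_dom (fun i => affRoot_self i) hl, hf'.of_dom (fun i => affRoot_self i) hl]
  rw [hff] at hy
  exact hasChar_unique hy hx

lemma at_pos {lam : I → ℤ} (hl : 0 < l) (hlk : l ≤ k) {x : (I → ℕ) →₀ ℤ}
    (h : D.IsDemAt lam l x) : 0 < D.qdim k x := by
  obtain ⟨w, hw, f, hanti, hf, hx⟩ := h
  rw [qdim_dem k hanti (at_lev (Or.inl hl) w) hf hx]
  have h1 := dem_pos (D := D) (k : ℤ) (l : ℤ) (by exact_mod_cast hl) (by exact_mod_cast hlk)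
    (lev_aff _ _) hf
  exact div_pos h1 (S_one_pos (k : ℤ) (by omega))

/-- vanishing at level `k + 1` -/
lemma at_vanish (hk : 0 < k) {lam : I → ℤ} (hlam : (k : ℤ) + 1 ≤ ∑ j, D.cθ j * lam j)
    {x : (I → ℕ) →₀ ℤ} (h : D.IsDemAt lam (k + 1) x) : D.qdim k x = 0 := by
  obtain ⟨w, hw, f, hanti, hf, hx⟩ := h
  rw [qdim_dem k hanti (at_lev (Or.inl (by omega)) w) hf hx]
  push_cast at hf
  have h1 : pair f (D.GG k) = 0 := by
    rcases dem_top (k : ℤ) (by exact_mod_cast hk) hf (lev_aff _ _) with h1 | ⟨Λ, h1, h2, h3, h4⟩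
    · exact h1
    · rw [h3]
      obtain ⟨α', c', hr, -, hr2⟩ := weyl_root w hw _ _ _ (rootT_θ D)
      obtain ⟨α'', c'', h5, h6⟩ := h4 _ _ _ hr
      have h7 : ∑ j, c' j * D.aff ((k : ℤ) + 1) (w lam) (some j) = ∑ j, D.cθ j * lam j :=
        hr2 lam
      have h8 := h5.sum_le (fun j => Λ (some j)) (fun j => h1 _)
      rw [← h6, h7] at h8
      push_cast at h8
      have h9 : D.lev Λ = Λ none + ∑ j, D.cθ j * Λ (some j) := rfl
      have h11 : Λ none = 0 := by
        have := h1 none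
        linarith
      rw [GG_eq k (k + 1) Λ]
      apply S_zero (k + D.hv) (by have := D.hv_pos; omega)
      · rw [lev_add, lev_kap, h2]; ring
      · rw [Pi.add_apply, h11, kap_none]; ring
  rw [h1, zero_div]

omit [Nonempty I] in
lemma qdim_add (x y : (I → ℕ) →₀ ℤ) : D.qdim k (x + y) = D.qdim k x + D.qdim k y := by
  unfold qdim
  rw [Finsupp.sum_add_index']
  · intro a; simp
  · intro a b c; push_cast; ring

omit [Nonempty I] in
lemma level_mul (i : I) (l : ℕ) : (D.t i * l + D.t i - 1) / D.t i = l := by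
  have h0 := D.t_pos i
  rw [Nat.add_sub_assoc h0, Nat.mul_add_div h0, Nat.div_eq_of_lt (by omega), add_zero]

omit [Nonempty I] in
lemma level_succ (i : I) (l : ℕ) : (D.t i * l + 1 + D.t i - 1) / D.t i = l + 1 := by
  have h0 := D.t_pos i
  have h1 : D.t i * l + 1 + D.t i - 1 = D.t i * (l + 1) := by
    rw [mul_add]; omega
  rw [h1, Nat.mul_div_cancel_left _ h0]

omit [Nonempty I] in
lemma level_le (i : I) {m l : ℕ} (h : m ≤ D.t i * l) : (m + D.t i - 1) / D.t i ≤ l := by
  have h0 := D.t_pos i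
  calc (m + D.t i - 1) / D.t i ≤ (D.t i * l + D.t i - 1) / D.t i :=
        Nat.div_le_div_right (by omega)
    _ = l := level_mul i l

omit [Nonempty I] in
lemma level_pos (i : I) {m : ℕ} (h : 0 < m) : 0 < (m + D.t i - 1) / D.t i := by
  have h0 := D.t_pos i
  exact Nat.div_pos (by omega) h0

/-- existence and uniqueness of the classes -/
theorem krClass_existsUnique (i : I) (m : ℕ) : ∃! x, D.IsKRClass i m x := by
  have h1 : 0 < (m + D.t i - 1) / D.t i ∨ (Pi.single i (m : ℤ) : I → ℤ) = 0 := by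
    rcases Nat.eq_zero_or_pos m with h | h
    · right; rw [h]; simp
    · left; exact level_pos i h
  obtain ⟨x, hx, hu⟩ := at_existsUnique (D := D) h1
  by_cases he : D.IsExc i m
  · have h2 : 0 < (m + D.t i - 1) / D.t i := level_pos i (by have := he.2.2.2.1; omega)
    obtain ⟨y, hy, hv⟩ := at_existsUnique (D := D) (lam := D.excWt i m) (Or.inl h2)
    refine ⟨x + y, Or.inr ⟨he, x, y, hx, hy, rfl⟩, ?_⟩
    rintro z (⟨h3, _⟩ | ⟨_, x', y', h3, h4, rfl⟩)
    · exact absurd he h3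
    · rw [hu x' h3, hv y' h4]
  · refine ⟨x, Or.inl ⟨he, hx⟩, ?_⟩
    rintro z (⟨_, h3⟩ | ⟨h3, _⟩)
    · exact hu z h3
    · exact absurd h3 he

theorem krClass_zero (i : I) {x : (I → ℕ) →₀ ℤ} (h : D.IsKRClass i 0 x) :
    D.qdim k x = 1 := by
  rcases h with ⟨_, h⟩ | ⟨h, _⟩
  · have h1 : (0 + D.t i - 1) / D.t i = 0 := by
      have := level_mul (D := D) i 0
      rwa [mul_zero] at this
    rw [h1] at h
    exact class_zero h
  · have := h.2.2.2.1
    omega

theorem krClass_pos (i : I) {m : ℕ} (hm : m ≤ D.t i * k) {x : (I → ℕ) →₀ ℤ}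
    (h : D.IsKRClass i m x) : 0 < D.qdim k x := by
  rcases Nat.eq_zero_or_pos m with h0 | h0
  · subst h0
    rw [krClass_zero i h]
    exact one_pos
  have h1 := level_pos (D := D) i h0
  have h2 := level_le (D := D) i hm
  rcases h with ⟨_, h⟩ | ⟨_, x₁, x₂, h3, h4, rfl⟩
  · exact at_pos h1 h2 h
  · rw [qdim_add]
    exact add_pos (at_pos h1 h2 h3) (at_pos h1 h2 h4)

theorem krClass_top (hk : 0 < k) (i : I) {x : (I → ℕ) →₀ ℤ}
    (h : D.IsKRClass i (D.t i * k) x) : D.qdim k x = 1 := by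
  rcases h with ⟨_, h⟩ | ⟨h, _⟩
  · rw [level_mul] at h
    exact class_top hk h
  · exfalso
    have h1 := h.2.2.2.2
    rw [Nat.mul_mod_right] at h1
    omega

theorem krClass_vanish (hk : 0 < k) (i : I) {x : (I → ℕ) →₀ ℤ}
    (h : D.IsKRClass i (D.t i * k + 1) x) : D.qdim k x = 0 := by
  have ht := D.t_pos i
  have h1 : ∀ x₁, D.IsDemClass i (D.t i * k + 1) (k + 1) x₁ → D.qdim k x₁ = 0 := by
    intro x₁ hx
    refine at_vanish hk ?_ hx
    rw [Finset.sum_eq_single i (by intro j _ hj; simp [hj])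
      (fun h => absurd (mem_univ i) h), Pi.single_eq_same]
    have h2 := D.cθ_pos i
    have h3 : k * 1 ≤ k * D.t i := Nat.mul_le_mul_left k ht
    have h4 : ((k * 1 : ℕ) : ℤ) ≤ ((k * D.t i : ℕ) : ℤ) := by exact_mod_cast h3
    push_cast at h4 ⊢
    nlinarith
  rcases h with ⟨_, h⟩ | ⟨he, x₁, x₂, h3, h4, rfl⟩
  · rw [level_succ] at h
    exact h1 x h
  · rw [level_succ] at h3 h4
    rw [qdim_add, h1 x₁ h3, zero_add]
    refine at_vanish hk ?_ h4
    obtain ⟨hti, _, ⟨j, hj, hA⟩, _, _⟩ := he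
    have hji : j ≠ i := by
      rintro rfl
      exact hti hj
    have hdiv : (D.t i * k + 1) / D.t i = k := by
      rw [Nat.mul_add_div ht, Nat.div_eq_of_lt (by omega), add_zero]
    have hnn : ∀ m ∈ (univ : Finset I), 0 ≤ D.cθ m * D.excWt i (D.t i * k + 1) m := by
      intro m _
      have := D.cθ_pos m
      unfold excWt
      split_ifs <;> positivity
    have h5 : ∑ m ∈ {i, j}, D.cθ m * D.excWt i (D.t i * k + 1) m ≤
        ∑ m, D.cθ m * D.excWt i (D.t i * k + 1) m :=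
      Finset.sum_le_sum_of_subset_of_nonneg (subset_univ _) fun m hm _ => hnn m hm
    refine le_trans ?_ h5
    rw [Finset.sum_pair hji.symm]
    have h6 : D.excWt i (D.t i * k + 1) i = 1 := by
      unfold excWt
      rw [if_pos rfl]
    have h7 : D.excWt i (D.t i * k + 1) j = k := by
      unfold excWt
      rw [if_neg hji, if_pos ⟨hj, hA⟩, hdiv]
    rw [h6, h7]
    have h8 := D.cθ_pos i
    have h9 := D.cθ_pos j
    nlinarith

end SimpleData

end Pool.Agent.LS60
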