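import Pool.Agent.LS60.QConv

set_option autoImplicit false

/-! Demazure characters of translations are multiplicative. -/

namespace Pool.Agent.LS60

open Finset

section perm

variable {J : Type}

lemma dem_perm {al : J → J → ℤ} {σ : J → J} (hal : ∀ i j, al (σ i) (σ j) = al i j) (j : J)
    (f : (J → ℤ) →₀ ℤ) :
    Finsupp.mapDomain (fun (μ : J → ℤ) (i : J) => μ (σ i)) (dem (al (σ j)) (σ j) f) =
      dem (al j) j (Finsupp.mapDomain (fun (μ : J → ℤ) (i : J) => μ (σ i)) f) := by
  apply ext_pair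
  intro G
  rw [SimpleData.pair_mapDomain, pair_dem, pair_dem, SimpleData.pair_mapDomain]
  congr 1
  funext μ
  rw [Dst_eq_prim, Dst_eq_prim]
  congr 1
  funext k
  congr 1
  funext i
  simp only [Pi.sub_apply, Pi.smul_apply, smul_eq_mul, hal]

lemma isDem_perm {al : J → J → ℤ} {σ : J → J} (hσ : Function.Surjective σ)
    (hal : ∀ i j, al (σ i) (σ j) = al i j) {T : J → ℤ} {f : (J → ℤ) →₀ ℤ}
    (h : IsDem al T f) :
    IsDem al (fun i => T (σ i)) (Finsupp.mapDomain (fun (μ : J → ℤ) (i : J) => μ (σ i)) f) := by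
  induction h with
  | base Λ hΛ =>
    rw [Finsupp.mapDomain_single]
    exact IsDem.base _ fun i => hΛ _
  | step T f i h hi ih =>
    obtain ⟨j, rfl⟩ := hσ i
    rw [dem_perm hal]
    have h1 := IsDem.step _ _ j ih hi
    have h2 : (fun i => (T - T (σ j) • al (σ j)) (σ i)) =
        (fun i => T (σ i)) - (fun i => T (σ i)) j • al j := by
      funext i
      simp only [Pi.sub_apply, Pi.smul_apply, smul_eq_mul, hal]
    rw [h2]
    exact h1

end perm

namespace SimpleData

variable {I : Type} [Fintype I] [DecidableEq I] {D : SimpleData I}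

lemma eq_one_of_pos {Z : Option I → ℤ} (hlZ : D.lev Z = D.hv) (h1 : ∀ i, 0 < Z i) :
    Z = fun _ => 1 := by
  have h3 : D.lev Z = Z none + ∑ j, D.cθ j * Z (some j) := rfl
  have h4 : ∑ j, D.cθ j ≤ ∑ j, D.cθ j * Z (some j) := by
    refine Finset.sum_le_sum fun j _ => ?_
    have h5 := D.cθ_pos j
    have h6 := h1 (some j)
    nlinarith
  have h7 : D.hv = 1 + ∑ j, D.cθ j := rfl
  have h8 : Z none = 1 := by have := h1 none; omega
  have h9 : ∑ j, D.cθ j = ∑ j, D.cθ j * Z (some j) := by omega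
  have h10 : ∀ j, D.cθ j = D.cθ j * Z (some j) := by
    intro j
    have h11 := (Finset.sum_eq_sum_iff_of_le (s := univ) (f := fun j => D.cθ j)
      (g := fun j => D.cθ j * Z (some j)) (fun j _ => by
        have h5 := D.cθ_pos j
        have h6 := h1 (some j)
        nlinarith)).1 h9
    exact h11 j (mem_univ j)
  funext i
  cases i with
  | none => exact h8
  | some j =>
    have h11 := h10 j
    have h12 := D.cθ_pos j
    have h13 : D.cθ j * (Z (some j) - 1) = 0 := by linarith
    rcases mul_eq_zero.1 h13 with h | h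
    · omega
    · omega

lemma chain_down [Nonempty I] (l : ℤ) (P : Option I → ℤ) {T : Option I → ℤ}
    {f : (Option I → ℤ) →₀ ℤ} (h : IsDem D.affRoot T f) : ∀ x : Ext D,
    x.f (D.aff l 0) = T →
    (∀ γ : D.ARoot, 0 < γ.ht → ARoot.pr T γ < 0 → ARoot.pr (x.f P) γ < 0) →
    (∀ γ : D.ARoot, (0 < ARoot.pr T γ → 0 < ARoot.pr (x.f (fun _ => 1)) γ) ∧
      (ARoot.pr T γ = 0 → (0 < ARoot.pr (x.f (fun _ => 1)) γ ↔ 0 < γ.ht))) →
    ∃ x0 : Ext D, x0.f (fun _ => 1) = (fun _ => 1) ∧ ∀ χ, D.Inv χ →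
      IsDem D.affRoot (x0.f P) (D.conv χ (Finsupp.single (x0.f (D.aff l 0)) 1)) →
      IsDem D.affRoot (x.f P) (D.conv χ f) := by
  induction h with
  | base Λ hΛ =>
    intro x hx _ hZ
    refine ⟨x, ?_, ?_⟩
    · apply eq_one_of_pos
      · rw [x.flev, ARoot.lev_one]
      · intro i
        obtain ⟨h1, h2⟩ := hZ (ARoot.simple i)
        rw [ARoot.pr_simple, ARoot.pr_simple] at h1 h2
        rcases (hΛ i).lt_or_eq with h3 | h3
        · exact h1 h3
        · rw [h2 h3.symm]
          show 0 < ARoot.pr (fun _ => 1) (ARoot.simple (D := D) i)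
          rw [ARoot.pr_simple]
          exact zero_lt_one
    · intro χ _ h
      rw [hx] at h
      exact h
  | step T f i h hi ih =>
    intro x hx hP hZ
    have hTi : (T - T i • D.affRoot i) i = - T i := refl_self_apply T i
    obtain ⟨x0, h1, h2⟩ := ih ((sExt D i).comp x) (by
        show D.sHom i (x.f (D.aff l 0)) = T
        rw [hx, sHom_apply, refl_refl']) (by
      intro γ hγ hγT
      show ARoot.pr (D.sHom i (x.f P)) γ < 0
      rw [sHom_apply, pr_refl]
      have hne : γ ≠ ARoot.simple i := by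
        rintro rfl
        rw [ARoot.pr_simple] at hγT
        omega
      apply hP _ (ARoot.simple_pos i γ hγ hne)
      rw [pr_refl, ARoot.rf_rf]
      exact hγT) (by
      intro γ
      obtain ⟨h3, h4⟩ := hZ (ARoot.rf (ARoot.simple i) γ)
      rw [pr_refl, ARoot.rf_rf] at h3 h4
      have h5 : ARoot.pr (((sExt D i).comp x).f (fun _ => 1)) γ =
          ARoot.pr (x.f (fun _ => 1)) (ARoot.rf (ARoot.simple i) γ) := by
        show ARoot.pr (D.sHom i (x.f (fun _ => 1))) γ = _
        rw [sHom_apply, pr_refl]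
      rw [h5]
      refine ⟨h3, fun h6 => ?_⟩
      rw [h4 h6]
      have hne : γ ≠ ARoot.simple i := by
        rintro rfl
        rw [ARoot.pr_simple] at h6
        omega
      have hne' : ARoot.rf (ARoot.simple i) γ ≠ ARoot.simple i := by
        intro h7
        have h8 : ARoot.pr (T - T i • D.affRoot i) (ARoot.rf (ARoot.simple i) γ) =
            ARoot.pr T γ := by rw [pr_refl, ARoot.rf_rf]
        rw [h7, ARoot.pr_simple, h6] at h8
        omega
      constructor
      · intro h7
        have h8 := ARoot.simple_pos i _ h7 hne'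
        rwa [ARoot.rf_rf] at h8
      · intro h7
        exact ARoot.simple_pos i γ h7 hne)
    refine ⟨x0, h1, fun χ hχ h3 => ?_⟩
    have h4 := h2 χ hχ h3
    have h5 : ((sExt D i).comp x).f P = x.f P - x.f P i • D.affRoot i := rfl
    rw [h5] at h4
    have h6 : x.f P i < 0 := by
      have h7 := hP (ARoot.simple i) (by
        show 0 < ARoot.pr (fun _ => 1) (ARoot.simple (D := D) i)
        rw [ARoot.pr_simple]
        exact zero_lt_one) (by rw [ARoot.pr_simple]; omega)
      rwa [ARoot.pr_simple] at h7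
    have h8 := IsDem.step _ _ i h4 (by rw [refl_self_apply]; omega)
    rw [refl_refl', dem_conv hχ] at h8
    exact h8

lemma pr_add (μ ν : Option I → ℤ) (γ : D.ARoot) :
    ARoot.pr (μ + ν) γ = ARoot.pr μ γ + ARoot.pr ν γ := by
  have h1 := ARoot.pr_lin μ (-1) ν γ
  have h2 : μ - (-1 : ℤ) • ν = μ + ν := by
    funext j
    simp only [Pi.sub_apply, Pi.add_apply, Pi.smul_apply, smul_eq_mul]
    ring
  rw [h2] at h1
  rw [h1]
  ring

lemma pr_zero (γ : D.ARoot) : ARoot.pr (0 : Option I → ℤ) γ = 0 := by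
  have h := pr_add (D := D) 0 0 γ
  rw [add_zero] at h
  omega

lemma pr_finsum {K : Type} (s : Finset K) (F : K → Option I → ℤ) (γ : D.ARoot) :
    ARoot.pr (∑ k ∈ s, F k) γ = ∑ k ∈ s, ARoot.pr (F k) γ := by
  classical
  induction s using Finset.induction_on with
  | empty => rw [Finset.sum_empty, Finset.sum_empty, pr_zero]
  | insert a s ha ih => rw [Finset.sum_insert ha, Finset.sum_insert ha, pr_add, ih]

lemma pr_smul (a : ℤ) (ν : Option I → ℤ) (γ : D.ARoot) :
    ARoot.pr (a • ν) γ = a * ARoot.pr ν γ := by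
  have h1 := ARoot.pr_lin 0 (-a) ν γ
  rw [pr_zero] at h1
  have h2 : (0 : Option I → ℤ) - (-a) • ν = a • ν := by
    funext j
    simp
  rw [h2] at h1
  rw [h1]
  ring

/-- the coroot coordinates of an affine root -/
def co' (γ : D.ARoot) (i : Option I) : ℤ := ARoot.pr (Pi.single i 1) γ

lemma pr_eq_sum (μ : Option I → ℤ) (γ : D.ARoot) :
    ARoot.pr μ γ = ∑ i, μ i * co' γ i := by
  have h1 : μ = ∑ i, μ i • (Pi.single i 1 : Option I → ℤ) := by
    funext j
    rw [Finset.sum_apply, Finset.sum_eq_single j]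
    · simp
    · intro i _ hi
      simp [hi.symm]
    · intro h; exact absurd (mem_univ j) h
  conv_lhs => rw [h1]
  rw [pr_finsum]
  exact Finset.sum_congr rfl fun i _ => pr_smul _ _ _

/-- roots of height one are simple, in terms of the pairing -/
lemma ht_one {γ : D.ARoot} (h : γ.ht = 1) : ∃ i, ∀ μ, ARoot.pr μ γ = μ i := by
  have h0 : ∀ i, 0 ≤ co' γ i := by
    intro i
    apply ARoot.dom _ _ γ (by omega)
    intro j
    by_cases hj : j = i
    · subst hj; simp
    · simp [hj]
  have h1 : ∑ i, co' γ i = 1 := by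
    have h2 := pr_eq_sum (fun _ => 1) γ
    have h3 : ARoot.pr (fun _ => 1) γ = 1 := h
    rw [h3] at h2
    simpa using h2.symm
  have h2 : ∃ i, co' γ i ≠ 0 := by
    by_contra hcon
    push Not at hcon
    rw [Finset.sum_eq_zero fun i _ => hcon i] at h1
    omega
  obtain ⟨i, hi⟩ := h2
  have h3 : 1 ≤ co' γ i := by have := h0 i; omega
  have h4 := Finset.sum_erase_eq_sub (f := co' γ) (mem_univ i)
  have h5 : 0 ≤ ∑ j ∈ univ.erase i, co' γ j := Finset.sum_nonneg fun j _ => h0 j
  have h6 : co' γ i = 1 := by omega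
  have h7 : ∑ j ∈ univ.erase i, co' γ j = 0 := by omega
  have h8 := (Finset.sum_eq_zero_iff_of_nonneg fun j _ => h0 j).1 h7
  refine ⟨i, fun μ => ?_⟩
  rw [pr_eq_sum, Finset.sum_eq_single i]
  · rw [h6, mul_one]
  · intro j _ hj
    rw [h8 j (Finset.mem_erase.2 ⟨hj, mem_univ j⟩), mul_zero]
  · intro h; exact absurd (mem_univ i) h

/-- an affine root is determined by its pairing -/
lemma aroot_ext {β γ : D.ARoot} (h : ∀ μ, ARoot.pr μ β = ARoot.pr μ γ) : β = γ := by
  have hc : β.c = γ.c := by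
    funext j
    have h1 := h (D.aff 0 (Pi.single j 1))
    rw [pr_aff_zero, pr_aff_zero] at h1
    rw [Finset.sum_eq_single j (by intro j' _ hj; simp [hj])
        (fun h => absurd (mem_univ j) h),
      Finset.sum_eq_single j (by intro j' _ hj; simp [hj])
        (fun h => absurd (mem_univ j) h)] at h1
    simpa using h1
  have hsα : ∀ j, (β.s : ℤ) * β.α j = γ.s * γ.α j := by
    intro j
    rw [← β.h.rel j, ← γ.h.rel j, hc]
  have hs : β.s = γ.s := by
    have h1 := β.h.pp_self
    have h2 := γ.h.pp_self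
    have h3 : (β.s : ℤ) * D.pp β.c β.α = γ.s * D.pp γ.c γ.α := by
      rw [← D.pp_smul_right, ← D.pp_smul_right, hc]
      congr 1
      funext j
      simp only [Pi.smul_apply, smul_eq_mul]
      exact hsα j
    rw [h1, h2] at h3
    omega
  have hα : β.α = γ.α := by
    funext j
    have h1 := hsα j
    rw [hs] at h1
    exact mul_left_cancel₀ (by exact_mod_cast γ.h.s_pos.ne') h1
  have hn : β.n = γ.n := by
    have h1 := h (D.aff 1 0)
    unfold ARoot.pr at h1
    rw [lev_aff, hc, hs] at h1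
    have h2 : β.n * (γ.s : ℤ) = γ.n * γ.s := by linarith
    exact mul_right_cancel₀ (by exact_mod_cast γ.h.s_pos.ne') h2
  ext
  · rw [hα]
  · rw [hc]
  · exact hs
  · exact hn

/-- a symmetry fixing the sum of fundamental weights is a diagram automorphism -/
lemma ext_perm (x : Ext D) (hx : x.f (fun _ => 1) = fun _ => 1) :
    ∃ σ : Option I → Option I, Function.Surjective σ ∧ (∀ μ i, x.f μ i = μ (σ i)) ∧
      ∀ i j, D.affRoot (σ i) (σ j) = D.affRoot i j := by
  have h1 : ∀ i, ∃ j, ∀ μ, ARoot.pr μ (x.g (ARoot.simple i)) = μ j := by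
    intro i
    apply ht_one
    unfold ARoot.ht
    rw [← x.fpr, hx]
    exact ARoot.pr_simple _ i
  choose σ hσ using h1
  have h2 : ∀ μ i, x.f μ i = μ (σ i) := by
    intro μ i
    rw [← ARoot.pr_simple (D := D) (x.f μ) i, x.fpr, hσ]
  have h3 : ∀ i, x.g (ARoot.simple i) = ARoot.simple (σ i) := by
    intro i
    apply aroot_ext
    intro μ
    rw [hσ, ARoot.pr_simple]
  refine ⟨σ, ?_, h2, ?_⟩
  · apply Finite.surjective_of_injective
    intro i j hij
    obtain ⟨μ, hμ⟩ := x.fsurj (Pi.single i 1)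
    have h4 := h2 μ i
    have h5 := h2 μ j
    rw [hμ] at h4 h5
    rw [hij, ← h5] at h4
    by_contra hne
    rw [Pi.single_eq_same, Pi.single_eq_of_ne (Ne.symm hne)] at h4
    exact one_ne_zero h4
  · intro i j
    have h4 := x.grf (ARoot.simple i) (ARoot.simple j)
    have h5 := congrArg (ARoot.pr (fun _ => 1)) h4
    rw [← x.fpr, hx, ARoot.pr_rf, ARoot.pr_rf, h3, h3, ARoot.pr_simple, ARoot.pr_simple,
      ARoot.pr_simple, ARoot.pr_simple, ARoot.pr_simple, ARoot.pr_simple, ARoot.rt_simple,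
      ARoot.rt_simple] at h5
    linarith

/-- invariance of the finite part of a Demazure character -/
lemma inv_fp [Nonempty I] {T : Option I → ℤ} (hT : ∀ i, T (some i) ≤ 0)
    (hl : 0 < D.lev T ∨ ∀ i, 0 ≤ T i) {f : (Option I → ℤ) →₀ ℤ}
    (h : IsDem D.affRoot T f) : D.Inv (Finsupp.mapDomain fp f) := by
  intro w hw H
  exact inv_weyl (D := D) (fun i H => kr_inv hT hl h i H) w hw H

lemma cT_some (y : I → ℤ) (l : ℤ) (i : I) : D.cT y l (some i) = - (l * y i) := rfl

/-- existence of the chain for a product -/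
lemma isDem_conv [Nonempty I] (l : ℕ) (hl : 0 < l) {y y' : I → ℤ} (hy : D.Cow y)
    (hy' : D.Cow y') (h0 : ∀ j, 0 ≤ y j) (h0' : ∀ j, 0 ≤ y' j)
    {f f' : (Option I → ℤ) →₀ ℤ} (h : IsDem D.affRoot (D.cT y l) f)
    (h' : IsDem D.affRoot (D.cT y' l) f') :
    IsDem D.affRoot (D.cT (y + y') l) (D.conv (Finsupp.mapDomain fp f) f') := by
  have hlz : (0 : ℤ) < l := by exact_mod_cast hl
  have hprT : ∀ γ : D.ARoot, ARoot.pr (D.cT y' l) γ = l * (γ.s * (shift y' hy' γ).n) := by
    intro γ
    exact pr_cT y' l γ _ (shift_spec y' hy' γ)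
  have hspos : ∀ γ : D.ARoot, (0 : ℤ) < γ.s := fun γ => by exact_mod_cast γ.h.s_pos
  have hpr1 : ∀ γ : D.ARoot, ARoot.pr ((trExt y' hy').f (fun _ => 1)) γ =
      (shift y' hy' γ).ht := fun γ => (trExt y' hy').fpr _ γ
  obtain ⟨x0, h1, h2⟩ := chain_down (l : ℤ) (D.cT y l) h' (trExt y' hy') (by
      rw [trExt_f, lev_aff]
      show D.aff l (fp (D.aff (l : ℤ) 0) - (l : ℤ) • y') = D.aff l (-((l : ℤ) • y'))
      congr 1
      funext j
      show (0 : ℤ) - ((l : ℤ) • y') j = _
      rw [zero_sub]; rfl) (by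
    intro γ hγ hγT
    have hpr : ARoot.pr ((trExt y' hy').f (D.cT y l)) γ =
        ARoot.pr (D.cT y' l) γ - l * ∑ j, γ.c j * y j := by
      rw [(trExt y' hy').fpr, hprT]
      show ARoot.pr (D.cT y l) (shift y' hy' γ) = _
      unfold ARoot.pr cT
      rw [lev_aff]
      have h3 : ∑ j, (shift y' hy' γ).c j * D.aff l (-((l : ℤ) • y)) (some j) =
          - (l * ∑ j, γ.c j * y j) := by
        rw [Finset.mul_sum, ← Finset.sum_neg_distrib]
        refine Finset.sum_congr rfl fun j _ => ?_
        show γ.c j * (-((l : ℤ) * y j)) = _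
        ring
      rw [h3]
      show _ + (shift y' hy' γ).n * γ.s * l = _
      ring
    rw [hpr]
    have h3 : (shift y' hy' γ).n < 0 := by
      rw [hprT] at hγT
      by_contra h4
      push Not at h4
      have := mul_nonneg hlz.le (mul_nonneg (hspos γ).le h4)
      omega
    have h4 : 0 ≤ γ.n := by
      rw [ARoot.ht_pos_iff] at hγ
      omega
    have h5 : (shift y' hy' γ).n = γ.n - shA y' hy' γ := rfl
    have h6 : 0 < ∑ j, γ.c j * y' j := by
      rw [shift_spec y' hy' γ]
      exact mul_pos (hspos γ) (by omega)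
    have h7 : ∀ j, 0 ≤ γ.c j := by
      rcases γ.h.sign with h8 | h8
      · exact fun j => (γ.h.coeff_sign j).1.1 (h8 j)
      · exfalso
        have h9 : ∀ j, γ.c j ≤ 0 := fun j => (γ.h.coeff_sign j).2.1 (h8 j)
        have : ∑ j, γ.c j * y' j ≤ 0 := Finset.sum_nonpos fun j _ =>
          mul_nonpos_of_nonpos_of_nonneg (h9 j) (h0' j)
        omega
    have h8 : 0 ≤ ∑ j, γ.c j * y j := Finset.sum_nonneg fun j _ => mul_nonneg (h7 j) (h0 j)
    have h9 := mul_nonneg hlz.le h8
    omega) (by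
    intro γ
    rw [hprT, hpr1]
    have h5 : (shift y' hy' γ).n = γ.n - shA y' hy' γ := rfl
    constructor
    · intro h3
      rw [ARoot.ht_pos_iff]
      left
      by_contra h4
      push Not at h4
      have : (γ.s : ℤ) * (shift y' hy' γ).n ≤ 0 :=
        mul_nonpos_of_nonneg_of_nonpos (hspos γ).le (by omega)
      have := mul_nonpos_of_nonneg_of_nonpos hlz.le this
      omega
    · intro h3
      have h4 : (shift y' hy' γ).n = 0 := by
        rcases mul_eq_zero.1 h3 with h6 | h6
        · omega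
        · rcases mul_eq_zero.1 h6 with h7 | h7
          · have := hspos γ; omega
          · exact h7
      rw [ARoot.ht_pos_iff, ARoot.ht_pos_iff]
      have h6 : (shift y' hy' γ).α = γ.α := rfl
      rw [h4, h6]
      have h7 := shift_spec y' hy' γ
      constructor
      · rintro (h8 | ⟨_, h8⟩)
        · omega
        · have h9 : 0 ≤ ∑ j, γ.c j * y' j := Finset.sum_nonneg fun j _ =>
            mul_nonneg ((γ.h.coeff_sign j).1.1 (h8 j)) (h0' j)
          rw [h7] at h9
          have h10 : 0 ≤ shA y' hy' γ := nonneg_of_mul_nonneg_right h9 (hspos γ)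
          rcases h10.lt_or_eq with h11 | h11
          · left; omega
          · right; exact ⟨by omega, h8⟩
      · rintro (h8 | ⟨_, h8⟩)
        · right
          refine ⟨rfl, ?_⟩
          rcases γ.h.sign with h9 | h9
          · exact h9
          · exfalso
            have h10 : ∑ j, γ.c j * y' j ≤ 0 := Finset.sum_nonpos fun j _ =>
              mul_nonpos_of_nonpos_of_nonneg ((γ.h.coeff_sign j).2.1 (h9 j)) (h0' j)
            rw [h7] at h10
            have h11 : 0 < (γ.s : ℤ) * shA y' hy' γ := mul_pos (hspos γ) (by omega)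
            omega
        · right; exact ⟨rfl, h8⟩)
  have h3 : (trExt y' hy').f (D.cT y l) = D.cT (y + y') l := by
    rw [trExt_f]
    unfold cT
    rw [lev_aff]
    congr 1
    funext j
    show -((l : ℤ) * y j) - (l : ℤ) * y' j = -((l : ℤ) * (y j + y' j))
    ring
  rw [← h3]
  have hanti : ∀ i, D.cT y l (some i) ≤ 0 := by
    intro i
    rw [cT_some]
    have := mul_nonneg hlz.le (h0 i)
    omega
  have hinv := inv_fp hanti (Or.inl (by show 0 < D.lev (D.aff _ _); rw [lev_aff]; exact hlz)) h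
  apply h2 _ hinv
  obtain ⟨σ, hσ, hσ1, hσ2⟩ := ext_perm x0 h1
  have h4 := isDem_perm hσ hσ2 h
  have h5 : (fun i => D.cT y l (σ i)) = x0.f (D.cT y l) := by
    funext i
    rw [hσ1]
  have h6 : (fun (μ : Option I → ℤ) (i : Option I) => μ (σ i)) = fun μ => x0.f μ := by
    funext μ i
    rw [hσ1]
  rw [h5, h6] at h4
  have h7 : Finsupp.mapDomain (fun μ => x0.f μ) f =
      D.conv (Finsupp.mapDomain fp f) (Finsupp.single (x0.f (D.aff l 0)) 1) := by
    apply ext_pair
    intro G
    rw [pair_mapDomain, pair_conv, pair_single, one_smul]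
    have h8 := hinv x0.w x0.hw (fun ν => G (x0.f (D.aff l 0) + D.aff 0 ν))
    rw [← h8, pair_mapDomain]
    apply pair_congr_lev h
    intro μ hμ
    rw [← x0.fw, ← map_add, ← aff_add]
    congr 2
    have h9 : D.lev (D.cT y l) = l := lev_aff _ _
    rw [h9] at hμ
    have h10 := aff_lev (D := D) μ
    rw [hμ] at h10
    rw [add_zero, zero_add]
    exact h10.symm
  rw [← h7]
  exact h4

lemma ofCoeff_add' {G : Type} (a b : G →₀ ℤ) :
    AddMonoidAlgebra.ofCoeff (a + b) = AddMonoidAlgebra.ofCoeff a + AddMonoidAlgebra.ofCoeff b := rfl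

lemma mapDomain_conv (χ : (I → ℤ) →₀ ℤ) (f : (Option I → ℤ) →₀ ℤ) :
    AddMonoidAlgebra.ofCoeff (Finsupp.mapDomain fp (D.conv χ f)) =
      AddMonoidAlgebra.ofCoeff χ * AddMonoidAlgebra.ofCoeff (Finsupp.mapDomain fp f) := by
  unfold conv
  induction f using Finsupp.induction_linear with
  | zero =>
    rw [map_zero, Finsupp.mapDomain_zero]
    exact (mul_zero _).symm
  | add f g hf hg =>
    rw [map_add, Finsupp.mapDomain_add, Finsupp.mapDomain_add, ofCoeff_add', ofCoeff_add', hf, hg,
      mul_add]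
  | single μ c =>
    rw [Finsupp.linearCombination_single, Finsupp.mapDomain_smul, Finsupp.mapDomain_single]
    unfold cv
    rw [← Finsupp.mapDomain_comp]
    have h1 : (fp ∘ fun ν : I → ℤ => μ + D.aff 0 ν) = fun ν => fp μ + ν := by
      funext ν j
      rfl
    rw [h1]
    induction χ using Finsupp.induction_linear with
    | zero =>
      rw [Finsupp.mapDomain_zero, smul_zero]
      exact (zero_mul _).symm
    | add f g hf hg =>
      rw [Finsupp.mapDomain_add, smul_add, ofCoeff_add', ofCoeff_add', hf, hg, add_mul]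
    | single ν a =>
      rw [Finsupp.mapDomain_single, Finsupp.smul_single]
      have h2 := AddMonoidAlgebra.single_mul_single (R := ℤ) ν (fp μ) a c
      rw [smul_eq_mul, mul_comm c a, add_comm (fp μ) ν]
      exact h2.symm
theorem dem_mul [Nonempty I] (l : ℕ) (hl : 0 < l) {y y' : I → ℤ} (hy : D.Cow y)
    (hy' : D.Cow y') (h0 : ∀ j, 0 ≤ y j) (h0' : ∀ j, 0 ≤ y' j)
    {f f' f'' : (Option I → ℤ) →₀ ℤ} (h : IsDem D.affRoot (D.cT y l) f)
    (h' : IsDem D.affRoot (D.cT y' l) f') (h'' : IsDem D.affRoot (D.cT (y + y') l) f'') :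
    AddMonoidAlgebra.ofCoeff (Finsupp.mapDomain fp f'') =
      AddMonoidAlgebra.ofCoeff (Finsupp.mapDomain fp f) *
        AddMonoidAlgebra.ofCoeff (Finsupp.mapDomain fp f') := by
  have h1 := isDem_conv l hl hy hy' h0 h0' h h'
  have hal : D.affCov.al = D.affRoot := funext fun i => affCov_al D i
  have h2 : IsDem D.affCov.al (D.cT (y + y') l) f'' := by rw [hal]; exact h''
  have h3 : IsDem D.affCov.al (D.cT (y + y') l)
    (D.conv (Finsupp.mapDomain fp f) f') := by rw [hal]; exact h1
  have hg : 0 < D.lev (D.cT (y + y') l) := by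
    show 0 < D.lev (D.aff _ _)
    rw [lev_aff]
    exact_mod_cast hl
  rw [CovSys.dem_unique (C := D.affCov) (fun hμ hc => affCov_dom D hμ hc) h2 h3 hg]
  exact mapDomain_conv _ _

end SimpleData

end Pool.Agent.LS60
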