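import Pool.Agent.LS60.Exist

set_option autoImplicit false

/-! Reflections are chains of covers, and strict monotonicity of dominated path sums. -/

namespace Pool.Agent.LS60

open Finset

/-- every reflection which lowers the order is a chain of covers -/
theorem RootSys.ch_refl {I : Type} (S : RootSys I)
    (h : ∀ i β, S.rt (S.rf (S.simple i) β) =
      S.rt β - S.pr (S.rt β) (S.simple i) • S.rt (S.simple i))
    (N : ℕ) {μ : I → ℤ} (hg : S.good μ) (β : S.R) (hb : 0 < S.ht β) (hμ : S.pr μ β < 0) :
    (S.toCov h).Ch N 0 μ (S.refl β μ) := by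
  have key : ∀ (n : ℕ) (μ : I → ℤ) (β : S.R), S.len μ = n → S.good μ → 0 < S.ht β →
      S.pr μ β < 0 → (S.toCov h).Ch N 0 μ (S.refl β μ) := by
    intro n
    induction n using Nat.strong_induction_on with
    | _ n ih =>
      intro μ β hn hg hb hμ
      obtain ⟨i, hi⟩ : ∃ i, μ i < 0 := by
        by_contra hcon
        push Not at hcon
        exact absurd (S.dom μ hcon β hb) (not_le.2 hμ)
      have hs : ∀ κ : I → ℤ, (S.toCov h).s i κ = S.refl (S.simple i) κ := by
        intro κ
        unfold RootSys.refl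
        rw [S.pr_simple]
        rfl
      have hstep : (S.toCov h).Step N 0 μ (S.refl (S.simple i) μ) := by
        have := CovSys.step_simple (C := S.toCov h) (N := N) (j := 0) i hg hi (by simp)
        rwa [hs] at this
      by_cases hne : β = S.simple i
      · rw [hne]
        exact Relation.ReflTransGen.single hstep
      · have hg' := S.good_refl (S.simple i) hg
        have hb' := S.simple_pos i β hb hne
        have hpr : S.pr (S.refl (S.simple i) μ) (S.rf (S.simple i) β) < 0 := by
          rw [S.pr_refl, S.rf_rf]; exact hμ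
        have hlen := S.len_simple hg i hi
        have h1 := ih (S.len (S.refl (S.simple i) μ)) (by omega) _ _ rfl hg' hb' hpr
        rw [S.refl_rf i β μ h] at h1
        have h2 : (S.toCov h).Ch N 0 μ (S.refl (S.simple i) (S.refl β μ)) :=
          Relation.ReflTransGen.head hstep h1
        have hgν := S.good_refl β hg
        rcases lt_trichotomy (S.refl β μ i) 0 with h3 | h3 | h3
        · have h4 := h2.sur1 i hi.le (by rw [S.refl_simple_apply]; omega)
          rwa [hs, S.refl_refl] at h4
        · rwa [S.refl_of_zero i h3] at h2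
        · have h4 := CovSys.step_simple (C := S.toCov h) (N := N) (j := 0) i
            (μ := S.refl (S.simple i) (S.refl β μ)) (S.good_refl (S.simple i) hgν)
            (by rw [S.refl_simple_apply]; omega) (by simp)
          rw [hs, S.refl_refl] at h4
          exact Relation.ReflTransGen.tail h2 h4
  exact key _ μ β rfl hg hb hμ

namespace CovSys

variable {I : Type} {C : CovSys I}

lemma Ch.eq_or_len_lt {N j : ℕ} {μ ν : I → ℤ} (h : C.Ch N j μ ν) :
    μ = ν ∨ C.len ν < C.len μ := by
  induction h with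
  | refl => exact Or.inl rfl
  | tail _ hs ih =>
    obtain ⟨β, hβ, _⟩ := hs
    have := C.cov_len hβ
    right
    rcases ih with rfl | ih <;> omega

lemma Ch.antisymm {N j : ℕ} {μ ν : I → ℤ} (h : C.Ch N j μ ν) (h' : C.Ch N j ν μ) : μ = ν := by
  rcases h.eq_or_len_lt with h1 | h1
  · exact h1
  · rcases h'.eq_or_len_lt with h2 | h2
    · exact h2.symm
    · omega

lemma len_s {μ : I → ℤ} (i : I) (hg : C.good μ) (hμ : μ i < 0) :
    C.len μ = C.len (C.s i μ) + 1 := C.cov_len (C.A1 i hg hμ)

/-- A path with small `ε` whose initial direction is in the orbit of `T` under the simple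
reflections in `J`. -/
lemma exists_dominated {N : ℕ} {T : I → ℤ} (hg : C.good T) (hN0 : 0 < N) (hN : C.NGood N T)
    (r : I → ℕ) (hr : ∀ i, 1 ≤ r i) (J : Set I) (hJ : ∀ i, i ∉ J → 2 ≤ r i) :
    ∃ x, C.IsPath N T x ∧
      Relation.ReflTransGen (fun a b : I → ℤ => ∃ i ∈ J, b = C.s i a) T (x 1) ∧
      ∀ i, eps N i x < r i := by
  have key : ∀ (n : ℕ) (x : ℕ → I → ℤ), ∑ l ∈ range N, C.len (x (l + 1)) = n →
      C.IsPath N T x →
      Relation.ReflTransGen (fun a b : I → ℤ => ∃ i ∈ J, b = C.s i a) T (x 1) →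
      ∃ x, C.IsPath N T x ∧
        Relation.ReflTransGen (fun a b : I → ℤ => ∃ i ∈ J, b = C.s i a) T (x 1) ∧
        ∀ i, eps N i x < r i := by
    intro n
    induction n using Nat.strong_induction_on with
    | _ n ih =>
      intro x hn hx hO
      by_cases hall : ∀ i, eps N i x < r i
      · exact ⟨x, hx, hO, hall⟩
      · push Not at hall
        obtain ⟨i, hi⟩ := hall
        have hr1 := hr i
        obtain ⟨a, b, hw⟩ := hx.exists_EWin hN hN0 i (by omega)
        have hab := hw.ab
        have hbN := hw.bN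
        have hx' := hx.flipE hN hg i hw
        have hle : ∀ l, l ∈ range N → C.len (C.flip i a b x (l + 1)) ≤ C.len (x (l + 1)) := by
          intro l hl
          rw [mem_range] at hl
          by_cases hl2 : a < l + 1 ∧ l + 1 ≤ b
          · rw [flip_in i x hl2]
            have := len_s (C := C) i (hx.good hg (l + 1) (by omega) (by omega))
              (hw.neg (l + 1) hl2.1 hl2.2)
            omega
          · rw [flip_out i x hl2]
        have hlt : ∑ l ∈ range N, C.len (C.flip i a b x (l + 1)) <
            ∑ l ∈ range N, C.len (x (l + 1)) := by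
          apply Finset.sum_lt_sum hle
          refine ⟨a, by rw [mem_range]; omega, ?_⟩
          rw [flip_in i x (by omega)]
          have := len_s (C := C) i (hx.good hg (a + 1) (by omega) (by omega))
            (hw.neg (a + 1) (by omega) (by omega))
          omega
        refine ih _ (by omega) (C.flip i a b x) rfl hx' ?_
        by_cases h1 : a < 1 ∧ 1 ≤ b
        · rw [flip_in i x h1]
          by_cases hiJ : i ∈ J
          · exact Relation.ReflTransGen.tail hO ⟨i, hiJ, rfl⟩
          · exfalso
            have h2 := hJ i hiJ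
            have ha0 : a = 0 := by omega
            subst ha0
            have h3 := hw.ha
            rw [Hs_zero] at h3
            have h4 := mnH_eq (j := b) hbN hw.mn
            have h5 := hx.eps_mul hN hN0 i
            have h6 : (N : ℤ) * eps N i x = N * 1 := by
              rw [h5, h4]; linarith
            have h7 : ((eps N i x : ℕ) : ℤ) = 1 := mul_left_cancel₀ (by omega) h6
            omega
        · rw [flip_out i x h1]
          exact hO
  refine key _ (strt N T) rfl (isPath_strt N Ch.refl hN0) ?_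
  have h1 : strt N T 1 = T := by
    unfold strt
    rw [if_pos (by omega)]
  rw [h1]

/-- The orbit under the simple reflections in `J` of a weight below `T'` stays below `T'` if
`T'` is antidominant on `J`. -/
lemma ch_orbit {N j : ℕ} {T' μ ν : I → ℤ} (J : Set I) (hg : C.good T')
    (hanti : ∀ i ∈ J, T' i ≤ 0)
    (h : C.Ch N 0 T' ν) (hj : j = 0)
    (hO : Relation.ReflTransGen (fun a b : I → ℤ => ∃ i ∈ J, b = C.s i a) μ ν) :
    C.Ch N j T' μ := by
  subst hj
  induction hO using Relation.ReflTransGen.head_induction_on with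
  | refl => exact h
  | head hs hrest ih =>
    rename_i a c
    obtain ⟨i, hiJ, rfl⟩ := hs
    have hga : C.good (C.s i a) := ih.good hg
    rcases lt_trichotomy ((C.s i a) i) 0 with h1 | h1 | h1
    · have h2 := step_simple (C := C) (N := N) (j := 0) i hga h1 (by simp)
      rw [s_s] at h2
      exact Relation.ReflTransGen.tail ih h2
    · have h2 : a = C.s i a := by
        have h3 : a i = 0 := by
          rw [C.s_self] at h1; omega
        rw [C.s_def, h3]
        simp
      rw [h2]
      exact ih
    · have h2 := ih.sur1 i (hanti i hiJ) h1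
      rwa [s_s] at h2

lemma NGood.mono {N : ℕ} {T T' : I → ℤ} (hN : C.NGood N T) (h : C.Ch N 0 T T') :
    C.NGood N T' := fun ν hν => hN ν (h.trans hν)

lemma IsPath.mono {N : ℕ} {T T' : I → ℤ} {x : ℕ → I → ℤ} (hx : C.IsPath N T' x)
    (h : C.Ch N 0 T T') : C.IsPath N T x := ⟨hx.zero, h.trans hx.init, hx.chain⟩

/-- Strict monotonicity of the pairing of a Demazure character with an antisymmetric
functional. -/
theorem pair_lt [Fintype I] [Nonempty I]
    (hdom : ∀ {μ ν : I → ℤ} {β}, (∀ i, 0 ≤ μ i) → C.Cov μ ν β → False)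
    (lev : (I → ℤ) →+ ℤ) (hlev : ∀ {μ ν : I → ℤ} {β}, C.Cov μ ν β → lev ν = lev μ)
    {T T' : I → ℤ} {f f' : (I → ℤ) →₀ ℤ} (h : IsDem C.al T f) (h' : IsDem C.al T' f')
    (hg : C.good T) (hne : T ≠ T') (hch : C.Ch 1 0 T T')
    (r : I → ℕ) (hr : ∀ i, 1 ≤ r i) (J : Set I) (hJ : ∀ i, i ∉ J → 2 ≤ r i)
    (hanti : ∀ i ∈ J, T' i ≤ 0) (G : (I → ℤ) → ℝ)
    (hGanti : ∀ ν, lev ν = lev T → ∀ i, G (C.s i ν - (r i : ℤ) • C.al i) = - G ν)
    (hpos : ∀ ν, lev ν = lev T → (∀ i, -(r i : ℤ) < ν i) → 0 < G ν) :
    pair f' G < pair f G := by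
  classical
  obtain ⟨N, hN0, hN⟩ := exists_NGood (C := C) hg
  have hchN : C.Ch N 0 T T' := Ch_iff_one.2 hch
  have hN' : C.NGood N T' := hN.mono hchN
  have hg' : C.good T' := hchN.good hg
  obtain ⟨Y, hY, hsum⟩ := cancel hg hN0 hN hr G
    (fun x hx i => hGanti _ (hx.lev_wt hN0 hN lev hlev) i)
  obtain ⟨Y', hY', hsum'⟩ := cancel hg' hN0 hN' hr G
    (fun x hx i => hGanti _ ((hx.mono hchN).lev_wt hN0 hN lev hlev) i)
  rw [dem_eq hdom h hg N hN0 hN G, hsum, dem_eq hdom h' hg' N hN0 hN' G, hsum']
  obtain ⟨x, hx1, hx2, hx3⟩ := exists_dominated hg hN0 hN r hr J hJ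
  have hpos' : ∀ x ∈ Y, 0 < G (wt N x) := by
    intro x hx
    obtain ⟨hx1, hx2⟩ := (hY x).1 hx
    apply hpos _ (hx1.lev_wt hN0 hN lev hlev)
    intro i
    have h1 := hx1.wt_self hN hN0 i
    have h2 := hx2 i
    rw [h1]
    omega
  refine Finset.sum_lt_sum_of_subset (i := x) ?_ ((hY x).2 ⟨hx1, hx3⟩) ?_ ?_ ?_
  · intro y hy
    obtain ⟨hy1, hy2⟩ := (hY' y).1 hy
    exact (hY y).2 ⟨hy1.mono hchN, hy2⟩
  · intro hx
    have h1 := ((hY' x).1 hx).1
    have h2 := ch_orbit (C := C) (N := N) (j := 0) J hg' hanti h1.init rfl hx2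
    exact hne (hchN.antisymm h2)
  · exact hpos' x ((hY x).2 ⟨hx1, hx3⟩)
  · intro y hy _
    exact (hpos' y hy).le

end CovSys

namespace SimpleData

variable {I : Type} [Fintype I] [DecidableEq I] {D : SimpleData I}

/-- (4) strict monotonicity -/
theorem dem_lt [Nonempty I] (k l : ℤ) (hl : 0 < l) (hlk : l < k) {T T' : Option I → ℤ}
    (hT : D.lev T = l) (hanti : ∀ i : I, T (some i) ≤ 0) (hanti' : ∀ i : I, T' (some i) ≤ 0)
    (hne : T ≠ T') (hch : D.affCov.Ch 1 0 T T') {f f' : (Option I → ℤ) →₀ ℤ}
    (h : IsDem D.affRoot T f) (h' : IsDem D.affRoot T' f') :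
    pair f' (D.GG k) < pair f (D.GG k) := by
  have _ := hanti
  have hal : D.affCov.al = D.affRoot := funext fun i => affCov_al D i
  rw [← hal] at h h'
  have hkap : ∀ i, 1 ≤ kap (I := I) k l i := by
    intro i
    cases i with
    | some i => rw [kap_some]
    | none => rw [kap_none]; omega
  have hk : ∀ i, (((kap (I := I) k l i).toNat : ℕ) : ℤ) = kap k l i := by
    intro i
    apply Int.toNat_of_nonneg
    have := hkap i
    omega
  refine CovSys.pair_lt (C := D.affCov) (fun hμ hc => affCov_dom D hμ hc) D.levHom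
    (fun hc => affCov_lev D hc) h h' (show 0 < D.lev T by omega) hne hch
    (fun i => (kap k l i).toNat) ?_ (Set.range some) ?_ ?_ (D.GG k) ?_ ?_
  · intro i
    have := hkap i
    show 1 ≤ (kap k l i).toNat
    omega
  · intro i hi
    show 2 ≤ (kap k l i).toNat
    cases i with
    | some i => exact absurd ⟨i, rfl⟩ hi
    | none => rw [kap_none]; omega
  · rintro _ ⟨i, rfl⟩
    exact hanti' i
  · intro ν hν i
    have hν' : D.lev ν = l := by rw [← hT]; exact hν
    rw [hk, ← GG_anti k l (by omega) ν hν' i]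
    congr 1
    rw [CovSys.s_def, hal]
    funext m
    simp only [Pi.sub_apply, Pi.smul_apply, smul_eq_mul]
    ring
  · intro ν hν hpos
    have hν' : D.lev ν = l := by rw [← hT]; exact hν
    apply GG_pos k l (by omega) ν hν'
    intro i
    have h1 := hpos i
    rw [hk] at h1
    omega

end SimpleData

end Pool.Agent.LS60
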