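import Pool.Agent.LS60.QMul
import Pool.Agent.LS60.QStrict
import Pool.Agent.LS60.QEval
import Pool.Agent.LS60.QDefs

set_option autoImplicit false

/-! Nested Demazure classes and their quantum dimensions. -/

namespace Pool.Agent.LS60

open Finset

namespace SimpleData

variable {I : Type} [Fintype I] [DecidableEq I] {D : SimpleData I}

/-- images of roots and coroots under the Weyl group -/
lemma weyl_root : ∀ w ∈ D.weyl, ∀ α c s, D.RootT α c s → ∃ α' c', D.RootT α' c' s ∧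
    w (D.W α) = D.W α' ∧ ∀ x : I → ℤ, ∑ j, c' j * w x j = ∑ j, c j * x j := by
  apply weyl_induction
  · intro α c s h
    exact ⟨α, c, h, rfl, fun x => rfl⟩
  · intro i w ih α c s h
    obtain ⟨α', c', h1, h2, h3⟩ := ih α c s h
    refine ⟨_, _, RootT.refl i _ _ _ h1, ?_, fun x => ?_⟩
    · show D.srefl i (w (D.W α)) = _
      rw [h2, D.srefl_apply, W_sub, W_smul]
      rfl
    · show ∑ j, (c' - D.pp c' (ev i) • ev i) j * D.srefl i (w x) j = _
      rw [sum_srefl, ← h3]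
      refine Finset.sum_congr rfl fun j _ => ?_
      congr 1
      simp only [Pi.sub_apply, Pi.smul_apply, smul_eq_mul, D.pp_sub_left, D.pp_smul_left,
        D.pp_ev_ev, D.A_diag]
      ring

/-- the longest element -/
lemma exists_w0 (D : SimpleData I) : ∃ w ∈ D.weyl, ∀ x : I → ℤ, (∀ j, 0 ≤ x j) →
    ∀ j, w x j ≤ 0 := by
  obtain ⟨w, hw, h⟩ := exists_dominant (D := D) (-(fun _ => 1))
  refine ⟨w, hw, fun x hx j => ?_⟩
  obtain ⟨α', c', h1, h2⟩ := weyl_coroot w hw _ _ _ (RootT.simple j)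
  have h3 : ∀ x : I → ℤ, w x j = ∑ m, c' m * x m := by
    intro x
    rw [← h2, Finset.sum_eq_single j (by intro j' _ hj; simp [hj])
      (fun h => absurd (mem_univ j) h)]
    simp
  have h4 := h j
  rw [map_neg, Pi.neg_apply, h3] at h4
  simp only [mul_one] at h4
  rw [h3]
  rcases h1.sign with h5 | h5
  · exfalso
    have h6 := ARoot.sum_c_pos (D := D) ⟨α', c', D.t j, 0, h1⟩ h5
    dsimp only at h6
    omega
  · exact Finset.sum_nonpos fun m _ =>
      mul_nonpos_of_nonpos_of_nonneg ((h1.coeff_sign m).2.1 (h5 m)) (hx m)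

lemma Cow.add {y y' : I → ℤ} (hy : D.Cow y) (hy' : D.Cow y') : D.Cow (y + y') := by
  intro α c s h
  obtain ⟨a, ha⟩ := hy α c s h
  obtain ⟨b, hb⟩ := hy' α c s h
  refine ⟨a + b, ?_⟩
  simp only [Pi.add_apply, mul_add, Finset.sum_add_distrib]
  rw [ha, hb]

lemma Cow.zero : D.Cow (0 : I → ℤ) := fun α c s _ => ⟨0, by simp⟩

/-- quantum dimension of the Demazure class of level `l` attached to the coweight `y` -/
noncomputable def ee (D : SimpleData I) (k l : ℕ) (y : I → ℤ) : ℝ := by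
  classical
  exact if h : ∃ f, IsDem D.affRoot (D.cT y l) f then
    pair h.choose (D.GG k) / D.S (((k : ℤ) + D.hv : ℤ)) (fun _ => 1) else 0

section

variable [Nonempty I] {k l : ℕ}

omit [Nonempty I] in
lemma lev_cT (y : I → ℤ) (l : ℤ) : D.lev (D.cT y l) = l := lev_aff _ _

lemma dem_uniq {T : Option I → ℤ} (hT : 0 < D.lev T) {f f' : (Option I → ℤ) →₀ ℤ}
    (h : IsDem D.affRoot T f) (h' : IsDem D.affRoot T f') : f = f' := by
  have hal : D.affCov.al = D.affRoot := funext fun i => affCov_al D i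
  have h2 : IsDem D.affCov.al T f := by rw [hal]; exact h
  have h3 : IsDem D.affCov.al T f' := by rw [hal]; exact h'
  exact CovSys.dem_unique (C := D.affCov) (fun hμ hc => affCov_dom D hμ hc) h2 h3 hT

lemma exists_f (hl : 0 < l) (y : I → ℤ) : ∃ f, IsDem D.affRoot (D.cT y l) f :=
  exists_dem _ _ (by rw [lev_cT]; exact_mod_cast hl) rfl

lemma ee_eq (hl : 0 < l) {y : I → ℤ} {f : (Option I → ℤ) →₀ ℤ}
    (h : IsDem D.affRoot (D.cT y l) f) :
    D.ee k l y = pair f (D.GG k) / D.S (((k : ℤ) + D.hv : ℤ)) (fun _ => 1) := by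
  have h1 : ∃ f, IsDem D.affRoot (D.cT y l) f := ⟨f, h⟩
  unfold ee
  rw [dif_pos h1, dem_uniq (by rw [lev_cT]; exact_mod_cast hl) h1.choose_spec h]

omit [Nonempty I] in
lemma cT_anti {y : I → ℤ} (h0 : ∀ j, 0 ≤ y j) (i : I) : D.cT y (l : ℤ) (some i) ≤ 0 := by
  rw [cT_some]
  have := mul_nonneg (Int.natCast_nonneg l) (h0 i)
  omega

lemma ee_ev (hl : 0 < l) (φ : AddMonoidAlgebra ℤ (I → ℤ) →+* ℂ)
    (hφ : ∀ (x : (I → ℕ) →₀ ℤ) (f : AddMonoidAlgebra ℤ (I → ℤ)), D.HasChar x f.coeff →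
      φ f = ((D.qdim k x : ℝ) : ℂ)) {y : I → ℤ} (h0 : ∀ j, 0 ≤ y j)
    {f : (Option I → ℤ) →₀ ℤ} (h : IsDem D.affRoot (D.cT y l) f) :
    φ (AddMonoidAlgebra.ofCoeff (Finsupp.mapDomain fp f)) = ((D.ee k l y : ℝ) : ℂ) := by
  have hlev : 0 < D.lev (D.cT y (l : ℤ)) ∨ ∀ i, 0 ≤ D.cT y (l : ℤ) i :=
    Or.inl (by rw [lev_cT]; exact_mod_cast hl)
  have hinv := fun j H => kr_inv (T := D.cT y l) (cT_anti h0) hlev h j H
  obtain ⟨x, hx⟩ := hasChar_exists (D := D) (Finsupp.mapDomain fp f) (pointwise_inv hinv)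
  rw [hφ x (AddMonoidAlgebra.ofCoeff (Finsupp.mapDomain fp f)) hx, ee_eq hl h,
    qdim_dem k (cT_anti h0) hlev h hx]

lemma ee_add (hl : 0 < l) {y y' : I → ℤ} (hy : D.Cow y) (hy' : D.Cow y')
    (h0 : ∀ j, 0 ≤ y j) (h0' : ∀ j, 0 ≤ y' j) :
    D.ee k l (y + y') = D.ee k l y * D.ee k l y' := by
  obtain ⟨φ, hφ⟩ := exists_ev D k
  obtain ⟨f, h⟩ := exists_f (D := D) hl y
  obtain ⟨f', h'⟩ := exists_f (D := D) hl y'
  obtain ⟨f'', h''⟩ := exists_f (D := D) hl (y + y')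
  have h1 := dem_mul l hl hy hy' h0 h0' h h' h''
  have h2 := congrArg φ h1
  rw [map_mul, ee_ev hl φ hφ h0 h, ee_ev hl φ hφ h0' h',
    ee_ev hl φ hφ (fun j => add_nonneg (h0 j) (h0' j)) h''] at h2
  exact_mod_cast h2

lemma ee_zero (hl : 0 < l) : D.ee k l 0 = 1 := by
  have h1 : D.cT (0 : I → ℤ) (l : ℤ) = D.aff l 0 := by
    unfold cT
    rw [smul_zero, neg_zero]
  have hdom : ∀ i, 0 ≤ D.cT (0 : I → ℤ) (l : ℤ) i := by
    intro i
    rw [h1]
    cases i with
    | none => unfold aff; simp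
    | some j => exact le_rfl
  rw [ee_eq hl (IsDem.base _ hdom), pair_single, one_smul]
  have hS := S_one_pos (D := D) (k : ℤ) (by omega)
  have h2 : D.GG k (D.cT 0 (l : ℤ)) = D.S (((k : ℤ) + D.hv : ℤ)) (fun _ => 1) := by
    have h3 : (fun j : I => D.cT 0 (l : ℤ) (some j) + 1) = fun _ => 1 := by
      funext j
      rw [cT_some]
      simp
    unfold GG
    rw [h3]
  rw [h2, div_self hS.ne']

lemma ee_smul (hl : 0 < l) {y : I → ℤ} (hy : D.Cow y) (h0 : ∀ j, 0 ≤ y j) (n : ℕ) :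
    D.Cow (n • y) ∧ (∀ j, 0 ≤ (n • y) j) ∧ D.ee k l (n • y) = D.ee k l y ^ n := by
  induction n with
  | zero =>
    rw [zero_smul, pow_zero]
    exact ⟨Cow.zero, fun _ => le_rfl, ee_zero hl⟩
  | succ n ih =>
    obtain ⟨h1, h2, h3⟩ := ih
    rw [succ_nsmul]
    refine ⟨h1.add hy, fun j => add_nonneg (h2 j) (h0 j), ?_⟩
    rw [ee_add hl h1 hy h2 h0, h3, pow_succ]

lemma ee_sum (hl : 0 < l) (s : Finset I) (n : I → ℕ) (y : I → I → ℤ)
    (hy : ∀ i, D.Cow (y i)) (h0 : ∀ i j, 0 ≤ y i j) :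
    D.Cow (∑ j ∈ s, n j • y j) ∧ (∀ m, 0 ≤ (∑ j ∈ s, n j • y j) m) ∧
      D.ee k l (∑ j ∈ s, n j • y j) = ∏ j ∈ s, D.ee k l (y j) ^ n j := by
  induction s using Finset.induction_on with
  | empty =>
    rw [Finset.sum_empty, Finset.prod_empty]
    exact ⟨Cow.zero, fun _ => le_rfl, ee_zero hl⟩
  | insert a s ha ih =>
    obtain ⟨h1, h2, h3⟩ := ih
    obtain ⟨h4, h5, h6⟩ := ee_smul (k := k) hl (hy a) (h0 a) (n a)
    rw [Finset.sum_insert ha, Finset.prod_insert ha]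
    refine ⟨h4.add h1, fun m => add_nonneg (h5 m) (h2 m), ?_⟩
    rw [ee_add hl h4 h1 h5 h2, h3, h6]

/-- the coweight attached to a node -/
def yv (D : SimpleData I) (w : (I → ℤ) ≃ₗ[ℤ] (I → ℤ)) (i : I) : I → ℤ :=
  -(w (Pi.single i (D.t i : ℤ)))

omit [Nonempty I] in
lemma yv_cow {w : (I → ℤ) ≃ₗ[ℤ] (I → ℤ)} (hw : w ∈ D.weyl) (i : I) : D.Cow (D.yv w i) := by
  obtain ⟨y, h1, h2, _⟩ := exists_cow (D := D) i hw
  have h3 := h2 1
  rw [mul_one, one_smul] at h3
  unfold yv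
  rw [h3, neg_neg]
  exact h1

omit [Nonempty I] in
lemma yv_mul (w : (I → ℤ) ≃ₗ[ℤ] (I → ℤ)) (i : I) (l : ℕ) :
    w (Pi.single i ((D.t i * l : ℕ) : ℤ)) = -((l : ℤ) • D.yv w i) := by
  unfold yv
  have h1 : (Pi.single i ((D.t i * l : ℕ) : ℤ) : I → ℤ) =
      (l : ℤ) • Pi.single i (D.t i : ℤ) := by
    funext j
    by_cases hj : j = i
    · subst hj; simp; ring
    · simp [hj]
  rw [h1, map_smul, smul_neg, neg_neg]

omit [Nonempty I] in
/-- the nested coweight -/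
lemma yv_sum {w : (I → ℤ) ≃ₗ[ℤ] (I → ℤ)} (i : I) :
    ∑ j ∈ univ.erase i, (D.A i j).natAbs • D.yv w j =
      (D.yv w i + D.yv w i) + (D.t i : ℤ) • w (D.W (ev i)) := by
  have h1 : ∑ j, D.A i j • D.yv w j = -((D.t i : ℤ) • w (D.W (ev i))) := by
    have h2 : ∑ j, D.A i j • (Pi.single j (D.t j : ℤ) : I → ℤ) =
        (D.t i : ℤ) • D.W (ev i) := by
      funext m
      rw [Finset.sum_apply, Finset.sum_eq_single m]
      · have h3 : D.W (ev i) m = D.A m i := D.pp_ev_ev m i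
        have h4 := D.symm i m
        simp only [Pi.smul_apply, Pi.single_eq_same, smul_eq_mul, h3]
        linarith
      · intro j _ hj
        simp [Pi.single_eq_of_ne hj.symm]
      · intro h; exact absurd (mem_univ m) h
    unfold yv
    simp only [smul_neg]
    rw [Finset.sum_neg_distrib, ← map_smul, ← h2, map_sum]
    congr 1
    exact Finset.sum_congr rfl fun j _ => (map_smul _ _ _).symm
  have h2 := Finset.sum_erase_eq_sub (f := fun j => D.A i j • D.yv w j) (mem_univ i)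
  rw [h1, D.A_diag] at h2
  have h3 : ∑ j ∈ univ.erase i, (D.A i j).natAbs • D.yv w j =
      - ∑ j ∈ univ.erase i, D.A i j • D.yv w j := by
    rw [← Finset.sum_neg_distrib]
    refine Finset.sum_congr rfl fun j hj => ?_
    have h4 := D.A_off i j (Finset.ne_of_mem_erase hj).symm
    rw [← neg_smul, ← natCast_zsmul]
    congr 1
    omega
  rw [h3, h2, two_smul]
  abel

/-- strict inequality for nested Demazure classes -/
theorem nested {w : (I → ℤ) ≃ₗ[ℤ] (I → ℤ)} (hw : w ∈ D.weyl)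
    (hw0 : ∀ x : I → ℤ, (∀ j, 0 ≤ x j) → ∀ j, w x j ≤ 0) (hl : 0 < l) (hlk : l < k)
    (i : I) : ∏ j ∈ univ.erase i, D.ee k l (D.yv w j) ^ (D.A i j).natAbs <
      D.ee k l (D.yv w i) ^ 2 := by
  have hy := fun i => yv_cow (D := D) hw i
  have h0 : ∀ i j, 0 ≤ D.yv w i j := by
    intro i j
    have := hw0 (Pi.single i (D.t i : ℤ)) (fun m => by
      by_cases hm : m = i
      · subst hm; simp
      · simp [hm]) j
    unfold yv
    rw [Pi.neg_apply]
    omega
  obtain ⟨h1, h2, h3⟩ := ee_sum (k := k) hl (univ.erase i) (fun j => (D.A i j).natAbs)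
    (D.yv w) hy h0
  rw [← h3, sq, ← ee_add hl (hy i) (hy i) (h0 i) (h0 i)]
  set y' := ∑ j ∈ univ.erase i, (D.A i j).natAbs • D.yv w j with hy'
  have hy'eq := yv_sum (D := D) (w := w) i
  obtain ⟨α', c', hr, hr1, hr2⟩ := weyl_root w hw _ _ _ (RootT.simple (D := D) i)
  obtain ⟨f, hf⟩ := exists_f (D := D) hl (D.yv w i + D.yv w i)
  obtain ⟨f', hf'⟩ := exists_f (D := D) hl y'
  rw [ee_eq hl hf, ee_eq hl hf']
  have hS := S_one_pos (D := D) (k : ℤ) (by omega)
  refine div_lt_div_of_pos_right ?_ hS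
  have hti : (0 : ℤ) < D.t i := by exact_mod_cast D.t_pos i
  have hlz : (0 : ℤ) < l := by exact_mod_cast hl
  -- the reflection
  set γ : D.ARoot := ⟨-α', -c', D.t i, 1, hr.neg⟩ with hγ
  have hγpos : 0 < D.affSys.ht γ := by
    show 0 < ARoot.ht γ
    rw [ARoot.ht_pos_iff]
    left
    exact le_rfl
  have hγpr : ARoot.pr (D.cT (D.yv w i + D.yv w i) l) γ = -(l * D.t i) := by
    have h4 : ∑ j, γ.c j * (D.yv w i + D.yv w i) j = γ.s * 2 := by
      have h5 := hr2 (Pi.single i (D.t i : ℤ))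
      rw [Finset.sum_eq_single (s := univ) (f := fun j => ev i j * _) i
        (by intro j' _ hj; simp [hj]) (fun h => absurd (mem_univ i) h)] at h5
      simp only [ev, Pi.single_eq_same, one_mul] at h5
      have h6 : ∀ j, γ.c j * (D.yv w i + D.yv w i) j =
          2 * (c' j * w (Pi.single i (D.t i : ℤ)) j) := by
        intro j
        show (-c') j * ((-(w (Pi.single i (D.t i : ℤ)))) j +
          (-(w (Pi.single i (D.t i : ℤ)))) j) = _
        simp only [Pi.neg_apply]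
        ring
      rw [Finset.sum_congr rfl fun j _ => h6 j, ← Finset.mul_sum, h5]
      show (2 : ℤ) * D.t i = D.t i * 2
      ring
    rw [pr_cT _ _ γ 2 h4]
    show (l : ℤ) * ((D.t i : ℤ) * (1 - 2)) = _
    ring
  have hrefl : D.affSys.refl γ (D.cT (D.yv w i + D.yv w i) l) = D.cT y' l := by
    show D.cT (D.yv w i + D.yv w i) l - ARoot.pr (D.cT (D.yv w i + D.yv w i) l) γ • γ.rt = _
    rw [hγpr]
    have h4 : γ.rt = D.aff 0 (-(D.W α')) := by
      show D.aff 0 (D.W (-α')) = _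
      congr 1
      funext j
      exact D.pp_neg_right _ _
    rw [h4, hy', hy'eq, hr1]
    unfold cT
    have h5 := aff_smul (D := D) (-((l : ℤ) * D.t i)) 0 (-(D.W α'))
    rw [mul_zero] at h5
    rw [← h5]
    have h6 := aff_add (D := D) (l : ℤ) 0 (-((l : ℤ) • (D.yv w i + D.yv w i +
      (D.t i : ℤ) • D.W α'))) ((-((l : ℤ) * D.t i)) • -(D.W α'))
    rw [add_zero] at h6
    rw [sub_eq_iff_eq_add, ← h6]
    congr 1
    funext j
    simp only [Pi.add_apply, Pi.neg_apply, Pi.smul_apply, smul_eq_mul]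
    ring
  have hg : D.affSys.good (D.cT (D.yv w i + D.yv w i) (l : ℤ)) := by
    show 0 < D.lev _
    rw [lev_cT]
    exact hlz
  have hch := RootSys.ch_refl D.affSys (fun i β => ARoot.rt_rf (ARoot.simple i) β) 1 hg γ
    hγpos (by
      show ARoot.pr _ γ < 0
      rw [hγpr]
      have := mul_pos hlz hti
      omega)
  rw [hrefl] at hch
  have hne : D.cT (D.yv w i + D.yv w i) (l : ℤ) ≠ D.cT y' l := by
    intro h4
    have h5 := D.affSys.pr_refl_self γ (D.cT (D.yv w i + D.yv w i) l)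
    rw [hrefl, ← h4] at h5
    have h6 : D.affSys.pr (D.cT (D.yv w i + D.yv w i) l) γ = -(l * D.t i) := hγpr
    rw [h6] at h5
    have := mul_pos hlz hti
    omega
  exact dem_lt (k : ℤ) (l : ℤ) hlz (by exact_mod_cast hlk) (lev_cT _ _)
    (cT_anti fun j => add_nonneg (h0 i j) (h0 i j)) (cT_anti h2) hne hch hf hf'

end

end SimpleData

end Pool.Agent.LS60
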