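import Pool.Agent.LS60.QNest

set_option autoImplicit false

/-! Short nodes in the triply laced case. -/

namespace Pool.Agent.LS60

open Finset

namespace SimpleData

variable {I : Type} [Fintype I] [DecidableEq I] {D : SimpleData I}

/-- the bilinear form in real coordinates -/
noncomputable def bq (D : SimpleData I) (x y : I → ℝ) : ℝ :=
  ∑ i, ∑ j, x i * y j * (D.A i j / D.t i)

lemma bq_add_left (x x' y : I → ℝ) : D.bq (x + x') y = D.bq x y + D.bq x' y := by
  unfold bq
  rw [← Finset.sum_add_distrib]
  refine Finset.sum_congr rfl fun i _ => ?_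
  rw [← Finset.sum_add_distrib]
  refine Finset.sum_congr rfl fun j _ => ?_
  rw [Pi.add_apply]; ring

lemma bq_add_right (x y y' : I → ℝ) : D.bq x (y + y') = D.bq x y + D.bq x y' := by
  unfold bq
  rw [← Finset.sum_add_distrib]
  refine Finset.sum_congr rfl fun i _ => ?_
  rw [← Finset.sum_add_distrib]
  refine Finset.sum_congr rfl fun j _ => ?_
  rw [Pi.add_apply]; ring

lemma bq_single (i j : I) (a b : ℝ) :
    D.bq (Pi.single i a) (Pi.single j b) = a * b * (D.A i j / D.t i) := by
  unfold bq
  rw [Finset.sum_eq_single i]
  · rw [Finset.sum_eq_single j]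
    · rw [Pi.single_eq_same, Pi.single_eq_same]
    · intro m _ hm
      rw [Pi.single_eq_of_ne hm]; ring
    · intro h; exact absurd (mem_univ j) h
  · intro m _ hm
    refine Finset.sum_eq_zero fun q _ => ?_
    rw [Pi.single_eq_of_ne hm]; ring
  · intro h; exact absurd (mem_univ i) h

lemma bq_pos (x : I → ℝ) (hx : x ≠ 0) : 0 < D.bq x x := D.posdef x hx

/-- connectedness of the diagram -/
lemma connected (P : I → Prop) (hP : ∀ a b, P a → ¬ P b → D.A a b = 0 ∧ D.A b a = 0)
    {a : I} (ha : P a) (b : I) : P b := by
  have key : ∀ α : I → ℤ, IsRoot D.A α → (∀ j, α j ≠ 0 → P j) ∨ (∀ j, α j ≠ 0 → ¬ P j) := by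
    intro α h
    induction h with
    | simple i =>
      by_cases hi : P i
      · left
        intro j hj
        by_cases hji : j = i
        · rw [hji]; exact hi
        · rw [Pi.single_eq_of_ne hji] at hj
          exact absurd rfl hj
      · right
        intro j hj
        by_cases hji : j = i
        · rw [hji]; exact hi
        · rw [Pi.single_eq_of_ne hji] at hj
          exact absurd rfl hj
    | refl i α _ ih =>
      have hne : ∀ j, j ≠ i → (α - (∑ j, D.A i j * α j) • (Pi.single i 1 : I → ℤ)) j = α j := by
        intro j hj
        simp [Pi.single_eq_of_ne hj]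
      rcases ih with ih | ih
      · left
        intro j hj
        by_cases hji : j = i
        · subst hji
          by_contra hj2
          have h0 : ∑ m, D.A j m * α m = 0 := by
            refine Finset.sum_eq_zero fun m _ => ?_
            by_cases hm : α m = 0
            · rw [hm, mul_zero]
            · rw [(hP m j (ih m hm) hj2).2, zero_mul]
          apply hj2
          apply ih
          rw [h0] at hj
          simpa using hj
        · rw [hne j hji] at hj
          exact ih j hj
      · right
        intro j hj
        by_cases hji : j = i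
        · subst hji
          intro hj2
          have h0 : ∑ m, D.A j m * α m = 0 := by
            refine Finset.sum_eq_zero fun m _ => ?_
            by_cases hm : α m = 0
            · rw [hm, mul_zero]
            · rw [(hP j m hj2 (ih m hm)).1, zero_mul]
          apply ih j _ hj2
          rw [h0] at hj
          simpa using hj
        · rw [hne j hji] at hj
          exact ih j hj
  have h1 : ∀ j, D.θ j ≠ 0 := fun j => by have := D.θ_pos j; omega
  rcases key D.θ D.root_θ with h | h
  · exact h b (h1 b)
  · exact absurd ha (h a (h1 a))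

lemma rootT_s {α c : I → ℤ} {s : ℕ} (h : D.RootT α c s) : ∃ i, s = D.t i := by
  induction h with
  | simple i => exact ⟨i, rfl⟩
  | refl i α c s _ ih => exact ih

/-- in the triply laced case the neighbours of a short node are long -/
lemma short_nbr (hd : D.d = 3) {i : I} (hi : D.t i = 3) {j : I} (hj : j ≠ i)
    (hA : D.A i j ≠ 0) : D.t j = 1 ∧ D.A i j = -3 ∧ D.A j i = -1 := by
  -- long neighbours
  have long : ∀ i j : I, D.t i = 3 → D.t j = 1 → j ≠ i → D.A i j ≠ 0 →
      D.A i j = -3 ∧ D.A j i = -1 := by
    intro i j hi ht hj hA
    have h1 := D.symm i j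
    rw [hi, ht] at h1
    push_cast at h1
    have h2 := D.A_off i j hj.symm
    have h3 := bq_pos (D := D) (Pi.single i 3 + Pi.single j 1) (by
      intro h
      have := congrFun h j
      rw [Pi.add_apply, Pi.single_eq_of_ne hj, Pi.single_eq_same] at this
      simp at this)
    rw [bq_add_left, bq_add_right, bq_add_right, bq_single, bq_single, bq_single, bq_single,
      D.A_diag, D.A_diag, hi, ht] at h3
    have h4 : (D.A i j : ℝ) = 3 * D.A j i := by
      have : D.A i j = 3 * D.A j i := by omega
      rw [this]; push_cast; ring
    rw [h4] at h3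
    push_cast at h3
    have h5 : (-2 : ℝ) < D.A j i := by linarith
    have h6 : -2 < D.A j i := by exact_mod_cast h5
    omega
  -- short neighbours are joined by a simple bond
  have short : ∀ i j : I, D.t i = 3 → D.t j = 3 → j ≠ i → D.A i j ≠ 0 →
      D.A i j = -1 ∧ D.A j i = -1 := by
    intro i j hi ht hj hA
    have h1 := D.symm i j
    rw [hi, ht] at h1
    push_cast at h1
    have h2 := D.A_off i j hj.symm
    have h3 := bq_pos (D := D) (Pi.single i 1 + Pi.single j 1) (by
      intro h
      have := congrFun h j
      rw [Pi.add_apply, Pi.single_eq_of_ne hj, Pi.single_eq_same] at this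
      simp at this)
    rw [bq_add_left, bq_add_right, bq_add_right, bq_single, bq_single, bq_single, bq_single,
      D.A_diag, D.A_diag, hi, ht] at h3
    have h4 : (D.A j i : ℝ) = D.A i j := by
      have : D.A j i = D.A i j := by omega
      rw [this]
    rw [h4] at h3
    push_cast at h3
    have h5 : (-2 : ℝ) < D.A i j := by linarith
    have h6 : -2 < D.A i j := by exact_mod_cast h5
    omega
  have htm : ∀ m, D.t m = 1 ∨ D.t m = 3 := fun m => by
    have := D.t_mem m
    rwa [hd] at this
  rcases htm j with ht | ht
  · exact ⟨ht, long i j hi ht hj hA⟩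
  exfalso
  -- the component of short nodes
  have hclosed : ∀ a, (D.t a = 3 ∧ ∃ b, b ≠ a ∧ D.t b = 3 ∧ D.A a b ≠ 0) → ∀ m, m ≠ a →
      D.A a m ≠ 0 → D.t m = 3 := by
    rintro a ⟨ha, b, hb, htb, hab⟩ m hm hma
    rcases htm m with h | h
    · exfalso
      obtain ⟨h1, h2⟩ := long a m ha h hm hma
      obtain ⟨h3, h4⟩ := short a b ha htb hb hab
      have hbm : b ≠ m := by
        rintro rfl
        omega
      have h5 := bq_pos (D := D) (Pi.single a 2 + Pi.single b 1 + Pi.single m 1) (by
        intro h
        have := congrFun h a
        rw [Pi.add_apply, Pi.add_apply, Pi.single_eq_of_ne hb.symm, Pi.single_eq_of_ne hm.symm,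
          Pi.single_eq_same] at this
        simp at this)
      have h6 : (D.A b m : ℝ) ≤ 0 := by exact_mod_cast D.A_off b m hbm
      have h7 : (D.A m b : ℝ) ≤ 0 := by exact_mod_cast D.A_off m b hbm.symm
      simp only [bq_add_left, bq_add_right, bq_single, D.A_diag, ha, htb, h, h1, h2, h3, h4] at h5
      push_cast at h5
      linarith
    · exact h
  have hall : ∀ m, D.t m = 3 := by
    have h1 := connected (D := D) (fun a => D.t a = 3 ∧ ∃ b, b ≠ a ∧ D.t b = 3 ∧ D.A a b ≠ 0)
      (by
        intro a b ha hb
        have hab : b ≠ a := by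
          rintro rfl
          exact hb ha
        have h2 : D.A a b = 0 := by
          by_contra h2
          have h3 := hclosed a ha b hab h2
          apply hb
          refine ⟨h3, a, hab.symm, ha.1, ?_⟩
          have h4 := D.symm a b
          rw [ha.1, h3] at h4
          intro h5
          rw [h5] at h4
          omega
        refine ⟨h2, ?_⟩
        have h4 := D.symm a b
        rw [h2, ha.1] at h4
        push_cast at h4
        omega) (a := i) ⟨hi, j, hj, ht, hA⟩
    exact fun m => (h1 m).1
  obtain ⟨m, hm⟩ := rootT_s D.rootT_θ
  rw [hall m] at hm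
  omega

end SimpleData

end Pool.Agent.LS60
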