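import Pool.Agent.LS60.QFinal

set_option autoImplicit false

/-! Uniqueness of the family of Kirillov-Reshetikhin classes. -/

namespace Pool.Agent.LS60

open Finset

namespace SimpleData

variable {I : Type} [Fintype I] [DecidableEq I] {D : SimpleData I}

omit [Fintype I] [DecidableEq I] in
lemma single_mul_ofCoeff (ν : I → ℤ) (f : (I → ℤ) →₀ ℤ) :
    AddMonoidAlgebra.single ν (1 : ℤ) * AddMonoidAlgebra.ofCoeff f =
      AddMonoidAlgebra.ofCoeff (Finsupp.mapDomain (fun μ => μ + ν) f) := by
  induction f using Finsupp.induction_linear with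
  | zero =>
    rw [Finsupp.mapDomain_zero]
    exact mul_zero _
  | add f g hf hg =>
    rw [Finsupp.mapDomain_add, ofCoeff_add', ofCoeff_add', mul_add, hf, hg]
  | single μ c =>
    rw [Finsupp.mapDomain_single]
    have h2 := AddMonoidAlgebra.single_mul_single (R := ℤ) ν μ 1 c
    rw [one_mul, add_comm] at h2
    exact h2

/-- the character of a class is unique -/
lemma hasChar_inj {x : (I → ℕ) →₀ ℤ} {f g : AddMonoidAlgebra ℤ (I → ℤ)}
    (hf : D.HasChar x f.coeff) (hg : D.HasChar x g.coeff) : f = g := by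
  classical
  have : Fintype D.weyl := Fintype.ofFinite _
  set Δ : AddMonoidAlgebra ℤ (I → ℤ) := ∑ w : D.weyl,
    LinearMap.det (w.1 : (I → ℤ) →ₗ[ℤ] (I → ℤ)) •
      AddMonoidAlgebra.single (w.1 (fun _ => 1)) (1 : ℤ) with hΔ
  have key : ∀ f : AddMonoidAlgebra ℤ (I → ℤ), Δ * f = AddMonoidAlgebra.ofCoeff
      (∑ w : D.weyl, LinearMap.det (w.1 : (I → ℤ) →ₗ[ℤ] (I → ℤ)) •
        Finsupp.mapDomain (fun μ => μ + w.1 (fun _ => 1)) f.coeff) := by
    intro f
    have h1 : ∀ (s : Finset D.weyl) (F : D.weyl → (I → ℤ) →₀ ℤ),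
        AddMonoidAlgebra.ofCoeff (∑ w ∈ s, F w) =
          ∑ w ∈ s, (AddMonoidAlgebra.ofCoeff (F w) : AddMonoidAlgebra ℤ (I → ℤ)) := by
      intro s F
      induction s using Finset.induction_on with
      | empty => rw [Finset.sum_empty, Finset.sum_empty]; rfl
      | insert a s ha ih => rw [Finset.sum_insert ha, Finset.sum_insert ha, ofCoeff_add', ih]
    rw [h1, hΔ, Finset.sum_mul]
    refine Finset.sum_congr rfl fun w _ => ?_
    rw [smul_mul_assoc]
    have h2 := single_mul_ofCoeff (w.1 (fun _ => 1)) f.coeff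
    have h3 : AddMonoidAlgebra.ofCoeff f.coeff = f := rfl
    rw [h3] at h2
    rw [h2]
    rfl
  have hΔ0 : Δ ≠ 0 := by
    intro h
    have h1 := D.altSum_regular (fun _ => 1) (fun _ => 1) (fun _ => one_pos) (fun _ => one_pos)
    have h2 := key 1
    rw [h, zero_mul] at h2
    have h3 : D.altSum (fun _ => 1) = 0 := by
      unfold altSum
      rw [finsum_eq_sum_of_fintype]
      have h4 := congrArg AddMonoidAlgebra.coeff h2
      have h5 : (1 : AddMonoidAlgebra ℤ (I → ℤ)).coeff = Finsupp.single 0 1 := rfl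
      rw [h5] at h4
      simp only [Finsupp.mapDomain_single, zero_add] at h4
      exact h4.symm
    rw [h3] at h1
    simp at h1
  apply mul_left_cancel₀ hΔ0
  rw [key, key]
  unfold HasChar at hf hg
  rw [finsum_eq_sum_of_fintype] at hf hg
  rw [hf, hg]

/-- Demazure classes are unique -/
lemma class_unique [Nonempty I] {i : I} {m l : ℕ} (hml : l = 0 → m = 0)
    {x y : (I → ℕ) →₀ ℤ} (hx : D.IsDemClass i m l x) (hy : D.IsDemClass i m l y) : x = y := by
  obtain ⟨w, hw, f, hanti, hf, hx⟩ := hx
  obtain ⟨w', hw', f', hanti', hf', hy⟩ := hy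
  rw [← anti_unique hw hw' hanti hanti'] at hf'
  have hff : f' = f := by
    rcases Nat.eq_zero_or_pos l with h0 | h0
    · have hm := hml h0
      subst hm
      subst h0
      have hw0 : w (Pi.single i ((0 : ℕ) : ℤ)) = 0 := by simp
      rw [hw0] at hf hf'
      have hdom : ∀ j, 0 ≤ D.aff ((0 : ℕ) : ℤ) 0 j := by
        intro j
        cases j with
        | none => simp [aff]
        | some j => exact le_rfl
      rw [hf.of_dom (fun i => affRoot_self i) hdom, hf'.of_dom (fun i => affRoot_self i) hdom]
    · exact dem_uniq (by rw [lev_aff]; exact_mod_cast h0) hf' hf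
  rw [hff] at hy
  exact hasChar_unique hx hy

/-- there is at most one family -/
theorem family_unique [Nonempty I] {Q Q' : I → ℕ → (I → ℕ) →₀ ℤ} (hQ : D.IsKRFamily Q)
    (hQ' : D.IsKRFamily Q') : Q = Q' := by
  obtain ⟨F, hF, hq⟩ := hQ.qsys
  obtain ⟨F', hF', hq'⟩ := hQ'.qsys
  have hmul : ∀ i l, Q i (D.t i * l) = Q' i (D.t i * l) := fun i l =>
    class_unique (fun h => by rw [h, mul_zero]) (hQ.dem i l) (hQ'.dem i l)
  have hFF : ∀ i m, Q i m = Q' i m → F i m = F' i m := by
    intro i m h
    have h1 := hF i m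
    rw [h] at h1
    exact hasChar_inj h1 (hF' i m)
  have hone : ∀ i, F i 1 = F' i 1 := fun i => hFF i 1
    (class_unique (fun h => by omega) (hQ.one i) (hQ'.one i))
  have hzero : ∀ i, F i 0 = F' i 0 := fun i => hFF i 0 (by
    have := hmul i 0
    rwa [mul_zero] at this)
  have hne : ∀ i m, F i m ≠ 0 := by
    intro i m h
    obtain ⟨φ, hφ⟩ := exists_ev D m
    have h1 := hφ _ _ (hF i m)
    rw [h, map_zero] at h1
    have h2 := q_pos (k := m) hQ m le_rfl i m (Nat.le_mul_of_pos_left m (D.t_pos i))
    have h3 : D.qdim m (Q i m) = 0 := by exact_mod_cast h1.symm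
    exact absurd h3 h2.ne'
  have hall : ∀ m i, F i m = F' i m := by
    intro m
    induction m using Nat.strong_induction_on with
    | _ m ih =>
      intro i
      rcases Nat.eq_zero_or_pos m with h0 | h0
      · subst h0; exact hzero i
      rcases Nat.eq_or_lt_of_le h0 with h1 | h1
      · have h2 : m = 1 := h1.symm
        subst h2; exact hone i
      rcases D.t_mem i with ht | ht
      · apply hFF
        have := hmul i m
        rwa [ht, one_mul] at this
      obtain ⟨n, rfl⟩ : ∃ n, m = n + 1 := ⟨m - 1, by omega⟩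
      have h2 := hq i n (by omega)
      have h3 := hq' i n (by omega)
      have h4 : ∏ j ∈ univ.erase i, ∏ r ∈ range (D.A i j).natAbs,
          F j (((D.A j i).natAbs * n + r) / (D.A i j).natAbs) =
          ∏ j ∈ univ.erase i, ∏ r ∈ range (D.A i j).natAbs,
          F' j (((D.A j i).natAbs * n + r) / (D.A i j).natAbs) := by
        refine Finset.prod_congr rfl fun j _ => Finset.prod_congr rfl fun r hr => ?_
        rw [Finset.mem_range] at hr
        rcases D.t_mem j with hj | hj
        · apply hFF
          have := hmul j (((D.A j i).natAbs * n + r) / (D.A i j).natAbs)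
          rwa [hj, one_mul] at this
        · have h5 := natAbs_symm (D := D) i j
          rw [ht, hj] at h5
          have h6 : (D.A j i).natAbs = (D.A i j).natAbs :=
            Nat.eq_of_mul_eq_mul_right D.d_pos h5
          rw [h6, Nat.mul_add_div (by omega), Nat.div_eq_of_lt hr, add_zero]
          exact ih n (by omega) j
      rw [h4, ih n (by omega) i, h3, ih (n - 1) (by omega) i] at h2
      have h5 := add_right_cancel h2
      have h6 : F' i (n - 1) ≠ 0 := by
        rw [← ih (n - 1) (by omega) i]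
        exact hne i (n - 1)
      exact (mul_right_cancel₀ h6 h5).symm
  funext i m
  have h1 := hF i m
  rw [hall m i] at h1
  exact hasChar_unique h1 (hF' i m)

end SimpleData

end Pool.Agent.LS60
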