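import Pool.Agent.LS60.KR

set_option autoImplicit false

/-! Quantum dimension of a class with given character. -/

namespace Pool.Agent.LS60

open Finset

namespace CovSys

variable {I : Type} {C : CovSys I}

/-- invariance of Demazure characters -/
lemma dem_inv [Fintype I] (hdom : ∀ {μ ν : I → ℤ} {β}, (∀ i, 0 ≤ μ i) → C.Cov μ ν β → False)
    {T : I → ℤ} {f : (I → ℤ) →₀ ℤ} (h : IsDem C.al T f) (hg : C.good T) (i : I) (hi : T i ≤ 0)
    (G : (I → ℤ) → ℝ) : pair f (fun μ => G (C.s i μ)) = pair f G := by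
  obtain ⟨N, hN0, hN⟩ := exists_NGood (C := C) hg
  rw [dem_eq hdom h hg N hN0 hN G, dem_eq hdom h hg N hN0 hN]
  have hX0 : StrSet C N T i 0 (C.PF N hg) := by
    refine ⟨fun x hx => mem_PF.1 hx, fun x _ => Nat.zero_le _, ?_, ?_⟩
    · intro x hx a b hw
      rw [mem_PF] at hx ⊢
      exact hx.flipF hN hg i hw (Or.inr hi)
    · intro x hx _ a b hw
      rw [mem_PF] at hx ⊢
      exact hx.flipE hN hg i hw
  have h1 := hX0.sum_refl hN hN0 G
  rw [h1]
  refine Finset.sum_congr rfl fun x _ => ?_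
  simp

/-- uniqueness of Demazure characters -/
lemma dem_unique [Fintype I] (hdom : ∀ {μ ν : I → ℤ} {β}, (∀ i, 0 ≤ μ i) → C.Cov μ ν β → False)
    {T : I → ℤ} {f f' : (I → ℤ) →₀ ℤ} (h : IsDem C.al T f) (h' : IsDem C.al T f')
    (hg : C.good T) : f = f' := by
  classical
  obtain ⟨N, hN0, hN⟩ := exists_NGood (C := C) hg
  ext ν
  have h1 := (dem_eq hdom h hg N hN0 hN (fun μ => if μ = ν then 1 else 0)).trans
    (dem_eq hdom h' hg N hN0 hN (fun μ => if μ = ν then 1 else 0)).symm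
  unfold pair at h1
  rw [Finsupp.linearCombination_apply, Finsupp.linearCombination_apply, Finsupp.sum,
    Finsupp.sum] at h1
  simp only [smul_ite, smul_zero, Finset.sum_ite_eq', Finsupp.mem_support_iff] at h1
  have h2 : ∀ g : (I → ℤ) →₀ ℤ, (if g ν ≠ 0 then g ν • (1 : ℝ) else 0) = (g ν : ℝ) := by
    intro g
    split_ifs with h
    · simp
    · push Not at h
      rw [h]; simp
  rw [h2, h2] at h1
  exact_mod_cast h1

end CovSys

lemma IsDem.of_dom {I : Type} {al : I → I → ℤ} (hal : ∀ i, al i i = 2) {T : I → ℤ}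
    {f : (I → ℤ) →₀ ℤ} (h : IsDem al T f) (hT : ∀ i, 0 ≤ T i) : f = Finsupp.single T 1 := by
  cases h with
  | base _ _ => rfl
  | step μ f i h hi =>
    exfalso
    have := hT i
    simp only [Pi.sub_apply, Pi.smul_apply, smul_eq_mul, hal] at this
    omega

namespace SimpleData

variable {I : Type} [Fintype I] [DecidableEq I] (D : SimpleData I)

lemma srefl_apply (i : I) (x : I → ℤ) : D.srefl i x = x - x i • D.W (ev i) := by
  unfold srefl
  rw [Module.reflection_apply]
  congr 2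
  funext j
  unfold W
  rw [D.pp_ev_ev]

lemma det_srefl (i : I) :
    LinearMap.det (D.srefl i : (I → ℤ) →ₗ[ℤ] (I → ℤ)) = -1 := by
  have h1 : (D.srefl i : (I → ℤ) →ₗ[ℤ] (I → ℤ)) =
      LinearMap.transvection (LinearMap.proj i) (- D.W (ev i)) := by
    ext x : 1
    apply LinearMap.ext
    intro y
    rw [LinearMap.comp_apply, LinearMap.comp_apply, LinearEquiv.coe_coe, D.srefl_apply]
    rw [LinearMap.transvection.apply]
    simp [sub_eq_add_neg]
  rw [h1, LinearMap.transvection.det]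
  simp only [map_neg, LinearMap.proj_apply]
  have : D.W (ev i) i = 2 := by
    unfold W
    rw [D.pp_ev_ev, D.A_diag]
  rw [this]
  norm_num

/-- determinant as an integer -/
noncomputable abbrev dt (w : (I → ℤ) ≃ₗ[ℤ] (I → ℤ)) : ℤ :=
  LinearMap.det (w : (I → ℤ) →ₗ[ℤ] (I → ℤ))

lemma dt_mul (w w' : (I → ℤ) ≃ₗ[ℤ] (I → ℤ)) : dt (w * w') = dt w * dt w' := by
  unfold dt
  rw [← LinearMap.det_comp]
  rfl

lemma dt_one : dt (1 : (I → ℤ) ≃ₗ[ℤ] (I → ℤ)) = 1 := by
  unfold dt
  exact LinearMap.det_id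

lemma dt_sq (w : (I → ℤ) ≃ₗ[ℤ] (I → ℤ)) : dt w * dt w = 1 := by
  have h1 : dt w * dt w⁻¹ = 1 := by rw [← dt_mul, mul_inv_cancel, dt_one]
  rcases Int.isUnit_iff.1 (IsUnit.of_mul_eq_one _ h1) with h | h <;> rw [h] <;> norm_num

lemma dt_inv (w : (I → ℤ) ≃ₗ[ℤ] (I → ℤ)) : dt w⁻¹ = dt w := by
  have h1 : dt w * dt w⁻¹ = 1 := by rw [← dt_mul, mul_inv_cancel, dt_one]
  have h2 := dt_sq w
  have h3 : dt w ≠ 0 := by
    intro h; rw [h] at h1; simp at h1
  exact mul_left_cancel₀ h3 (h1.trans h2.symm)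

variable {D}

lemma weyl_induction {P : ((I → ℤ) ≃ₗ[ℤ] (I → ℤ)) → Prop}
    (h1 : P 1) (hs : ∀ i w, P w → P (D.srefl i * w)) : ∀ w ∈ D.weyl, P w := by
  intro w hw
  have hinv : ∀ i, (D.srefl i)⁻¹ = D.srefl i := by
    intro i
    rw [inv_eq_iff_mul_eq_one]
    ext x : 1
    unfold srefl
    exact Module.involutive_reflection _ x
  unfold weyl at hw
  induction hw using Subgroup.closure_induction_left with
  | one => exact h1
  | mul_left x hx y _ ih =>
    obtain ⟨i, rfl⟩ := hx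
    exact hs i _ ih
  | inv_mul_cancel x hx y _ ih =>
    obtain ⟨i, rfl⟩ := hx
    rw [hinv]
    exact hs i _ ih

lemma S_weyl (K : ℝ) : ∀ w ∈ D.weyl, ∀ x, D.S K (w x) = dt w * D.S K x := by
  apply weyl_induction
  · intro x
    rw [dt_one]; simp
  · intro i w ih x
    rw [dt_mul]
    have h1 : (D.srefl i * w) x = w x - (w x) i • D.W (ev i) := D.srefl_apply i (w x)
    rw [h1, S_simple, ih]
    have h2 : dt (D.srefl i) = -1 := D.det_srefl i
    rw [h2]
    push_cast
    ring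

/-- every coordinate functional composed with `w` is a coroot -/
lemma weyl_coroot : ∀ w ∈ D.weyl, ∀ α c s, D.RootT α c s → ∃ α' c', D.RootT α' c' s ∧
    ∀ x : I → ℤ, ∑ j, c j * w x j = ∑ j, c' j * x j := by
  apply weyl_induction
  · intro α c s h
    exact ⟨α, c, h, fun x => rfl⟩
  · intro i w ih α c s h
    obtain ⟨α', c', h1, h2⟩ := ih _ _ _ (RootT.refl i _ _ _ h)
    refine ⟨α', c', h1, fun x => ?_⟩
    rw [← h2]
    have h3 : (D.srefl i * w) x = w x - (w x) i • D.W (ev i) := D.srefl_apply i (w x)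
    rw [h3]
    have h8 : ∀ j, c j * (w x - (w x) i • D.W (ev i)) j =
        c j * w x j - w x i * (c j * D.A j i) := by
      intro j
      have : D.W (ev i) j = D.A j i := D.pp_ev_ev j i
      simp only [Pi.sub_apply, Pi.smul_apply, smul_eq_mul, this]
      ring
    have h9 : ∀ j, (c - D.pp c (ev i) • ev i) j * w x j =
        c j * w x j - D.pp c (ev i) * (ev i j * w x j) := by
      intro j
      simp only [Pi.sub_apply, Pi.smul_apply, smul_eq_mul]
      ring
    rw [Finset.sum_congr rfl fun j _ => h8 j, Finset.sum_congr rfl fun j _ => h9 j,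
      Finset.sum_sub_distrib, Finset.sum_sub_distrib, ← Finset.mul_sum, ← Finset.mul_sum,
      D.pp_ev_right]
    have h10 : ∑ j, ev i j * w x j = w x i := by
      rw [Finset.sum_eq_single i]
      · simp
      · intro j _ hj
        simp [hj]
      · intro h; exact absurd (mem_univ i) h
    rw [h10]
    ring

lemma RootT.abs_c_le {α c : I → ℤ} {s : ℕ} (h : D.RootT α c s) (j : I) :
    -(D.d * D.cθ j) ≤ c j ∧ c j ≤ D.d * D.cθ j := by
  have h1 := h.c_le j
  have h2 := h.neg.c_le j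
  have h3 := D.cθ_pos j
  have h4 : (s : ℤ) ≤ D.d := by
    rcases h.s_mem with h | h
    · rw [h]; exact_mod_cast D.d_pos
    · rw [h]
  have h5 : (s : ℤ) * D.cθ j ≤ D.d * D.cθ j := mul_le_mul_of_nonneg_right h4 (by omega)
  simp only [Pi.neg_apply] at h2
  omega

instance weyl_finite : Finite D.weyl := by
  have h1 : (Set.Icc (fun (_ j : I) => -((D.d : ℤ) * D.cθ j))
      (fun (_ j : I) => (D.d : ℤ) * D.cθ j)).Finite := Set.finite_Icc _ _
  refine Set.Finite.to_subtype (s := (D.weyl : Set ((I → ℤ) ≃ₗ[ℤ] (I → ℤ)))) ?_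
  refine Set.Finite.of_finite_image
    (f := fun w : (I → ℤ) ≃ₗ[ℤ] (I → ℤ) => fun i j => w (Pi.single j 1) i) (h1.subset ?_) ?_
  · rintro _ ⟨w, hw, rfl⟩
    have h2 : ∀ i j, -((D.d : ℤ) * D.cθ j) ≤ w (Pi.single j 1) i ∧
        w (Pi.single j 1) i ≤ (D.d : ℤ) * D.cθ j := by
      intro i j
      obtain ⟨α', c', h3, h4⟩ := weyl_coroot w hw _ _ _ (RootT.simple i)
      have h5 := h4 (Pi.single j 1)
      rw [Finset.sum_eq_single i (by intro j' _ hj; simp [hj])
        (fun h => absurd (mem_univ i) h),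
        Finset.sum_eq_single j (by intro j' _ hj; simp [hj])
        (fun h => absurd (mem_univ j) h)] at h5
      simp only [Pi.single_eq_same, one_mul, mul_one] at h5
      rw [h5]
      exact h3.abs_c_le j
    exact ⟨fun i j => (h2 i j).1, fun i j => (h2 i j).2⟩
  · intro w _ w' _ h
    apply LinearEquiv.toLinearMap_injective
    apply LinearMap.pi_ext'
    intro j
    ext i
    exact congrFun (congrFun h i) j

/-- invariance extends to the whole group -/
lemma inv_weyl {g : (I → ℤ) →₀ ℤ}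
    (hg : ∀ i, ∀ H : (I → ℤ) → ℝ, pair g (fun μ => H (D.srefl i μ)) = pair g H) :
    ∀ w ∈ D.weyl, ∀ H : (I → ℤ) → ℝ, pair g (fun μ => H (w μ)) = pair g H := by
  apply weyl_induction
  · intro H; rfl
  · intro i w ih H
    exact (ih (fun ν => H (D.srefl i ν))).trans (hg i H)

lemma pair_mapDomain {J J' : Type} (φ : (J → ℤ) → (J' → ℤ)) (g : (J → ℤ) →₀ ℤ)
    (H : (J' → ℤ) → ℝ) : pair (Finsupp.mapDomain φ g) H = pair g (fun μ => H (φ μ)) := by
  unfold pair
  rw [Finsupp.linearCombination_mapDomain]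
  rfl

lemma pair_altSum (K : ℝ) (x : I → ℤ) :
    pair (D.altSum x) (D.S K) = Nat.card D.weyl * D.S K x := by
  classical
  have : Fintype D.weyl := Fintype.ofFinite _
  unfold altSum
  rw [finsum_eq_sum_of_fintype]
  have h1 : pair (∑ w : D.weyl, LinearMap.det (w.1 : (I → ℤ) →ₗ[ℤ] (I → ℤ)) •
      Finsupp.single (w.1 x) 1) (D.S K) = ∑ w : D.weyl, D.S K x := by
    unfold pair
    rw [map_sum]
    refine Finset.sum_congr rfl fun w _ => ?_
    have h2 := S_weyl K w.1 w.2 x
    have h3 := dt_sq w.1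
    rw [map_smul, Finsupp.linearCombination_single, one_smul, h2, zsmul_eq_mul, ← mul_assoc,
      ← Int.cast_mul]
    have h4 : LinearMap.det (w.1 : (I → ℤ) →ₗ[ℤ] (I → ℤ)) * dt w.1 = 1 := h3
    rw [h4]
    simp
  rw [h1, Finset.sum_const, Finset.card_univ, nsmul_eq_mul, Nat.card_eq_fintype_card]

/-- the pairing of an invariant character with the sine product -/
lemma pair_of_hasChar {x : (I → ℕ) →₀ ℤ} {g : (I → ℤ) →₀ ℤ} (h : D.HasChar x g)
    (hg : ∀ i, ∀ H : (I → ℤ) → ℝ, pair g (fun μ => H (D.srefl i μ)) = pair g H) (K : ℝ) :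
    pair g (fun μ => D.S K (μ + (fun _ => 1 : I → ℤ))) =
      x.sum fun lam c => (c : ℝ) * D.S K (fun j => (lam j : ℤ) + 1) := by
  classical
  have : Fintype D.weyl := Fintype.ofFinite _
  have hcard : (Nat.card D.weyl : ℝ) ≠ 0 := by
    exact_mod_cast Nat.card_pos.ne'
  have hinv := inv_weyl hg
  unfold HasChar at h
  have h1 := congrArg (fun u => pair u (D.S K)) h
  rw [finsum_eq_sum_of_fintype] at h1
  have h2 : pair (∑ w : D.weyl, LinearMap.det (w.1 : (I → ℤ) →ₗ[ℤ] (I → ℤ)) •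
      Finsupp.mapDomain (fun μ => μ + w.1 (fun _ => 1)) g) (D.S K) =
      ∑ w : D.weyl, pair g (fun μ => D.S K (μ + (fun _ => 1 : I → ℤ))) := by
    unfold pair
    rw [map_sum]
    refine Finset.sum_congr rfl fun w _ => ?_
    rw [map_smul]
    have h3 := pair_mapDomain (fun μ => μ + w.1 (fun _ => 1)) g (D.S K)
    unfold pair at h3
    rw [h3]
    have h4 : (fun μ => D.S K (μ + w.1 (fun _ => 1 : I → ℤ))) =
        fun μ => (dt w.1 : ℝ) * D.S K (w.1⁻¹ μ + (fun _ => 1 : I → ℤ)) := by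
      funext μ
      rw [← S_weyl K w.1 w.2, map_add]
      congr 2
      show μ = (w.1 * w.1⁻¹) μ
      rw [mul_inv_cancel]; rfl
    rw [h4]
    have h5 := hinv w.1⁻¹ (D.weyl.inv_mem w.2)
      (fun ν => (dt w.1 : ℝ) * D.S K (ν + (fun _ => 1 : I → ℤ)))
    unfold pair at h5
    rw [h5]
    have h6 : (fun ν => (dt w.1 : ℝ) * D.S K (ν + (fun _ => 1 : I → ℤ))) =
        (dt w.1 : ℤ) • (fun ν => D.S K (ν + (fun _ => 1 : I → ℤ))) := by
      funext ν
      rw [Pi.smul_apply, zsmul_eq_mul]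
    have h7 : Finsupp.linearCombination ℤ ((dt w.1 : ℤ) • (fun ν => D.S K (ν + (fun _ => 1 : I → ℤ)))) g
        = (dt w.1 : ℤ) • Finsupp.linearCombination ℤ (fun ν => D.S K (ν + (fun _ => 1 : I → ℤ))) g := by
      rw [Finsupp.linearCombination_apply, Finsupp.linearCombination_apply, Finsupp.smul_sum]
      refine Finsupp.sum_congr fun ν _ => ?_
      rw [Pi.smul_apply, smul_comm]
    rw [h6, h7, smul_smul]
    have h8 : LinearMap.det (w.1 : (I → ℤ) →ₗ[ℤ] (I → ℤ)) * dt w.1 = 1 := dt_sq w.1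
    rw [h8, one_smul]
  rw [h2, Finset.sum_const, Finset.card_univ, nsmul_eq_mul, ← Nat.card_eq_fintype_card] at h1
  have h3 : pair (x.sum fun lam c => c • D.altSum (fun j => (lam j : ℤ) + 1)) (D.S K) =
      Nat.card D.weyl * x.sum fun lam c => (c : ℝ) * D.S K (fun j => (lam j : ℤ) + 1) := by
    unfold Finsupp.sum
    rw [Finset.mul_sum]
    unfold pair
    rw [map_sum]
    refine Finset.sum_congr rfl fun lam _ => ?_
    have h4 := pair_altSum (D := D) K (fun j => (lam j : ℤ) + 1)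
    unfold pair at h4
    rw [map_smul, h4, zsmul_eq_mul]
    ring
  rw [h3] at h1
  exact mul_left_cancel₀ hcard h1

lemma qdimV_eq (k : ℕ) (lam : I → ℕ) : D.qdimV k lam =
    D.S (((k : ℤ) + D.hv : ℤ)) (fun j => (lam j : ℤ) + 1) /
      D.S (((k : ℤ) + D.hv : ℤ)) (fun _ => 1) := by
  unfold qdimV
  rw [finprod_mem_eq_finite_toFinset_prod _ D.finite_posRoots, Finset.prod_div_distrib]
  unfold S posF
  push_cast
  rfl

lemma qdim_eq (k : ℕ) (x : (I → ℕ) →₀ ℤ) : D.qdim k x =
    (x.sum fun lam c => (c : ℝ) * D.S (((k : ℤ) + D.hv : ℤ)) (fun j => (lam j : ℤ) + 1)) /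
      D.S (((k : ℤ) + D.hv : ℤ)) (fun _ => 1) := by
  unfold qdim Finsupp.sum
  rw [Finset.sum_div]
  refine Finset.sum_congr rfl fun lam _ => ?_
  dsimp only
  rw [qdimV_eq]
  ring

lemma S_one_pos (k : ℤ) (hk : 0 ≤ k) : 0 < D.S ((k + D.hv : ℤ)) (fun _ => 1) := by
  have h5 : D.lev (kap k 0) = k + D.hv := by rw [lev_kap]; ring
  exact S_pos (k + D.hv) (by have := D.hv_pos; omega) (kap k 0) h5 (by
    intro j
    cases j with
    | some j => rw [kap_some]; norm_num
    | none => rw [kap_none]; omega)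

lemma nonempty_of_isRoot {A : I → I → ℤ} {α : I → ℤ} (h : IsRoot A α) : Nonempty I := by
  induction h with
  | simple i => exact ⟨i⟩
  | refl i _ _ _ => exact ⟨i⟩

lemma fp_refl (μ : Option I → ℤ) (i : I) :
    fp (μ - μ (some i) • D.affRoot (some i)) = D.srefl i (fp μ) := by
  rw [D.srefl_apply]
  funext j
  have h1 : D.W (ev i) j = D.A j i := D.pp_ev_ev j i
  have h2 : D.affRoot (some i) (some j) = D.A j i := rfl
  unfold fp
  simp only [Pi.sub_apply, Pi.smul_apply, smul_eq_mul, h1, h2]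

/-- invariance of the finite part of the character -/
lemma kr_inv [Nonempty I] {T : Option I → ℤ} (hT : ∀ i, T (some i) ≤ 0)
    (hl : 0 < D.lev T ∨ ∀ i, 0 ≤ T i)
    {f : (Option I → ℤ) →₀ ℤ} (h : IsDem D.affRoot T f) (i : I) (H : (I → ℤ) → ℝ) :
    pair (Finsupp.mapDomain fp f) (fun μ => H (D.srefl i μ)) =
      pair (Finsupp.mapDomain fp f) H := by
  rw [pair_mapDomain, pair_mapDomain]
  rcases hl with hl | hl
  · have hal : D.affCov.al = D.affRoot := funext fun i => affCov_al D i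
    have h' : IsDem D.affCov.al T f := by rw [hal]; exact h
    have h1 := CovSys.dem_inv (C := D.affCov) (fun hμ hc => affCov_dom D hμ hc) h' hl (some i)
      (hT i) (fun μ => H (fp μ))
    rw [← h1]
    apply pair_congr
    intro μ _
    have h2 : D.affCov.s (some i) μ = μ - μ (some i) • D.affRoot (some i) := by
      rw [CovSys.s_def, hal]
    rw [h2, fp_refl]
  · rw [h.of_dom (fun i => affRoot_self i) hl, pair_single, pair_single]
    congr 2
    rw [D.srefl_apply]
    have h2 : fp T i = 0 := le_antisymm (hT i) (hl (some i))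
    rw [h2]
    simp

/-- value of the quantum dimension of the class of a Demazure character -/
lemma qdim_dem [Nonempty I] (k : ℕ) {T : Option I → ℤ} (hT : ∀ i, T (some i) ≤ 0)
    (hl : 0 < D.lev T ∨ ∀ i, 0 ≤ T i) {x : (I → ℕ) →₀ ℤ}
    {f : (Option I → ℤ) →₀ ℤ} (h : IsDem D.affRoot T f)
    (hx : D.HasChar x (Finsupp.mapDomain fp f)) :
    D.qdim k x = pair f (D.GG k) / D.S (((k : ℤ) + D.hv : ℤ)) (fun _ => 1) := by
  rw [qdim_eq]
  congr 1
  have h1 := pair_of_hasChar hx (fun j H => kr_inv hT hl h j H) (((k : ℤ) + D.hv : ℤ))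
  rw [← h1, pair_mapDomain]
  rfl

end SimpleData

end Pool.Agent.LS60
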