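import Pool.Agent.LS60.FinB

set_option autoImplicit false

/-! The sine product and its symmetries. -/

namespace Pool.Agent.LS60

open Finset

namespace SimpleData

variable {I : Type} [Fintype I] [DecidableEq I] (D : SimpleData I)

lemma finite_posRoots : D.posRoots.Finite := by
  refine (Set.finite_Icc (0 : I → ℤ) D.θ).subset ?_
  rintro α ⟨h1, h2⟩
  exact ⟨h2, D.le_θ α h1⟩

/-- the finite set of positive roots -/
noncomputable def posF : Finset (I → ℤ) := D.finite_posRoots.toFinset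

lemma mem_posF {α : I → ℤ} : α ∈ D.posF ↔ IsRoot D.A α ∧ 0 ≤ α := by
  unfold posF
  rw [Set.Finite.mem_toFinset]
  rfl

/-- weight vector of an element of the root lattice -/
def W (α : I → ℤ) : I → ℤ := fun j => D.pp (ev j) α

/-- finite part -/
def fp (μ : Option I → ℤ) : I → ℤ := fun j => μ (some j)

/-- The sine product. -/
noncomputable def S (K : ℝ) (x : I → ℤ) : ℝ :=
  ∏ α ∈ D.posF, Real.sin (Real.pi * D.ip x α / K)

lemma ip_sub_smul_left (x y : I → ℤ) (a : ℤ) (α : I → ℤ) :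
    D.ip (x - a • y) α = D.ip x α - a * D.ip y α := by
  unfold ip
  rw [Finset.mul_sum, ← Finset.sum_sub_distrib]
  refine Finset.sum_congr rfl fun j _ => ?_
  simp only [Pi.sub_apply, Pi.smul_apply, smul_eq_mul]
  push_cast
  ring

lemma ip_add_smul_left (x y : I → ℤ) (a : ℤ) (α : I → ℤ) :
    D.ip (x + a • y) α = D.ip x α + a * D.ip y α := by
  unfold ip
  rw [Finset.mul_sum, ← Finset.sum_add_distrib]
  refine Finset.sum_congr rfl fun j _ => ?_
  simp only [Pi.add_apply, Pi.smul_apply, smul_eq_mul]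
  push_cast
  ring

lemma ip_sub_smul_right (x α β : I → ℤ) (a : ℤ) :
    D.ip x (α - a • β) = D.ip x α - a * D.ip x β := by
  unfold ip
  rw [Finset.mul_sum, ← Finset.sum_sub_distrib]
  refine Finset.sum_congr rfl fun j _ => ?_
  simp only [Pi.sub_apply, Pi.smul_apply, smul_eq_mul]
  push_cast
  ring

lemma ip_neg_right (x α : I → ℤ) : D.ip x (-α) = - D.ip x α := by
  unfold ip
  rw [← Finset.sum_neg_distrib]
  refine Finset.sum_congr rfl fun j _ => ?_
  simp only [Pi.neg_apply]
  push_cast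
  ring

lemma ip_ev (x : I → ℤ) (i : I) : D.ip x (ev i) = x i / D.t i := by
  unfold ip
  rw [Finset.sum_eq_single i]
  · simp
  · intro j _ hj
    simp [hj]
  · intro h; exact absurd (mem_univ i) h

lemma ip_W_ev (i : I) (α : I → ℤ) : D.ip (D.W (ev i)) α = D.pp (ev i) α / D.t i := by
  unfold ip W
  rw [D.pp_ev_left]
  push_cast
  rw [Finset.sum_div]
  refine Finset.sum_congr rfl fun j _ => ?_
  rw [D.pp_ev_ev]
  have h1 : (D.t j : ℝ) ≠ 0 := by exact_mod_cast (D.t_pos j).ne'
  have h2 : (D.t i : ℝ) ≠ 0 := by exact_mod_cast (D.t_pos i).ne'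
  have h3 : (D.t i : ℝ) * D.A j i = D.t j * D.A i j := by exact_mod_cast D.symm j i
  field_simp
  linear_combination (α j : ℝ) * h3

variable {D}

/-- for a root, the form is given by the coroot -/
lemma RootT.ip_eq {α c : I → ℤ} {s : ℕ} (h : D.RootT α c s) (x : I → ℤ) :
    D.ip x α = ((∑ j, c j * x j : ℤ) : ℝ) / s := by
  unfold ip
  push_cast
  rw [Finset.sum_div]
  refine Finset.sum_congr rfl fun j _ => ?_
  have h1 : (D.t j : ℝ) ≠ 0 := by exact_mod_cast (D.t_pos j).ne'
  have h2 : (s : ℝ) ≠ 0 := by exact_mod_cast h.s_pos.ne'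
  have h3 : (D.t j : ℝ) * c j = s * α j := by exact_mod_cast h.rel j
  field_simp
  linear_combination -(x j : ℝ) * h3

lemma ip_θ (x : I → ℤ) : D.ip x D.θ = ((∑ j, D.cθ j * x j : ℤ) : ℝ) := by
  rw [D.rootT_θ.ip_eq]; simp

lemma RootT.ip_W_θ {α c : I → ℤ} {s : ℕ} (h : D.RootT α c s) :
    D.ip (D.W D.θ) α = D.pp D.cθ α := by
  rw [h.ip_eq]
  have h2 : (s : ℝ) ≠ 0 := by exact_mod_cast h.s_pos.ne'
  have h3 := h.sym D.rootT_θ
  have h4 : ∑ j, c j * D.W D.θ j = D.pp c D.θ := by
    rw [pp_eq_sum c D.θ]; rfl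
  rw [h4]
  have h5 : (s : ℝ) * D.pp D.cθ α = D.pp c D.θ := by
    have : ((s : ℤ) * D.pp D.cθ α : ℤ) = D.pp c D.θ := by
      rw [h3]; push_cast; ring
    exact_mod_cast this
  field_simp
  linarith

lemma S_simple (K : ℝ) (x : I → ℤ) (i : I) :
    D.S K (x - x i • D.W (ev i)) = - D.S K x := by
  classical
  set F : (I → ℤ) → ℝ := fun α => Real.sin (Real.pi * D.ip x α / K) with hF
  have hmem : ev i ∈ D.posF := by
    rw [mem_posF]
    refine ⟨IsRoot.simple i, ?_⟩
    intro j
    by_cases hj : j = i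
    · subst hj; simp
    · simp [hj]
  have h1 : D.S K (x - x i • D.W (ev i)) =
      ∏ α ∈ D.posF, F (α - D.pp (ev i) α • ev i) := by
    unfold S
    refine Finset.prod_congr rfl fun α _ => ?_
    rw [hF]
    dsimp only
    rw [D.ip_sub_smul_left, D.ip_sub_smul_right, D.ip_W_ev, D.ip_ev]
    congr 2
    ring
  rw [h1, ← Finset.mul_prod_erase _ _ hmem]
  unfold S
  rw [← Finset.mul_prod_erase _ (fun α => Real.sin (Real.pi * D.ip x α / K)) hmem]
  have h2 : F (ev i - D.pp (ev i) (ev i) • ev i) = - Real.sin (Real.pi * D.ip x (ev i) / K) := by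
    rw [D.pp_ev_ev, D.A_diag]
    have : (ev i - (2 : ℤ) • ev i : I → ℤ) = - ev i := by
      funext j; simp only [Pi.sub_apply, Pi.smul_apply, Pi.neg_apply, smul_eq_mul]; ring
    rw [this, hF]
    dsimp only
    rw [D.ip_neg_right, ← Real.sin_neg]
    congr 1
    ring
  rw [h2, neg_mul]
  congr 2
  have hinv : ∀ α ∈ D.posF.erase (ev i), α - D.pp (ev i) α • ev i ∈ D.posF.erase (ev i) := by
    intro α hα
    rw [mem_erase, mem_posF] at hα ⊢
    obtain ⟨h3, h4, h5⟩ := hα
    obtain ⟨c, s, h6⟩ := exists_rootT h4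
    have h7 := RootT.refl i _ _ _ h6
    refine ⟨?_, h7.isRoot, h6.simple_pos h5 i h3⟩
    intro h8
    have h9 : α = -ev i := by
      have h10 : D.pp (ev i) (α - D.pp (ev i) α • ev i) = D.pp (ev i) (ev i) := by rw [h8]
      rw [D.pp_sub_right, D.pp_smul_right, D.pp_ev_ev, D.A_diag] at h10
      have h11 : D.pp (ev i) α = -2 := by linarith
      rw [h11] at h8
      funext j
      have h12 := congrFun h8 j
      simp only [Pi.sub_apply, Pi.smul_apply, Pi.neg_apply, smul_eq_mul] at h12 ⊢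
      linarith
    rw [h9] at h5
    have := h5 i
    simp at this
  have hinv2 : ∀ α : I → ℤ, α - D.pp (ev i) α • ev i -
      D.pp (ev i) (α - D.pp (ev i) α • ev i) • ev i = α := by
    intro α
    rw [D.pp_sub_right, D.pp_smul_right, D.pp_ev_ev, D.A_diag]
    funext j
    simp only [Pi.sub_apply, Pi.smul_apply, smul_eq_mul]
    ring
  exact Finset.prod_bij' (fun α _ => α - D.pp (ev i) α • ev i)
    (fun α _ => α - D.pp (ev i) α • ev i) hinv hinv (fun α _ => hinv2 α) (fun α _ => hinv2 α)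
    (fun α _ => rfl)

lemma S_theta [Nonempty I] (K : ℝ) (hK : K ≠ 0) (x : I → ℤ) (n : ℤ) (hn : (n : ℝ) = K) :
    D.S K (x - ((∑ j, D.cθ j * x j) - n) • D.W D.θ) = - D.S K x := by
  classical
  set F : (I → ℤ) → ℝ := fun α => Real.sin (Real.pi * D.ip x α / K) with hF
  set F' : (I → ℤ) → ℝ := fun α => Real.sin (Real.pi *
    D.ip (x - ((∑ j, D.cθ j * x j) - n) • D.W D.θ) α / K) with hF'
  have hmem : D.θ ∈ D.posF := by
    rw [mem_posF]
    exact ⟨D.root_θ, D.θ_nonneg⟩
  have hval : ∀ α, IsRoot D.A α → F' α =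
      Real.sin (Real.pi * D.ip x (α - D.pp D.cθ α • D.θ) / K + (D.pp D.cθ α : ℝ) * Real.pi) := by
    intro α hα
    obtain ⟨c, s, h⟩ := exists_rootT hα
    rw [hF']
    dsimp only
    rw [D.ip_sub_smul_left, D.ip_sub_smul_right, h.ip_W_θ, ip_θ]
    congr 1
    push_cast
    rw [hn]
    field_simp
    ring
  unfold S
  rw [← Finset.mul_prod_erase _ F' hmem, ← Finset.mul_prod_erase _ F hmem]
  have h2 : F' D.θ = - F D.θ := by
    rw [hval _ D.root_θ, D.rootT_θ.pp_self, hF]
    dsimp only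
    have : (D.θ - (2 : ℤ) • D.θ : I → ℤ) = - D.θ := by
      funext j; simp only [Pi.sub_apply, Pi.smul_apply, Pi.neg_apply, smul_eq_mul]; ring
    rw [this, D.ip_neg_right, ← Real.sin_neg]
    push_cast
    rw [show Real.pi * -D.ip x D.θ / K + 2 * Real.pi =
      -(Real.pi * D.ip x D.θ / K) + 2 * Real.pi by ring, Real.sin_add_two_pi]
  rw [h2, neg_mul]
  congr 2
  have hfacts : ∀ α ∈ D.posF.erase D.θ, (D.pp D.cθ α = 0 ∨ D.pp D.cθ α = 1) := by
    intro α hα
    rw [mem_erase, mem_posF] at hα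
    obtain ⟨h3, h4, h5⟩ := hα
    obtain ⟨c, s, h6⟩ := exists_rootT h4
    have h7 := h6.pp_θ_nonneg h5
    have h8 := h6.pp_θ_le h3
    omega
  have hinv : ∀ α ∈ D.posF.erase D.θ,
      (if D.pp D.cθ α = 1 then D.θ - α else α) ∈ D.posF.erase D.θ := by
    intro α hα
    split_ifs with h1
    · rw [mem_erase, mem_posF] at hα ⊢
      obtain ⟨h3, h4, h5⟩ := hα
      obtain ⟨c, s, h6⟩ := exists_rootT h4
      have h7 := (D.rootT_θ.reflect h6).neg
      rw [h1, one_smul, neg_sub] at h7
      refine ⟨?_, h7.isRoot, ?_⟩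
      · intro h8
        apply h6.ne_zero
        funext j
        have := congrFun h8 j
        simp only [Pi.sub_apply, Pi.zero_apply] at this ⊢
        omega
      · intro j
        have : α j ≤ D.θ j := h6.le_θ j
        simp only [Pi.sub_apply, Pi.zero_apply]
        omega
    · exact hα
  have hinv2 : ∀ α ∈ D.posF.erase D.θ,
      (if D.pp D.cθ (if D.pp D.cθ α = 1 then D.θ - α else α) = 1
        then D.θ - (if D.pp D.cθ α = 1 then D.θ - α else α)
        else (if D.pp D.cθ α = 1 then D.θ - α else α)) = α := by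
    intro α hα
    by_cases h1 : D.pp D.cθ α = 1
    · have h2 : D.pp D.cθ (D.θ - α) = 1 := by
        rw [D.pp_sub_right, D.rootT_θ.pp_self, h1]; norm_num
      rw [if_pos h1, if_pos h2, sub_sub_cancel]
    · rw [if_neg h1, if_neg h1]
  refine Finset.prod_bij' (fun α _ => if D.pp D.cθ α = 1 then D.θ - α else α)
    (fun α _ => if D.pp D.cθ α = 1 then D.θ - α else α) hinv hinv hinv2 hinv2 ?_
  intro α hα
  have h3 := hfacts α hα
  have h4 : IsRoot D.A α := by
    rw [mem_erase, mem_posF] at hα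
    exact hα.2.1
  rw [hval α h4]
  rcases h3 with h3 | h3
  · rw [h3, if_neg (by norm_num), hF]
    simp
  · rw [h3, if_pos rfl, hF]
    dsimp only
    rw [one_smul]
    push_cast
    rw [one_mul, Real.sin_add_pi, ← Real.sin_neg]
    congr 1
    have : D.ip x (D.θ - α) = - D.ip x (α - D.θ) := by
      rw [← D.ip_neg_right, neg_sub]
    rw [this]
    ring

/-- antisymmetry under all affine reflections at level `K` -/
lemma S_refl [Nonempty I] (n : ℤ) (hn : n ≠ 0) (μ : Option I → ℤ) (hμ : D.lev μ = n)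
    (i : Option I) : D.S n (fp (μ - μ i • D.affRoot i)) = - D.S n (fp μ) := by
  cases i with
  | some i =>
    have h1 : fp (μ - μ (some i) • D.affRoot (some i)) =
        fp μ - (fp μ) i • D.W (ev i) := by
      funext j
      unfold fp W affRoot aff
      simp only [Pi.sub_apply, Pi.smul_apply, smul_eq_mul]
      rw [D.pp_ev_ev]
    rw [h1]
    exact S_simple _ _ _
  | none =>
    have h1 : fp (μ - μ none • D.affRoot none) =
        fp μ - ((∑ j, D.cθ j * fp μ j) - n) • D.W D.θ := by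
      have h2 : μ none = n - ∑ j, D.cθ j * fp μ j := by
        rw [← hμ]; unfold lev fp; ring
      rw [h2]
      funext j
      unfold fp W affRoot aff
      simp only [Pi.sub_apply, Pi.smul_apply, smul_eq_mul]
      rw [D.pp_ev_left]
      ring
    rw [h1]
    exact S_theta _ (by exact_mod_cast hn) _ _ rfl

/-- positivity on strictly dominant weights -/
lemma S_pos (n : ℤ) (hn : 0 < n) (μ : Option I → ℤ) (hμ : D.lev μ = n) (hpos : ∀ i, 0 < μ i) :
    0 < D.S n (fp μ) := by
  unfold S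
  refine Finset.prod_pos fun α hα => ?_
  rw [mem_posF] at hα
  obtain ⟨h1, h2⟩ := hα
  obtain ⟨c, s, h⟩ := exists_rootT h1
  have hs : (0 : ℝ) < s := by exact_mod_cast h.s_pos
  have hn' : (0 : ℝ) < n := by exact_mod_cast hn
  have hc : ∀ j, 0 ≤ c j := fun j => (h.coeff_sign j).1.1 (h2 j)
  have h3 : 0 < ∑ j, c j * fp μ j := by
    have hge : ∀ j ∈ (univ : Finset I), 0 ≤ c j * fp μ j := fun j _ =>
      mul_nonneg (hc j) (hpos (some j)).le
    rcases (Finset.sum_nonneg hge).lt_or_eq with h4 | h4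
    · exact h4
    · exfalso
      have h5 := (Finset.sum_eq_zero_iff_of_nonneg hge).1 h4.symm
      apply h.ne_zero
      funext j
      have h6 := h5 j (mem_univ j)
      have h7 : fp μ j ≠ 0 := (hpos (some j)).ne'
      have h8 : c j = 0 := by
        rcases mul_eq_zero.1 h6 with h | h
        · exact h
        · exact absurd h h7
      have h9 := (h.coeff_sign j)
      rw [h8] at h9
      have h10 := h9.1.2 le_rfl
      have h11 := h9.2.2 le_rfl
      simp only [Pi.zero_apply]
      omega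
  have h4 : ∑ j, c j * fp μ j ≤ s * ∑ j, D.cθ j * fp μ j :=
    h.sum_le (fp μ) (fun j => (hpos (some j)).le)
  have h5 : ∑ j, D.cθ j * fp μ j < n := by
    rw [← hμ]
    unfold lev
    have := hpos none
    show ∑ j, D.cθ j * μ (some j) < _
    omega
  rw [h.ip_eq]
  apply Real.sin_pos_of_pos_of_lt_pi
  · have : (0 : ℝ) < ((∑ j, c j * fp μ j : ℤ) : ℝ) := by exact_mod_cast h3
    positivity
  · have h6 : ((∑ j, c j * fp μ j : ℤ) : ℝ) < s * n := by
      have h7 : (∑ j, c j * fp μ j : ℤ) < s * n := by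
        refine lt_of_le_of_lt h4 ?_
        have hs' : (0 : ℤ) < s := by exact_mod_cast h.s_pos
        exact mul_lt_mul_of_pos_left h5 hs'
      exact_mod_cast h7
    have h8 : ((∑ j, c j * fp μ j : ℤ) : ℝ) / s < n := by
      rw [div_lt_iff₀ hs]; linarith
    calc Real.pi * (((∑ j, c j * fp μ j : ℤ) : ℝ) / s) / n
        = Real.pi * ((((∑ j, c j * fp μ j : ℤ) : ℝ) / s) / n) := by ring
      _ < Real.pi * 1 := by
          apply mul_lt_mul_of_pos_left _ Real.pi_pos
          rw [div_lt_one hn']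
          exact h8
      _ = Real.pi := by ring

/-- vanishing on the wall -/
lemma S_zero (n : ℤ) (hn : 0 < n) (μ : Option I → ℤ) (hμ : D.lev μ = n) (h0 : μ none = 0) :
    D.S n (fp μ) = 0 := by
  unfold S
  have hmem : D.θ ∈ D.posF := by
    rw [mem_posF]
    exact ⟨D.root_θ, D.θ_nonneg⟩
  refine Finset.prod_eq_zero hmem ?_
  rw [ip_θ]
  have h1 : ∑ j, D.cθ j * fp μ j = n := by
    rw [← hμ]; unfold lev fp; rw [h0]; ring
  rw [h1]
  have hn' : (n : ℝ) ≠ 0 := by exact_mod_cast hn.ne'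
  rw [mul_div_assoc, div_self hn', mul_one, Real.sin_pi]

/-- absolute value is invariant under translation by a multiple of a coweight -/
lemma S_abs_translate (n : ℤ) (hn : n ≠ 0) (x y : I → ℤ)
    (hy : ∀ α, IsRoot D.A α → ∃ a : ℤ, D.ip y α = a) :
    |D.S n (x - n • y)| = |D.S n x| := by
  unfold S
  rw [Finset.abs_prod, Finset.abs_prod]
  refine Finset.prod_congr rfl fun α hα => ?_
  rw [mem_posF] at hα
  obtain ⟨a, ha⟩ := hy α hα.1
  rw [D.ip_sub_smul_left, ha]
  have hn' : (n : ℝ) ≠ 0 := by exact_mod_cast hn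
  have h1 : Real.pi * (D.ip x α - n * a) / n = Real.pi * D.ip x α / n - (a : ℝ) * Real.pi := by
    field_simp
  rw [h1, Real.sin_sub_int_mul_pi, abs_mul]
  have h2 : |((-1 : ℝ)) ^ a| = 1 := by
    rw [abs_zpow]; simp
  rw [h2, one_mul]

end SimpleData

end Pool.Agent.LS60
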